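import Pool.Agent.H12_d8337a.CombBasic

/-!
# Case I: every vertex of `A` has all its edges in one block of a fine partition
-/

namespace Pool.Agent.LP

open Finset

namespace CaseI

set_option linter.unusedSectionVars false
set_option linter.unusedVariables false

section

variable {A B : Type*} [Fintype A] [Fintype B] [DecidableEq A] [DecidableEq B]

omit [Fintype A] [Fintype B] [DecidableEq A] [DecidableEq B] in
lemma sw_mono {E' E : Finset (A × B)} (h : E' ⊆ E) : sw E' ⊆ sw E := by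
  intro f hf
  rw [mem_sw'] at hf ⊢
  exact h hf

lemma hub_mono {E' E : Finset (A × B)} (h : E' ⊆ E) (hE : Hub E) : Hub E' := by
  intro v x₀ x₁ hx h0 h1
  refine le_trans (card_le_card ?_) (hE v x₀ x₁ hx (h h0) (h h1))
  intro w hw
  simp only [mem_filter, mem_univ, true_and] at hw ⊢
  refine ⟨hw.1, h hw.2.1, h hw.2.2.1, hw.2.2.2.trans (card_le_card ?_)⟩
  intro a ha
  simp only [com, mem_filter, mem_univ, true_and] at ha ⊢
  exact ⟨h ha.1, h ha.2⟩

omit [Fintype A] [Fintype B] in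
/-- coarse blocks -/
lemma coarse_card {E : Finset (A × B)} {blk : A × B → ℕ} {q : ℕ} {x : ℝ} (hq : 0 < q)
    (h : ∀ j, ((E.filter fun f => blk f = j).card : ℝ) ≤ x) (j : ℕ) :
    ((E.filter fun f => blk f / q = j).card : ℝ) ≤ q * x := by
  have hsub : (E.filter fun f => blk f / q = j) ⊆
      (range q).biUnion fun i => E.filter fun f => blk f = q * j + i := by
    intro f hf
    simp only [mem_filter, mem_biUnion, mem_range] at hf ⊢
    refine ⟨blk f % q, Nat.mod_lt _ hq, hf.1, ?_⟩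
    rw [← hf.2, Nat.div_add_mod]
  calc ((E.filter fun f => blk f / q = j).card : ℝ)
      ≤ (((range q).biUnion fun i => E.filter fun f => blk f = q * j + i).card : ℝ) := by
        exact_mod_cast card_le_card hsub
    _ ≤ ∑ i ∈ range q, ((E.filter fun f => blk f = q * j + i).card : ℝ) := by
        exact_mod_cast card_biUnion_le
    _ ≤ ∑ i ∈ range q, x := sum_le_sum fun i _ => h _
    _ = q * x := by simp

/-- few edges are at vertices of small degree -/
lemma card_small (E : Finset (A × B)) (x : ℝ) (hx : 0 ≤ x) :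
    ((E.filter fun f => ((atA E f.1).card : ℝ) < x).card : ℝ) ≤ Fintype.card A * x := by
  classical
  have h1 : (E.filter fun f => ((atA E f.1).card : ℝ) < x).card =
      ∑ a : A, ((E.filter fun f => ((atA E f.1).card : ℝ) < x).filter fun f => f.1 = a).card :=
    card_eq_sum_card_fiberwise (fun f _ => mem_univ _)
  rw [h1]
  push_cast
  have h2 : ∀ a : A, (((E.filter fun f => ((atA E f.1).card : ℝ) < x).filter
      fun f => f.1 = a).card : ℝ) ≤ x := by
    intro a
    rcases eq_empty_or_nonempty ((E.filter fun f => ((atA E f.1).card : ℝ) < x).filter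
      fun f => f.1 = a) with h | ⟨f, hf⟩
    · rw [h]
      simpa using hx
    · simp only [mem_filter] at hf
      have hsub : ((E.filter fun f => ((atA E f.1).card : ℝ) < x).filter fun f => f.1 = a) ⊆
          atA E a := by
        intro g hg
        rw [mem_filter, mem_filter] at hg
        exact mem_filter.2 ⟨hg.1.1, hg.2⟩
      have h3 : (((E.filter fun f => ((atA E f.1).card : ℝ) < x).filter
        fun f => f.1 = a).card : ℝ) ≤ (atA E a).card := by exact_mod_cast card_le_card hsub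
      refine h3.trans ?_
      rw [← hf.2]
      exact hf.1.2.le
  calc _ ≤ ∑ a : A, x := sum_le_sum fun a _ => h2 a
    _ = _ := by simp

lemma prune (E : Finset (A × B)) (blk₁ blk₂ : A × B → ℕ) {c s η₁ η₂ : ℝ} (hs : 0 < s) (hc : 0 < c)
    (hη₁ : 0 < η₁) (hη₂ : 0 < η₂)
    (hA : (Fintype.card A : ℝ) ≤ s ^ 2) (hE : c * s ^ 3 ≤ E.card)
    (hb₁ : ∀ f ∈ E, ∀ g ∈ E, f.1 = g.1 → blk₁ f = blk₁ g)
    (hb₂ : ∀ f ∈ E, ∀ g ∈ E, f.1 = g.1 → blk₂ f = blk₂ g)
    (h₁ : ((E.filter fun f =>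
      min (c / 2) η₁ * s ≤ ((atA E f.1).filter fun g => blk₁ g = blk₁ f).card ∧
      min (c / 2) η₁ * s ≤ ((atB E f.2).filter fun g => blk₁ g = blk₁ f).card).card : ℝ) ≤
      c / 8 * s ^ 3)
    (h₂ : ((E.filter fun f =>
      min (c / 2) η₂ * s ≤ ((atA E f.1).filter fun g => blk₂ g = blk₂ f).card ∧
      min (c / 2) η₂ * s ≤ ((atB E f.2).filter fun g => blk₂ g = blk₂ f).card).card : ℝ) ≤
      c / 8 * s ^ 3) :
    ∃ E' ⊆ E, c / 4 * s ^ 3 ≤ E'.card ∧
      (∀ b j, (((atB E' b).filter fun g => blk₁ g = j).card : ℝ) < η₁ * s) ∧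
      (∀ b j, (((atB E' b).filter fun g => blk₂ g = j).card : ℝ) < η₂ * s) := by
  classical
  set E' : Finset (A × B) := E.filter fun f => (c / 2) * s ≤ ((atA E f.1).card : ℝ) ∧
    (((atB E f.2).filter fun g => blk₁ g = blk₁ f).card : ℝ) < η₁ * s ∧
    (((atB E f.2).filter fun g => blk₂ g = blk₂ f).card : ℝ) < η₂ * s with hE'
  have hsub : E' ⊆ E := filter_subset _ _
  have hatB : ∀ b, atB E' b ⊆ atB E b := by
    intro b g hg
    simp only [atB, mem_filter] at hg ⊢
    exact ⟨hsub hg.1, hg.2⟩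
  refine ⟨E', hsub, ?_, ?_, ?_⟩
  · -- counting
    set L := E.filter fun f => ((atA E f.1).card : ℝ) < (c / 2) * s with hL
    set N₁ := E.filter fun f =>
      min (c / 2) η₁ * s ≤ ((atA E f.1).filter fun g => blk₁ g = blk₁ f).card ∧
      min (c / 2) η₁ * s ≤ ((atB E f.2).filter fun g => blk₁ g = blk₁ f).card with hN₁
    set N₂ := E.filter fun f =>
      min (c / 2) η₂ * s ≤ ((atA E f.1).filter fun g => blk₂ g = blk₂ f).card ∧
      min (c / 2) η₂ * s ≤ ((atB E f.2).filter fun g => blk₂ g = blk₂ f).card with hN₂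
    have hcov : E ⊆ ((E' ∪ L) ∪ N₁) ∪ N₂ := by
      intro f hf
      by_cases hfL : ((atA E f.1).card : ℝ) < (c / 2) * s
      · have : f ∈ L := mem_filter.2 ⟨hf, hfL⟩
        simp [this]
      · push Not at hfL
        have full : ∀ blk : A × B → ℕ, (∀ f ∈ E, ∀ g ∈ E, f.1 = g.1 → blk f = blk g) →
            ((atA E f.1).filter fun g => blk g = blk f) = atA E f.1 := by
          intro blk hb
          refine filter_true_of_mem fun g hg => ?_
          simp only [atA, mem_filter] at hg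
          exact hb g hg.1 f hf hg.2
        by_cases h1 : (((atB E f.2).filter fun g => blk₁ g = blk₁ f).card : ℝ) < η₁ * s
        · by_cases h2 : (((atB E f.2).filter fun g => blk₂ g = blk₂ f).card : ℝ) < η₂ * s
          · have : f ∈ E' := mem_filter.2 ⟨hf, hfL, h1, h2⟩
            simp [this]
          · push Not at h2
            have : f ∈ N₂ := by
              refine mem_filter.2 ⟨hf, ?_, ?_⟩
              · rw [full blk₂ hb₂]
                exact (mul_le_mul_of_nonneg_right (min_le_left _ _) hs.le).trans hfL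
              · exact (mul_le_mul_of_nonneg_right (min_le_right _ _) hs.le).trans h2
            simp [this]
        · push Not at h1
          have : f ∈ N₁ := by
            refine mem_filter.2 ⟨hf, ?_, ?_⟩
            · rw [full blk₁ hb₁]
              exact (mul_le_mul_of_nonneg_right (min_le_left _ _) hs.le).trans hfL
            · exact (mul_le_mul_of_nonneg_right (min_le_right _ _) hs.le).trans h1
          simp [this]
    have hc1 : (E.card : ℝ) ≤ E'.card + L.card + N₁.card + N₂.card := by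
      have e1 := card_le_card hcov
      have e2 := card_union_le ((E' ∪ L) ∪ N₁) N₂
      have e3 := card_union_le (E' ∪ L) N₁
      have e4 := card_union_le E' L
      exact_mod_cast (by omega : E.card ≤ E'.card + L.card + N₁.card + N₂.card)
    have hLc : (L.card : ℝ) ≤ c / 2 * s ^ 3 := by
      have := card_small E ((c / 2) * s) (by positivity)
      refine this.trans ?_
      calc (Fintype.card A : ℝ) * (c / 2 * s) ≤ s ^ 2 * (c / 2 * s) :=
            mul_le_mul_of_nonneg_right hA (by positivity)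
        _ = c / 2 * s ^ 3 := by ring
    linarith
  · intro b j
    rcases eq_empty_or_nonempty ((atB E' b).filter fun g => blk₁ g = j) with h | ⟨f, hf⟩
    · rw [h]
      simpa using mul_pos hη₁ hs
    · have hf1 := (mem_filter.1 hf).1
      have hf2 := (mem_filter.1 hf).2
      simp only [atB, mem_filter] at hf1
      have hf3 := (mem_filter.1 hf1.1).2.2.1
      refine lt_of_le_of_lt ?_ hf3
      have : ((atB E' b).filter fun g => blk₁ g = j) ⊆
          ((atB E f.2).filter fun g => blk₁ g = blk₁ f) := by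
        rw [hf1.2, hf2]
        exact filter_subset_filter _ (hatB b)
      exact_mod_cast card_le_card this
  · intro b j
    rcases eq_empty_or_nonempty ((atB E' b).filter fun g => blk₂ g = j) with h | ⟨f, hf⟩
    · rw [h]
      simpa using mul_pos hη₂ hs
    · have hf1 := (mem_filter.1 hf).1
      have hf2 := (mem_filter.1 hf).2
      simp only [atB, mem_filter] at hf1
      have hf3 := (mem_filter.1 hf1.1).2.2.2
      refine lt_of_le_of_lt ?_ hf3
      have : ((atB E' b).filter fun g => blk₂ g = j) ⊆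
          ((atB E f.2).filter fun g => blk₂ g = blk₂ f) := by
        rw [hf1.2, hf2]
        exact filter_subset_filter _ (hatB b)
      exact_mod_cast card_le_card this

end

section cuts

variable {ι : Type*} [DecidableEq ι]

lemma next_cut (F : Finset ι) (w : ι → ℕ) {t : ℝ}
    (hf : ∀ j, ((F.filter fun x => w x = j).card : ℝ) < t) (j : ℕ)
    (hj : ((F.filter fun x => w x ≤ j).card : ℝ) < F.card) :
    ∃ j' > j, (∃ x ∈ F, w x = j') ∧
      ((F.filter fun x => w x ≤ j').card : ℝ) ≤ (F.filter fun x => w x ≤ j).card + t := by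
  have hne : (F.filter fun x => j < w x).Nonempty := by
    by_contra hcon
    rw [not_nonempty_iff_eq_empty, filter_eq_empty_iff] at hcon
    have : (F.filter fun x => w x ≤ j) = F := filter_true_of_mem fun x hx => not_lt.1 (hcon hx)
    rw [this] at hj
    exact lt_irrefl _ hj
  obtain ⟨x, hx, hmin⟩ := exists_min_image _ w hne
  rw [mem_filter] at hx
  refine ⟨w x, hx.2, ⟨x, hx.1, rfl⟩, ?_⟩
  have hsub : (F.filter fun y => w y ≤ w x) ⊆
      (F.filter fun x => w x ≤ j) ∪ (F.filter fun y => w y = w x) := by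
    intro y hy
    rw [mem_filter] at hy
    rw [mem_union, mem_filter, mem_filter]
    by_cases h : w y ≤ j
    · exact Or.inl ⟨hy.1, h⟩
    · exact Or.inr ⟨hy.1, le_antisymm hy.2 (hmin y (mem_filter.2 ⟨hy.1, not_le.1 h⟩))⟩
  have h1 : (F.filter fun y => w y ≤ w x).card ≤
      (F.filter fun x => w x ≤ j).card + (F.filter fun y => w y = w x).card :=
    (card_le_card hsub).trans (card_union_le _ _)
  have h2 : ((F.filter fun y => w y ≤ w x).card : ℝ) ≤
      (F.filter fun x => w x ≤ j).card + (F.filter fun y => w y = w x).card := by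
    exact_mod_cast h1
  linarith [hf (w x)]

lemma cuts (F : Finset ι) (w : ι → ℕ) (M : ℕ) (hM : ∀ x ∈ F, w x < M) {T : ℝ} (hT : 0 < T)
    (hF : T ≤ F.card) (hf : ∀ j, ((F.filter fun x => w x = j).card : ℝ) < T / 8) :
    ∃ j₀ j₁ j₂ : ℕ, j₀ < j₁ ∧ j₁ < j₂ ∧ j₂ < M ∧
      T / 4 ≤ ((F.filter fun x => w x ≤ j₀).card : ℝ) ∧
      (∃ x ∈ F, w x = j₁) ∧ (∃ x ∈ F, w x = j₂) ∧
      T / 4 ≤ ((F.filter fun x => j₂ < w x).card : ℝ) := by
  classical
  have hex : ∃ j, T / 4 ≤ ((F.filter fun x => w x ≤ j).card : ℝ) := by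
    refine ⟨M, ?_⟩
    rw [filter_true_of_mem fun x hx => (hM x hx).le]
    linarith
  obtain ⟨j₀, h0, hmin⟩ : ∃ j₀, T / 4 ≤ ((F.filter fun x => w x ≤ j₀).card : ℝ) ∧
      ∀ j < j₀, ((F.filter fun x => w x ≤ j).card : ℝ) < T / 4 :=
    ⟨Nat.find hex, Nat.find_spec hex, fun j hj => not_le.1 (Nat.find_min hex hj)⟩
  have h0' : ((F.filter fun x => w x ≤ j₀).card : ℝ) ≤ 3 * T / 8 := by
    rcases j₀ with _ | j
    · have : (F.filter fun x => w x ≤ 0) = F.filter fun x => w x = 0 :=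
        filter_congr fun x _ => by simp
      rw [this]
      linarith [hf 0]
    · have hsub : (F.filter fun x => w x ≤ j + 1) ⊆
          (F.filter fun x => w x ≤ j) ∪ (F.filter fun x => w x = j + 1) := by
        intro y hy
        rw [mem_filter] at hy
        rw [mem_union, mem_filter, mem_filter]
        by_cases h : w y ≤ j
        · exact Or.inl ⟨hy.1, h⟩
        · exact Or.inr ⟨hy.1, by omega⟩
      have h1 : (F.filter fun x => w x ≤ j + 1).card ≤
          (F.filter fun x => w x ≤ j).card + (F.filter fun x => w x = j + 1).card :=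
        (card_le_card hsub).trans (card_union_le _ _)
      have h2 : ((F.filter fun x => w x ≤ j + 1).card : ℝ) ≤
          (F.filter fun x => w x ≤ j).card + (F.filter fun x => w x = j + 1).card := by
        exact_mod_cast h1
      linarith [hf (j + 1), hmin j (Nat.lt_succ_self j)]
  obtain ⟨j₁, hj₁, hx₁, hc₁⟩ := next_cut F w hf j₀ (by linarith)
  obtain ⟨j₂, hj₂, hx₂, hc₂⟩ := next_cut F w hf j₁ (by linarith)
  refine ⟨j₀, j₁, j₂, hj₁, hj₂, ?_, h0, hx₁, hx₂, ?_⟩
  · obtain ⟨x, hx, rfl⟩ := hx₂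
    exact hM x hx
  · have h1 := card_filter_add_card_filter_not (s := F) (fun x => w x ≤ j₂)
    have h2 : (F.filter fun x => ¬ w x ≤ j₂) = F.filter fun x => j₂ < w x :=
      filter_congr fun x _ => by simp
    rw [h2] at h1
    have h3 : ((F.filter fun x => w x ≤ j₂).card : ℝ) + (F.filter fun x => j₂ < w x).card =
        F.card := by exact_mod_cast h1
    linarith

end cuts

section classes

variable {A B : Type*} [Fintype A] [Fintype B] [DecidableEq A] [DecidableEq B]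

omit [Fintype A] in
lemma sum_atB (E : Finset (A × B)) : ∑ b, (atB E b).card = E.card := by
  classical
  exact (card_eq_sum_card_fiberwise (f := Prod.snd) (s := E) (t := univ)
    (fun f _ => mem_univ _)).symm

omit [Fintype A] in
/-- many vertices have degree at least `T` -/
lemma card_large (E : Finset (A × B)) {T D : ℝ} (hT : 0 ≤ T)
    (hD : ∀ b, ((atB E b).card : ℝ) ≤ D) :
    (E.card : ℝ) ≤ ((univ.filter fun b => T ≤ ((atB E b).card : ℝ)).card : ℝ) * D +
      Fintype.card B * T := by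
  classical
  rw [← sum_atB E]
  push_cast
  rw [← sum_filter_add_sum_filter_not univ fun b => T ≤ ((atB E b).card : ℝ)]
  refine add_le_add ?_ ?_
  · calc ∑ b ∈ univ.filter (fun b => T ≤ ((atB E b).card : ℝ)), ((atB E b).card : ℝ)
        ≤ ∑ b ∈ univ.filter (fun b => T ≤ ((atB E b).card : ℝ)), D := sum_le_sum fun b _ => hD b
      _ = _ := by simp
  · calc ∑ b ∈ univ.filter (fun b => ¬ T ≤ ((atB E b).card : ℝ)), ((atB E b).card : ℝ)
        ≤ ∑ b ∈ univ.filter (fun b => ¬ T ≤ ((atB E b).card : ℝ)), T :=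
          sum_le_sum fun b hb => (not_le.1 (mem_filter.1 hb).2).le
      _ = ((univ.filter fun b => ¬ T ≤ ((atB E b).card : ℝ)).card : ℝ) * T := by simp
      _ ≤ Fintype.card B * T := by
          refine mul_le_mul_of_nonneg_right ?_ hT
          exact_mod_cast card_le_univ _

omit [Fintype A] in
lemma exists_class (E : Finset (A × B)) (w : A × B → ℕ) {M : ℕ} (hMpos : 0 < M) (hM : ∀ f ∈ E, w f < M)
    {T N : ℝ} (hT : 0 < T) (hN : 0 < N)
    (hf : ∀ b j, (((atB E b).filter fun g => w g = j).card : ℝ) < T / 8)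
    (hB : N * (M : ℝ) ^ 3 ≤ ((univ.filter fun b => T ≤ ((atB E b).card : ℝ)).card : ℝ)) :
    ∃ (S : Finset B) (j₀ j₁ j₂ : ℕ), N ≤ S.card ∧ j₀ < j₁ ∧ j₁ < j₂ ∧ ∀ b ∈ S,
      T / 4 ≤ (((atB E b).filter fun f => w f ≤ j₀).card : ℝ) ∧
      (∃ f ∈ atB E b, w f = j₁) ∧ (∃ f ∈ atB E b, w f = j₂) ∧
      T / 4 ≤ (((atB E b).filter fun f => j₂ < w f).card : ℝ) := by
  classical
  have hex : ∀ b : B, ∃ j : ℕ × ℕ × ℕ, T ≤ ((atB E b).card : ℝ) →
      j.1 < j.2.1 ∧ j.2.1 < j.2.2 ∧ j.2.2 < M ∧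
      T / 4 ≤ (((atB E b).filter fun f => w f ≤ j.1).card : ℝ) ∧
      (∃ f ∈ atB E b, w f = j.2.1) ∧ (∃ f ∈ atB E b, w f = j.2.2) ∧
      T / 4 ≤ (((atB E b).filter fun f => j.2.2 < w f).card : ℝ) := by
    intro b
    by_cases h : T ≤ ((atB E b).card : ℝ)
    · obtain ⟨j₀, j₁, j₂, hh⟩ := cuts (atB E b) w M
        (fun x hx => hM x (mem_filter.1 hx).1) hT h (hf b)
      exact ⟨(j₀, j₁, j₂), fun _ => hh⟩
    · exact ⟨(0, 0, 0), fun h' => absurd h' h⟩
  choose j hj using hex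
  have hmaps : ∀ b ∈ (univ.filter fun b => T ≤ ((atB E b).card : ℝ)),
      j b ∈ range M ×ˢ range M ×ˢ range M := by
    intro b hb
    obtain ⟨h1, h2, h3, -⟩ := hj b (mem_filter.1 hb).2
    simp only [mem_product, mem_range]
    exact ⟨by omega, by omega, h3⟩
  obtain ⟨⟨j₀, j₁, j₂⟩, -, hcard⟩ := exists_le_card_fiber_of_nsmul_le_card_of_maps_to
    (b := N) hmaps ⟨(0, 0, 0), by simp [hMpos]⟩ (by
      rw [nsmul_eq_mul]
      refine le_trans (le_of_eq ?_) hB
      simp only [card_product, card_range]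
      push_cast
      ring)
  refine ⟨_, j₀, j₁, j₂, hcard, ?_⟩
  have hmem : ∀ b ∈ ((univ.filter fun b => T ≤ ((atB E b).card : ℝ)).filter
      fun b => j b = (j₀, j₁, j₂)), j₀ < j₁ ∧ j₁ < j₂ ∧
      T / 4 ≤ (((atB E b).filter fun f => w f ≤ j₀).card : ℝ) ∧
      (∃ f ∈ atB E b, w f = j₁) ∧ (∃ f ∈ atB E b, w f = j₂) ∧
      T / 4 ≤ (((atB E b).filter fun f => j₂ < w f).card : ℝ) := by
    intro b hb
    rw [mem_filter, mem_filter] at hb
    have := hj b hb.1.2
    rw [hb.2] at this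
    exact ⟨this.1, this.2.1, this.2.2.2⟩
  have hne : ((univ.filter fun b => T ≤ ((atB E b).card : ℝ)).filter
      fun b => j b = (j₀, j₁, j₂)).Nonempty := by
    rw [← card_pos]
    exact_mod_cast hN.trans_le hcard
  obtain ⟨b₀, hb₀⟩ := hne
  exact ⟨(hmem b₀ hb₀).1, (hmem b₀ hb₀).2.1, fun b hb => (hmem b hb).2.2⟩

omit [Fintype A] [DecidableEq A] in
/-- from many pairs to a vertex with many partners -/
lemma exists_Z {P : Finset (B × B)} {Z : B → Finset B} {ρ s : ℝ} (hρ : 0 < ρ) (hs : 0 < s)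
    (hB : (Fintype.card B : ℝ) ≤ s ^ 2) (hP : ρ * s ^ 4 ≤ P.card)
    (h : ∀ p ∈ P, p.2 ∈ Z p.1 ∨ p.1 ∈ Z p.2) : ∃ b, ρ / 4 * s ^ 2 ≤ (Z b).card := by
  classical
  by_contra hcon
  push Not at hcon
  set R : Finset (B × B) := univ.filter fun p => p.2 ∈ Z p.1 with hR
  have hRc : R.card = ∑ b, (Z b).card := by
    rw [card_eq_sum_card_fiberwise (f := Prod.fst) (t := univ) (fun f _ => mem_univ _)]
    refine sum_congr rfl fun b _ => ?_
    refine card_bij' (fun p _ => p.2) (fun b' _ => (b, b')) ?_ ?_ ?_ ?_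
    · intro p hp
      rw [mem_filter, hR, mem_filter] at hp
      rw [← hp.2]
      exact hp.1.2
    · intro b' hb'
      rw [mem_filter, hR, mem_filter]
      exact ⟨⟨mem_univ _, hb'⟩, rfl⟩
    · intro p hp
      rw [mem_filter] at hp
      exact Prod.ext hp.2.symm rfl
    · intro b' _
      rfl
  have hsub : P ⊆ R ∪ R.image Prod.swap := by
    intro p hp
    rw [mem_union, mem_image]
    rcases h p hp with h' | h'
    · exact Or.inl (mem_filter.2 ⟨mem_univ _, h'⟩)
    · exact Or.inr ⟨p.swap, mem_filter.2 ⟨mem_univ _, h'⟩, by simp⟩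
  have h1 : P.card ≤ R.card + R.card :=
    (card_le_card hsub).trans ((card_union_le _ _).trans (Nat.add_le_add_left card_image_le _))
  have h2 : (R.card : ℝ) ≤ Fintype.card B * (ρ / 4 * s ^ 2) := by
    rw [hRc]
    push_cast
    calc ∑ b, ((Z b).card : ℝ) ≤ ∑ _b : B, ρ / 4 * s ^ 2 := sum_le_sum fun b _ => (hcon b).le
      _ = _ := by simp
  have h3 : (Fintype.card B : ℝ) * (ρ / 4 * s ^ 2) ≤ s ^ 2 * (ρ / 4 * s ^ 2) :=
    mul_le_mul_of_nonneg_right hB (by positivity)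
  have h4 : (P.card : ℝ) ≤ R.card + R.card := by exact_mod_cast h1
  have h5 : 0 < ρ * s ^ 4 := by positivity
  have h6 : s ^ 2 * (ρ / 4 * s ^ 2) = ρ * s ^ 4 / 4 := by ring
  linarith

lemma key {E : Finset (A × B)} {pos : A × B → ℝ} {blk : A × B → ℕ} {q : ℕ} (hT : AxT E pos)
    (hinj : PosInj E pos) (hmono : ∀ f ∈ E, ∀ g ∈ E, pos f < pos g → blk f ≤ blk g)
    {j₀ j₁ j₂ : ℕ} (h01 : j₀ < j₁) (h12 : j₁ < j₂) {b₁ b b' : B} (hb : b ≠ b₁) (hb' : b' ≠ b₁)
    (hbb : b ≠ b') {a a' a'' ax ay : A} (e1 : (a, b₁) ∈ E) (e2 : (a, b) ∈ E) (e3 : (a', b₁) ∈ E)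
    (e4 : (a', b') ∈ E) (e5 : (a'', b) ∈ E) (e6 : (a'', b') ∈ E) (e7 : (ax, b₁) ∈ E)
    (e8 : (ay, b) ∈ E) (hio : pos (a, b) < pos (a, b₁)) (hm : blk (a, b₁) < blk (a', b'))
    (w1 : blk (a, b) / q ≤ j₀) (w2 : blk (a, b₁) / q ≤ j₀) (w3 : blk (a', b') / q ≤ j₀)
    (w4 : blk (ax, b₁) / q = j₁) (w5 : blk (ay, b) / q = j₂) (w6 : j₂ < blk (a'', b') / q) :
    False := by
  have lt : ∀ f ∈ E, ∀ g ∈ E, blk f < blk g → pos f < pos g := by
    intro f hf g hg h
    rcases lt_trichotomy (pos f) (pos g) with h' | h' | h'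
    · exact h'
    · rw [hinj f hf g hg h'] at h
      exact absurd h (lt_irrefl _)
    · exact absurd (hmono g hg f hf h') (not_le.2 h)
  have lt' : ∀ f ∈ E, ∀ g ∈ E, blk f / q < blk g / q → pos f < pos g := by
    intro f hf g hg h
    refine lt f hf g hg ?_
    by_contra hcon
    exact absurd (Nat.div_le_div_right (c := q) (not_lt.1 hcon)) (not_le.2 h)
  have o1 : pos (a, b₁) < pos (ax, b₁) := lt' _ e1 _ e7 (by omega)
  have o2 : pos (a, b) < pos (ax, b₁) := lt' _ e2 _ e7 (by omega)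
  have o3 : pos (a, b₁) < pos (a', b') := lt _ e1 _ e4 hm
  have o4 : pos (a', b') < pos (ax, b₁) := lt' _ e4 _ e7 (by omega)
  have o5 : pos (ax, b₁) < pos (ay, b) := lt' _ e7 _ e8 (by omega)
  have o6 : pos (ay, b) < pos (a'', b') := lt' _ e8 _ e6 (by omega)
  refine hT b₁ b b' a a' a'' ax ay hb.symm hb'.symm hbb e1 e2 e3 e4 e5 e6 e7 e8 ?_ ?_ ?_ ?_ o6
  · rw [min_eq_left o1.le]; exact hio
  · rw [min_eq_left o1.le]; exact o3
  · rw [max_eq_right o1.le]; exact o4
  · rw [max_eq_right o1.le]; exact o5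

/-- the last inequality -/
lemma final_ineq {z α s d γ κ : ℝ} (hz : 0 ≤ z) (hα : 0 ≤ α) (hs : 0 < s) (hd : 0 < d)
    (hγ : 0 < γ) (hγ1 : γ ≤ 1) (hκ : κ = γ ^ 2 * d ^ 2 / 640) (hzs : z ≤ κ * s ^ 2)
    (h : ((d / 4) * s * z) ^ 2 ≤ 10 * α * z * max α z) : z ≤ γ / 2 * α := by
  rcases hz.eq_or_lt with h0 | hz'
  · rw [← h0]
    positivity
  have hκpos : 0 < κ := by rw [hκ]; positivity
  have h1 : d ^ 2 * (s ^ 2 * z) ≤ 160 * (α * max α z) := by
    have : d ^ 2 * (s ^ 2 * z) * z ≤ 160 * (α * max α z) * z := by nlinarith [h]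
    exact le_of_mul_le_mul_right this hz'
  have h2 : 640 * z ≤ γ ^ 2 * d ^ 2 * s ^ 2 := by
    rw [hκ] at hzs
    linarith
  have h3 : 4 * z ^ 2 ≤ γ ^ 2 * (α * max α z) := by
    have e1 : 640 * z * z ≤ γ ^ 2 * d ^ 2 * s ^ 2 * z := mul_le_mul_of_nonneg_right h2 hz
    have e2 : γ ^ 2 * (d ^ 2 * (s ^ 2 * z)) ≤ γ ^ 2 * (160 * (α * max α z)) :=
      mul_le_mul_of_nonneg_left h1 (by positivity)
    nlinarith
  rcases le_total z α with h4 | h4
  · rw [max_eq_left h4] at h3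
    have : (2 * z) ^ 2 ≤ (γ * α) ^ 2 := by nlinarith
    have := abs_le_of_sq_le_sq' this (by positivity)
    linarith [this.2]
  · rw [max_eq_right h4] at h3
    have h5 : 4 * z ≤ γ ^ 2 * α := by
      have : 4 * z * z ≤ γ ^ 2 * α * z := by nlinarith
      exact le_of_mul_le_mul_right this hz'
    have h6 : γ ^ 2 * α ≤ γ * α := by
      refine mul_le_mul_of_nonneg_right ?_ hα
      nlinarith
    nlinarith [mul_nonneg hγ.le hα]

lemma card_sub_ge (E : Finset (A × B)) (S : Finset B) (Q : A × B → Prop) [DecidablePred Q] {x : ℝ}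
    (h : ∀ b ∈ S, x ≤ (((atB E b).filter Q).card : ℝ)) :
    S.card * x ≤ ((E.filter fun f => f.2 ∈ S ∧ Q f).card : ℝ) := by
  classical
  have h1 : (E.filter fun f => f.2 ∈ S ∧ Q f).card = ∑ b ∈ S, ((atB E b).filter Q).card := by
    rw [card_eq_sum_card_fiberwise (f := Prod.snd) (t := S)
      (fun f hf => (mem_filter.1 hf).2.1)]
    refine sum_congr rfl fun b hb => ?_
    congr 1
    ext f
    simp only [mem_filter, atB]
    constructor
    · rintro ⟨⟨h1, h2, h3⟩, h4⟩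
      exact ⟨⟨h1, h4⟩, h3⟩
    · rintro ⟨⟨h1, h4⟩, h3⟩
      exact ⟨⟨h1, by rw [h4]; exact hb, h3⟩, h4⟩
  rw [h1]
  push_cast
  calc (S.card : ℝ) * x = ∑ b ∈ S, x := by simp
    _ ≤ _ := sum_le_sum h

end classes

end CaseI

open CaseI in
theorem caseI (c K C : ℝ) (hc : 0 < c) (hK : 0 < K) (hC : 0 < C) : ∃ M : ℕ, 0 < M ∧ ∃ s₀ : ℝ,
    ∀ s ≥ s₀, ∀ (A B : Type) [Fintype A] [Fintype B] [DecidableEq A] [DecidableEq B]
    (E : Finset (A × B)) (pos : A × B → ℝ) (blk : A × B → ℕ),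
    (Fintype.card A : ℝ) ≤ s ^ 2 → (Fintype.card B : ℝ) ≤ s ^ 2 →
    Hub E → Hub (sw E) → PosInj E pos → AxT E pos →
    (∀ a, ((atA E a).card : ℝ) ≤ K * s) → (∀ b, ((atB E b).card : ℝ) ≤ K * s) →
    c * s ^ 3 ≤ E.card →
    (∀ f ∈ E, ∀ g ∈ E, pos f < pos g → blk f ≤ blk g) → (∀ f ∈ E, blk f < M) →
    (∀ j, ((E.filter fun f => blk f = j).card : ℝ) ≤ C * s ^ 3 / M) →
    (∀ f ∈ E, ∀ g ∈ E, f.1 = g.1 → blk f = blk g) → False := by
  classical
  -- constants
  obtain ⟨M₀, hM₀⟩ := exists_nc (min (c / 2) (c / 64)) (c / 8) C (by positivity) (by positivity) hC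
  obtain ⟨Mc, hMcpos, hMcM⟩ : ∃ Mc : ℕ, 0 < Mc ∧ M₀ ≤ Mc :=
    ⟨max M₀ 1, by simp, le_max_left _ _⟩
  have hMcR : (0 : ℝ) < Mc := by exact_mod_cast hMcpos
  obtain ⟨β, hβ⟩ : ∃ β : ℝ, β = c / (8 * K * (Mc : ℝ) ^ 3) := ⟨_, rfl⟩
  have hβpos : 0 < β := by rw [hβ]; positivity
  obtain ⟨ρ, hρ, s₀, hs₀⟩ := exists_many_pairs ((c / 8) / 4 * β) K (by positivity) hK
  obtain ⟨γ, hγ⟩ : ∃ γ : ℝ, γ = min 1 (ρ / 4) := ⟨_, rfl⟩
  have hγpos : 0 < γ := by rw [hγ]; positivity
  have hγ1 : γ ≤ 1 := by rw [hγ]; exact min_le_left _ _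
  have hγρ : γ ≤ ρ / 4 := by rw [hγ]; exact min_le_right _ _
  obtain ⟨κ, hκ⟩ : ∃ κ : ℝ, κ = γ ^ 2 * (c / 8) ^ 2 / 640 := ⟨_, rfl⟩
  have hκpos : 0 < κ := by rw [hκ]; positivity
  obtain ⟨ηb, hηb⟩ : ∃ ηb : ℝ, ηb = κ / K := ⟨_, rfl⟩
  have hηbpos : 0 < ηb := by rw [hηb]; positivity
  obtain ⟨M₁, hM₁⟩ := exists_nc (min (c / 2) ηb) (c / 8) C (by positivity) (by positivity) hC
  obtain ⟨q, hq, hqM⟩ : ∃ q : ℕ, 0 < q ∧ M₁ ≤ q := ⟨max M₁ 1, by simp, le_max_left _ _⟩
  refine ⟨Mc * q, Nat.mul_pos hMcpos hq, max s₀ 1, ?_⟩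
  intro s hs A B _ _ _ _ E pos blk hA hB hub hub' hinj hT hdA hdB hE hmono hblk hfib hcase
  have hs1 : 1 ≤ s := (le_max_right _ _).trans hs
  have hs0 : s₀ ≤ s := (le_max_left _ _).trans hs
  have hspos : 0 < s := by linarith
  have hqR : (0 : ℝ) < q := by exact_mod_cast hq
  -- the two applications of NC
  have nc1 := hM₀ Mc hMcM s hspos A B E (fun f => blk f / q) hub hub'
    (fun f hf => Nat.div_lt_of_lt_mul (by rw [mul_comm]; exact hblk f hf))
    (fun j => (coarse_card hq hfib j).trans (le_of_eq (by push_cast; field_simp)))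
  have nc2 := hM₁ (Mc * q) (hqM.trans (Nat.le_mul_of_pos_left q hMcpos)) s hspos A B E blk hub hub'
    hblk hfib
  obtain ⟨E', hE'E, hE'c, hf1, hf2⟩ := prune E (fun f => blk f / q) blk hspos hc
    (η₁ := c / 64) (η₂ := ηb) (by positivity) hηbpos hA hE
    (fun f hf g hg h => by simp only [hcase f hf g hg h]) hcase nc1 nc2
  have hatB : ∀ b, atB E' b ⊆ atB E b := by
    intro b g hg
    simp only [atB, mem_filter] at hg ⊢
    exact ⟨hE'E hg.1, hg.2⟩
  have hdB' : ∀ b, ((atB E' b).card : ℝ) ≤ K * s := fun b =>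
    le_trans (by exact_mod_cast card_le_card (hatB b)) (hdB b)
  -- the class `S`
  obtain ⟨T, hTdef⟩ : ∃ T : ℝ, T = c / 8 * s := ⟨_, rfl⟩
  have hTpos : 0 < T := by rw [hTdef]; positivity
  have hlarge := card_large E' (T := T) hTpos.le hdB'
  have hN : β * s ^ 2 * (Mc : ℝ) ^ 3 ≤
      ((univ.filter fun b => T ≤ ((atB E' b).card : ℝ)).card : ℝ) := by
    have h1 : (Fintype.card B : ℝ) * T ≤ s ^ 2 * T := mul_le_mul_of_nonneg_right hB hTpos.le
    have h2 : c / 8 * s ^ 3 ≤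
        ((univ.filter fun b => T ≤ ((atB E' b).card : ℝ)).card : ℝ) * (K * s) := by
      rw [hTdef] at h1 hlarge ⊢
      nlinarith
    have h3 : β * s ^ 2 * (Mc : ℝ) ^ 3 = c / 8 * s ^ 3 / (K * s) := by
      rw [hβ]
      field_simp
    rw [h3, div_le_iff₀ (by positivity)]
    exact h2
  obtain ⟨S, j₀, j₁, j₂, hSc, h01, h12, hS⟩ := exists_class E' (fun f => blk f / q) hMcpos
    (fun f hf => Nat.div_lt_of_lt_mul (by rw [mul_comm]; exact hblk f (hE'E hf))) hTpos
    (N := β * s ^ 2) (by positivity)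
    (fun b j => by
      have := hf1 b j
      rw [hTdef]
      linarith) hN
  -- the edges `E₀`
  set E₀ : Finset (A × B) := E'.filter fun f => f.2 ∈ S ∧ blk f / q ≤ j₀ with hE₀
  have hE₀E' : E₀ ⊆ E' := filter_subset _ _
  have hE₀c : (c / 8) / 4 * β * s ^ 3 ≤ E₀.card := by
    have h1 := card_sub_ge E' S (fun f => blk f / q ≤ j₀) (fun b hb => (hS b hb).1)
    refine le_trans ?_ h1
    calc (c / 8) / 4 * β * s ^ 3 = (β * s ^ 2) * (T / 4) := by rw [hTdef]; ring
      _ ≤ S.card * (T / 4) := mul_le_mul_of_nonneg_right hSc (by positivity)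
  obtain ⟨P, hP, hPc⟩ : ∃ P : Finset (B × B), (∀ p ∈ P, p.1 ≠ p.2 ∧
      ∃ a, (a, p.1) ∈ E₀ ∧ (a, p.2) ∈ E₀) ∧ ρ * s ^ 4 ≤ P.card :=
    ⟨_, fun p hp => (mem_filter.1 hp).2, hs₀ s hs0 A B E₀ (hub_mono (hE₀E'.trans hE'E) hub) hA hB
      (fun b => le_trans (by
        have : atB E₀ b ⊆ atB E' b := by
          intro g hg
          simp only [atB, mem_filter] at hg ⊢
          exact ⟨hE₀E' hg.1, hg.2⟩
        exact_mod_cast card_le_card this) (hdB' b)) hE₀c⟩
  -- the vertex `b₁` and its partners `Z`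
  obtain ⟨b₁, hZc⟩ := exists_Z (Z := fun b₁ => univ.filter fun b => b ≠ b₁ ∧
      ∃ a, (a, b₁) ∈ E₀ ∧ (a, b) ∈ E₀ ∧ pos (a, b) < pos (a, b₁)) hρ hspos hB hPc (by
    intro p hp
    obtain ⟨hne, a, h1, h2⟩ := hP p hp
    rcases lt_trichotomy (pos (a, p.2)) (pos (a, p.1)) with h | h | h
    · exact Or.inl (mem_filter.2 ⟨mem_univ _, hne.symm, a, h1, h2, h⟩)
    · have := hinj _ (hE'E (hE₀E' h2)) _ (hE'E (hE₀E' h1)) h
      exact absurd (congrArg Prod.snd this).symm hne
    · exact Or.inr (mem_filter.2 ⟨mem_univ _, hne, a, h2, h1, h⟩))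
  set Z : Finset B := univ.filter fun b => b ≠ b₁ ∧
      ∃ a, (a, b₁) ∈ E₀ ∧ (a, b) ∈ E₀ ∧ pos (a, b) < pos (a, b₁) with hZ
  have hZex : ∀ b : B, ∃ a : A, b ∈ Z → b ≠ b₁ ∧ (a, b₁) ∈ E₀ ∧ (a, b) ∈ E₀ ∧
      pos (a, b) < pos (a, b₁) := by
    intro b
    by_cases hb : b ∈ Z
    · obtain ⟨-, h1, a, ha⟩ := mem_filter.1 hb
      exact ⟨a, fun _ => ⟨h1, ha⟩⟩
    · have hne : Nonempty A := by
        by_contra hcon
        rw [not_nonempty_iff] at hcon
        have : E.card = 0 := by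
          rw [card_eq_zero, eq_empty_iff_forall_notMem]
          exact fun f => hcon.elim f.1
        rw [this] at hE
        have : 0 < c * s ^ 3 := by positivity
        simp only [Nat.cast_zero] at hE
        linarith
      exact ⟨hne.some, fun h => absurd h hb⟩
  choose α hα using hZex
  have hZpos : 0 < Z.card := by
    have : 0 < ρ / 4 * s ^ 2 := by positivity
    exact_mod_cast this.trans_le hZc
  -- membership facts
  have inE : ∀ {f}, f ∈ E₀ → f ∈ E := fun h => hE'E (hE₀E' h)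
  have inS : ∀ {f : A × B}, f ∈ E₀ → f.2 ∈ S := fun h => (mem_filter.1 h).2.1
  have inw : ∀ {f : A × B}, f ∈ E₀ → blk f / q ≤ j₀ := fun h => (mem_filter.1 h).2.2
  have hb₁S : b₁ ∈ S := by
    obtain ⟨b, hb⟩ := card_pos.1 hZpos
    exact inS (hα b hb).2.1
  have hZS : ∀ b ∈ Z, b ∈ S := fun b hb => inS (hα b hb).2.2.1
  -- KEY
  have hkey : ∀ b ∈ Z, ∀ b' ∈ Z, ∀ x, (x, b) ∈ E' → (x, b') ∈ E' → j₂ < blk (x, b) / q →
      j₂ < blk (x, b') / q → ¬ blk (α b, b) < blk (α b', b') := by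
    intro b hb b' hb' x hxb hxb' w1 w2 hlt
    have hbb : b ≠ b' := by
      rintro rfl
      exact lt_irrefl _ hlt
    obtain ⟨f, hf, hfj⟩ := (hS b₁ hb₁S).2.1
    obtain ⟨g, hg, hgj⟩ := (hS b (hZS b hb)).2.2.1
    simp only [atB, mem_filter] at hf hg
    obtain ⟨n1, a1, a2, a3⟩ := hα b hb
    obtain ⟨n2, a4, a5, a6⟩ := hα b' hb'
    have hf' : (f.1, b₁) ∈ E := by rw [← hf.2]; exact hE'E hf.1
    have hg' : (g.1, b) ∈ E := by rw [← hg.2]; exact hE'E hg.1
    refine key hT hinj hmono h01 h12 n1 n2 hbb (inE a1) (inE a2) (inE a4) (inE a5)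
      (hE'E hxb) (hE'E hxb') hf' hg' a3 ?_ (inw a2) (inw a1) (inw a5) ?_ ?_ w2
    · rwa [← hcase _ (inE a2) _ (inE a1) rfl]
    · rw [← hfj, ← hf.2]
    · rw [← hgj, ← hg.2]
  -- classes of `Z`
  obtain ⟨Zm, hZm⟩ : ∃ Zm : ℕ → Finset B, ∀ m b, b ∈ Zm m ↔ b ∈ Z ∧ blk (α b, b) = m :=
    ⟨fun m => Z.filter fun b => blk (α b, b) = m, fun m b => mem_filter⟩
  obtain ⟨Am, hAm⟩ : ∃ Am : ℕ → Finset A, ∀ m x, x ∈ Am m ↔ ∃ b ∈ Zm m, (x, b) ∈ E' ∧
      j₂ < blk (x, b) / q :=
    ⟨fun m => univ.filter fun x => ∃ b ∈ Zm m, (x, b) ∈ E' ∧ j₂ < blk (x, b) / q,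
      fun m x => by simp⟩
  have hdisj : ∀ m m', m ≠ m' → Disjoint (Am m) (Am m') := by
    intro m m' hmm
    rw [disjoint_left]
    intro x hx hx'
    obtain ⟨b, hb, e1, w1⟩ := (hAm m x).1 hx
    obtain ⟨b', hb', e2, w2⟩ := (hAm m' x).1 hx'
    obtain ⟨z1, z2⟩ := (hZm m b).1 hb
    obtain ⟨z3, z4⟩ := (hZm m' b').1 hb'
    have n1 := hkey b z1 b' z3 x e1 e2 w1 w2
    have n2 := hkey b' z3 b z1 x e2 e1 w2 w1
    rw [z2, z4] at n1 n2
    omega
  have hsumA : ∑ m ∈ range (Mc * q), ((Am m).card : ℝ) ≤ Fintype.card A := by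
    have h1 : ∑ m ∈ range (Mc * q), (Am m).card = ((range (Mc * q)).biUnion Am).card :=
      (card_biUnion fun m _ m' _ h => hdisj m m' h).symm
    have h2 : ∑ m ∈ range (Mc * q), (Am m).card ≤ Fintype.card A := by
      rw [h1]
      exact card_le_univ _
    exact_mod_cast h2
  have hsumZ : (Z.card : ℝ) = ∑ m ∈ range (Mc * q), ((Zm m).card : ℝ) := by
    have h1 : Z.card = ∑ m ∈ range (Mc * q), (Zm m).card := by
      rw [card_eq_sum_card_fiberwise (f := fun b => blk (α b, b)) (t := range (Mc * q))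
        (fun b hb => by
          simp only [coe_range, Set.mem_Iio]
          exact hblk _ (inE (hα b hb).2.2.1))]
      refine sum_congr rfl fun m _ => ?_
      congr 1
      ext b
      rw [mem_filter, hZm]
    rw [h1]
    push_cast
    rfl
  have hmain : ∀ m, ((Zm m).card : ℝ) ≤ γ / 2 * (Am m).card := by
    intro m
    refine final_ineq (s := s) (d := c / 8) (κ := κ) (by positivity) (by positivity) hspos
      (by positivity) hγpos hγ1 hκ ?_ ?_
    · -- step (6)
      have hsub : Zm m ⊆ (((atB E' b₁).filter fun g => blk g = m).image Prod.fst).biUnion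
          fun x => (atA E x).image Prod.snd := by
        intro b hb
        obtain ⟨z1, z2⟩ := (hZm m b).1 hb
        obtain ⟨n1, a1, a2, a3⟩ := hα b z1
        rw [mem_biUnion]
        refine ⟨α b, mem_image.2 ⟨(α b, b₁), ?_, rfl⟩, mem_image.2 ⟨(α b, b), ?_, rfl⟩⟩
        · simp only [atB, mem_filter]
          exact ⟨⟨hE₀E' a1, trivial⟩, by rw [← z2]; exact hcase _ (inE a1) _ (inE a2) rfl⟩
        · simp only [atA, mem_filter]
          exact ⟨inE a2, trivial⟩
      have h1 : ((Zm m).card : ℝ) ≤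
          ∑ x ∈ ((atB E' b₁).filter fun g => blk g = m).image Prod.fst, (K * s) := by
        have e1 := (card_le_card hsub).trans card_biUnion_le
        have e2 : ((Zm m).card : ℝ) ≤ ∑ x ∈ ((atB E' b₁).filter fun g => blk g = m).image Prod.fst,
            (((atA E x).image Prod.snd).card : ℝ) := by exact_mod_cast e1
        refine e2.trans (sum_le_sum fun x _ => le_trans ?_ (hdA x))
        exact_mod_cast card_image_le
      rw [sum_const, nsmul_eq_mul] at h1
      have h2 : ((((atB E' b₁).filter fun g => blk g = m).image Prod.fst).card : ℝ) ≤ ηb * s :=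
        le_trans (by exact_mod_cast card_image_le) (hf2 b₁ m).le
      calc ((Zm m).card : ℝ) ≤ _ := h1
        _ ≤ ηb * s * (K * s) := mul_le_mul_of_nonneg_right h2 (by positivity)
        _ = κ * s ^ 2 := by rw [hηb]; field_simp
    · -- U
      set Em : Finset (A × B) := E'.filter fun f => f.2 ∈ Zm m ∧ j₂ < blk f / q with hEm
      have hEmE : Em ⊆ E := (filter_subset _ _).trans hE'E
      have h1 := card_sub_ge E' (Zm m) (fun f => j₂ < blk f / q) (x := T / 4)
        (fun b hb => (hS b (hZS b ((hZm m b).1 hb).1)).2.2.2)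
      have h2 := card_sq_le Em (hub_mono hEmE hub) (hub_mono (sw_mono hEmE) hub') (Am m) (Zm m) (by
        intro f hf
        obtain ⟨e1, e2, e3⟩ := mem_filter.1 hf
        exact mem_product.2 ⟨(hAm m f.1).2 ⟨f.2, e2, e1, e3⟩, e2⟩)
      refine le_trans ?_ h2
      refine pow_le_pow_left₀ (by positivity) ?_ 2
      refine le_trans (le_of_eq ?_) h1
      rw [hTdef]
      ring
  have hfin : (Z.card : ℝ) ≤ γ / 2 * s ^ 2 := by
    rw [hsumZ]
    calc ∑ m ∈ range (Mc * q), ((Zm m).card : ℝ)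
        ≤ ∑ m ∈ range (Mc * q), γ / 2 * ((Am m).card : ℝ) := sum_le_sum fun m _ => hmain m
      _ = γ / 2 * ∑ m ∈ range (Mc * q), ((Am m).card : ℝ) := by rw [mul_sum]
      _ ≤ γ / 2 * s ^ 2 := mul_le_mul_of_nonneg_left (hsumA.trans hA) (by positivity)
  have hlow : γ * s ^ 2 ≤ Z.card := le_trans (mul_le_mul_of_nonneg_right hγρ (by positivity)) hZc
  have : 0 < γ * s ^ 2 := by positivity
  linarith

end Pool.Agent.LP
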