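import Pool.Agent.H12_d8337a.CaseIIdH58

/-!
# Case II, part e: the final count
-/

namespace Pool.Agent.LP.H58

open Finset

set_option linter.unusedSectionVars false

section

variable {A B : Type} [Fintype A] [Fintype B] [DecidableEq A] [DecidableEq B]

theorem final_count {d s K η c5 c6 : ℝ} (hd : 0 < d) (hs : 0 < s) (hK : 0 < K)
    (hc5 : 0 < c5) (hc6 : c6 = c5 * (d / 144) / 8) (hη5 : 16 * K * η / c5 ≤ c6 ^ 2 / 36)
    (hA : (Fintype.card A : ℝ) ≤ s ^ 2) (L : Finset (A × B)) (n : ℝ) (hn : 0 < n) (S2 : Finset B)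
    (win : A × B → ℕ) (J w : ℕ) (hw : (w : ℝ) ≤ 4 * η * s * n)
    (hwin : ∀ j, (L.filter fun f => win f = j).card ≤ w) (hJ : ∀ f ∈ L, win f < J)
    (hLA : ∀ a, ((atA L a).card : ℝ) ≤ 2 * (144 / d) * n / s)
    (hLB : ∀ b, ((atB L b).card : ℝ) ≤ K * s)
    (hcom : ∀ b ∈ S2, ∀ b' ∈ S2, b ≠ b' → (com L b b').card ≤ 8)
    (hW : ∀ b1 ∈ S2, ∃ (j : ℕ) (α : B → A) (W : Finset B), c5 / 2 * n ≤ W.card ∧
      ∀ b ∈ W, (α b, b1) ∈ L ∧ (α b, b) ∈ L ∧ win (α b, b) = j) :
    (S2.card : ℝ) ≤ J * (2 * s / c6) := by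
  classical
  have hc60 : 0 < c6 := by rw [hc6]; positivity
  set θ : ℝ := c5 / (4 * K) * n / s with hθ
  have hθ0 : 0 < θ := by positivity
  set Aj : ℕ → Finset A := fun j =>
    univ.filter fun a => θ ≤ ((L.filter fun f => win f = j ∧ f.1 = a).card : ℝ) with hAj
  have hAjc : ∀ j, ((Aj j).card : ℝ) ≤ c6 ^ 2 / 36 * s ^ 2 := by
    intro j
    have h1 : ((Aj j).card : ℝ) * θ ≤ w := by
      have h2 : (L.filter fun f => win f = j).card =
          ∑ a, ((L.filter fun f => win f = j).filter fun f => f.1 = a).card :=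
        card_eq_sum_card_fiberwise (fun _ _ => mem_coe.2 (mem_univ _))
      calc ((Aj j).card : ℝ) * θ = ∑ _a ∈ Aj j, θ := by rw [sum_const, nsmul_eq_mul]
        _ ≤ ∑ a ∈ Aj j, ((L.filter fun f => win f = j ∧ f.1 = a).card : ℝ) :=
            sum_le_sum fun a ha => (mem_filter.1 ha).2
        _ ≤ ∑ a, ((L.filter fun f => win f = j ∧ f.1 = a).card : ℝ) :=
            sum_le_sum_of_subset_of_nonneg (subset_univ _) fun _ _ _ => Nat.cast_nonneg _
        _ = ((L.filter fun f => win f = j).card : ℝ) := by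
            rw [h2]
            push_cast
            refine sum_congr rfl fun a _ => ?_
            rw [filter_filter]
        _ ≤ w := by exact_mod_cast hwin j
    have h3 : ((Aj j).card : ℝ) * θ ≤ (16 * K * η / c5 * s ^ 2) * θ := by
      refine (h1.trans hw).trans (le_of_eq ?_)
      rw [hθ]
      field_simp
      ring
    have h4 := le_of_mul_le_mul_right h3 hθ0
    exact h4.trans (mul_le_mul_of_nonneg_right hη5 (by positivity))
  rcases S2.eq_empty_or_nonempty with hS2e | ⟨b₀, hb₀⟩
  · rw [hS2e]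
    simp only [card_empty, Nat.cast_zero]
    positivity
  have hne : Nonempty A := by
    obtain ⟨j, α, W, hWc, hWm⟩ := hW b₀ hb₀
    have h1 : (0 : ℝ) < W.card := lt_of_lt_of_le (by positivity) hWc
    have h2 : W.Nonempty := by
      rw [← card_pos]
      exact_mod_cast h1
    obtain ⟨b, -⟩ := h2
    exact ⟨α b⟩
  choose! jj α W hWc hWm using hW
  -- many neighbours in `Aj`
  have hN : ∀ b1 ∈ S2, c6 * s ≤
      ((univ.filter fun a => a ∈ Aj (jj b1) ∧ (a, b1) ∈ L).card : ℝ) := by
    intro b1 hb1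
    set N := univ.filter fun a => a ∈ Aj (jj b1) ∧ (a, b1) ∈ L with hNdef
    have h1 : (((W b1).filter fun b => α b1 b ∈ Aj (jj b1)).card : ℝ) ≤
        N.card * (2 * (144 / d) * n / s) := by
      have h2 : ((W b1).filter fun b => α b1 b ∈ Aj (jj b1)).card = ∑ a ∈ N,
          (((W b1).filter fun b => α b1 b ∈ Aj (jj b1)).filter fun b => α b1 b = a).card := by
        refine card_eq_sum_card_fiberwise (f := α b1) ?_
        intro b hb
        obtain ⟨hb, hb'⟩ := mem_filter.1 (mem_coe.1 hb)
        exact mem_coe.2 (mem_filter.2 ⟨mem_univ _, hb', (hWm b1 hb1 b hb).1⟩)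
      rw [h2]
      push_cast
      calc _ ≤ ∑ _a ∈ N, (2 * (144 / d) * n / s) := by
            refine sum_le_sum fun a _ => ?_
            refine le_trans ?_ (hLA a)
            refine Nat.cast_le.2 (card_le_card_of_injOn (fun b => (a, b)) ?_ ?_)
            · intro b hb
              have q1 := mem_filter.1 (mem_coe.1 hb)
              have q2 := mem_filter.1 q1.1
              have q3 := (hWm b1 hb1 b q2.1).2.1
              rw [q1.2] at q3
              exact mem_coe.2 (mem_atA.2 ⟨q3, rfl⟩)
            · intro b _ b' _ h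
              exact (Prod.mk.inj h).2
        _ = _ := by rw [sum_const, nsmul_eq_mul]
    have h2 : (((W b1).filter fun b => ¬ α b1 b ∈ Aj (jj b1)).card : ℝ) ≤ c5 / 4 * n := by
      set N' := univ.filter fun a => a ∉ Aj (jj b1) ∧ (a, b1) ∈ L with hN'
      have h2 : ((W b1).filter fun b => ¬ α b1 b ∈ Aj (jj b1)).card = ∑ a ∈ N',
          (((W b1).filter fun b => ¬ α b1 b ∈ Aj (jj b1)).filter fun b => α b1 b = a).card := by
        refine card_eq_sum_card_fiberwise (f := α b1) ?_
        intro b hb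
        obtain ⟨hb, hb'⟩ := mem_filter.1 (mem_coe.1 hb)
        exact mem_coe.2 (mem_filter.2 ⟨mem_univ _, hb', (hWm b1 hb1 b hb).1⟩)
      have h3 : (N'.card : ℝ) ≤ K * s := by
        refine le_trans ?_ (hLB b1)
        refine Nat.cast_le.2 (card_le_card_of_injOn (fun a => (a, b1)) ?_ ?_)
        · intro a ha
          have := (mem_filter.1 (mem_coe.1 ha)).2
          exact mem_coe.2 (mem_atB.2 ⟨this.2, rfl⟩)
        · intro a _ a' _ h
          exact (Prod.mk.inj h).1
      rw [h2]
      push_cast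
      calc _ ≤ ∑ _a ∈ N', θ := by
            refine sum_le_sum fun a ha => ?_
            have ha' := (mem_filter.1 ha).2.1
            have h4 : ((L.filter fun f => win f = jj b1 ∧ f.1 = a).card : ℝ) ≤ θ := by
              by_contra hcon
              exact ha' (mem_filter.2 ⟨mem_univ _, (not_le.1 hcon).le⟩)
            refine le_trans ?_ h4
            refine Nat.cast_le.2 (card_le_card_of_injOn (fun b => (a, b)) ?_ ?_)
            · intro b hb
              have q1 := mem_filter.1 (mem_coe.1 hb)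
              have q2 := mem_filter.1 q1.1
              obtain ⟨-, k2, k3⟩ := hWm b1 hb1 b q2.1
              rw [q1.2] at k2 k3
              exact mem_coe.2 (mem_filter.2 ⟨k2, k3, rfl⟩)
            · intro b _ b' _ h
              exact (Prod.mk.inj h).2
        _ = N'.card * θ := by rw [sum_const, nsmul_eq_mul]
        _ ≤ (K * s) * θ := mul_le_mul_of_nonneg_right h3 hθ0.le
        _ = _ := by
            rw [hθ]
            field_simp
    have h3 : ((W b1).card : ℝ) = ((W b1).filter fun b => α b1 b ∈ Aj (jj b1)).card +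
        ((W b1).filter fun b => ¬ α b1 b ∈ Aj (jj b1)).card := by
      exact_mod_cast (card_filter_add_card_filter_not (s := W b1)
        (fun b => α b1 b ∈ Aj (jj b1))).symm
    have h4 := hWc b1 hb1
    have h5 : c5 / 4 * n ≤ N.card * (2 * (144 / d) * n / s) := by linarith
    have h6 : c6 * s * (2 * (144 / d) * n / s) = c5 / 4 * n := by
      rw [hc6]
      field_simp
      ring
    rw [← h6] at h5
    exact le_of_mul_le_mul_right h5 (by positivity)
  have hB : ∀ j, ((S2.filter fun b => jj b = j).card : ℝ) ≤ 2 * s / c6 := by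
    intro j
    set Bj := S2.filter fun b => jj b = j with hBj
    set Lj := L.filter fun f => f.1 ∈ Aj j ∧ f.2 ∈ Bj with hLj
    have h1 : (Lj.card : ℝ) ≤ (Aj j).card + 3 * √((Aj j).card) * Bj.card := by
      refine card_le_of_com Lj (Aj j) Bj ?_ ?_
      · intro f hf
        exact mem_product.2 (mem_filter.1 hf).2
      · intro b hb b' hb' hbb
        exact (card_com_le_of_subset (filter_subset _ _) b b').trans
          (hcom b (mem_filter.1 hb).1 b' (mem_filter.1 hb').1 hbb)
    have h2 : c6 * s * Bj.card ≤ Lj.card := by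
      rw [card_eq_sum_atB Lj]
      push_cast
      calc c6 * s * Bj.card = ∑ _b ∈ Bj, (c6 * s) := by rw [sum_const, nsmul_eq_mul]; ring
        _ ≤ ∑ b ∈ Bj, ((atB Lj b).card : ℝ) := by
            refine sum_le_sum fun b hb => ?_
            obtain ⟨hb2, hbj⟩ := mem_filter.1 hb
            refine (hN b hb2).trans ?_
            refine Nat.cast_le.2 (card_le_card_of_injOn (fun a => (a, b)) ?_ ?_)
            · intro a ha
              have := (mem_filter.1 (mem_coe.1 ha)).2
              rw [hbj] at this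
              exact mem_coe.2 (mem_atB.2 ⟨mem_filter.2 ⟨this.2, this.1, hb⟩, rfl⟩)
            · intro a _ a' _ h
              exact (Prod.mk.inj h).1
        _ ≤ _ := sum_le_sum_of_subset_of_nonneg (subset_univ _) fun _ _ _ => Nat.cast_nonneg _
    have h3 : √((Aj j).card : ℝ) ≤ c6 / 6 * s := by
      rw [Real.sqrt_le_left (by positivity)]
      refine (hAjc j).trans (le_of_eq ?_)
      ring
    have h4 : ((Aj j).card : ℝ) ≤ s ^ 2 := by
      refine le_trans ?_ hA
      exact_mod_cast card_le_univ _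
    have h5 : 3 * √((Aj j).card : ℝ) * Bj.card ≤ 3 * (c6 / 6 * s) * Bj.card := by
      apply mul_le_mul_of_nonneg_right _ (Nat.cast_nonneg _)
      linarith
    have h6 : (Bj.card : ℝ) * (c6 / 2 * s) ≤ s ^ 2 := by nlinarith
    rw [le_div_iff₀ hc60]
    have h7 : ((Bj.card : ℝ) * c6) * s ≤ (2 * s) * s := by nlinarith
    exact le_of_mul_le_mul_right h7 hs
  have hjJ : ∀ b1 ∈ S2, jj b1 < J := by
    intro b1 hb1
    have h1 : (0 : ℝ) < (W b1).card := lt_of_lt_of_le (by positivity) (hWc b1 hb1)
    have h2 : (W b1).Nonempty := by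
      rw [← card_pos]
      exact_mod_cast h1
    obtain ⟨b, hb⟩ := h2
    obtain ⟨-, k2, k3⟩ := hWm b1 hb1 b hb
    rw [← k3]
    exact hJ _ k2
  have h1 : S2.card = ∑ j ∈ range J, (S2.filter fun b => jj b = j).card :=
    card_eq_sum_card_fiberwise fun b hb => mem_coe.2 (mem_range.2 (hjJ b (mem_coe.1 hb)))
  rw [h1]
  push_cast
  calc _ ≤ ∑ _j ∈ range J, (2 * s / c6) := sum_le_sum fun j _ => hB j
    _ = _ := by rw [sum_const, nsmul_eq_mul, card_range]

end

end Pool.Agent.LP.H58
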