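import Pool.Agent.H12_d8337a.CaseIIaH58
import Pool.Agent.H12_d8337a.CaseIIeH58

/-!
# Case II: every vertex has only few edges in each block
-/

namespace Pool.Agent.LP

open Finset

theorem caseII (c K : ℝ) (hc : 0 < c) (hK : 0 < K) : ∃ η > (0 : ℝ), ∀ M : ℕ, ∃ s₀ : ℝ,
    ∀ s ≥ s₀, ∀ (A B : Type) [Fintype A] [Fintype B] [DecidableEq A] [DecidableEq B]
    (E : Finset (A × B)) (pos : A × B → ℝ) (blk : A × B → ℕ),
    (Fintype.card A : ℝ) ≤ s ^ 2 → (Fintype.card B : ℝ) ≤ s ^ 2 →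
    PosInj E pos → AxT E pos → AxF1 E pos → AxF3 E pos →
    (∀ a, ((atA E a).card : ℝ) ≤ K * s) → (∀ b, ((atB E b).card : ℝ) ≤ K * s) →
    c * s ^ 3 ≤ E.card →
    (∀ f ∈ E, ∀ g ∈ E, pos f < pos g → blk f ≤ blk g) → (∀ f ∈ E, blk f < M) →
    (∀ f ∈ E, (((atA E f.1).filter fun g => blk g = blk f).card : ℝ) ≤ η * s) →
    (∀ f ∈ E, (((atB E f.2).filter fun g => blk g = blk f).card : ℝ) ≤ η * s) → False := by
  obtain ⟨d, hd⟩ : ∃ d : ℝ, d = c / 16 := ⟨_, rfl⟩
  have hd0 : 0 < d := by rw [hd]; positivity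
  obtain ⟨c5, hc5⟩ : ∃ c5 : ℝ, c5 = d ^ 2 / 288 * (d ^ 2 / 256) := ⟨_, rfl⟩
  have hc50 : 0 < c5 := by rw [hc5]; positivity
  obtain ⟨c6, hc6⟩ : ∃ c6 : ℝ, c6 = c5 * (d / 144) / 8 := ⟨_, rfl⟩
  have hc60 : 0 < c6 := by rw [hc6]; positivity
  obtain ⟨η, hη⟩ : ∃ η : ℝ, η = min (c / 32) (c5 * c6 ^ 2 / (576 * K)) := ⟨_, rfl⟩
  have hη0 : 0 < η := by rw [hη]; positivity
  have hη1 : η ≤ c / 32 := by rw [hη]; exact min_le_left _ _
  have hη2 : 16 * K * η / c5 ≤ c6 ^ 2 / 36 := by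
    have h1 : η ≤ c5 * c6 ^ 2 / (576 * K) := by rw [hη]; exact min_le_right _ _
    rw [le_div_iff₀ (by positivity)] at h1
    rw [div_le_div_iff₀ hc50 (by positivity)]
    nlinarith
  refine ⟨η, hη0, fun M => ?_⟩
  obtain ⟨σ, hσ⟩ : ∃ σ : ℝ, σ = c / (4 * K * 2 ^ M * M ^ 3) := ⟨_, rfl⟩
  obtain ⟨J, hJ⟩ : ∃ J : ℕ, J = ⌊K / (2 * η)⌋₊ + 1 := ⟨_, rfl⟩
  have hσ' : 0 ≤ σ := by rw [hσ]; positivity
  refine ⟨1 + d / (72 * σ) + 8 / (d * σ) + 4097 / (d ^ 3 * σ) + 1 / (η * σ) +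
    1025 * J / (c6 * d ^ 2 * σ), ?_⟩
  intro s hs A B _ _ _ _ E pos blk hA hB hinj hT hF1 hF3 hdA hdB hE hmono hM hηA hηB
  have t1 : 0 ≤ d / (72 * σ) := by positivity
  have t2 : 0 ≤ 8 / (d * σ) := by positivity
  have t3 : 0 ≤ 4097 / (d ^ 3 * σ) := by positivity
  have t4 : 0 ≤ 1 / (η * σ) := by positivity
  have t5 : 0 ≤ 1025 * J / (c6 * d ^ 2 * σ) := by positivity
  have hs1 : 1 ≤ s := by linarith
  have hs0 : 0 < s := by linarith
  have hM0 : 0 < M := by
    have : (0 : ℝ) < E.card := lt_of_lt_of_le (by positivity) hE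
    have h1 : 0 < E.card := by exact_mod_cast this
    obtain ⟨f, hf⟩ := card_pos.1 h1
    exact lt_of_le_of_lt (Nat.zero_le _) (hM f hf)
  have hσ0 : 0 < σ := by rw [hσ]; positivity
  have u1 : d ≤ 72 * σ * s := by
    have : d / (72 * σ) ≤ s := by linarith
    rw [div_le_iff₀ (by positivity)] at this
    linarith
  have u2 : 8 ≤ d * σ * s := by
    have : 8 / (d * σ) ≤ s := by linarith
    rw [div_le_iff₀ (by positivity)] at this
    linarith
  have u3 : 4096 < d ^ 3 * σ * s := by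
    have : 4097 / (d ^ 3 * σ) ≤ s := by linarith
    rw [div_le_iff₀ (by positivity)] at this
    linarith
  have u4 : 1 ≤ η * σ * s := by
    have : 1 / (η * σ) ≤ s := by linarith
    rw [div_le_iff₀ (by positivity)] at this
    linarith
  have hJ0 : (0 : ℝ) < J := by
    rw [hJ]
    positivity
  have u5 : 1024 * J < c6 * d ^ 2 * σ * s := by
    have : 1025 * J / (c6 * d ^ 2 * σ) ≤ s := by linarith
    rw [div_le_iff₀ (by positivity)] at this
    linarith
  -- the class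
  obtain ⟨E1, S, j0, j1, j1', hE1, h01, h11, hS, hA0, htau, hxy, hlr⟩ :=
    H58.exists_class c K hc hK M s hs0 η hη0 hη1 A B E blk hA hB hdB hE hM hηA hηB
  rw [← hσ] at hS
  rw [← hd] at hlr
  have hScard : (0 : ℝ) < S.card := lt_of_lt_of_le (by positivity) hS
  have hcom : ∀ b ∈ S, ∀ b' ∈ S, b ≠ b' → (com E1 b b').card ≤ 8 := by
    intro b hb b' hb' hbb
    have h2 : ∀ b ∈ S, ∀ j, ∃ g ∈ E1, g.2 = b ∧ blk g ≠ j := by
      intro b hb j
      obtain ⟨⟨f, hf, hfb, hfj⟩, ⟨g, hg, hgb, hgj⟩⟩ := hxy b hb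
      by_cases h : j = j1
      · exact ⟨g, hg, hgb, by omega⟩
      · exact ⟨f, hf, hfb, by omega⟩
    exact H58.codeg_le hinj hF1 hF3 hmono hE1 hA0 hbb (htau b' hb' b hb) (htau b hb b' hb')
      (h2 b hb) (h2 b' hb')
  classical
  -- regularisation
  obtain ⟨S1, hS1S, L, R, hL, hR, hS1c, hLS, hRS, hLdeg, hRdeg, hLA⟩ :=
    H58.exists_reg d s hd0 hs0 E1 (E1.filter fun f => blk f ≤ j0)
      (E1.filter fun f => j1' < blk f) S (filter_subset _ _) (filter_subset _ _) hcom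
      (fun b hb => by rw [H58.atB_filter]; exact (hlr b hb).1)
      (fun b hb => by rw [H58.atB_filter]; exact (hlr b hb).2) hScard (by
        refine le_trans ?_ hS
        rw [div_le_iff₀ (by norm_num)]
        nlinarith)
  obtain ⟨n, hn⟩ : ∃ n : ℝ, n = (S1.card : ℝ) := ⟨_, rfl⟩
  rw [← hn] at hS1c hLA
  have hnlow : σ / 2 * s ^ 2 ≤ n := by linarith
  have hn0 : 0 < n := lt_of_lt_of_le (by positivity) hnlow
  have hLE1 : L ⊆ E1 := hL.trans (filter_subset _ _)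
  have hRE1 : R ⊆ E1 := hR.trans (filter_subset _ _)
  have hLE : L ⊆ E := hLE1.trans hE1
  have hLinj : PosInj L pos := fun f hf g hg h => hinj f (hLE hf) g (hLE hg) h
  have hcomL : ∀ b ∈ S1, ∀ b' ∈ S1, b ≠ b' → (com L b b').card ≤ 8 :=
    fun b hb b' hb' hbb => (H58.card_com_le_of_subset hLE1 b b').trans
      (hcom b (hS1S hb) b' (hS1S hb') hbb)
  have hcomR : ∀ b ∈ S1, ∀ b' ∈ S1, b ≠ b' → (com R b b').card ≤ 8 :=
    fun b hb b' hb' hbb => (H58.card_com_le_of_subset hRE1 b b').trans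
      (hcom b (hS1S hb) b' (hS1S hb') hbb)
  have H : H58.KeyData E E1 L R pos blk S1 j0 j1 j1' :=
    { hinj := hinj
      hT := hT
      hmono := hmono
      hE1 := hE1
      h01 := h01
      h11 := h11
      hL1 := hLE1
      hR1 := hRE1
      hLS := hLS
      hRS := hRS
      hLb := fun f hf => (mem_filter.1 (hL hf)).2
      hRb := fun f hf => (mem_filter.1 (hR hf)).2
      hx := fun b hb => (hxy b (hS1S hb)).1
      hy := fun b hb => (hxy b (hS1S hb)).2
      htau := fun b hb b' hb' => htau b (hS1S hb) b' (hS1S hb') }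
  -- pairs
  have hpairs := H58.exists_pairs d s hd0 hs0 hA pos L hLinj S1 hLS hcomL hLdeg (by
    rw [← hn]
    have h1 : d * (σ / 2 * s ^ 2) ≤ d * n := mul_le_mul_of_nonneg_left hnlow hd0.le
    nlinarith)
  rw [← hn] at hpairs
  set S2 := S1.filter fun b1 => d ^ 2 / 256 * n ≤ (H58.Zset L pos S1 b1).card with hS2
  -- windows
  obtain ⟨w, hw⟩ : ∃ w : ℕ, w = ⌈2 * (η * s) * n⌉₊ := ⟨_, rfl⟩
  have hw1 : 2 * (η * s) * n ≤ w := by rw [hw]; exact Nat.le_ceil _
  have hηsn : 1 ≤ 2 * (η * s) * n := by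
    have h1 : 2 * (η * s) * (σ / 2 * s ^ 2) ≤ 2 * (η * s) * n :=
      mul_le_mul_of_nonneg_left hnlow (by positivity)
    have h2 : 2 * (η * s) * (σ / 2 * s ^ 2) = (η * σ * s) * (s * s) := by ring
    have h3 : 1 ≤ s * s := by nlinarith
    have h4 : 1 ≤ (η * σ * s) * (s * s) := by nlinarith
    linarith
  have hw2 : (w : ℝ) ≤ 4 * η * s * n := by
    have h1 : (w : ℝ) < 2 * (η * s) * n + 1 := by
      rw [hw]
      exact Nat.ceil_lt_add_one (by positivity)
    linarith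
  have hw0 : 0 < w := by
    have : (0 : ℝ) < w := by linarith
    exact_mod_cast this
  have hLcard : (L.card : ℝ) ≤ K * s * n := by
    have h4 : L.card = ∑ b ∈ S1, (atB L b).card :=
      card_eq_sum_card_fiberwise (f := Prod.snd) fun f hf => mem_coe.2 (hLS f (mem_coe.1 hf))
    rw [h4]
    push_cast
    calc _ ≤ ∑ _b ∈ S1, K * s := by
          refine sum_le_sum fun b _ => ?_
          exact le_trans (Nat.cast_le.2 (card_le_card (H58.atB_mono hLE b))) (hdB b)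
      _ = _ := by rw [sum_const, nsmul_eq_mul, ← hn]; ring
  have hfin := H58.final_count (d := d) (s := s) (K := K) (η := η) (c5 := c5) (c6 := c6) hd0 hs0
    hK hc50 hc6 hη2 hA L n hn0 S2 (fun f => H58.rk L pos f / w) J w hw2
    (fun j => H58.card_window_le hLinj hw0 j)
    (by
      intro f hf
      have h1 := H58.rk_lt_card (pos := pos) hf
      have h2 : ((H58.rk L pos f : ℕ) : ℝ) ≤ K / (2 * η) * w := by
        have h3 : ((H58.rk L pos f : ℕ) : ℝ) ≤ K * s * n :=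
          le_trans (Nat.cast_le.2 h1.le) hLcard
        have h4 : K / (2 * η) * (2 * (η * s) * n) ≤ K / (2 * η) * w :=
          mul_le_mul_of_nonneg_left hw1 (by positivity)
        have h5 : K / (2 * η) * (2 * (η * s) * n) = K * s * n := by field_simp
        linarith
      rw [hJ]
      refine Nat.lt_succ_of_le (Nat.le_floor ?_)
      refine le_trans Nat.cast_div_le ?_
      rw [div_le_iff₀ (by exact_mod_cast hw0)]
      exact h2)
    hLA
    (fun b => le_trans (Nat.cast_le.2 (card_le_card (H58.atB_mono hLE b))) (hdB b))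
    (fun b hb b' hb' => hcomL b (mem_filter.1 hb).1 b' (mem_filter.1 hb').1)
    (by
      intro b1 hb1
      obtain ⟨hb1S, hZ⟩ := mem_filter.1 hb1
      obtain ⟨j, α, W, hWc, hWm⟩ := H58.exists_window H hd0 hs0 hη0 hηB hA hcomR hRdeg
        (w := w) (by rw [← hn]; exact hw1) hw0 hb1S (by
          refine lt_of_lt_of_le ?_ hZ
          rw [div_lt_iff₀ hd0]
          have h1 : d ^ 2 / 256 * (σ / 2 * s ^ 2) * d ≤ d ^ 2 / 256 * n * d := by
            apply mul_le_mul_of_nonneg_right _ hd0.le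
            exact mul_le_mul_of_nonneg_left hnlow (by positivity)
          have h2 : d ^ 2 / 256 * (σ / 2 * s ^ 2) * d = (d ^ 3 * σ * s) * s / 512 := by ring
          nlinarith)
      refine ⟨j, α, W, le_trans ?_ hWc, hWm⟩
      have h1 : d ^ 2 / 576 * (d ^ 2 / 256 * n) ≤ d ^ 2 / 576 * (H58.Zset L pos S1 b1).card :=
        mul_le_mul_of_nonneg_left hZ (by positivity)
      refine le_trans (le_of_eq ?_) h1
      rw [hc5]
      ring)
  -- contradiction
  have h1 := hpairs.trans hfin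
  have h2 : d ^ 2 / 256 * (σ / 2 * s ^ 2) ≤ d ^ 2 / 256 * n :=
    mul_le_mul_of_nonneg_left hnlow (by positivity)
  have h3 := h2.trans h1
  have h4 : J * (2 * s / c6) = J * 2 * s / c6 := by ring
  rw [h4, le_div_iff₀ hc60] at h3
  have h5 : d ^ 2 / 256 * (σ / 2 * s ^ 2) * c6 = (c6 * d ^ 2 * σ * s) * s / 512 := by ring
  rw [h5] at h3
  nlinarith

end Pool.Agent.LP
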