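import Pool.Agent.H12_d8337a.CombBasic

/-!
# Case II, part a: elementary counting and the codegree bound
-/

namespace Pool.Agent.LP.H58

open Finset

set_option linter.unusedSectionVars false

section

variable {A B : Type*} [Fintype A] [Fintype B] [DecidableEq A] [DecidableEq B]

lemma card_le_two_of_no_chain (s : Finset ℕ)
    (h : ∀ x ∈ s, ∀ y ∈ s, ∀ z ∈ s, x < y → y < z → False) : s.card ≤ 2 := by
  by_contra hc
  push Not at hc
  obtain ⟨a, ha, b, hb, c, hc', hab, hac, hbc⟩ := Finset.two_lt_card.1 hc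
  rcases lt_or_gt_of_ne hab with h1 | h1 <;> rcases lt_or_gt_of_ne hac with h2 | h2 <;>
    rcases lt_or_gt_of_ne hbc with h3 | h3
  · exact h a ha b hb c hc' h1 h3
  · exact h a ha c hc' b hb h2 h3
  · omega
  · exact h c hc' a ha b hb h2 h1
  · exact h b hb a ha c hc' h1 h2
  · omega
  · exact h b hb c hc' a ha h3 h2
  · exact h c hc' b hb a ha h3 h1

lemma pos_lt_of_blk_lt {E : Finset (A × B)} {pos : A × B → ℝ} {blk : A × B → ℕ}
    (hinj : PosInj E pos) (hmono : ∀ f ∈ E, ∀ g ∈ E, pos f < pos g → blk f ≤ blk g)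
    {f g : A × B} (hf : f ∈ E) (hg : g ∈ E) (h : blk f < blk g) : pos f < pos g := by
  rcases lt_trichotomy (pos f) (pos g) with h1 | h1 | h1
  · exact h1
  · have := hinj f hf g hg h1
    subst this
    omega
  · have := hmono g hg f hf h1
    omega

lemma no_three_blocks {E E1 : Finset (A × B)} {pos : A × B → ℝ} {blk : A × B → ℕ}
    (hinj : PosInj E pos) (hF1 : AxF1 E pos)
    (hmono : ∀ f ∈ E, ∀ g ∈ E, pos f < pos g → blk f ≤ blk g) (h1 : E1 ⊆ E) {b b' : B}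
    (hbb : b ≠ b') (hτ : ∀ f ∈ E1, f.2 = b' → ∃ g ∈ E1, g.2 = b ∧ blk g = blk f) {a₁ a₂ a₃ : A}
    (h₁ : a₁ ∈ com E1 b b') (h₂ : a₂ ∈ com E1 b b') (h₃ : a₃ ∈ com E1 b b')
    (h12 : blk (a₁, b') < blk (a₂, b')) (h23 : blk (a₂, b') < blk (a₃, b')) : False := by
  simp only [com, mem_filter, mem_univ, true_and] at h₁ h₂ h₃
  obtain ⟨⟨g₁, c₁⟩, hg₁, hb₁, hk₁⟩ := hτ _ h₁.2 rfl
  obtain ⟨⟨g₂, c₂⟩, hg₂, hb₂, hk₂⟩ := hτ _ h₂.2 rfl
  obtain ⟨⟨g₃, c₃⟩, hg₃, hb₃, hk₃⟩ := hτ _ h₃.2 rfl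
  simp only at hb₁ hb₂ hb₃
  subst hb₁ hb₂ hb₃
  have e1 : a₂ ≠ a₁ := by rintro rfl; omega
  have e3 : a₂ ≠ a₃ := by rintro rfl; omega
  rcases lt_trichotomy (pos (a₂, b')) (pos (g₂, c₃)) with h | h | h
  · refine hF1 _ _ a₂ a₃ g₁ g₂ hbb e3 (h1 h₂.1) (h1 h₂.2) (h1 h₃.1) (h1 h₃.2) (h1 hg₁) (h1 hg₂)
      ?_ h (Or.inr ?_)
    · exact pos_lt_of_blk_lt hinj hmono (h1 hg₁) (h1 h₂.2) (by omega)
    · exact pos_lt_of_blk_lt hinj hmono (h1 hg₂) (h1 h₃.2) (by omega)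
  · have := hinj _ (h1 h₂.2) _ (h1 hg₂) h
    simp only [Prod.mk.injEq] at this
    exact hbb this.2.symm
  · refine hF1 _ _ a₂ a₁ g₂ g₃ hbb e1 (h1 h₂.1) (h1 h₂.2) (h1 h₁.1) (h1 h₁.2) (h1 hg₂) (h1 hg₃)
      h ?_ (Or.inl ?_)
    · exact pos_lt_of_blk_lt hinj hmono (h1 h₂.2) (h1 hg₃) (by omega)
    · exact pos_lt_of_blk_lt hinj hmono (h1 h₁.2) (h1 hg₂) (by omega)

/-- No position of `b` lies between two crossings of edges from common neighbours to `b'` which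
are in the same block. -/
lemma no_between {E E1 : Finset (A × B)} {pos : A × B → ℝ} {blk : A × B → ℕ}
    (hinj : PosInj E pos) (hF1 : AxF1 E pos)
    (hmono : ∀ f ∈ E, ∀ g ∈ E, pos f < pos g → blk f ≤ blk g) (h1 : E1 ⊆ E) {b b' : B}
    (hbb : b ≠ b') (h2 : ∀ j, ∃ g ∈ E1, g.2 = b ∧ blk g ≠ j) {a₁ a₂ x : A}
    (h₁ : a₁ ∈ com E1 b b') (h₂ : a₂ ∈ com E1 b b') (hx : (x, b) ∈ E1)
    (hblk : blk (a₁, b') = blk (a₂, b')) (hx1 : pos (a₁, b') < pos (x, b))
    (hx2 : pos (x, b) < pos (a₂, b')) : False := by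
  simp only [com, mem_filter, mem_univ, true_and] at h₁ h₂
  have e : a₁ ≠ a₂ := by rintro rfl; exact lt_asymm hx1 hx2
  have hbx : blk (x, b) = blk (a₁, b') := by
    have := hmono _ (h1 h₁.2) _ (h1 hx) hx1
    have := hmono _ (h1 hx) _ (h1 h₂.2) hx2
    omega
  obtain ⟨⟨g, c⟩, hg, hgb, hgk⟩ := h2 (blk (a₁, b'))
  simp only at hgb
  subst hgb
  rcases lt_or_gt_of_ne hgk with h | h
  · -- `g` is before
    refine hF1 _ _ a₁ a₂ g x hbb e (h1 h₁.1) (h1 h₁.2) (h1 h₂.1) (h1 h₂.2) (h1 hg) (h1 hx)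
      ?_ hx1 (Or.inr hx2)
    exact pos_lt_of_blk_lt hinj hmono (h1 hg) (h1 h₁.2) h
  · refine hF1 _ _ a₂ a₁ x g hbb e.symm (h1 h₂.1) (h1 h₂.2) (h1 h₁.1) (h1 h₁.2) (h1 hx) (h1 hg)
      hx2 ?_ (Or.inl hx1)
    exact pos_lt_of_blk_lt hinj hmono (h1 h₂.2) (h1 hg) (by omega)

lemma exists_three_same {N : Finset A} {f g : A → ℕ} (hf : (N.image f).card ≤ 2)
    (hg : (N.image g).card ≤ 2) (hN : 8 < N.card) :
    ∃ p q : ℕ, 2 < (N.filter fun a => f a = p ∧ g a = q).card := by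
  have h := Finset.exists_lt_card_fiber_of_mul_lt_card_of_maps_to (s := N)
    (t := (N.image f) ×ˢ (N.image g)) (f := fun a => (f a, g a)) (n := 2)
    (by
      intro a ha
      simp only [mem_product]
      exact ⟨mem_image_of_mem _ ha, mem_image_of_mem _ ha⟩)
    (by
      rw [card_product]
      nlinarith)
  obtain ⟨⟨p, q⟩, -, h⟩ := h
  refine ⟨p, q, ?_⟩
  simpa only [Prod.mk.injEq] using h

/-- The codegree bound. -/
theorem codeg_le {E E1 : Finset (A × B)} {pos : A × B → ℝ} {blk : A × B → ℕ}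
    (hinj : PosInj E pos) (hF1 : AxF1 E pos) (hF3 : AxF3 E pos)
    (hmono : ∀ f ∈ E, ∀ g ∈ E, pos f < pos g → blk f ≤ blk g) (h1 : E1 ⊆ E)
    (hA0 : ∀ f ∈ E1, ∀ j j' : ℕ, ∃ g ∈ E, g.1 = f.1 ∧ blk g ≠ j ∧ blk g ≠ j') {b b' : B}
    (hbb : b ≠ b') (hτ : ∀ f ∈ E1, f.2 = b' → ∃ g ∈ E1, g.2 = b ∧ blk g = blk f)
    (hτ' : ∀ f ∈ E1, f.2 = b → ∃ g ∈ E1, g.2 = b' ∧ blk g = blk f)
    (h2 : ∀ j, ∃ g ∈ E1, g.2 = b ∧ blk g ≠ j) (h2' : ∀ j, ∃ g ∈ E1, g.2 = b' ∧ blk g ≠ j) :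
    (com E1 b b').card ≤ 8 := by
  by_contra hcard
  push Not at hcard
  have hcomm : com E1 b' b = com E1 b b' := by
    ext a
    simp only [com, mem_filter, mem_univ, true_and, and_comm]
  have c1 : ((com E1 b b').image fun a => blk (a, b')).card ≤ 2 := by
    refine card_le_two_of_no_chain _ ?_
    intro x hx y hy z hz hxy hyz
    simp only [mem_image] at hx hy hz
    obtain ⟨a₁, ha₁, rfl⟩ := hx
    obtain ⟨a₂, ha₂, rfl⟩ := hy
    obtain ⟨a₃, ha₃, rfl⟩ := hz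
    exact no_three_blocks hinj hF1 hmono h1 hbb hτ ha₁ ha₂ ha₃ hxy hyz
  have c2 : ((com E1 b b').image fun a => blk (a, b)).card ≤ 2 := by
    refine card_le_two_of_no_chain _ ?_
    intro x hx y hy z hz hxy hyz
    simp only [mem_image] at hx hy hz
    obtain ⟨a₁, ha₁, rfl⟩ := hx
    obtain ⟨a₂, ha₂, rfl⟩ := hy
    obtain ⟨a₃, ha₃, rfl⟩ := hz
    rw [← hcomm] at ha₁ ha₂ ha₃
    exact no_three_blocks hinj hF1 hmono h1 hbb.symm hτ' ha₁ ha₂ ha₃ hxy hyz
  obtain ⟨p, q, hpq⟩ := exists_three_same c1 c2 hcard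
  -- three common neighbours sorted by the position of the edge to `b`
  obtain ⟨r, s, u, hr, hs, hu, hrs, hsu⟩ : ∃ r s u : A,
      (r ∈ com E1 b b' ∧ blk (r, b') = p ∧ blk (r, b) = q) ∧
      (s ∈ com E1 b b' ∧ blk (s, b') = p ∧ blk (s, b) = q) ∧
      (u ∈ com E1 b b' ∧ blk (u, b') = p ∧ blk (u, b) = q) ∧
      pos (r, b) < pos (s, b) ∧ pos (s, b) < pos (u, b) := by
    obtain ⟨x, hx, y, hy, z, hz, hxy, hxz, hyz⟩ := Finset.two_lt_card.1 hpq
    simp only [mem_filter] at hx hy hz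
    have key : ∀ x y : A, x ∈ com E1 b b' → y ∈ com E1 b b' → x ≠ y →
        pos (x, b) ≠ pos (y, b) := by
      intro x y hx hy hne h
      simp only [com, mem_filter, mem_univ, true_and] at hx hy
      have := hinj _ (h1 hx.1) _ (h1 hy.1) h
      simp only [Prod.mk.injEq, and_true] at this
      exact hne this
    have k1 := key x y hx.1 hy.1 hxy
    have k2 := key x z hx.1 hz.1 hxz
    have k3 := key y z hy.1 hz.1 hyz
    rcases lt_or_gt_of_ne k1 with q1 | q1 <;> rcases lt_or_gt_of_ne k2 with q2 | q2 <;>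
      rcases lt_or_gt_of_ne k3 with q3 | q3
    · exact ⟨x, y, z, hx, hy, hz, q1, q3⟩
    · exact ⟨x, z, y, hx, hz, hy, q2, q3⟩
    · exact absurd (q1.trans q3) (not_lt.2 q2.le)
    · exact ⟨z, x, y, hz, hx, hy, q2, q1⟩
    · exact ⟨y, x, z, hy, hx, hz, q1, q2⟩
    · exact absurd (q1.trans q2) (not_lt.2 q3.le)
    · exact ⟨y, z, x, hy, hz, hx, q3, q2⟩
    · exact ⟨z, y, x, hz, hy, hx, q3, q1⟩
  obtain ⟨hrN, hrp, hrq⟩ := hr
  obtain ⟨hsN, hsp, hsq⟩ := hs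
  obtain ⟨huN, hup, huq⟩ := hu
  have nb : ∀ {a₁ a₂ x : A}, a₁ ∈ com E1 b b' → a₂ ∈ com E1 b b' → (x, b) ∈ E1 →
      blk (a₁, b') = blk (a₂, b') → pos (a₁, b') < pos (x, b) → ¬ pos (x, b) < pos (a₂, b') :=
    fun h₁ h₂ hx hb hx1 hx2 => no_between hinj hF1 hmono h1 hbb h2 h₁ h₂ hx hb hx1 hx2
  have hrN' := hrN
  have hsN' := hsN
  have huN' := huN
  simp only [com, mem_filter, mem_univ, true_and] at hrN' hsN' huN'
  have ers : r ≠ s := by rintro rfl; exact lt_irrefl _ hrs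
  have esu : s ≠ u := by rintro rfl; exact lt_irrefl _ hsu
  have eru : r ≠ u := by rintro rfl; exact lt_irrefl _ (hrs.trans hsu)
  -- the two crossings of `b'` are on the same side of `pos (s, b)`
  have hne : ∀ a, a ∈ com E1 b b' → pos (a, b') ≠ pos (s, b) := by
    intro a ha h
    simp only [com, mem_filter, mem_univ, true_and] at ha
    have := hinj _ (h1 ha.2) _ (h1 hsN'.1) h
    simp only [Prod.mk.injEq] at this
    exact hbb this.2.symm
  have hside : (pos (r, b') < pos (s, b) ↔ pos (u, b') < pos (s, b)) := by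
    constructor
    · intro h
      by_contra h'
      exact nb hrN huN hsN'.1 (by omega) h (lt_of_le_of_ne (not_lt.1 h') (hne u huN).symm)
    · intro h
      by_contra h'
      exact nb huN hrN hsN'.1 (by omega) h (lt_of_le_of_ne (not_lt.1 h') (hne r hrN).symm)
  have hodd : flips pos b b' r u (pos (s, b)) % 2 = 1 := by
    unfold flips
    rw [if_pos hrs, if_neg (not_lt.2 hsu.le)]
    by_cases h : pos (r, b') < pos (s, b)
    · rw [if_pos h, if_pos (hside.1 h)]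
    · rw [if_neg h, if_neg (fun h' => h (hside.2 h'))]
  -- so all edges at `s` are in the blocks `p` and `q`
  obtain ⟨⟨s', b''⟩, hg, hgs, hgp, hgq⟩ := hA0 _ hsN'.1 p q
  simp only at hgs
  subst hgs
  have hb1 : b'' ≠ b := by rintro rfl; exact hgq hsq
  have hb2 : b'' ≠ b' := by rintro rfl; exact hgp hsp
  have h3 := hF3 b b' b'' r s' u hbb hb1 hb2 ers eru esu (h1 hrN'.1) (h1 hrN'.2) (h1 hsN'.1)
    (h1 hsN'.2) (h1 huN'.1) (h1 huN'.2) hg
  rw [hodd] at h3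
  have m : ∀ f ∈ E, ∀ g ∈ E, blk f = blk g → pos f < pos (s', b'') → pos (s', b'') < pos g →
      blk (s', b'') = blk f := by
    intro f hf g hg' hfg h1 h2
    have := hmono _ hf _ hg h1
    have := hmono _ hg _ hg' h2
    omega
  have hne1 : pos (s', b'') ≠ pos (u, b) := fun h => by
    have := hinj _ hg _ (h1 huN'.1) h
    simp only [Prod.mk.injEq] at this
    exact esu this.1
  have hne2 : pos (s', b'') ≠ pos (u, b') := fun h => by
    have := hinj _ hg _ (h1 huN'.2) h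
    simp only [Prod.mk.injEq] at this
    exact esu this.1
  have hne3 : pos (s', b'') ≠ pos (r, b) := fun h => by
    have := hinj _ hg _ (h1 hrN'.1) h
    simp only [Prod.mk.injEq] at this
    exact ers this.1.symm
  have hne4 : pos (s', b'') ≠ pos (r, b') := fun h => by
    have := hinj _ hg _ (h1 hrN'.2) h
    simp only [Prod.mk.injEq] at this
    exact ers this.1.symm
  have hq : ¬ (pos (r, b) < pos (s', b'') ∧ pos (s', b'') < pos (u, b)) := fun h =>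
    hgq ((m _ (h1 hrN'.1) _ (h1 huN'.1) (by omega) h.1 h.2).trans hrq)
  have hp1 : ¬ (pos (r, b') < pos (s', b'') ∧ pos (s', b'') < pos (u, b')) := fun h =>
    hgp ((m _ (h1 hrN'.2) _ (h1 huN'.2) (by omega) h.1 h.2).trans hrp)
  have hp2 : ¬ (pos (u, b') < pos (s', b'') ∧ pos (s', b'') < pos (r, b')) := fun h =>
    hgp ((m _ (h1 huN'.2) _ (h1 hrN'.2) (by omega) h.1 h.2).trans hup)
  have hru := hrs.trans hsu
  have e1 : (pos (r, b) < pos (s', b'')) ↔ (pos (u, b) < pos (s', b'')) := by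
    constructor
    · intro h
      by_contra h'
      exact hq ⟨h, lt_of_le_of_ne (not_lt.1 h') hne1⟩
    · intro h
      exact hru.trans h
  have e2 : (pos (r, b') < pos (s', b'')) ↔ (pos (u, b') < pos (s', b'')) := by
    constructor
    · intro h
      by_contra h'
      exact hp1 ⟨h, lt_of_le_of_ne (not_lt.1 h') hne2⟩
    · intro h
      by_contra h'
      exact hp2 ⟨h, lt_of_le_of_ne (not_lt.1 h') hne4⟩
  unfold flips at h3
  by_cases k1 : pos (r, b) < pos (s', b'') <;> by_cases k2 : pos (r, b') < pos (s', b'')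
  · rw [if_pos k1, if_pos (e1.1 k1), if_pos k2, if_pos (e2.1 k2)] at h3
    omega
  · rw [if_pos k1, if_pos (e1.1 k1), if_neg k2, if_neg (fun h => k2 (e2.2 h))] at h3
    omega
  · rw [if_neg k1, if_neg (fun h => k1 (e1.2 h)), if_pos k2, if_pos (e2.1 k2)] at h3
    omega
  · rw [if_neg k1, if_neg (fun h => k1 (e1.2 h)), if_neg k2, if_neg (fun h => k2 (e2.2 h))] at h3
    omega

end

end Pool.Agent.LP.H58
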