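import Pool.Agent.H12_d8337a.CombBasic

/-!
# Case II, part b: cleaning, types and cuts
-/

namespace Pool.Agent.LP.H58

open Finset

set_option linter.unusedSectionVars false

section

variable {A B : Type*} [Fintype A] [Fintype B] [DecidableEq A] [DecidableEq B]

lemma card_eq_sum_atB (E : Finset (A × B)) : E.card = ∑ b, (atB E b).card :=
  Finset.card_eq_sum_card_fiberwise (fun _ _ => mem_coe.2 (mem_univ _))

lemma card_eq_sum_atA (E : Finset (A × B)) : E.card = ∑ a, (atA E a).card :=
  Finset.card_eq_sum_card_fiberwise (fun _ _ => mem_coe.2 (mem_univ _))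

lemma mem_atA {E : Finset (A × B)} {a : A} {f : A × B} : f ∈ atA E a ↔ f ∈ E ∧ f.1 = a := by
  simp [atA]

lemma mem_atB {E : Finset (A × B)} {b : B} {f : A × B} : f ∈ atB E b ↔ f ∈ E ∧ f.2 = b := by
  simp [atB]

lemma atA_filter (E : Finset (A × B)) (p : A × B → Prop) [DecidablePred p] (a : A) :
    atA (E.filter p) a = (atA E a).filter p := by
  unfold atA
  rw [filter_filter, filter_filter]
  simp only [and_comm]

lemma atB_filter (E : Finset (A × B)) (p : A × B → Prop) [DecidablePred p] (b : B) :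
    atB (E.filter p) b = (atB E b).filter p := by
  unfold atB
  rw [filter_filter, filter_filter]
  simp only [and_comm]

lemma atA_mono {E F : Finset (A × B)} (h : E ⊆ F) (a : A) : atA E a ⊆ atA F a :=
  filter_subset_filter _ h

lemma atB_mono {E F : Finset (A × B)} (h : E ⊆ F) (b : B) : atB E b ⊆ atB F b :=
  filter_subset_filter _ h

lemma card_blockA_le {E : Finset (A × B)} {blk : A × B → ℕ} {t : ℝ} (ht : 0 ≤ t)
    (h : ∀ f ∈ E, (((atA E f.1).filter fun g => blk g = blk f).card : ℝ) ≤ t) (a : A) (j : ℕ) :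
    (((atA E a).filter fun g => blk g = j).card : ℝ) ≤ t := by
  rcases ((atA E a).filter fun g => blk g = j).eq_empty_or_nonempty with h0 | ⟨f, hf⟩
  · rw [h0]; simpa using ht
  · simp only [mem_filter, mem_atA] at hf
    obtain ⟨⟨hf, rfl⟩, rfl⟩ := hf
    exact h f hf

lemma card_blockB_le {E : Finset (A × B)} {blk : A × B → ℕ} {t : ℝ} (ht : 0 ≤ t)
    (h : ∀ f ∈ E, (((atB E f.2).filter fun g => blk g = blk f).card : ℝ) ≤ t) (b : B) (j : ℕ) :
    (((atB E b).filter fun g => blk g = j).card : ℝ) ≤ t := by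
  rcases ((atB E b).filter fun g => blk g = j).eq_empty_or_nonempty with h0 | ⟨f, hf⟩
  · rw [h0]; simpa using ht
  · simp only [mem_filter, mem_atB] at hf
    obtain ⟨⟨hf, rfl⟩, rfl⟩ := hf
    exact h f hf

end

section

variable {α : Type*} [DecidableEq α]

lemma cut_step (F : Finset α) (blk : α → ℕ) (t : ℝ)
    (hb : ∀ j, ((F.filter fun f => blk f = j).card : ℝ) ≤ t) (j : ℕ)
    (hj : (0 : ℝ) < (F.filter fun f => j < blk f).card) :
    ∃ j' > j, (∃ f ∈ F, blk f = j') ∧
      ((F.filter fun f => j < blk f).card : ℝ) ≤ (F.filter fun f => j' < blk f).card + t := by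
  have hne : (F.filter fun f => j < blk f).Nonempty := by
    rw [← card_pos]
    exact_mod_cast hj
  obtain ⟨f₀, hf₀, hmin⟩ := exists_min_image _ blk hne
  have hf₀' := mem_filter.1 hf₀
  refine ⟨blk f₀, hf₀'.2, ⟨f₀, hf₀'.1, rfl⟩, ?_⟩
  have hsub : (F.filter fun f => j < blk f) ⊆
      (F.filter fun f => blk f₀ < blk f) ∪ (F.filter fun f => blk f = blk f₀) := by
    intro f hf
    have h1 := hmin f hf
    have h2 := mem_filter.1 hf
    simp only [mem_union, mem_filter]
    rcases h1.lt_or_eq with h | h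
    · exact Or.inl ⟨h2.1, h⟩
    · exact Or.inr ⟨h2.1, h.symm⟩
  have h1 := (card_le_card hsub).trans (card_union_le _ _)
  have h2 : ((F.filter fun f => j < blk f).card : ℝ) ≤
      (F.filter fun f => blk f₀ < blk f).card + (F.filter fun f => blk f = blk f₀).card := by
    exact_mod_cast h1
  linarith [hb (blk f₀)]

lemma exists_cuts (F : Finset α) (blk : α → ℕ) (d : ℝ) (hd : 0 < d)
    (hF : 4 * d ≤ F.card) (hb : ∀ j, ((F.filter fun f => blk f = j).card : ℝ) ≤ d / 2) :
    ∃ j0 j1 j1' : ℕ, j0 < j1 ∧ j1 < j1' ∧ (∃ f ∈ F, blk f = j1) ∧ (∃ f ∈ F, blk f = j1') ∧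
      d ≤ (F.filter fun f => blk f ≤ j0).card ∧ d ≤ (F.filter fun f => j1' < blk f).card := by
  have hex : ∃ j, d ≤ ((F.filter fun f => blk f ≤ j).card : ℝ) := by
    refine ⟨F.sup blk, ?_⟩
    rw [filter_true_of_mem fun f hf => le_sup (f := blk) hf]
    linarith
  classical
  have h0 := Nat.find_spec hex
  set j0 := Nat.find hex with hj0
  have h0' : ((F.filter fun f => blk f < j0).card : ℝ) ≤ d := by
    rcases Nat.eq_zero_or_pos j0 with h | h
    · rw [h]
      simp only [not_lt_zero, filter_false, card_empty, Nat.cast_zero]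
      exact hd.le
    · have h1 := Nat.find_min hex (m := j0 - 1) (by omega)
      have h2 : (F.filter fun f => blk f < j0) = (F.filter fun f => blk f ≤ j0 - 1) := by
        apply filter_congr
        intro f _
        constructor <;> intro h' <;> omega
      rw [h2]
      exact (not_le.1 h1).le
  have h1 : ((F.filter fun f => blk f ≤ j0).card : ℝ) ≤ 3 * d / 2 := by
    have hsub : (F.filter fun f => blk f ≤ j0) ⊆
        (F.filter fun f => blk f < j0) ∪ (F.filter fun f => blk f = j0) := by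
      intro f hf
      have h2 := mem_filter.1 hf
      simp only [mem_union, mem_filter]
      rcases h2.2.lt_or_eq with h | h
      · exact Or.inl ⟨h2.1, h⟩
      · exact Or.inr ⟨h2.1, h⟩
    have h2 := (card_le_card hsub).trans (card_union_le _ _)
    have h3 : ((F.filter fun f => blk f ≤ j0).card : ℝ) ≤
        (F.filter fun f => blk f < j0).card + (F.filter fun f => blk f = j0).card := by
      exact_mod_cast h2
    linarith [hb j0]
  have h2 : (F.card : ℝ) ≤ (F.filter fun f => blk f ≤ j0).card +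
      (F.filter fun f => j0 < blk f).card := by
    have := card_filter_add_card_filter_not (s := F) (fun f => blk f ≤ j0)
    simp only [not_le] at this
    rw [← this]
    push_cast
    exact le_refl _
  obtain ⟨j1, hj1, hf1, h3⟩ := cut_step F blk (d / 2) hb j0 (by linarith)
  obtain ⟨j1', hj1', hf1', h4⟩ := cut_step F blk (d / 2) hb j1 (by linarith)
  exact ⟨j0, j1, j1', hj1, hj1', hf1, hf1', h0, by linarith⟩

end

theorem exists_class (c K : ℝ) (hc : 0 < c) (hK : 0 < K) (M : ℕ) (s : ℝ) (hs : 0 < s) (η : ℝ)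
    (hη0 : 0 < η) (hη : η ≤ c / 32) (A B : Type) [Fintype A] [Fintype B] [DecidableEq A]
    [DecidableEq B] (E : Finset (A × B)) (blk : A × B → ℕ)
    (hA : (Fintype.card A : ℝ) ≤ s ^ 2) (hB : (Fintype.card B : ℝ) ≤ s ^ 2)
    (hdB : ∀ b, ((atB E b).card : ℝ) ≤ K * s) (hE : c * s ^ 3 ≤ E.card)
    (hM : ∀ f ∈ E, blk f < M)
    (hηA : ∀ f ∈ E, (((atA E f.1).filter fun g => blk g = blk f).card : ℝ) ≤ η * s)
    (hηB : ∀ f ∈ E, (((atB E f.2).filter fun g => blk g = blk f).card : ℝ) ≤ η * s) :
    ∃ (E1 : Finset (A × B)) (S : Finset B) (j0 j1 j1' : ℕ), E1 ⊆ E ∧ j0 < j1 ∧ j1 < j1' ∧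
      c / (4 * K * 2 ^ M * M ^ 3) * s ^ 2 ≤ S.card ∧
      (∀ f ∈ E1, ∀ j j' : ℕ, ∃ g ∈ E, g.1 = f.1 ∧ blk g ≠ j ∧ blk g ≠ j') ∧
      (∀ b ∈ S, ∀ b' ∈ S, ∀ f ∈ E1, f.2 = b → ∃ g ∈ E1, g.2 = b' ∧ blk g = blk f) ∧
      (∀ b ∈ S, (∃ f ∈ E1, f.2 = b ∧ blk f = j1) ∧ ∃ f ∈ E1, f.2 = b ∧ blk f = j1') ∧
      (∀ b ∈ S, c / 16 * s ≤ ((atB E1 b).filter fun f => blk f ≤ j0).card ∧
        c / 16 * s ≤ ((atB E1 b).filter fun f => j1' < blk f).card) := by
  classical
  have hηs : 0 ≤ η * s := by positivity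
  set A0 : Finset A := univ.filter fun a => ∃ j j' : ℕ, ∀ g ∈ E, g.1 = a → blk g = j ∨ blk g = j'
    with hA0
  set E1 := E.filter fun f => f.1 ∉ A0 with hE1
  have hsub : E1 ⊆ E := filter_subset _ _
  have hM0 : 0 < M := by
    have : (0 : ℝ) < E.card := lt_of_lt_of_le (by positivity) hE
    have h1 : 0 < E.card := by exact_mod_cast this
    obtain ⟨f, hf⟩ := card_pos.1 h1
    exact lt_of_le_of_lt (Nat.zero_le _) (hM f hf)
  -- the removed edges
  have hrem : ((E.filter fun f => f.1 ∈ A0).card : ℝ) ≤ 2 * η * s ^ 3 := by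
    rw [card_eq_sum_atA]
    push_cast
    calc (∑ a, ((atA (E.filter fun f => f.1 ∈ A0) a).card : ℝ)) ≤ ∑ _a : A, 2 * (η * s) := by
          refine sum_le_sum fun a _ => ?_
          by_cases ha : a ∈ A0
          · obtain ⟨j, j', h⟩ := (mem_filter.1 ha).2
            have hs1 : atA (E.filter fun f => f.1 ∈ A0) a ⊆
                ((atA E a).filter fun g => blk g = j) ∪ ((atA E a).filter fun g => blk g = j') := by
              intro f hf
              simp only [mem_atA, mem_filter, mem_union] at hf ⊢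
              rcases h f hf.1.1 hf.2 with h' | h'
              · exact Or.inl ⟨⟨hf.1.1, hf.2⟩, h'⟩
              · exact Or.inr ⟨⟨hf.1.1, hf.2⟩, h'⟩
            have h2 := (card_le_card hs1).trans (card_union_le _ _)
            have h3 : ((atA (E.filter fun f => f.1 ∈ A0) a).card : ℝ) ≤
                ((atA E a).filter fun g => blk g = j).card +
                ((atA E a).filter fun g => blk g = j').card := by
              exact_mod_cast h2
            linarith [card_blockA_le hηs hηA a j, card_blockA_le hηs hηA a j']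
          · have : atA (E.filter fun f => f.1 ∈ A0) a = ∅ := by
              apply eq_empty_of_forall_notMem
              intro f hf
              simp only [mem_atA, mem_filter] at hf
              exact ha (hf.2 ▸ hf.1.2)
            rw [this]
            simp only [card_empty, Nat.cast_zero]
            linarith
      _ = (Fintype.card A : ℝ) * (2 * (η * s)) := by
          rw [sum_const, card_univ, nsmul_eq_mul]
      _ ≤ s ^ 2 * (2 * (η * s)) := by
          apply mul_le_mul_of_nonneg_right hA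
          linarith
      _ = 2 * η * s ^ 3 := by ring
  have hE1c : c / 2 * s ^ 3 ≤ E1.card := by
    have h1 := card_filter_add_card_filter_not (s := E) (fun f => f.1 ∈ A0)
    have h2 : ((E.filter fun f => f.1 ∈ A0).card : ℝ) + E1.card = E.card := by
      exact_mod_cast h1
    have h3 : 2 * η * s ^ 3 ≤ c / 2 * s ^ 3 := by
      apply mul_le_mul_of_nonneg_right _ (by positivity)
      linarith
    linarith
  -- vertices of large degree
  set B1 : Finset B := univ.filter fun b => c / 4 * s ≤ (atB E1 b).card with hB1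
  have hB1c : c / (4 * K) * s ^ 2 ≤ B1.card := by
    have h1 : (E1.card : ℝ) ≤ c / 4 * s * s ^ 2 + K * s * B1.card := by
      rw [card_eq_sum_atB]
      push_cast
      rw [← sum_filter_add_sum_filter_not univ (fun b => c / 4 * s ≤ ((atB E1 b).card : ℝ))]
      have h2 : (∑ b ∈ univ.filter fun b => c / 4 * s ≤ ((atB E1 b).card : ℝ),
          ((atB E1 b).card : ℝ)) ≤ B1.card * (K * s) := by
        rw [← nsmul_eq_mul, ← sum_const]
        refine sum_le_sum fun b _ => ?_
        refine le_trans ?_ (hdB b)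
        exact_mod_cast card_le_card (atB_mono hsub b)
      have h3 : (∑ b ∈ univ.filter fun b => ¬ c / 4 * s ≤ ((atB E1 b).card : ℝ),
          ((atB E1 b).card : ℝ)) ≤ s ^ 2 * (c / 4 * s) := by
        calc _ ≤ ∑ b ∈ univ.filter fun b => ¬ c / 4 * s ≤ ((atB E1 b).card : ℝ),
              (c / 4 * s) := by
              refine sum_le_sum fun b hb => ?_
              exact (not_le.1 (mem_filter.1 hb).2).le
          _ = ((univ.filter fun b => ¬ c / 4 * s ≤ ((atB E1 b).card : ℝ)).card : ℝ) *
              (c / 4 * s) := by rw [sum_const, nsmul_eq_mul]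
          _ ≤ (Fintype.card B : ℝ) * (c / 4 * s) := by
              apply mul_le_mul_of_nonneg_right _ (by positivity)
              exact_mod_cast card_le_univ _
          _ ≤ s ^ 2 * (c / 4 * s) := by
              apply mul_le_mul_of_nonneg_right hB (by positivity)
      linarith
    have h2 : c / 4 * s ^ 3 ≤ K * s * B1.card := by
      have : c / 4 * s * s ^ 2 = c / 4 * s ^ 3 := by ring
      linarith
    have h3 : K * s * (c / (4 * K) * s ^ 2) ≤ K * s * B1.card := by
      have : K * s * (c / (4 * K) * s ^ 2) = c / 4 * s ^ 3 := by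
        field_simp
      linarith
    exact le_of_mul_le_mul_left h3 (by positivity)
  -- cuts
  have hcut : ∀ b ∈ B1, ∃ j0 j1 j1' : ℕ, j0 < j1 ∧ j1 < j1' ∧ (∃ f ∈ atB E1 b, blk f = j1) ∧
      (∃ f ∈ atB E1 b, blk f = j1') ∧
      c / 16 * s ≤ ((atB E1 b).filter fun f => blk f ≤ j0).card ∧
      c / 16 * s ≤ ((atB E1 b).filter fun f => j1' < blk f).card := by
    intro b hb
    refine exists_cuts (atB E1 b) blk (c / 16 * s) (by positivity) ?_ ?_
    · have := (mem_filter.1 hb).2
      linarith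
    · intro j
      have h1 : (((atB E1 b).filter fun f => blk f = j).card : ℝ) ≤
          ((atB E b).filter fun f => blk f = j).card := by
        exact_mod_cast card_le_card (filter_subset_filter _ (atB_mono hsub b))
      have h2 := card_blockB_le hηs hηB b j
      have h3 : η * s ≤ c / 32 * s := mul_le_mul_of_nonneg_right hη hs.le
      linarith
  choose! c0 c1 c1' h01 h11 hc1 hc1' hl hr using hcut
  -- pigeonhole on the types
  set T : Finset (Finset ℕ × ℕ × ℕ × ℕ) :=
    (range M).powerset ×ˢ range M ×ˢ range M ×ˢ range M with hT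
  have hmaps : ∀ b ∈ B1, ((atB E1 b).image blk, c0 b, c1 b, c1' b) ∈ T := by
    intro b hb
    obtain ⟨f, hf, hf'⟩ := hc1' b hb
    have h1 : c1' b < M := hf' ▸ hM f (hsub (mem_atB.1 hf).1)
    have h2 := h01 b hb
    have h3 := h11 b hb
    simp only [hT, mem_product, mem_powerset, mem_range]
    refine ⟨?_, by omega, by omega, h1⟩
    intro x hx
    obtain ⟨g, hg, rfl⟩ := mem_image.1 hx
    exact mem_range.2 (hM g (hsub (mem_atB.1 hg).1))
  have hTcard : (T.card : ℝ) = 2 ^ M * M ^ 3 := by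
    simp only [hT, card_product, card_powerset, card_range]
    push_cast
    ring
  have hTne : T.Nonempty := by
    rw [← card_pos]
    have : (0 : ℝ) < T.card := by
      rw [hTcard]
      positivity
    exact_mod_cast this
  have hM0' : (M : ℝ) ≠ 0 := by positivity
  obtain ⟨⟨τ, k0, k1, k1'⟩, -, hS⟩ := exists_le_card_fiber_of_nsmul_le_card_of_maps_to
    (b := c / (4 * K * 2 ^ M * M ^ 3) * s ^ 2) hmaps hTne (by
      rw [nsmul_eq_mul, hTcard]
      refine le_trans (le_of_eq ?_) hB1c
      field_simp)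
  set S : Finset B := B1.filter fun b => ((atB E1 b).image blk, c0 b, c1 b, c1' b) =
    (τ, k0, k1, k1') with hSdef
  have hSmem : ∀ b ∈ S, b ∈ B1 ∧ (atB E1 b).image blk = τ ∧ c0 b = k0 ∧ c1 b = k1 ∧
      c1' b = k1' := by
    intro b hb
    have := mem_filter.1 hb
    simpa only [Prod.mk.injEq] using this
  have hSne : S.Nonempty := by
    rw [← card_pos]
    have : (0 : ℝ) < S.card := lt_of_lt_of_le (by positivity) hS
    exact_mod_cast this
  obtain ⟨b₀, hb₀⟩ := hSne
  obtain ⟨hb1, -, e0, e1, e1'⟩ := hSmem b₀ hb₀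
  refine ⟨E1, S, k0, k1, k1', hsub, ?_, ?_, hS, ?_, ?_, ?_, ?_⟩
  · rw [← e0, ← e1]; exact h01 b₀ hb1
  · rw [← e1, ← e1']; exact h11 b₀ hb1
  · intro f hf j j'
    have h1 := (mem_filter.1 hf).2
    by_contra hcon
    push Not at hcon
    apply h1
    simp only [hA0, mem_filter, mem_univ, true_and]
    refine ⟨j, j', fun g hg hgf => ?_⟩
    by_cases h : blk g = j
    · exact Or.inl h
    · exact Or.inr (hcon g hg hgf h)
  · intro b hb b' hb' f hf hfb
    have h1 : blk f ∈ (atB E1 b').image blk := by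
      rw [(hSmem b' hb').2.1, ← (hSmem b hb).2.1]
      exact mem_image_of_mem _ (mem_atB.2 ⟨hf, hfb⟩)
    obtain ⟨g, hg, hgf⟩ := mem_image.1 h1
    exact ⟨g, (mem_atB.1 hg).1, (mem_atB.1 hg).2, hgf⟩
  · intro b hb
    obtain ⟨hb1, -, e0, e1, e1'⟩ := hSmem b hb
    obtain ⟨f, hf, hf'⟩ := hc1 b hb1
    obtain ⟨g, hg, hg'⟩ := hc1' b hb1
    exact ⟨⟨f, (mem_atB.1 hf).1, (mem_atB.1 hf).2, hf'.trans e1⟩,
      ⟨g, (mem_atB.1 hg).1, (mem_atB.1 hg).2, hg'.trans e1'⟩⟩
  · intro b hb
    obtain ⟨hb1, -, e0, e1, e1'⟩ := hSmem b hb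
    rw [← e0, ← e1']
    exact ⟨hl b hb1, hr b hb1⟩

end Pool.Agent.LP.H58
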