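import Pool.Agent.H12_d8337a.CaseIIbH58

/-!
# Case II, part c: regularisation and pairs
-/

namespace Pool.Agent.LP.H58

open Finset

set_option linter.unusedSectionVars false

section

variable {A B : Type} [Fintype A] [Fintype B] [DecidableEq A] [DecidableEq B]

lemma card_com_le_of_subset {E F : Finset (A × B)} (h : E ⊆ F) (b b' : B) :
    (com E b b').card ≤ (com F b b').card := by
  apply card_le_card
  intro a ha
  simp only [com, mem_filter, mem_univ, true_and] at ha ⊢
  exact ⟨h ha.1, h ha.2⟩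

theorem exists_reg (d s : ℝ) (hd : 0 < d) (hs : 0 < s) (E1 JL JR : Finset (A × B))
    (S : Finset B) (hJL : JL ⊆ E1) (hJR : JR ⊆ E1)
    (hcom : ∀ b ∈ S, ∀ b' ∈ S, b ≠ b' → (com E1 b b').card ≤ 8)
    (hl : ∀ b ∈ S, d * s ≤ (atB JL b).card) (hr : ∀ b ∈ S, d * s ≤ (atB JR b).card)
    (hS0 : (0 : ℝ) < S.card) (hlarge : d * s / 72 ≤ S.card) :
    ∃ S1 ⊆ S, ∃ L R : Finset (A × B), L ⊆ JL ∧ R ⊆ JR ∧ (S.card : ℝ) ≤ 2 * S1.card ∧
      (∀ f ∈ L, f.2 ∈ S1) ∧ (∀ f ∈ R, f.2 ∈ S1) ∧
      (∀ b ∈ S1, d / 2 * s ≤ (atB L b).card) ∧ (∀ b ∈ S1, d / 2 * s ≤ (atB R b).card) ∧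
      (∀ a, ((atA L a).card : ℝ) ≤ 2 * (144 / d) * S1.card / s) := by
  classical
  set thr : ℝ := 144 * S.card / (d * s) with hthr
  have hthr0 : 0 ≤ thr := by positivity
  have hthr2 : 2 ≤ thr := by
    rw [hthr, le_div_iff₀ (by positivity)]
    linarith
  set E1S := E1.filter fun f => f.2 ∈ S with hE1S
  set Ah : Finset A := univ.filter fun a => thr < (atA E1S a).card with hAh
  set Fh := E1S.filter fun f => f.1 ∈ Ah with hFh
  have hFh1 : Fh ⊆ E1 := (filter_subset _ _).trans (filter_subset _ _)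
  have hkst : (Fh.card : ℝ) ≤ Ah.card + 3 * √(Ah.card) * S.card := by
    refine card_le_of_com Fh Ah S ?_ ?_
    · intro f hf
      have h1 := mem_filter.1 hf
      have h2 := mem_filter.1 h1.1
      exact mem_product.2 ⟨h1.2, h2.2⟩
    · intro b hb b' hb' hbb
      exact (card_com_le_of_subset hFh1 b b').trans (hcom b hb b' hb' hbb)
  have hlow : thr * Ah.card ≤ Fh.card := by
    rw [card_eq_sum_atA Fh]
    push_cast
    calc thr * Ah.card = ∑ _a ∈ Ah, thr := by rw [sum_const, nsmul_eq_mul]; ring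
      _ ≤ ∑ a ∈ Ah, ((atA Fh a).card : ℝ) := by
          refine sum_le_sum fun a ha => ?_
          have h1 := (mem_filter.1 ha).2
          refine h1.le.trans ?_
          have h2 : atA E1S a ⊆ atA Fh a := by
            intro f hf
            rw [mem_atA] at hf ⊢
            exact ⟨mem_filter.2 ⟨hf.1, hf.2 ▸ ha⟩, hf.2⟩
          exact_mod_cast card_le_card h2
      _ ≤ ∑ a, ((atA Fh a).card : ℝ) :=
          sum_le_sum_of_subset_of_nonneg (subset_univ _) fun _ _ _ => Nat.cast_nonneg _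
  have hFhc : (Fh.card : ℝ) ≤ d / 4 * s * S.card := by
    set x := √(Ah.card : ℝ) with hx
    have hx0 : 0 ≤ x := Real.sqrt_nonneg _
    have hxx : x * x = Ah.card := Real.mul_self_sqrt (Nat.cast_nonneg _)
    rw [← hxx] at hkst hlow
    have h1 : 2 * (x * x) ≤ Fh.card := by nlinarith
    have h2 : (Fh.card : ℝ) ≤ 6 * x * S.card := by nlinarith
    rcases hx0.eq_or_lt with h0 | h0
    · rw [← h0] at h2
      have : 0 ≤ d / 4 * s * S.card := by positivity
      linarith
    · have h3 : thr * x ≤ 6 * S.card := by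
        have : (thr * x) * x ≤ (6 * S.card) * x := by nlinarith
        exact le_of_mul_le_mul_right this h0
      have h4 : x ≤ d * s / 24 := by
        rw [hthr, div_mul_eq_mul_div, div_le_iff₀ (by positivity)] at h3
        have : (24 * x) * (6 * S.card) ≤ (d * s) * (6 * S.card) := by nlinarith
        have h5 := le_of_mul_le_mul_right this (by positivity)
        linarith
      have h5 : 6 * x * S.card ≤ 6 * (d * s / 24) * S.card := by
        apply mul_le_mul_of_nonneg_right _ hS0.le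
        linarith
      linarith
  set L' := JL.filter fun f => f.1 ∉ Ah with hL'
  set R' := JR.filter fun f => f.1 ∉ Ah with hR'
  set S1 := S.filter fun b => d / 2 * s ≤ ((atB L' b).card : ℝ) ∧ d / 2 * s ≤ ((atB R' b).card : ℝ)
    with hS1
  have hloss : ∀ J : Finset (A × B), J ⊆ E1 → ∀ b ∈ S, d * s ≤ (atB J b).card →
      ¬ d / 2 * s ≤ ((atB (J.filter fun f => f.1 ∉ Ah) b).card : ℝ) →
      d / 2 * s ≤ (atB Fh b).card := by
    intro J hJ b hb h1 h2
    have h3 : atB J b ⊆ atB (J.filter fun f => f.1 ∉ Ah) b ∪ atB Fh b := by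
      intro f hf
      rw [mem_atB] at hf
      rw [mem_union, mem_atB, mem_atB, mem_filter]
      by_cases h : f.1 ∈ Ah
      · right
        refine ⟨mem_filter.2 ⟨mem_filter.2 ⟨hJ hf.1, hf.2 ▸ hb⟩, h⟩, hf.2⟩
      · left
        exact ⟨⟨hf.1, h⟩, hf.2⟩
    have h4 := (card_le_card h3).trans (card_union_le _ _)
    have h5 : ((atB J b).card : ℝ) ≤ (atB (J.filter fun f => f.1 ∉ Ah) b).card +
        (atB Fh b).card := by exact_mod_cast h4
    linarith
  have hS1c : (S.card : ℝ) ≤ 2 * S1.card := by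
    have h1 : (((S.filter fun b => ¬ (d / 2 * s ≤ ((atB L' b).card : ℝ) ∧
        d / 2 * s ≤ ((atB R' b).card : ℝ))).card : ℝ)) * (d / 2 * s) ≤ Fh.card := by
      rw [card_eq_sum_atB Fh]
      push_cast
      calc _ = ∑ _b ∈ S.filter fun b => ¬ (d / 2 * s ≤ ((atB L' b).card : ℝ) ∧
            d / 2 * s ≤ ((atB R' b).card : ℝ)), (d / 2 * s) := by rw [sum_const, nsmul_eq_mul]
        _ ≤ ∑ b ∈ S.filter fun b => ¬ (d / 2 * s ≤ ((atB L' b).card : ℝ) ∧
            d / 2 * s ≤ ((atB R' b).card : ℝ)), ((atB Fh b).card : ℝ) := by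
            refine sum_le_sum fun b hb => ?_
            obtain ⟨hb, hb'⟩ := mem_filter.1 hb
            by_cases h : d / 2 * s ≤ ((atB L' b).card : ℝ)
            · have h' : ¬ d / 2 * s ≤ ((atB R' b).card : ℝ) := fun h' => hb' ⟨h, h'⟩
              exact hloss JR hJR b hb (hr b hb) h'
            · exact hloss JL hJL b hb (hl b hb) h
        _ ≤ _ := sum_le_sum_of_subset_of_nonneg (subset_univ _) fun _ _ _ => Nat.cast_nonneg _
    have h2 : (S1.card : ℝ) + (S.filter fun b => ¬ (d / 2 * s ≤ ((atB L' b).card : ℝ) ∧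
        d / 2 * s ≤ ((atB R' b).card : ℝ))).card = S.card := by
      exact_mod_cast card_filter_add_card_filter_not (s := S)
        (fun b => d / 2 * s ≤ ((atB L' b).card : ℝ) ∧ d / 2 * s ≤ ((atB R' b).card : ℝ))
    have h3 : (((S.filter fun b => ¬ (d / 2 * s ≤ ((atB L' b).card : ℝ) ∧
        d / 2 * s ≤ ((atB R' b).card : ℝ))).card : ℝ)) * (d / 2 * s) ≤
        (S.card / 2) * (d / 2 * s) := by
      refine (h1.trans hFhc).trans (le_of_eq ?_)
      ring
    have h4 := le_of_mul_le_mul_right h3 (by positivity)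
    linarith
  refine ⟨S1, filter_subset _ _, L'.filter fun f => f.2 ∈ S1, R'.filter fun f => f.2 ∈ S1,
    (filter_subset _ _).trans (filter_subset _ _), (filter_subset _ _).trans (filter_subset _ _),
    hS1c, fun f hf => (mem_filter.1 hf).2, fun f hf => (mem_filter.1 hf).2, ?_, ?_, ?_⟩
  · intro b hb
    have h1 := (mem_filter.1 hb).2.1
    refine h1.trans ?_
    have : atB L' b ⊆ atB (L'.filter fun f => f.2 ∈ S1) b := by
      intro f hf
      rw [mem_atB] at hf ⊢
      exact ⟨mem_filter.2 ⟨hf.1, hf.2 ▸ hb⟩, hf.2⟩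
    exact_mod_cast card_le_card this
  · intro b hb
    have h1 := (mem_filter.1 hb).2.2
    refine h1.trans ?_
    have : atB R' b ⊆ atB (R'.filter fun f => f.2 ∈ S1) b := by
      intro f hf
      rw [mem_atB] at hf ⊢
      exact ⟨mem_filter.2 ⟨hf.1, hf.2 ▸ hb⟩, hf.2⟩
    exact_mod_cast card_le_card this
  · intro a
    by_cases ha : a ∈ Ah
    · have : atA (L'.filter fun f => f.2 ∈ S1) a = ∅ := by
        apply eq_empty_of_forall_notMem
        intro f hf
        rw [mem_atA] at hf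
        have h1 := (mem_filter.1 (mem_filter.1 hf.1).1).2
        exact h1 (hf.2 ▸ ha)
      rw [this]
      simp only [card_empty, Nat.cast_zero]
      positivity
    · have h1 : ((atA E1S a).card : ℝ) ≤ thr := by
        by_contra h
        exact ha (mem_filter.2 ⟨mem_univ _, not_le.1 h⟩)
      have h2 : atA (L'.filter fun f => f.2 ∈ S1) a ⊆ atA E1S a := by
        intro f hf
        rw [mem_atA] at hf ⊢
        have h3 := mem_filter.1 hf.1
        have h4 := mem_filter.1 h3.1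
        exact ⟨mem_filter.2 ⟨hJL h4.1, (mem_filter.1 h3.2).1⟩, hf.2⟩
      have h3 : ((atA (L'.filter fun f => f.2 ∈ S1) a).card : ℝ) ≤ thr :=
        le_trans (by exact_mod_cast card_le_card h2) h1
      refine h3.trans ?_
      rw [hthr, div_le_div_iff₀ (by positivity) hs]
      have : 2 * (144 / d) * (S1.card : ℝ) * (d * s) = 144 * (2 * S1.card) * s := by
        field_simp
      rw [this]
      apply mul_le_mul_of_nonneg_right _ hs.le
      linarith

/-- the vertices `b` which have a common neighbour `a` with `b1` such that `e` is crossed first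
by the edge to `b` -/
noncomputable def Zset (F : Finset (A × B)) (pos : A × B → ℝ) (S1 : Finset B) (b1 : B) : Finset B :=
  by
    classical
    exact S1.filter fun b => b ≠ b1 ∧ ∃ a, (a, b1) ∈ F ∧ (a, b) ∈ F ∧ pos (a, b) < pos (a, b1)

lemma mem_Zset {F : Finset (A × B)} {pos : A × B → ℝ} {S1 : Finset B} {b1 b : B} :
    b ∈ Zset F pos S1 b1 ↔ b ∈ S1 ∧ b ≠ b1 ∧
      ∃ a, (a, b1) ∈ F ∧ (a, b) ∈ F ∧ pos (a, b) < pos (a, b1) := by
  classical
  unfold Zset
  rw [mem_filter]

lemma card_sq_le_pairs {α : Type*} [DecidableEq α] (X : Finset α) (p : α → ℝ)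
    (hp : ∀ x ∈ X, ∀ y ∈ X, p x = p y → x = y) :
    X.card ^ 2 ≤ 2 * ((X ×ˢ X).filter fun q : α × α => p q.2 < p q.1).card + X.card := by
  classical
  have h1 : (X ×ˢ X) ⊆ ((X ×ˢ X).filter fun q : α × α => p q.2 < p q.1) ∪
      (((X ×ˢ X).filter fun q : α × α => p q.1 < p q.2) ∪ X.diag) := by
    intro q hq
    have hq' := mem_product.1 hq
    rw [mem_union, mem_union, mem_filter, mem_filter, mem_diag]
    rcases lt_trichotomy (p q.1) (p q.2) with h | h | h
    · exact Or.inr (Or.inl ⟨hq, h⟩)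
    · exact Or.inr (Or.inr ⟨hq'.1, hp _ hq'.1 _ hq'.2 h⟩)
    · exact Or.inl ⟨hq, h⟩
  have h2 : ((X ×ˢ X).filter fun q : α × α => p q.1 < p q.2).card =
      ((X ×ˢ X).filter fun q : α × α => p q.2 < p q.1).card := by
    refine card_bij (fun q _ => q.swap) ?_ ?_ ?_
    · intro q hq
      simp only [mem_filter, mem_product, Prod.fst_swap, Prod.snd_swap] at hq ⊢
      exact ⟨⟨hq.1.2, hq.1.1⟩, hq.2⟩
    · intro q _ q' _ h
      exact Prod.swap_injective h
    · intro q hq
      refine ⟨q.swap, ?_, Prod.swap_swap q⟩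
      simp only [mem_filter, mem_product, Prod.fst_swap, Prod.snd_swap] at hq ⊢
      exact ⟨⟨hq.1.2, hq.1.1⟩, hq.2⟩
  have h3 := (card_le_card h1).trans (card_union_le _ _)
  have h4 := card_union_le ((X ×ˢ X).filter fun q : α × α => p q.1 < p q.2) X.diag
  rw [h2, diag_card] at h4
  rw [card_product] at h3
  have h5 : X.card ^ 2 = X.card * X.card := sq _
  omega

theorem exists_pairs (d s : ℝ) (hd : 0 < d) (hs : 0 < s) (hA : (Fintype.card A : ℝ) ≤ s ^ 2)
    (pos : A × B → ℝ) (F : Finset (A × B)) (hinj : PosInj F pos) (S1 : Finset B)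
    (hF2 : ∀ f ∈ F, f.2 ∈ S1)
    (hcom : ∀ b ∈ S1, ∀ b' ∈ S1, b ≠ b' → (com F b b').card ≤ 8)
    (hdeg : ∀ b ∈ S1, d / 2 * s ≤ (atB F b).card) (hlarge : 4 * s ≤ d * S1.card) :
    d ^ 2 / 256 * S1.card ≤ ((S1.filter fun b1 => d ^ 2 / 256 * (S1.card : ℝ) ≤
      (Zset F pos S1 b1).card).card : ℝ) := by
  classical
  have hn0 : (0 : ℝ) < S1.card := by
    by_contra h
    have h1 : (S1.card : ℝ) = 0 := le_antisymm (not_lt.1 h) (Nat.cast_nonneg _)
    rw [h1] at hlarge
    linarith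
  set n : ℝ := (S1.card : ℝ) with hn
  -- pairs of edges with a common end point in `A`
  set Q := (F ×ˢ F).filter fun q : (A × B) × (A × B) => q.1.1 = q.2.1 ∧ pos q.2 < pos q.1 with hQ
  have hdegA : (∑ a, ((atA F a).card : ℝ) ^ 2) ≤ 2 * Q.card + F.card := by
    have h1 : ∀ a, (atA F a).card ^ 2 ≤
        2 * (Q.filter fun q => q.1.1 = a).card + (atA F a).card := by
      intro a
      have h2 := card_sq_le_pairs (atA F a) pos (fun x hx y hy h =>
        hinj x (mem_atA.1 hx).1 y (mem_atA.1 hy).1 h)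
      have h3 : ((atA F a ×ˢ atA F a).filter
          fun q : (A × B) × (A × B) => pos q.2 < pos q.1) ⊆ (Q.filter fun q => q.1.1 = a) := by
        intro q hq
        simp only [mem_filter, mem_product, mem_atA, hQ] at hq ⊢
        exact ⟨⟨⟨hq.1.1.1, hq.1.2.1⟩, hq.1.1.2.trans hq.1.2.2.symm, hq.2⟩, hq.1.1.2⟩
      have h4 := card_le_card h3
      omega
    have h2 : (∑ a, (atA F a).card ^ 2) ≤ 2 * Q.card + F.card := by
      calc _ ≤ ∑ a, (2 * (Q.filter fun q => q.1.1 = a).card + (atA F a).card) :=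
            sum_le_sum fun a _ => h1 a
        _ = 2 * (∑ a, (Q.filter fun q => q.1.1 = a).card) + ∑ a, (atA F a).card := by
            rw [sum_add_distrib, mul_sum]
        _ = _ := by
            have h3 : Q.card = ∑ a, (Q.filter fun q => q.1.1 = a).card :=
              card_eq_sum_card_fiberwise (f := fun q : (A × B) × (A × B) => q.1.1)
                (fun _ _ => mem_coe.2 (mem_univ _))
            rw [← card_eq_sum_atA, ← h3]
    exact_mod_cast h2
  have hFl : d / 2 * s * n ≤ F.card := by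
    rw [card_eq_sum_atB F]
    push_cast
    calc d / 2 * s * n = ∑ _b ∈ S1, (d / 2 * s) := by rw [sum_const, nsmul_eq_mul]; ring
      _ ≤ ∑ b ∈ S1, ((atB F b).card : ℝ) := sum_le_sum fun b hb => hdeg b hb
      _ ≤ _ := sum_le_sum_of_subset_of_nonneg (subset_univ _) fun _ _ _ => Nat.cast_nonneg _
  have hcs : (F.card : ℝ) ^ 2 ≤ s ^ 2 * (2 * Q.card + F.card) := by
    have h1 : (∑ a : A, ((atA F a).card : ℝ)) ^ 2 ≤
        (univ : Finset A).card * ∑ a, ((atA F a).card : ℝ) ^ 2 := sq_sum_le_card_mul_sum_sq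
    have h2 : (∑ a : A, ((atA F a).card : ℝ)) = F.card := by
      rw [card_eq_sum_atA F]
      push_cast
      rfl
    rw [h2, card_univ] at h1
    refine h1.trans ?_
    refine mul_le_mul hA hdegA (sum_nonneg fun _ _ => sq_nonneg _) (by positivity)
  have hQl : d ^ 2 / 16 * n ^ 2 ≤ Q.card := by
    set e : ℝ := (F.card : ℝ) with he
    have h1 : 2 * s ^ 2 ≤ e := by nlinarith
    have h2 : s ^ 2 * e ≤ e ^ 2 / 2 := by nlinarith
    have h3 : e ^ 2 ≤ 4 * s ^ 2 * Q.card := by nlinarith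
    have h4 : (d / 2 * s * n) ^ 2 ≤ e ^ 2 := by
      apply pow_le_pow_left₀ (by positivity) hFl
    have h5 : (d / 2 * s * n) ^ 2 = (4 * s ^ 2) * (d ^ 2 / 16 * n ^ 2) := by ring
    rw [h5] at h4
    exact le_of_mul_le_mul_left (h4.trans h3) (by positivity)
  -- the pairs of vertices
  set Y := (S1 ×ˢ S1).filter fun y : B × B => y.2 ∈ Zset F pos S1 y.1 with hY
  have hQY : Q.card ≤ 8 * Y.card := by
    refine card_le_mul_card_image_of_maps_to (f := fun q : (A × B) × (A × B) => (q.1.2, q.2.2))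
      ?_ 8 ?_
    · rintro ⟨⟨a, b⟩, ⟨a', b'⟩⟩ hq
      simp only [hQ, mem_filter, mem_product] at hq
      obtain ⟨⟨h1, h2⟩, rfl, h3⟩ := hq
      simp only [hY, mem_filter, mem_product]
      refine ⟨⟨hF2 _ h1, hF2 _ h2⟩, mem_Zset.2 ⟨hF2 _ h2, ?_, a, h1, h2, h3⟩⟩
      rintro rfl
      exact lt_irrefl _ h3
    · rintro ⟨b, b'⟩ hy
      simp only [hY, mem_filter, mem_product] at hy
      obtain ⟨⟨hb, hb'⟩, hz⟩ := hy
      have hbb := (mem_Zset.1 hz).2.1
      refine le_trans ?_ (hcom b hb b' hb' hbb.symm)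
      refine card_le_card_of_injOn (fun q => q.1.1) ?_ ?_
      · rintro ⟨⟨a, c⟩, ⟨a', c'⟩⟩ hq
        simp only [hQ, coe_filter, mem_filter, mem_product, Set.mem_ofPred_eq, Prod.mk.injEq] at hq
        obtain ⟨⟨⟨h1, h2⟩, rfl, h3⟩, rfl, rfl⟩ := hq
        simp only [com, coe_filter, mem_univ, true_and, Set.mem_ofPred_eq]
        exact ⟨h1, h2⟩
      · rintro ⟨⟨a, c⟩, ⟨a', c'⟩⟩ hq ⟨⟨x, y⟩, ⟨x', y'⟩⟩ hq' h
        simp only [hQ, coe_filter, mem_filter, mem_product, Set.mem_ofPred_eq, Prod.mk.injEq]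
          at hq hq'
        obtain ⟨⟨⟨h1, h2⟩, rfl, h3⟩, rfl, rfl⟩ := hq
        obtain ⟨⟨⟨h1', h2'⟩, rfl, h3'⟩, rfl, rfl⟩ := hq'
        simp only at h
        subst h
        rfl
  set S2 := S1.filter fun b1 => d ^ 2 / 256 * n ≤ (Zset F pos S1 b1).card with hS2
  have hYc : (Y.card : ℝ) ≤ S2.card * n + n * (d ^ 2 / 256 * n) := by
    have h1 : Y.card = ∑ b ∈ S1, (Y.filter fun y => y.1 = b).card :=
      card_eq_sum_card_fiberwise (f := Prod.fst) (fun y hy => by
        have := mem_filter.1 (mem_coe.1 hy)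
        exact mem_coe.2 (mem_product.1 this.1).1)
    have h2 : ∀ b ∈ S1, (Y.filter fun y => y.1 = b).card ≤ (Zset F pos S1 b).card := by
      intro b _
      refine card_le_card_of_injOn (fun y => y.2) ?_ ?_
      · rintro ⟨x, y⟩ hy
        simp only [hY, coe_filter, mem_filter, mem_product, Set.mem_ofPred_eq] at hy
        obtain ⟨⟨-, h⟩, rfl⟩ := hy
        exact h
      · rintro ⟨x, y⟩ hy ⟨x', y'⟩ hy' h
        simp only [coe_filter, Set.mem_ofPred_eq] at hy hy' h
        obtain ⟨-, rfl⟩ := hy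
        obtain ⟨-, rfl⟩ := hy'
        rw [h]
    rw [h1]
    push_cast
    calc (∑ b ∈ S1, ((Y.filter fun y => y.1 = b).card : ℝ))
        ≤ ∑ b ∈ S1, ((Zset F pos S1 b).card : ℝ) :=
          sum_le_sum fun b hb => by exact_mod_cast h2 b hb
      _ = (∑ b ∈ S1.filter fun b1 => d ^ 2 / 256 * n ≤ ((Zset F pos S1 b1).card : ℝ),
            ((Zset F pos S1 b).card : ℝ)) +
          ∑ b ∈ S1.filter fun b1 => ¬ d ^ 2 / 256 * n ≤ ((Zset F pos S1 b1).card : ℝ),
            ((Zset F pos S1 b).card : ℝ) := (sum_filter_add_sum_filter_not _ _ _).symm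
      _ ≤ (∑ b ∈ S1.filter fun b1 => d ^ 2 / 256 * n ≤ ((Zset F pos S1 b1).card : ℝ), n) +
          ∑ b ∈ S1.filter fun b1 => ¬ d ^ 2 / 256 * n ≤ ((Zset F pos S1 b1).card : ℝ),
            (d ^ 2 / 256 * n) := by
          refine add_le_add (sum_le_sum fun b _ => ?_) (sum_le_sum fun b hb => ?_)
          · have : Zset F pos S1 b ⊆ S1 := fun x hx => (mem_Zset.1 hx).1
            rw [hn]
            exact_mod_cast card_le_card this
          · exact (not_le.1 (mem_filter.1 hb).2).le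
      _ ≤ S2.card * n + n * (d ^ 2 / 256 * n) := by
          rw [sum_const, sum_const, nsmul_eq_mul, nsmul_eq_mul]
          refine add_le_add le_rfl ?_
          refine mul_le_mul_of_nonneg_right ?_ (by positivity)
          rw [hn]
          exact Nat.cast_le.2 (card_filter_le _ _)
  have h1 : (Q.card : ℝ) ≤ 8 * Y.card := by exact_mod_cast hQY
  have h2 : (d ^ 2 / 256 * n) * n ≤ S2.card * n := by nlinarith
  exact le_of_mul_le_mul_right h2 hn0

end

end Pool.Agent.LP.H58
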