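import Pool.Agent.H12_d8337a.CaseIIcH58

/-!
# Case II, part d: gaps and windows
-/

namespace Pool.Agent.LP.H58

open Finset

set_option linter.unusedSectionVars false

section

variable {A B : Type} [Fintype A] [Fintype B] [DecidableEq A] [DecidableEq B]

/-- the edges at `b₁` crossing before `y` -/
noncomputable def gap (E1 : Finset (A × B)) (pos : A × B → ℝ) (b1 : B) (y : ℝ) :
    Finset (A × B) := by
  classical
  exact (atB E1 b1).filter fun p => pos p < y

lemma mem_gap {E1 : Finset (A × B)} {pos : A × B → ℝ} {b1 : B} {y : ℝ} {p : A × B} :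
    p ∈ gap E1 pos b1 y ↔ (p ∈ E1 ∧ p.2 = b1) ∧ pos p < y := by
  classical
  unfold gap
  rw [mem_filter, mem_atB]

lemma gap_mono {E1 : Finset (A × B)} {pos : A × B → ℝ} {b1 : B} {y y' : ℝ} (h : y ≤ y') :
    gap E1 pos b1 y ⊆ gap E1 pos b1 y' := by
  intro p hp
  rw [mem_gap] at hp ⊢
  exact ⟨hp.1, hp.2.trans_le h⟩

/-- the data needed for the key step -/
structure KeyData (E E1 L R : Finset (A × B)) (pos : A × B → ℝ) (blk : A × B → ℕ)
    (S1 : Finset B) (j0 j1 j1' : ℕ) : Prop where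
  hinj : PosInj E pos
  hT : AxT E pos
  hmono : ∀ f ∈ E, ∀ g ∈ E, pos f < pos g → blk f ≤ blk g
  hE1 : E1 ⊆ E
  h01 : j0 < j1
  h11 : j1 < j1'
  hL1 : L ⊆ E1
  hR1 : R ⊆ E1
  hLS : ∀ f ∈ L, f.2 ∈ S1
  hRS : ∀ f ∈ R, f.2 ∈ S1
  hLb : ∀ f ∈ L, blk f ≤ j0
  hRb : ∀ f ∈ R, j1' < blk f
  hx : ∀ b ∈ S1, ∃ f ∈ E1, f.2 = b ∧ blk f = j1
  hy : ∀ b ∈ S1, ∃ f ∈ E1, f.2 = b ∧ blk f = j1'
  htau : ∀ b ∈ S1, ∀ b' ∈ S1, ∀ f ∈ E1, f.2 = b → ∃ g ∈ E1, g.2 = b' ∧ blk g = blk f

lemma KeyData.lt {E E1 L R : Finset (A × B)} {pos : A × B → ℝ} {blk : A × B → ℕ}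
    {S1 : Finset B} {j0 j1 j1' : ℕ} (H : KeyData E E1 L R pos blk S1 j0 j1 j1')
    {f g : A × B} (hf : f ∈ E) (hg : g ∈ E) (h : blk f < blk g) : pos f < pos g := by
  rcases lt_trichotomy (pos f) (pos g) with h1 | h1 | h1
  · exact h1
  · have := H.hinj f hf g hg h1
    subst this
    omega
  · have := H.hmono g hg f hf h1
    omega

lemma key_aux {E E1 L R : Finset (A × B)} {pos : A × B → ℝ} {blk : A × B → ℕ}
    {S1 : Finset B} {j0 j1 j1' : ℕ} (H : KeyData E E1 L R pos blk S1 j0 j1 j1')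
    {b1 b b' : B} (hb1 : b1 ∈ S1) (hb : b ≠ b1) (hb' : b' ≠ b1) (hbb : b ≠ b')
    {α α' a p : A} (h1 : (α, b1) ∈ L) (h2 : (α, b) ∈ L) (h12 : pos (α, b) < pos (α, b1))
    (h1' : (α', b1) ∈ L) (h2' : (α', b') ∈ L)
    (ha : (a, b) ∈ R) (ha' : (a, b') ∈ R) (hp : (p, b1) ∈ E1)
    (hp1 : pos (α, b) ≤ pos (p, b1)) (hp2 : pos (p, b1) < pos (α', b')) : False := by
  have hLE : L ⊆ E := H.hL1.trans H.hE1
  have hRE : R ⊆ E := H.hR1.trans H.hE1
  have hbS : b ∈ S1 := H.hLS _ h2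
  obtain ⟨⟨x, c⟩, hx, hxc, hxb⟩ := H.hx b1 hb1
  obtain ⟨⟨y, c'⟩, hy, hyc, hyb⟩ := H.hy b hbS
  simp only at hxc hyc
  subst hxc hyc
  have hxE := H.hE1 hx
  have hyE := H.hE1 hy
  have hpE := H.hE1 hp
  have k1 := H.hLb _ h1
  have k2 := H.hLb _ h2
  have k2' := H.hLb _ h2'
  have k3 := H.hRb _ ha'
  have k01 := H.h01
  have k11 := H.h11
  have hp1' : pos (α, c') < pos (p, c) := by
    refine lt_of_le_of_ne hp1 fun h => ?_
    have := H.hinj _ (hLE h2) _ hpE h
    simp only [Prod.mk.injEq] at this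
    exact hb this.2
  have hne : pos (α, c) ≠ pos (α', b') := fun h => by
    have := H.hinj _ (hLE h1) _ (hLE h2') h
    simp only [Prod.mk.injEq] at this
    exact hb' this.2.symm
  have hoy : pos (α, c) < pos (y, c') := H.lt (hLE h1) hyE (by omega)
  have huy : pos (α', b') < pos (y, c') := H.lt (hLE h2') hyE (by omega)
  have hyv : pos (y, c') < pos (a, b') := H.lt hyE (hRE ha') (by omega)
  rcases lt_or_gt_of_ne hne with h | h
  · -- `o < u`
    refine H.hT c c' b' α α' a x y hb.symm hb'.symm hbb (hLE h1) (hLE h2) (hLE h1') (hLE h2')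
      (hRE ha) (hRE ha') hxE hyE ?_ ?_ ?_ ?_ hyv
    · exact lt_min h12 (H.lt (hLE h2) hxE (by omega))
    · exact min_lt_iff.2 (Or.inl h)
    · exact lt_max_iff.2 (Or.inr (H.lt (hLE h2') hxE (by omega)))
    · exact max_lt hoy (H.lt hxE hyE (by omega))
  · refine H.hT c c' b' α α' a p y hb.symm hb'.symm hbb (hLE h1) (hLE h2) (hLE h1') (hLE h2')
      (hRE ha) (hRE ha') hpE hyE ?_ ?_ ?_ ?_ hyv
    · exact lt_min h12 hp1'
    · exact min_lt_iff.2 (Or.inr hp2)
    · exact lt_max_iff.2 (Or.inl h)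
    · exact max_lt hoy (hp2.trans huy)

lemma key {E E1 L R : Finset (A × B)} {pos : A × B → ℝ} {blk : A × B → ℕ}
    {S1 : Finset B} {j0 j1 j1' : ℕ} (H : KeyData E E1 L R pos blk S1 j0 j1 j1')
    {b1 b b' : B} (hb1 : b1 ∈ S1) (hb : b ≠ b1) (hb' : b' ≠ b1) (hbb : b ≠ b')
    {α α' a : A} (h1 : (α, b1) ∈ L) (h2 : (α, b) ∈ L) (h12 : pos (α, b) < pos (α, b1))
    (h1' : (α', b1) ∈ L) (h2' : (α', b') ∈ L) (h12' : pos (α', b') < pos (α', b1))
    (ha : (a, b) ∈ R) (ha' : (a, b') ∈ R) :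
    gap E1 pos b1 (pos (α, b)) = gap E1 pos b1 (pos (α', b')) := by
  have main : ∀ {b b' : B} {α α' : A}, b ≠ b1 → b' ≠ b1 → b ≠ b' → (α, b1) ∈ L → (α, b) ∈ L →
      pos (α, b) < pos (α, b1) → (α', b1) ∈ L → (α', b') ∈ L → (a, b) ∈ R → (a, b') ∈ R →
      gap E1 pos b1 (pos (α', b')) ⊆ gap E1 pos b1 (pos (α, b)) := by
    intro b b' α α' hb hb' hbb h1 h2 h12 h1' h2' ha ha' p hp
    rw [mem_gap] at hp ⊢
    refine ⟨hp.1, ?_⟩
    by_contra hcon
    obtain ⟨⟨hpE, hpb⟩, hp2⟩ := hp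
    obtain ⟨p, c⟩ := p
    simp only at hpb
    subst hpb
    exact key_aux H hb1 hb hb' hbb h1 h2 h12 h1' h2' ha ha' hpE (not_lt.1 hcon) hp2
  exact subset_antisymm (main hb' hb hbb.symm h1' h2' h12' h1 h2 ha' ha)
    (main hb hb' hbb h1 h2 h12 h1' h2' ha ha')

/-- A large class of a function `γ` such that different classes have disjoint neighbourhoods. -/
theorem exists_big_class {ι : Type} [DecidableEq ι] (d s : ℝ) (hd : 0 < d) (hs : 0 < s)
    (hA : (Fintype.card A : ℝ) ≤ s ^ 2) (Z : Finset B) (R : Finset (A × B)) (γ : B → ι)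
    (hcom : ∀ b ∈ Z, ∀ b' ∈ Z, b ≠ b' → (com R b b').card ≤ 8)
    (hdeg : ∀ b ∈ Z, d / 2 * s ≤ (atB R b).card)
    (hkey : ∀ b ∈ Z, ∀ b' ∈ Z, ∀ a, (a, b) ∈ R → (a, b') ∈ R → γ b = γ b')
    (hZ : 8 * s / d < Z.card) :
    ∃ g, d ^ 2 / 288 * Z.card ≤ (Z.filter fun b => γ b = g).card := by
  classical
  by_contra hcon
  push Not at hcon
  set N : ι → Finset A := fun g => univ.filter fun a => ∃ b ∈ Z, γ b = g ∧ (a, b) ∈ R with hN
  have hdisj : ((Z.image γ : Finset ι) : Set ι).PairwiseDisjoint N := by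
    intro g _ g' _ hgg
    rw [Function.onFun, Finset.disjoint_left]
    intro a ha ha'
    simp only [hN, mem_filter, mem_univ, true_and] at ha ha'
    obtain ⟨b, hb, rfl, hab⟩ := ha
    obtain ⟨b', hb', rfl, hab'⟩ := ha'
    exact hgg (hkey b hb b' hb' a hab hab')
  have hNsum : (∑ g ∈ Z.image γ, ((N g).card : ℝ)) ≤ s ^ 2 := by
    have h1 := card_biUnion hdisj
    have h2 : ((Z.image γ).biUnion N).card ≤ Fintype.card A := card_le_univ _
    rw [h1] at h2
    refine le_trans ?_ hA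
    exact_mod_cast h2
  have hone : ∀ g ∈ Z.image γ, ((Z.filter fun b => γ b = g).card : ℝ) ≤
      (4 / (d * s)) * (N g).card + (Z.card / (2 * s ^ 2)) * (N g).card := by
    intro g hg
    set z : ℝ := ((Z.filter fun b => γ b = g).card : ℝ) with hz
    have hz0 : 0 ≤ z := Nat.cast_nonneg _
    set Rg := R.filter fun f => f.2 ∈ Z ∧ γ f.2 = g with hRg
    have h1 : (Rg.card : ℝ) ≤ (N g).card + 3 * √((N g).card) * z := by
      refine card_le_of_com Rg (N g) (Z.filter fun b => γ b = g) ?_ ?_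
      · rintro ⟨a, b⟩ hf
        have h1 := mem_filter.1 hf
        simp only at h1
        refine mem_product.2 ⟨?_, mem_filter.2 h1.2⟩
        simp only [hN, mem_filter, mem_univ, true_and]
        exact ⟨b, h1.2.1, h1.2.2, h1.1⟩
      · intro b hb b' hb' hbb
        exact (card_com_le_of_subset (filter_subset _ _) b b').trans
          (hcom b (mem_filter.1 hb).1 b' (mem_filter.1 hb').1 hbb)
    have h2 : d / 2 * s * z ≤ Rg.card := by
      rw [card_eq_sum_atB Rg]
      push_cast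
      calc d / 2 * s * z = ∑ _b ∈ Z.filter fun b => γ b = g, (d / 2 * s) := by
            rw [sum_const, nsmul_eq_mul]; ring
        _ ≤ ∑ b ∈ Z.filter fun b => γ b = g, ((atB Rg b).card : ℝ) := by
            refine sum_le_sum fun b hb => ?_
            have hb' := mem_filter.1 hb
            refine (hdeg b hb'.1).trans ?_
            have : atB R b ⊆ atB Rg b := by
              intro f hf
              rw [mem_atB] at hf ⊢
              refine ⟨mem_filter.2 ⟨hf.1, ?_⟩, hf.2⟩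
              rw [hf.2]
              exact hb'
            exact_mod_cast card_le_card this
        _ ≤ _ := sum_le_sum_of_subset_of_nonneg (subset_univ _) fun _ _ _ => Nat.cast_nonneg _
    set m : ℝ := ((N g).card : ℝ) with hm
    have hm0 : 0 ≤ m := Nat.cast_nonneg _
    have hZ0 : 0 ≤ (Z.card : ℝ) := Nat.cast_nonneg _
    by_cases hcase : d / 4 * s * z ≤ m
    · have h3 : z ≤ 4 / (d * s) * m := by
        rw [div_mul_eq_mul_div, le_div_iff₀ (by positivity)]
        linarith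
      have h4 : 0 ≤ (Z.card / (2 * s ^ 2) : ℝ) * m := by positivity
      linarith
    · push Not at hcase
      have hzpos : 0 < z := by
        by_contra h
        have : z = 0 := le_antisymm (not_lt.1 h) hz0
        rw [this] at hcase
        linarith
      have h3 : d / 4 * s * z ≤ 3 * √m * z := by linarith
      have h4 : d / 4 * s ≤ 3 * √m := le_of_mul_le_mul_right h3 hzpos
      have h5 : d ^ 2 * s ^ 2 / 144 ≤ m := by
        have h6 : (d * s / 12) ^ 2 ≤ (√m) ^ 2 := by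
          apply pow_le_pow_left₀ (by positivity)
          linarith
        rw [Real.sq_sqrt hm0] at h6
        refine le_trans (le_of_eq ?_) h6
        ring
      have h7 := hcon g
      have h8 : d ^ 2 / 288 * Z.card ≤ (Z.card / (2 * s ^ 2) : ℝ) * m := by
        calc d ^ 2 / 288 * (Z.card : ℝ) = (Z.card / (2 * s ^ 2) : ℝ) * (d ^ 2 * s ^ 2 / 144) := by
              field_simp
              ring
          _ ≤ _ := mul_le_mul_of_nonneg_left h5 (by positivity)
      have h9 : 0 ≤ 4 / (d * s) * m := by positivity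
      linarith
  have hsum : (Z.card : ℝ) ≤ 4 * s / d + Z.card / 2 := by
    have h1 : Z.card = ∑ g ∈ Z.image γ, (Z.filter fun b => γ b = g).card :=
      card_eq_sum_card_image γ Z
    have h2 : (Z.card : ℝ) = ∑ g ∈ Z.image γ, ((Z.filter fun b => γ b = g).card : ℝ) := by
      exact_mod_cast h1
    calc (Z.card : ℝ) = ∑ g ∈ Z.image γ, ((Z.filter fun b => γ b = g).card : ℝ) := h2
      _ ≤ ∑ g ∈ Z.image γ, ((4 / (d * s)) * (N g).card + (Z.card / (2 * s ^ 2)) * (N g).card) :=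
          sum_le_sum hone
      _ = (4 / (d * s) + Z.card / (2 * s ^ 2)) * ∑ g ∈ Z.image γ, ((N g).card : ℝ) := by
          rw [mul_sum]
          refine sum_congr rfl fun g _ => ?_
          ring
      _ ≤ (4 / (d * s) + Z.card / (2 * s ^ 2)) * s ^ 2 :=
          mul_le_mul_of_nonneg_left hNsum (by positivity)
      _ = _ := by
          field_simp
  have h3 : 8 * s / d = 2 * (4 * s / d) := by ring
  rw [h3] at hZ
  linarith

/-- the rank of an edge -/
noncomputable def rk (L : Finset (A × B)) (pos : A × B → ℝ) (f : A × B) : ℕ := by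
  classical
  exact (L.filter fun h => pos h < pos f).card

lemma rk_mono {L : Finset (A × B)} {pos : A × B → ℝ} {f g : A × B} (h : pos f ≤ pos g) :
    rk L pos f ≤ rk L pos g := by
  classical
  unfold rk
  refine card_le_card fun x hx => ?_
  rw [mem_filter] at hx ⊢
  exact ⟨hx.1, hx.2.trans_le h⟩

lemma rk_lt {L : Finset (A × B)} {pos : A × B → ℝ} {f g : A × B} (hf : f ∈ L)
    (h : pos f < pos g) : rk L pos f < rk L pos g := by
  classical
  unfold rk
  refine card_lt_card ⟨fun x hx => ?_, fun hsub => ?_⟩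
  · rw [mem_filter] at hx ⊢
    exact ⟨hx.1, hx.2.trans h⟩
  · have h1 : f ∈ L.filter fun x => pos x < pos f := hsub (mem_filter.2 ⟨hf, h⟩)
    exact lt_irrefl _ (mem_filter.1 h1).2

lemma rk_injOn {L : Finset (A × B)} {pos : A × B → ℝ} (hinj : PosInj L pos) {f g : A × B}
    (hf : f ∈ L) (hg : g ∈ L) (h : rk L pos f = rk L pos g) : f = g := by
  rcases lt_trichotomy (pos f) (pos g) with h1 | h1 | h1
  · have := rk_lt hf h1
    omega
  · exact hinj f hf g hg h1
  · have := rk_lt hg h1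
    omega

lemma rk_lt_card {L : Finset (A × B)} {pos : A × B → ℝ} {f : A × B} (hf : f ∈ L) :
    rk L pos f < L.card := by
  classical
  unfold rk
  refine card_lt_card ⟨filter_subset _ _, fun hsub => ?_⟩
  have h1 : f ∈ L.filter fun x => pos x < pos f := hsub hf
  exact lt_irrefl _ (mem_filter.1 h1).2

lemma card_window_le {L : Finset (A × B)} {pos : A × B → ℝ} (hinj : PosInj L pos) {w : ℕ}
    (hw : 0 < w) (j : ℕ) : (L.filter fun f => rk L pos f / w = j).card ≤ w := by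
  have h1 : (L.filter fun f => rk L pos f / w = j).card ≤ (Finset.Ico (j * w) (j * w + w)).card := by
    refine card_le_card_of_injOn (rk L pos) ?_ ?_
    · intro f hf
      have h2 := (mem_filter.1 (mem_coe.1 hf)).2
      rw [mem_coe, mem_Ico]
      have h3 := Nat.div_add_mod (rk L pos f) w
      have h4 := Nat.mod_lt (rk L pos f) hw
      rw [h2] at h3
      have h5 : w * j = j * w := Nat.mul_comm _ _
      omega
    · intro f hf g hg h
      exact rk_injOn hinj (mem_filter.1 (mem_coe.1 hf)).1 (mem_filter.1 (mem_coe.1 hg)).1 h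
  simpa using h1

/-- the edges with a given gap lie in at most two blocks -/
lemma card_gap_class {E E1 L R : Finset (A × B)} {pos : A × B → ℝ} {blk : A × B → ℕ}
    {S1 : Finset B} {j0 j1 j1' : ℕ} (H : KeyData E E1 L R pos blk S1 j0 j1 j1') {t : ℝ}
    (ht : 0 ≤ t)
    (hηB : ∀ f ∈ E, (((atB E f.2).filter fun g => blk g = blk f).card : ℝ) ≤ t)
    {b1 : B} (hb1 : b1 ∈ S1) (g : Finset (A × B)) :
    ((L.filter fun f => gap E1 pos b1 (pos f) = g).card : ℝ) ≤ 2 * t * S1.card := by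
  classical
  set G := L.filter fun f => gap E1 pos b1 (pos f) = g with hG
  have hLE : L ⊆ E := H.hL1.trans H.hE1
  have h2 : (G.image blk).card ≤ 2 := by
    by_contra hc
    push Not at hc
    obtain ⟨x, y, z, hx, hy, hz, hxy, hyz⟩ : ∃ x y z, x ∈ G.image blk ∧ y ∈ G.image blk ∧
        z ∈ G.image blk ∧ x < y ∧ y < z := by
      obtain ⟨a, ha, b, hb, c, hc', hab, hac, hbc⟩ := Finset.two_lt_card.1 hc
      rcases lt_or_gt_of_ne hab with h1 | h1 <;> rcases lt_or_gt_of_ne hac with h2 | h2 <;>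
        rcases lt_or_gt_of_ne hbc with h3 | h3
      · exact ⟨a, b, c, ha, hb, hc', h1, h3⟩
      · exact ⟨a, c, b, ha, hc', hb, h2, h3⟩
      · omega
      · exact ⟨c, a, b, hc', ha, hb, h2, h1⟩
      · exact ⟨b, a, c, hb, ha, hc', h1, h2⟩
      · omega
      · exact ⟨b, c, a, hb, hc', ha, h3, h2⟩
      · exact ⟨c, b, a, hc', hb, ha, h3, h1⟩
    obtain ⟨f1, hf1, rfl⟩ := mem_image.1 hx
    obtain ⟨f2, hf2, rfl⟩ := mem_image.1 hy
    obtain ⟨f3, hf3, rfl⟩ := mem_image.1 hz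
    obtain ⟨hf1L, hf1g⟩ := mem_filter.1 hf1
    obtain ⟨hf2L, hf2g⟩ := mem_filter.1 hf2
    obtain ⟨hf3L, hf3g⟩ := mem_filter.1 hf3
    obtain ⟨p, hp, hpb, hpk⟩ := H.htau f2.2 (H.hLS _ hf2L) b1 hb1 f2 (H.hL1 hf2L) rfl
    have k1 : p ∈ gap E1 pos b1 (pos f3) :=
      mem_gap.2 ⟨⟨hp, hpb⟩, H.lt (H.hE1 hp) (hLE hf3L) (by omega)⟩
    have k2 : p ∉ gap E1 pos b1 (pos f1) := by
      intro h
      have h3 := (mem_gap.1 h).2
      have h4 := H.lt (hLE hf1L) (H.hE1 hp) (by omega)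
      exact lt_asymm h3 h4
    rw [hf1g] at k2
    rw [hf3g] at k1
    exact k2 k1
  have h3 : ∀ b, ((atB G b).card : ℝ) ≤ 2 * t := by
    intro b
    have h4 : (atB G b).card = ∑ j ∈ G.image blk, ((atB G b).filter fun f => blk f = j).card :=
      card_eq_sum_card_fiberwise fun f hf =>
        mem_coe.2 (mem_image_of_mem _ (mem_atB.1 (mem_coe.1 hf)).1)
    rw [h4]
    push_cast
    calc _ ≤ ∑ _j ∈ G.image blk, t := by
          refine sum_le_sum fun j _ => ?_
          have h5 : ((atB G b).filter fun f => blk f = j) ⊆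
              ((atB E b).filter fun f => blk f = j) :=
            filter_subset_filter _ (atB_mono ((filter_subset _ _).trans hLE) b)
          exact le_trans (by exact_mod_cast card_le_card h5) (card_blockB_le ht hηB b j)
      _ = ((G.image blk).card : ℝ) * t := by rw [sum_const, nsmul_eq_mul]
      _ ≤ 2 * t := by
          apply mul_le_mul_of_nonneg_right _ ht
          exact_mod_cast h2
  have h4 : G.card = ∑ b ∈ S1, (atB G b).card :=
    card_eq_sum_card_fiberwise (f := Prod.snd) fun f hf =>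
      mem_coe.2 (H.hLS f (mem_filter.1 (mem_coe.1 hf)).1)
  rw [h4]
  push_cast
  calc _ ≤ ∑ _b ∈ S1, 2 * t := sum_le_sum fun b _ => h3 b
    _ = _ := by rw [sum_const, nsmul_eq_mul]; ring

lemma rk_gap_lt {E1 L : Finset (A × B)} {pos : A × B → ℝ} {b1 : B} {g : Finset (A × B)} {w : ℕ}
    (hG : (L.filter fun f => gap E1 pos b1 (pos f) = g).card ≤ w) {f f' : A × B}
    (hf' : f' ∈ L) (h : gap E1 pos b1 (pos f) = g)
    (h' : gap E1 pos b1 (pos f') = g) : rk L pos f' < rk L pos f + w := by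
  classical
  set G := L.filter fun f => gap E1 pos b1 (pos f) = g with hGdef
  have hf'G : f' ∈ G := mem_filter.2 ⟨hf', h'⟩
  have h1 : (L.filter fun x => pos x < pos f') ⊆
      (L.filter fun x => pos x < pos f) ∪ G.erase f' := by
    intro x hx
    rw [mem_filter] at hx
    rw [mem_union, mem_filter, mem_erase]
    by_cases hxf : pos x < pos f
    · exact Or.inl ⟨hx.1, hxf⟩
    · right
      refine ⟨?_, ?_⟩
      · rintro rfl
        exact lt_irrefl _ hx.2
      · refine mem_filter.2 ⟨hx.1, ?_⟩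
        refine subset_antisymm ?_ ?_
        · rw [← h']
          exact gap_mono hx.2.le
        · rw [← h]
          exact gap_mono (not_lt.1 hxf)
  have h2 := (card_le_card h1).trans (card_union_le _ _)
  have h3 : (G.erase f').card = G.card - 1 := card_erase_of_mem hf'G
  have h4 : 0 < G.card := card_pos.2 ⟨f', hf'G⟩
  unfold rk
  omega

/-- For a typical `b₁` many of the edges `(α b, b)` lie in one window. -/
theorem exists_window {E E1 L R : Finset (A × B)} {pos : A × B → ℝ} {blk : A × B → ℕ}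
    {S1 : Finset B} {j0 j1 j1' : ℕ} (H : KeyData E E1 L R pos blk S1 j0 j1 j1')
    {d s η : ℝ} (hd : 0 < d) (hs : 0 < s) (hη : 0 < η)
    (hηB : ∀ f ∈ E, (((atB E f.2).filter fun g => blk g = blk f).card : ℝ) ≤ η * s)
    (hA : (Fintype.card A : ℝ) ≤ s ^ 2)
    (hcom : ∀ b ∈ S1, ∀ b' ∈ S1, b ≠ b' → (com R b b').card ≤ 8)
    (hdeg : ∀ b ∈ S1, d / 2 * s ≤ (atB R b).card)
    {w : ℕ} (hw : 2 * (η * s) * S1.card ≤ w) (hw0 : 0 < w)
    {b1 : B} (hb1 : b1 ∈ S1) (hZ : 8 * s / d < (Zset L pos S1 b1).card) :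
    ∃ (j : ℕ) (α : B → A) (W : Finset B), d ^ 2 / 576 * (Zset L pos S1 b1).card ≤ W.card ∧
      ∀ b ∈ W, (α b, b1) ∈ L ∧ (α b, b) ∈ L ∧ rk L pos (α b, b) / w = j := by
  classical
  set Z := Zset L pos S1 b1 with hZdef
  have hex : ∀ b ∈ Z, ∃ a, (a, b1) ∈ L ∧ (a, b) ∈ L ∧ pos (a, b) < pos (a, b1) :=
    fun b hb => (mem_Zset.1 hb).2.2
  have hZpos : (0 : ℝ) < Z.card := lt_trans (by positivity) hZ
  have hZne : Z.Nonempty := by
    rw [← card_pos]
    exact_mod_cast hZpos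
  obtain ⟨b₀, hb₀⟩ := hZne
  obtain ⟨a₀, -⟩ := hex b₀ hb₀
  have : Nonempty A := ⟨a₀⟩
  choose! α hα1 hα2 hα3 using hex
  obtain ⟨g, hg⟩ := exists_big_class d s hd hs hA Z R (fun b => gap E1 pos b1 (pos (α b, b)))
    (fun b hb b' hb' => hcom b (mem_Zset.1 hb).1 b' (mem_Zset.1 hb').1)
    (fun b hb => hdeg b (mem_Zset.1 hb).1)
    (by
      intro b hb b' hb' a ha ha'
      by_cases hbb : b = b'
      · subst hbb; rfl
      · exact key H hb1 (mem_Zset.1 hb).2.1 (mem_Zset.1 hb').2.1 hbb (hα1 b hb) (hα2 b hb)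
          (hα3 b hb) (hα1 b' hb') (hα2 b' hb') (hα3 b' hb') ha ha')
    hZ
  set Zg := Z.filter fun b => gap E1 pos b1 (pos (α b, b)) = g with hZg
  have hZgpos : (0 : ℝ) < Zg.card := lt_of_lt_of_le (by positivity) hg
  have hZgne : Zg.Nonempty := by
    rw [← card_pos]
    exact_mod_cast hZgpos
  obtain ⟨c, hc, hmin⟩ := exists_min_image Zg (fun b => rk L pos (α b, b)) hZgne
  have hGw : (L.filter fun f => gap E1 pos b1 (pos f) = g).card ≤ w := by
    have h1 := card_gap_class H (t := η * s) (by positivity) hηB hb1 g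
    exact_mod_cast h1.trans hw
  set w0 := rk L pos (α c, c) / w with hw0def
  have hwin : ∀ b ∈ Zg, rk L pos (α b, b) / w = w0 ∨ rk L pos (α b, b) / w = w0 + 1 := by
    intro b hb
    have h1 := hmin b hb
    obtain ⟨hbZ, hbg⟩ := mem_filter.1 hb
    obtain ⟨hcZ, hcg⟩ := mem_filter.1 hc
    have h2 := rk_gap_lt hGw (hα2 b hbZ) hcg hbg
    have h3 : w0 ≤ rk L pos (α b, b) / w := Nat.div_le_div_right h1
    have h4 : rk L pos (α b, b) / w ≤ (rk L pos (α c, c) + w) / w := Nat.div_le_div_right h2.le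
    rw [Nat.add_div_right _ hw0] at h4
    omega
  have hsplit : (Zg.card : ℝ) ≤ (Zg.filter fun b => rk L pos (α b, b) / w = w0).card +
      (Zg.filter fun b => rk L pos (α b, b) / w = w0 + 1).card := by
    have h1 : Zg ⊆ (Zg.filter fun b => rk L pos (α b, b) / w = w0) ∪
        (Zg.filter fun b => rk L pos (α b, b) / w = w0 + 1) := by
      intro b hb
      rw [mem_union]
      rcases hwin b hb with h | h
      · exact Or.inl (mem_filter.2 ⟨hb, h⟩)
      · exact Or.inr (mem_filter.2 ⟨hb, h⟩)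
    have h2 := (card_le_card h1).trans (card_union_le _ _)
    exact_mod_cast h2
  have hfin : ∀ j, d ^ 2 / 576 * (Z.card : ℝ) ≤
      (Zg.filter fun b => rk L pos (α b, b) / w = j).card →
      ∃ (j : ℕ) (α : B → A) (W : Finset B), d ^ 2 / 576 * (Z.card : ℝ) ≤ W.card ∧
      ∀ b ∈ W, (α b, b1) ∈ L ∧ (α b, b) ∈ L ∧ rk L pos (α b, b) / w = j := by
    intro j hj
    refine ⟨j, α, _, hj, fun b hb => ?_⟩
    obtain ⟨hb1, hb2⟩ := mem_filter.1 hb
    have hb3 := (mem_filter.1 hb1).1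
    exact ⟨hα1 b hb3, hα2 b hb3, hb2⟩
  by_cases h : d ^ 2 / 576 * (Z.card : ℝ) ≤
      (Zg.filter fun b => rk L pos (α b, b) / w = w0).card
  · exact hfin w0 h
  · refine hfin (w0 + 1) ?_
    push Not at h
    have : d ^ 2 / 288 * (Z.card : ℝ) = 2 * (d ^ 2 / 576 * (Z.card : ℝ)) := by ring
    rw [this] at hg
    linarith

end

end Pool.Agent.LP.H58
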