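import Pool.Agent.H12_d8337a.CaseI
import Pool.Agent.H12_d8337a.CaseII

/-!
# The combinatorial theorem: a system has `o(s^3)` edges
-/

namespace Pool.Agent.LP

open Finset

namespace Comb

set_option linter.unusedSectionVars false

section

variable {A B : Type*} [Fintype A] [Fintype B] [DecidableEq A] [DecidableEq B]

lemma sw_filter (E : Finset (A × B)) (P : B × A → Prop) [DecidablePred P] :
    (sw E).filter P = sw (E.filter fun f => P f.swap) := by
  ext ⟨b, a⟩
  rw [mem_filter, mem_sw, mem_sw, mem_filter]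
  rfl

lemma atA_sw (E : Finset (A × B)) (b : B) : atA (sw E) b = sw (atB E b) := by
  ext ⟨b', a⟩
  simp only [atA, atB, mem_filter, mem_sw]

lemma atB_sw (E : Finset (A × B)) (a : A) : atB (sw E) a = sw (atA E a) := by
  ext ⟨b', a⟩
  simp only [atA, atB, mem_filter, mem_sw]

lemma posInj_mono {E' E : Finset (A × B)} {pos : A × B → ℝ} (h : E' ⊆ E) (hE : PosInj E pos) :
    PosInj E' pos := fun f hf g hg => hE f (h hf) g (h hg)

lemma axT_mono {E' E : Finset (A × B)} {pos : A × B → ℝ} (h : E' ⊆ E) (hE : AxT E pos) :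
    AxT E' pos := fun b₁ b₂ b₃ a₁₂ a₁₃ a₂₃ ax ay n1 n2 n3 e1 e2 e3 e4 e5 e6 e7 e8 =>
  hE b₁ b₂ b₃ a₁₂ a₁₃ a₂₃ ax ay n1 n2 n3 (h e1) (h e2) (h e3) (h e4) (h e5) (h e6) (h e7) (h e8)

lemma axF1_mono {E' E : Finset (A × B)} {pos : A × B → ℝ} (h : E' ⊆ E) (hE : AxF1 E pos) :
    AxF1 E' pos := fun b b' a₁ a₂ ax ax' n1 n2 e1 e2 e3 e4 e5 e6 =>
  hE b b' a₁ a₂ ax ax' n1 n2 (h e1) (h e2) (h e3) (h e4) (h e5) (h e6)

lemma axF3_mono {E' E : Finset (A × B)} {pos : A × B → ℝ} (h : E' ⊆ E) (hE : AxF3 E pos) :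
    AxF3 E' pos := fun b b' b'' r s u n1 n2 n3 n4 n5 n6 e1 e2 e3 e4 e5 e6 e7 =>
  hE b b' b'' r s u n1 n2 n3 n4 n5 n6 (h e1) (h e2) (h e3) (h e4) (h e5) (h e6) (h e7)

lemma atA_mono {E' E : Finset (A × B)} (h : E' ⊆ E) (a : A) : atA E' a ⊆ atA E a := by
  intro g hg
  simp only [atA, mem_filter] at hg ⊢
  exact ⟨h hg.1, hg.2⟩

lemma atB_mono {E' E : Finset (A × B)} (h : E' ⊆ E) (b : B) : atB E' b ⊆ atB E b := by
  intro g hg
  simp only [atB, mem_filter] at hg ⊢
  exact ⟨h hg.1, hg.2⟩

/-- keep one heavy block at every vertex -/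
lemma concentrate (E : Finset (A × B)) (blk : A × B → ℕ) {η K s c : ℝ} (hη : 0 < η) (hK : 0 < K)
    (hs : 0 < s) (hdA : ∀ a, ((atA E a).card : ℝ) ≤ K * s)
    (h : c * s ^ 3 ≤ ((E.filter fun f =>
      η * s < (((atA E f.1).filter fun g => blk g = blk f).card : ℝ)).card : ℝ)) :
    ∃ E' ⊆ E, η * c / K * s ^ 3 ≤ E'.card ∧ ∀ f ∈ E', ∀ g ∈ E', f.1 = g.1 → blk f = blk g := by
  classical
  set F : Finset (A × B) := E.filter fun f =>
      η * s < (((atA E f.1).filter fun g => blk g = blk f).card : ℝ) with hF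
  set X : Finset A := F.image Prod.fst with hX
  have hex : ∀ a : A, ∃ j : ℕ, a ∈ X →
      η * s < (((atA E a).filter fun g => blk g = j).card : ℝ) := by
    intro a
    by_cases ha : a ∈ X
    · obtain ⟨f, hf, rfl⟩ := mem_image.1 ha
      exact ⟨blk f, fun _ => (mem_filter.1 hf).2⟩
    · exact ⟨0, fun h => absurd h ha⟩
  choose j hj using hex
  refine ⟨E.filter fun f => f.1 ∈ X ∧ blk f = j f.1, filter_subset _ _, ?_, ?_⟩
  · have h1 : (F.card : ℝ) ≤ X.card * (K * s) := by
      have e1 : F.card = ∑ a ∈ X, (F.filter fun f => f.1 = a).card :=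
        card_eq_sum_card_fiberwise (fun f hf => mem_image_of_mem _ hf)
      rw [e1]
      push_cast
      calc ∑ a ∈ X, ((F.filter fun f => f.1 = a).card : ℝ) ≤ ∑ a ∈ X, K * s := by
            refine sum_le_sum fun a _ => le_trans ?_ (hdA a)
            exact_mod_cast card_le_card (atA_mono (filter_subset _ _) a)
        _ = _ := by simp
    have h2 : (X.card : ℝ) * (η * s) ≤
        ((E.filter fun f => f.1 ∈ X ∧ blk f = j f.1).card : ℝ) := by
      have e1 : (E.filter fun f => f.1 ∈ X ∧ blk f = j f.1).card =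
          ∑ a ∈ X, ((atA E a).filter fun g => blk g = j a).card := by
        rw [card_eq_sum_card_fiberwise (f := Prod.fst) (t := X)
          (fun f hf => (mem_filter.1 hf).2.1)]
        refine sum_congr rfl fun a ha => ?_
        congr 1
        ext f
        simp only [mem_filter, atA]
        constructor
        · rintro ⟨⟨h1, h2, h3⟩, h4⟩
          exact ⟨⟨h1, h4⟩, by rw [h3, h4]⟩
        · rintro ⟨⟨h1, h4⟩, h3⟩
          exact ⟨⟨h1, by rw [h4]; exact ha, by rw [h3, h4]⟩, h4⟩
      rw [e1]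
      push_cast
      calc (X.card : ℝ) * (η * s) = ∑ a ∈ X, η * s := by simp
        _ ≤ _ := sum_le_sum fun a ha => (hj a ha).le
    refine le_trans ?_ h2
    have h3 : c * s ^ 3 ≤ X.card * (K * s) := h.trans h1
    calc η * c / K * s ^ 3 = c * s ^ 3 * (η / K) := by ring
      _ ≤ X.card * (K * s) * (η / K) := mul_le_mul_of_nonneg_right h3 (by positivity)
      _ = X.card * (η * s) := by field_simp
  · intro f hf g hg hfg
    rw [(mem_filter.1 hf).2.2, (mem_filter.1 hg).2.2, hfg]

/-- the rank of an edge -/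
noncomputable def rank (E : Finset (A × B)) (pos : A × B → ℝ) (f : A × B) : ℕ :=
  (E.filter fun g => pos g < pos f).card

lemma rank_mono (E : Finset (A × B)) {pos : A × B → ℝ} {f g : A × B} (h : pos f < pos g) :
    rank E pos f ≤ rank E pos g := by
  refine card_le_card fun x hx => ?_
  rw [mem_filter] at hx ⊢
  exact ⟨hx.1, hx.2.trans h⟩

lemma rank_lt (E : Finset (A × B)) {pos : A × B → ℝ} {f g : A × B} (hf : f ∈ E)
    (h : pos f < pos g) : rank E pos f < rank E pos g := by
  refine card_lt_card ⟨fun x hx => ?_, fun hcon => ?_⟩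
  · rw [mem_filter] at hx ⊢
    exact ⟨hx.1, hx.2.trans h⟩
  · have := hcon (mem_filter.2 ⟨hf, h⟩)
    exact lt_irrefl _ (mem_filter.1 this).2

lemma rank_inj {E : Finset (A × B)} {pos : A × B → ℝ} (hinj : PosInj E pos) {f g : A × B}
    (hf : f ∈ E) (hg : g ∈ E) (h : rank E pos f = rank E pos g) : f = g := by
  rcases lt_trichotomy (pos f) (pos g) with h' | h' | h'
  · exact absurd h (rank_lt E hf h').ne
  · exact hinj f hf g hg h'
  · exact absurd h (rank_lt E hg h').ne'

lemma rank_lt_card {E : Finset (A × B)} {pos : A × B → ℝ} {f : A × B} (hf : f ∈ E) :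
    rank E pos f < E.card := by
  refine card_lt_card ⟨filter_subset _ _, fun hcon => ?_⟩
  have := hcon hf
  exact lt_irrefl _ (mem_filter.1 this).2

lemma block_card {E : Finset (A × B)} {pos : A × B → ℝ} (hinj : PosInj E pos) {l : ℕ} (hl : 0 < l)
    (j : ℕ) : (E.filter fun f => rank E pos f / l = j).card ≤ l := by
  classical
  have : ((E.filter fun f => rank E pos f / l = j).image (rank E pos)) ⊆ Finset.Ico (l * j) (l * j + l) := by
    intro r hr
    obtain ⟨f, hf, rfl⟩ := mem_image.1 hr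
    have := (mem_filter.1 hf).2
    rw [mem_Ico, ← this]
    exact ⟨Nat.mul_div_le _ _, Nat.lt_mul_div_succ _ hl |>.trans_le (by rw [mul_add, mul_one])⟩
  calc (E.filter fun f => rank E pos f / l = j).card
      = ((E.filter fun f => rank E pos f / l = j).image (rank E pos)).card := by
        rw [card_image_of_injOn]
        intro f hf g hg h
        exact rank_inj hinj (mem_filter.1 hf).1 (mem_filter.1 hg).1 h
    _ ≤ (Finset.Ico (l * j) (l * j + l)).card := card_le_card this
    _ = l := by simp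

end

end Comb

open Comb in
theorem comb (c K : ℝ) (hc : 0 < c) (hK : 0 < K) : ∃ s₀ : ℝ,
    ∀ s ≥ s₀, ∀ (A B : Type) [Fintype A] [Fintype B] [DecidableEq A] [DecidableEq B]
    (E : Finset (A × B)) (pos : A × B → ℝ),
    (Fintype.card A : ℝ) ≤ s ^ 2 → (Fintype.card B : ℝ) ≤ s ^ 2 →
    Hub E → Hub (sw E) → PosInj E pos → AxT E pos → AxT (sw E) (fun f => pos f.swap) →
    AxF1 E pos → AxF3 E pos →
    (∀ a, ((atA E a).card : ℝ) ≤ K * s) → (∀ b, ((atB E b).card : ℝ) ≤ K * s) →
    c * s ^ 3 ≤ E.card → False := by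
  classical
  obtain ⟨η, hη, hII⟩ := caseII (c / 3) K (by positivity) hK
  obtain ⟨M, hM, s₁, hI⟩ := caseI (η * (c / 3) / K) K 4 (by positivity) hK (by norm_num)
  obtain ⟨s₂, hII⟩ := hII M
  refine ⟨max (max s₁ s₂) (2 * M + 1), ?_⟩
  intro s hs A B _ _ _ _ E pos hA hB hub hub' hinj hT hT' hF1 hF3 hdA hdB hE
  have hMR : (1 : ℝ) ≤ M := by exact_mod_cast hM
  have hs1 : s₁ ≤ s := (le_max_left _ _).trans ((le_max_left _ _).trans hs)
  have hs2 : s₂ ≤ s := (le_max_right _ _).trans ((le_max_left _ _).trans hs)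
  have hsM : 2 * M + 1 ≤ s := (le_max_right _ _).trans hs
  have hspos : 0 < s := by linarith
  -- the number of edges
  have hEc : (E.card : ℝ) ≤ (7 / 2) * s ^ 3 := by
    have h1 := card_sq_le E hub hub' univ univ (by simp)
    simp only [card_univ] at h1
    have h2 : max (Fintype.card A : ℝ) (Fintype.card B) ≤ s ^ 2 := max_le hA hB
    have h3 : (E.card : ℝ) ^ 2 ≤ 10 * s ^ 2 * s ^ 2 * s ^ 2 := by
      refine h1.trans ?_
      gcongr
    have h4 : (E.card : ℝ) ^ 2 ≤ ((7 / 2) * s ^ 3) ^ 2 := by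
      refine h3.trans ?_
      have : 0 ≤ s ^ 6 := by positivity
      nlinarith
    exact le_of_sq_le_sq h4 (by positivity)
  -- blocks
  obtain ⟨l, hl⟩ : ∃ l : ℕ, l = E.card / M + 1 := ⟨_, rfl⟩
  have hlpos : 0 < l := by rw [hl]; exact Nat.succ_pos _
  have hlM : E.card < l * M := by
    rw [hl, mul_comm]
    exact Nat.lt_mul_div_succ _ hM
  have hlc : (l : ℝ) ≤ 4 * s ^ 3 / M := by
    rw [le_div_iff₀ (by linarith)]
    have h1 : l * M ≤ E.card + M := by
      rw [hl, add_mul, one_mul]
      exact Nat.add_le_add_right (Nat.div_mul_le_self _ _) _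
    have h2 : (l : ℝ) * M ≤ E.card + M := by exact_mod_cast h1
    have h3 : (M : ℝ) ≤ (1 / 2) * s ^ 3 := by
      have : s ≤ s ^ 3 := by nlinarith [sq_nonneg (s - 1), sq_nonneg s]
      linarith
    linarith
  obtain ⟨blk, hblk⟩ : ∃ blk : A × B → ℕ, ∀ f, blk f = rank E pos f / l := ⟨_, fun f => rfl⟩
  have hmono : ∀ f g, pos f < pos g → blk f ≤ blk g := by
    intro f g h
    rw [hblk, hblk]
    exact Nat.div_le_div_right (rank_mono E h)
  have hbM : ∀ f ∈ E, blk f < M := by
    intro f hf
    rw [hblk]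
    exact Nat.div_lt_of_lt_mul ((rank_lt_card hf).trans hlM)
  have hfib : ∀ j, ((E.filter fun f => blk f = j).card : ℝ) ≤ 4 * s ^ 3 / M := by
    intro j
    refine le_trans ?_ hlc
    have := block_card hinj hlpos j
    simp only [hblk]
    exact_mod_cast this
  -- the three parts
  set E₁ : Finset (A × B) := E.filter fun f =>
      η * s < (((atA E f.1).filter fun g => blk g = blk f).card : ℝ) with hE₁
  set E₂ : Finset (A × B) := E.filter fun f =>
      η * s < (((atB E f.2).filter fun g => blk g = blk f).card : ℝ) with hE₂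
  set E₃ : Finset (A × B) := E.filter fun f =>
      (((atA E f.1).filter fun g => blk g = blk f).card : ℝ) ≤ η * s ∧
      (((atB E f.2).filter fun g => blk g = blk f).card : ℝ) ≤ η * s with hE₃
  have hcov : E ⊆ (E₁ ∪ E₂) ∪ E₃ := by
    intro f hf
    by_cases h1 : η * s < (((atA E f.1).filter fun g => blk g = blk f).card : ℝ)
    · have : f ∈ E₁ := mem_filter.2 ⟨hf, h1⟩
      simp [this]
    · by_cases h2 : η * s < (((atB E f.2).filter fun g => blk g = blk f).card : ℝ)
      · have : f ∈ E₂ := mem_filter.2 ⟨hf, h2⟩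
        simp [this]
      · have : f ∈ E₃ := mem_filter.2 ⟨hf, not_lt.1 h1, not_lt.1 h2⟩
        simp [this]
  have hc1 : (E.card : ℝ) ≤ E₁.card + E₂.card + E₃.card := by
    have e1 := card_le_card hcov
    have e2 := card_union_le (E₁ ∪ E₂) E₃
    have e3 := card_union_le E₁ E₂
    exact_mod_cast (by omega : E.card ≤ E₁.card + E₂.card + E₃.card)
  rcases le_or_gt (c / 3 * s ^ 3) (E₁.card : ℝ) with h1 | h1
  · obtain ⟨E', hE', hE'c, hcase⟩ := concentrate E blk hη hK hspos hdA h1
    exact hI s hs1 A B E' pos blk hA hB (CaseI.hub_mono hE' hub)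
      (CaseI.hub_mono (CaseI.sw_mono hE') hub') (posInj_mono hE' hinj) (axT_mono hE' hT)
      (fun a => le_trans (by exact_mod_cast card_le_card (atA_mono hE' a)) (hdA a))
      (fun b => le_trans (by exact_mod_cast card_le_card (atB_mono hE' b)) (hdB b))
      hE'c (fun f _ g _ h => hmono f g h) (fun f hf => hbM f (hE' hf))
      (fun j => le_trans (by exact_mod_cast card_le_card (filter_subset_filter _ hE')) (hfib j))
      hcase
  rcases le_or_gt (c / 3 * s ^ 3) (E₂.card : ℝ) with h2 | h2
  · -- the swapped system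
    have hdA' : ∀ b, ((atA (sw E) b).card : ℝ) ≤ K * s := by
      intro b
      rw [atA_sw, card_sw]
      exact hdB b
    have hdB' : ∀ a, ((atB (sw E) a).card : ℝ) ≤ K * s := by
      intro a
      rw [Comb.atB_sw, card_sw]
      exact hdA a
    have h2' : c / 3 * s ^ 3 ≤ (((sw E).filter fun f => η * s <
        (((atA (sw E) f.1).filter fun g => blk g.swap = blk f.swap).card : ℝ)).card : ℝ) := by
      refine h2.trans (le_of_eq ?_)
      rw [sw_filter, card_sw]
      congr 2
      refine filter_congr fun f _ => ?_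
      rw [Prod.fst_swap, atA_sw, sw_filter, card_sw]
      simp only [Prod.swap_swap]
    obtain ⟨E', hE', hE'c, hcase⟩ := concentrate (sw E) (fun f => blk f.swap) hη hK hspos hdA' h2'
    have hE'' : sw E' ⊆ E := by
      have := CaseI.sw_mono hE'
      rwa [sw_sw] at this
    exact hI s hs1 B A E' (fun f => pos f.swap) (fun f => blk f.swap) hB hA
      (CaseI.hub_mono hE' hub') (CaseI.hub_mono hE'' hub)
      (by
        intro f hf g hg h
        have hf' := hE' hf
        have hg' := hE' hg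
        rw [mem_sw'] at hf' hg'
        have := hinj _ hf' _ hg' h
        exact Prod.swap_injective this)
      (axT_mono hE' hT')
      (fun a => le_trans (by exact_mod_cast card_le_card (atA_mono hE' a)) (hdA' a))
      (fun b => le_trans (by exact_mod_cast card_le_card (atB_mono hE' b)) (hdB' b))
      hE'c (fun f _ g _ h => hmono _ _ h)
      (fun f hf => by
        have := hE' hf
        rw [mem_sw'] at this
        exact hbM _ this)
      (fun j => by
        refine le_trans ?_ (hfib j)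
        have : (E'.filter fun f => blk f.swap = j) ⊆ sw (E.filter fun f => blk f = j) := by
          intro f hf
          rw [mem_filter] at hf
          have := hE' hf.1
          rw [mem_sw'] at this ⊢
          exact mem_filter.2 ⟨this, hf.2⟩
        have h3 := card_le_card this
        rw [card_sw] at h3
        exact_mod_cast h3)
      hcase
  · have h3 : c / 3 * s ^ 3 ≤ E₃.card := by
      have e : c * s ^ 3 = c / 3 * s ^ 3 + c / 3 * s ^ 3 + c / 3 * s ^ 3 := by ring
      linarith
    have hE₃E : E₃ ⊆ E := filter_subset _ _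
    refine hII s hs2 A B E₃ pos blk hA hB (posInj_mono hE₃E hinj) (axT_mono hE₃E hT)
      (axF1_mono hE₃E hF1) (axF3_mono hE₃E hF3)
      (fun a => le_trans (by exact_mod_cast card_le_card (atA_mono hE₃E a)) (hdA a))
      (fun b => le_trans (by exact_mod_cast card_le_card (atB_mono hE₃E b)) (hdB b))
      h3 (fun f _ g _ h => hmono f g h) (fun f hf => hbM f (hE₃E hf)) ?_ ?_
    · intro f hf
      refine le_trans ?_ (mem_filter.1 hf).2.1
      exact_mod_cast card_le_card (filter_subset_filter _ (atA_mono hE₃E _))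
    · intro f hf
      refine le_trans ?_ (mem_filter.1 hf).2.2
      exact_mod_cast card_le_card (filter_subset_filter _ (atB_mono hE₃E _))

end Pool.Agent.LP
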