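import Pool.Agent.H12_d8337a.Sys

/-!
# Basic counting lemmas (combinatorial part of MP_d8337a_co)
-/

set_option linter.unusedSectionVars false

namespace Pool.Agent.LP

open Finset

section

variable {A B : Type*} [Fintype A] [Fintype B] [DecidableEq A] [DecidableEq B]

/-- neighbours (in `B`) of a vertex of `A` -/
def nA (E : Finset (A × B)) (a : A) : Finset B := univ.filter fun b => (a, b) ∈ E

lemma card_atA (E : Finset (A × B)) (a : A) : (atA E a).card = (nA E a).card := by
  refine Finset.card_nbij' (fun f => f.2) (fun b => (a, b)) ?_ ?_ ?_ ?_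
  · rintro ⟨a', b⟩ h
    simp only [atA, nA, coe_filter, Set.mem_ofPred_eq, mem_univ, true_and] at h ⊢
    obtain ⟨h1, rfl⟩ := h
    exact h1
  · intro b h
    simp only [atA, nA, coe_filter, Set.mem_ofPred_eq, mem_univ, true_and, and_true] at h ⊢
    exact h
  · rintro ⟨a', b⟩ h
    simp only [atA, coe_filter, Set.mem_ofPred_eq] at h
    obtain ⟨h1, rfl⟩ := h
    rfl
  · intro b _
    rfl

lemma card_atB (E : Finset (A × B)) (b : B) :
    (atB E b).card = (atA (sw E) b).card := by
  refine Finset.card_nbij' (fun f => (f.2, f.1)) (fun f => (f.2, f.1)) ?_ ?_ ?_ ?_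
  · rintro ⟨a', b'⟩ h
    simpa [atA, atB] using h
  · rintro ⟨a', b'⟩ h
    simpa [atA, atB] using h
  · rintro ⟨a', b'⟩ _; rfl
  · rintro ⟨a', b'⟩ _; rfl

lemma atB_sw (E : Finset (A × B)) (a : A) :
    (atB (sw E) a).card = (atA E a).card := by
  rw [card_atB, sw_sw]

lemma sum_atA (E : Finset (A × B)) : ∑ a, (atA E a).card = E.card :=
  (Finset.card_eq_sum_card_fiberwise (f := fun f : A × B => f.1) (t := univ) (by simp)).symm

lemma sum_atB (E : Finset (A × B)) : ∑ b, (atB E b).card = E.card :=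
  (Finset.card_eq_sum_card_fiberwise (f := fun f : A × B => f.2) (t := univ) (by simp)).symm

lemma com_self (E : Finset (A × B)) (b : B) : (com E b b).card = (atB E b).card := by
  rw [card_atB, card_atA]
  congr 1
  ext a
  simp [com, nA]

/-- double counting of paths of length two -/
lemma sum_sq (E : Finset (A × B)) :
    ∑ a, ((atA E a).card : ℝ) ^ 2 = ∑ b, ∑ b', ((com E b b').card : ℝ) := by
  have h1 : ∀ a, ((atA E a).card : ℝ) ^ 2 =
      ∑ b, ∑ b', (if (a, b) ∈ E ∧ (a, b') ∈ E then (1 : ℝ) else 0) := by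
    intro a
    have : ((atA E a).card : ℝ) = ∑ b, (if (a, b) ∈ E then (1 : ℝ) else 0) := by
      rw [card_atA, nA, Finset.card_filter]
      push_cast
      rfl
    rw [this, sq, Finset.sum_mul_sum]
    refine Finset.sum_congr rfl fun b _ => Finset.sum_congr rfl fun b' _ => ?_
    by_cases h : (a, b) ∈ E <;> by_cases h' : (a, b') ∈ E <;> simp [h, h']
  have h2 : ∀ b b', ((com E b b').card : ℝ) =
      ∑ a, (if (a, b) ∈ E ∧ (a, b') ∈ E then (1 : ℝ) else 0) := by
    intro b b'
    rw [com, Finset.card_filter]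
    push_cast
    rfl
  simp only [h1, h2]
  rw [Finset.sum_comm]
  refine Finset.sum_congr rfl fun b _ => ?_
  rw [Finset.sum_comm]

/-- Cauchy-Schwarz -/
lemma card_sq_le_sum (E : Finset (A × B)) (P : Finset A) (hE : ∀ f ∈ E, f.1 ∈ P) :
    (E.card : ℝ) ^ 2 ≤ P.card * ∑ a, ((atA E a).card : ℝ) ^ 2 := by
  have h1 : (E.card : ℝ) = ∑ a ∈ P, ((atA E a).card : ℝ) := by
    rw [Finset.card_eq_sum_card_fiberwise (f := fun f : A × B => f.1) (t := P)
      (fun f hf => hE f hf)]
    push_cast
    rfl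
  rw [h1]
  calc (∑ a ∈ P, ((atA E a).card : ℝ)) ^ 2
      ≤ P.card * ∑ a ∈ P, ((atA E a).card : ℝ) ^ 2 := sq_sum_le_card_mul_sum_sq
    _ ≤ P.card * ∑ a, ((atA E a).card : ℝ) ^ 2 := by
        gcongr
        exact P.subset_univ

/-- counting with the hub property -/
lemma hub_sum (E : Finset (A × B)) (hB : Hub E) (v : B) (t : ℕ) (ht : 3 ≤ t) :
    ((t : ℝ) - 1) * ∑ w ∈ univ.filter (fun w => w ≠ v ∧ t ≤ (com E v w).card),
      ((com E v w).card : ℝ) ≤ 2 * ((atB E v).card : ℝ) ^ 2 := by
  classical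
  set H := univ.filter (fun w : B => w ≠ v ∧ t ≤ (com E v w).card) with hH
  set N := nA (sw E) v with hN
  have hNcard : N.card = (atB E v).card := by rw [card_atB, card_atA]
  have hcom : ∀ w, com E v w ⊆ N := by
    intro w a ha
    simp only [com, mem_filter, mem_univ, true_and] at ha
    simp [hN, nA, ha.1]
  -- count the triples
  have key : ∑ w ∈ H, ((com E v w).offDiag.card : ℝ) ≤ ∑ _x ∈ N.offDiag, (2 : ℝ) := by
    have h1 : ∀ w, ((com E v w).offDiag.card : ℝ) =
        ∑ x ∈ N.offDiag, (if x ∈ (com E v w).offDiag then (1 : ℝ) else 0) := by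
      intro w
      rw [Finset.sum_ite_mem]
      have : N.offDiag ∩ (com E v w).offDiag = (com E v w).offDiag :=
        Finset.inter_eq_right.mpr (Finset.offDiag_mono (hcom w))
      rw [this]
      simp
    simp only [h1]
    rw [Finset.sum_comm]
    refine Finset.sum_le_sum ?_
    rintro ⟨x₀, x₁⟩ hx
    rw [Finset.mem_offDiag] at hx
    obtain ⟨hx0, hx1, hne⟩ := hx
    simp only [hN, nA, mem_filter, mem_univ, true_and, mem_sw] at hx0 hx1
    have h2 := hB v x₀ x₁ hne hx0 hx1
    have h3 : ∑ w ∈ H, (if (x₀, x₁) ∈ (com E v w).offDiag then (1 : ℝ) else 0) =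
        ((H.filter fun w => (x₀, x₁) ∈ (com E v w).offDiag).card : ℝ) := by
      rw [Finset.card_filter]
      push_cast
      rfl
    rw [h3]
    have h4 : (H.filter fun w => (x₀, x₁) ∈ (com E v w).offDiag) ⊆
        univ.filter fun w : B => w ≠ v ∧ (x₀, w) ∈ E ∧ (x₁, w) ∈ E ∧ 3 ≤ (com E v w).card := by
      intro w hw
      simp only [hH, mem_filter, mem_univ, true_and, mem_offDiag, com] at hw ⊢
      exact ⟨hw.1.1, hw.2.1.2, hw.2.2.1.2, le_trans ht hw.1.2⟩
    exact_mod_cast (Finset.card_le_card h4).trans h2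
  have h5 : ∑ w ∈ H, (((t : ℝ) - 1) * ((com E v w).card : ℝ)) ≤
      ∑ w ∈ H, ((com E v w).offDiag.card : ℝ) := by
    refine Finset.sum_le_sum fun w hw => ?_
    simp only [hH, mem_filter, mem_univ, true_and] at hw
    have h6 : (t : ℝ) ≤ (com E v w).card := by exact_mod_cast hw.2
    rw [Finset.offDiag_card, Nat.cast_sub (Nat.le_mul_self _)]
    push_cast
    have h7 : (0 : ℝ) ≤ (com E v w).card := by positivity
    nlinarith
  rw [Finset.mul_sum]
  refine h5.trans (key.trans ?_)
  rw [Finset.sum_const, nsmul_eq_mul, Finset.offDiag_card, Nat.cast_sub (Nat.le_mul_self _), hNcard]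
  push_cast
  have : (0 : ℝ) ≤ (atB E v).card := by positivity
  nlinarith

/-- splitting of the sum of codegrees -/
lemma sum_sq_le (E : Finset (A × B)) (Q : Finset B) (hE : ∀ f ∈ E, f.2 ∈ Q) (hB : Hub E) :
    ∑ a, ((atA E a).card : ℝ) ^ 2 ≤
      E.card + 4 * (Q.card : ℝ) ^ 2 + (∑ b, ((atB E b).card : ℝ) ^ 2) / 2 := by
  classical
  rw [sum_sq]
  have h0 : ∀ b b', ((com E b b').card : ℝ) ≤
      (if b' = b then ((atB E b).card : ℝ) else 0) + (if b ∈ Q ∧ b' ∈ Q then 4 else 0) +
        (if b' ≠ b ∧ 5 ≤ (com E b b').card then ((com E b b').card : ℝ) else 0) := by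
    intro b b'
    by_cases h1 : b' = b
    · subst h1
      rw [com_self]
      split_ifs <;> simp_all
    · by_cases h2 : 5 ≤ (com E b b').card
      · have e3 : (if b' ≠ b ∧ 5 ≤ (com E b b').card then ((com E b b').card : ℝ) else 0) =
            (com E b b').card := if_pos ⟨h1, h2⟩
        rw [e3, if_neg h1]
        split_ifs <;> linarith
      · have e3 : (if b' ≠ b ∧ 5 ≤ (com E b b').card then ((com E b b').card : ℝ) else 0) = 0 :=
          if_neg (fun h => h2 h.2)
        rw [e3, if_neg h1]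
        split_ifs with h3
        · have : (com E b b').card ≤ 4 := by omega
          have : ((com E b b').card : ℝ) ≤ 4 := by exact_mod_cast this
          linarith
        · have : com E b b' = ∅ := by
            rw [Finset.eq_empty_iff_forall_notMem]
            intro a ha
            simp only [com, mem_filter, mem_univ, true_and] at ha
            exact h3 ⟨hE _ ha.1, hE _ ha.2⟩
          rw [this]
          simp
  have h1 : ∑ b, ∑ b', ((com E b b').card : ℝ) ≤
      ∑ b, (((atB E b).card : ℝ) + (if b ∈ Q then 4 * (Q.card : ℝ) else 0) +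
        ((atB E b).card : ℝ) ^ 2 / 2) := by
    refine Finset.sum_le_sum fun b _ => ?_
    refine (Finset.sum_le_sum fun b' _ => h0 b b').trans ?_
    rw [Finset.sum_add_distrib, Finset.sum_add_distrib]
    refine add_le_add (add_le_add ?_ ?_) ?_
    · simp
    · by_cases hb : b ∈ Q
      · simp only [hb, true_and, if_true]
        rw [← Finset.sum_filter]
        simp [mul_comm]
      · simp [hb]
    · rw [← Finset.sum_filter]
      have := hub_sum E hB b 5 (by norm_num)
      push_cast at this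
      linarith
  refine h1.trans ?_
  rw [Finset.sum_add_distrib, Finset.sum_add_distrib, ← Finset.sum_div]
  refine add_le_add (add_le_add ?_ ?_) le_rfl
  · rw [← sum_atB E]
    push_cast
    rfl
  · rw [← Finset.sum_filter]
    simp
    nlinarith

/-- (U): a bipartite graph with the hub property on both sides, edges between `P` and `Q`:
`e^2 ≤ 10 |P| |Q| max(|P|,|Q|)`. -/
theorem card_sq_le (E : Finset (A × B)) (hB : Hub E) (hA : Hub (sw E)) (P : Finset A) (Q : Finset B)
    (hE : E ⊆ P ×ˢ Q) :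
    (E.card : ℝ) ^ 2 ≤ 10 * P.card * Q.card * max (P.card : ℝ) Q.card := by
  have hP : ∀ f ∈ E, f.1 ∈ P := fun f hf => (Finset.mem_product.mp (hE hf)).1
  have hQ : ∀ f ∈ E, f.2 ∈ Q := fun f hf => (Finset.mem_product.mp (hE hf)).2
  have h1 := sum_sq_le E Q hQ hB
  have h2 := sum_sq_le (sw E) P (fun f hf => hP _ (mem_sw'.mp hf)) hA
  have h3 := card_sq_le_sum E P hP
  have h4 := card_sq_le_sum (sw E) Q (fun f hf => hQ _ (mem_sw'.mp hf))
  simp only [card_sw, atB_sw, ← card_atB] at h2 h4
  set SA := ∑ a, ((atA E a).card : ℝ) ^ 2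
  set SB := ∑ b, ((atB E b).card : ℝ) ^ 2
  have hpq : (E.card : ℝ) ≤ P.card * Q.card := by
    have := Finset.card_le_card hE
    rw [Finset.card_product] at this
    exact_mod_cast this
  set p : ℝ := (P.card : ℝ)
  set q : ℝ := (Q.card : ℝ)
  set e : ℝ := (E.card : ℝ)
  have hp : 0 ≤ p := by positivity
  have hq : 0 ≤ q := by positivity
  rcases le_total p q with h | h
  · rw [max_eq_right h]
    have h5 : SA ≤ 2 * (p * q) + 8 * q ^ 2 := by nlinarith
    have h6 : SA ≤ 10 * q ^ 2 := by nlinarith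
    calc e ^ 2 ≤ p * SA := h3
      _ ≤ p * (10 * q ^ 2) := by gcongr
      _ = 10 * p * q * q := by ring
  · rw [max_eq_left h]
    have h5 : SB ≤ 2 * (p * q) + 8 * p ^ 2 := by nlinarith
    have h6 : SB ≤ 10 * p ^ 2 := by nlinarith
    calc e ^ 2 ≤ q * SB := h4
      _ ≤ q * (10 * p ^ 2) := by gcongr
      _ = 10 * p * q * p := by ring

/-- (KST) if any two different vertices of `Q` have at most 8 common neighbours then
`e ≤ |P| + 3 √|P| |Q|`. -/
theorem card_le_of_com (E : Finset (A × B)) (P : Finset A) (Q : Finset B) (hE : E ⊆ P ×ˢ Q)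
    (h : ∀ b ∈ Q, ∀ b' ∈ Q, b ≠ b' → (com E b b').card ≤ 8) :
    (E.card : ℝ) ≤ P.card + 3 * √(P.card) * Q.card := by
  classical
  have hP : ∀ f ∈ E, f.1 ∈ P := fun f hf => (Finset.mem_product.mp (hE hf)).1
  have hQ : ∀ f ∈ E, f.2 ∈ Q := fun f hf => (Finset.mem_product.mp (hE hf)).2
  have h3 := card_sq_le_sum E P hP
  have h0 : ∀ b b', ((com E b b').card : ℝ) ≤
      (if b' = b then ((atB E b).card : ℝ) else 0) + (if b ∈ Q ∧ b' ∈ Q then 8 else 0) := by
    intro b b'
    by_cases h1 : b' = b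
    · subst h1
      rw [com_self]
      split_ifs <;> simp_all
    · rw [if_neg h1]
      split_ifs with h3
      · have := h b h3.1 b' h3.2 (Ne.symm h1)
        have : ((com E b b').card : ℝ) ≤ 8 := by exact_mod_cast this
        linarith
      · have : com E b b' = ∅ := by
          rw [Finset.eq_empty_iff_forall_notMem]
          intro a ha
          simp only [com, mem_filter, mem_univ, true_and] at ha
          exact h3 ⟨hQ _ ha.1, hQ _ ha.2⟩
        rw [this]
        simp
  have h1 : ∑ b, ∑ b', ((com E b b').card : ℝ) ≤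
      ∑ b, (((atB E b).card : ℝ) + (if b ∈ Q then 8 * (Q.card : ℝ) else 0)) := by
    refine Finset.sum_le_sum fun b _ => ?_
    refine (Finset.sum_le_sum fun b' _ => h0 b b').trans ?_
    rw [Finset.sum_add_distrib]
    refine add_le_add ?_ ?_
    · simp
    · by_cases hb : b ∈ Q
      · simp only [hb, true_and, if_true]
        rw [← Finset.sum_filter]
        simp [mul_comm]
      · simp [hb]
  have h2 : ∑ b, (((atB E b).card : ℝ) + (if b ∈ Q then 8 * (Q.card : ℝ) else 0)) =
      E.card + 8 * (Q.card : ℝ) ^ 2 := by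
    rw [Finset.sum_add_distrib]
    congr 1
    · rw [← sum_atB E]
      push_cast
      rfl
    · rw [← Finset.sum_filter]
      simp
      ring
  rw [sum_sq] at h3
  have hp : (0 : ℝ) ≤ (P.card : ℝ) := by positivity
  have hq : (0 : ℝ) ≤ (Q.card : ℝ) := by positivity
  have h4 : (E.card : ℝ) ^ 2 ≤ P.card * (E.card + 8 * (Q.card : ℝ) ^ 2) :=
    h3.trans (mul_le_mul_of_nonneg_left (h1.trans h2.le) hp)
  by_contra hcon
  push Not at hcon
  have hs : √(P.card : ℝ) ^ 2 = P.card := Real.sq_sqrt hp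
  have hs0 := Real.sqrt_nonneg (P.card : ℝ)
  set r := √(P.card : ℝ)
  set q : ℝ := (Q.card : ℝ)
  set p : ℝ := (P.card : ℝ)
  set e : ℝ := (E.card : ℝ)
  have h5 : 0 ≤ 3 * r * q := by positivity
  have h6 : 3 * r * q < e - p := by linarith
  have h7 : 3 * r * q < e := by linarith
  have h8 : (3 * r * q) * (3 * r * q) < (e - p) * e := mul_lt_mul'' h6 h7 h5 h5
  have h9 : (3 * r * q) * (3 * r * q) = 9 * p * q ^ 2 := by rw [← hs]; ring
  have h10 : 0 ≤ p * q ^ 2 := by positivity
  nlinarith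

end

section

variable {A B : Type*} [Fintype A] [Fintype B] [DecidableEq A] [DecidableEq B]

lemma Hub.mono {E E' : Finset (A × B)} (h : Hub E) (hE : E' ⊆ E) : Hub E' := by
  intro v x₀ x₁ hne h0 h1
  refine (Finset.card_le_card ?_).trans (h v x₀ x₁ hne (hE h0) (hE h1))
  intro w hw
  simp only [mem_filter, mem_univ, true_and] at hw ⊢
  refine ⟨hw.1, hE hw.2.1, hE hw.2.2.1, hw.2.2.2.trans (Finset.card_le_card ?_)⟩
  intro a ha
  simp only [com, mem_filter, mem_univ, true_and] at ha ⊢
  exact ⟨hE ha.1, hE ha.2⟩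

lemma sw_mono {E E' : Finset (A × B)} (hE : E' ⊆ E) : sw E' ⊆ sw E := by
  intro f hf
  rw [mem_sw'] at hf ⊢
  exact hE hf

lemma atA_mono {E E' : Finset (A × B)} (hE : E' ⊆ E) (a : A) : atA E' a ⊆ atA E a :=
  Finset.filter_subset_filter _ hE

lemma atB_mono {E E' : Finset (A × B)} (hE : E' ⊆ E) (b : B) : atB E' b ⊆ atB E b :=
  Finset.filter_subset_filter _ hE

/-- few vertices of large degree -/
lemma card_highA_mul (E : Finset (A × B)) (x : ℝ) :
    ((univ.filter fun a => x ≤ ((atA E a).card : ℝ)).card : ℝ) * x ≤ E.card := by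
  rw [← sum_atA E]
  push_cast
  rw [← nsmul_eq_mul, ← Finset.sum_const]
  refine (Finset.sum_le_sum (g := fun a => ((atA E a).card : ℝ)) fun a ha => ?_).trans
    (Finset.sum_le_sum_of_subset_of_nonneg (Finset.subset_univ _) fun _ _ _ => by positivity)
  simpa using ha

lemma card_highB_mul (E : Finset (A × B)) (x : ℝ) :
    ((univ.filter fun b => x ≤ ((atB E b).card : ℝ)).card : ℝ) * x ≤ E.card := by
  have := card_highA_mul (sw E) x
  simpa only [card_sw, ← card_atB] using this

end

/-- (Pairs) many pairs of vertices of `B` have a common neighbour. -/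
theorem exists_many_pairs (d K : ℝ) (hd : 0 < d) (hK : 0 < K) : ∃ ρ > (0 : ℝ), ∃ s₀ : ℝ, ∀ s ≥ s₀,
    ∀ (A B : Type) [Fintype A] [Fintype B] [DecidableEq A] [DecidableEq B] (E : Finset (A × B)),
    Hub E → (Fintype.card A : ℝ) ≤ s ^ 2 → (Fintype.card B : ℝ) ≤ s ^ 2 →
    (∀ b, ((atB E b).card : ℝ) ≤ K * s) → d * s ^ 3 ≤ E.card →
    ρ * s ^ 4 ≤ ((univ.filter fun p : B × B => p.1 ≠ p.2 ∧ ∃ a, (a, p.1) ∈ E ∧ (a, p.2) ∈ E).card :
      ℝ) := by
  set t : ℕ := 3 + ⌈8 * K ^ 2 / d ^ 2⌉₊ with ht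
  have ht3 : 3 ≤ t := by omega
  have ht0 : (3 : ℝ) ≤ t := by exact_mod_cast ht3
  have htK : 8 * K ^ 2 / d ^ 2 ≤ (t : ℝ) - 1 := by
    have := Nat.le_ceil (8 * K ^ 2 / d ^ 2)
    rw [ht]
    push_cast
    linarith
  have htK' : 8 * K ^ 2 ≤ ((t : ℝ) - 1) * d ^ 2 := by
    rwa [div_le_iff₀ (by positivity)] at htK
  refine ⟨d ^ 2 / (2 * t), by positivity, max 1 (4 * K / d ^ 2), ?_⟩
  intro s hs A B _ _ _ _ E hE hA hB hdeg hcard
  have hs1 : 1 ≤ s := (le_max_left _ _).trans hs
  have hs0 : 0 < s := by linarith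
  have hs2 : 4 * K ≤ s * d ^ 2 := by
    have := (le_max_right _ _).trans hs
    rwa [div_le_iff₀ (by positivity)] at this
  -- lower bound for the sum of the squares
  have h1 : (E.card : ℝ) ^ 2 ≤ s ^ 2 * ∑ a, ((atA E a).card : ℝ) ^ 2 := by
    refine (card_sq_le_sum E univ (fun f _ => mem_univ _)).trans ?_
    gcongr
    simpa using hA
  have h2 : d ^ 2 * s ^ 4 ≤ ∑ a, ((atA E a).card : ℝ) ^ 2 := by
    have h3 : (d * s ^ 3) ^ 2 ≤ (E.card : ℝ) ^ 2 := by gcongr
    have h4 : s ^ 2 * (d ^ 2 * s ^ 4) ≤ s ^ 2 * ∑ a, ((atA E a).card : ℝ) ^ 2 := by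
      refine le_trans (le_of_eq ?_) (h3.trans h1)
      ring
    exact le_of_mul_le_mul_left h4 (by positivity)
  -- upper bound for the number of edges
  have h3 : (E.card : ℝ) ≤ K * s ^ 3 := by
    rw [← sum_atB E]
    push_cast
    calc ∑ b, ((atB E b).card : ℝ) ≤ ∑ _b : B, K * s := Finset.sum_le_sum fun b _ => hdeg b
      _ = Fintype.card B * (K * s) := by simp
      _ ≤ s ^ 2 * (K * s) := by gcongr
      _ = K * s ^ 3 := by ring
  -- heavy pairs
  have h4 : ((t : ℝ) - 1) * ∑ b, ∑ b' ∈ univ.filter (fun w => w ≠ b ∧ t ≤ (com E b w).card),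
      ((com E b b').card : ℝ) ≤ 2 * K ^ 2 * s ^ 4 := by
    rw [Finset.mul_sum]
    calc ∑ b, ((t : ℝ) - 1) * ∑ b' ∈ univ.filter (fun w => w ≠ b ∧ t ≤ (com E b w).card),
          ((com E b b').card : ℝ)
        ≤ ∑ _b : B, 2 * (K * s) ^ 2 := by
          refine Finset.sum_le_sum fun b _ => (hub_sum E hE b t ht3).trans ?_
          gcongr
          exact hdeg b
      _ = Fintype.card B * (2 * (K * s) ^ 2) := by simp
      _ ≤ s ^ 2 * (2 * (K * s) ^ 2) := by gcongr
      _ = 2 * K ^ 2 * s ^ 4 := by ring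
  set HV := ∑ b, ∑ b' ∈ univ.filter (fun w => w ≠ b ∧ t ≤ (com E b w).card),
      ((com E b b').card : ℝ) with hHV
  have h5 : HV ≤ d ^ 2 * s ^ 4 / 4 := by
    have h6 : ((t : ℝ) - 1) * HV ≤ ((t : ℝ) - 1) * (d ^ 2 * s ^ 4 / 4) := by
      have h7 : 0 ≤ s ^ 4 := by positivity
      nlinarith
    exact le_of_mul_le_mul_left h6 (by linarith)
  -- splitting
  have h6 : ∑ b, ∑ b', ((com E b b').card : ℝ) ≤ E.card + HV +
      t * ((univ.filter fun p : B × B => p.1 ≠ p.2 ∧
        ∃ a, (a, p.1) ∈ E ∧ (a, p.2) ∈ E).card : ℝ) := by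
    have h0 : ∀ b b', ((com E b b').card : ℝ) ≤
      (if b' = b then ((atB E b).card : ℝ) else 0) +
        (if b' ≠ b ∧ t ≤ (com E b b').card then ((com E b b').card : ℝ) else 0) +
        (if b ≠ b' ∧ ∃ a, (a, b) ∈ E ∧ (a, b') ∈ E then (t : ℝ) else 0) := by
      intro b b'
      by_cases h1 : b' = b
      · subst h1
        rw [com_self]
        split_ifs <;> simp_all
      · by_cases h2 : t ≤ (com E b b').card
        · have e3 : (if b' ≠ b ∧ t ≤ (com E b b').card then ((com E b b').card : ℝ) else 0) =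
              (com E b b').card := if_pos ⟨h1, h2⟩
          rw [e3, if_neg h1]
          split_ifs <;> linarith
        · have e3 : (if b' ≠ b ∧ t ≤ (com E b b').card then ((com E b b').card : ℝ) else 0) = 0 :=
            if_neg (fun h => h2 h.2)
          rw [e3, if_neg h1]
          split_ifs with h3
          · have : (com E b b').card ≤ t := by omega
            have : ((com E b b').card : ℝ) ≤ t := by exact_mod_cast this
            linarith
          · have : com E b b' = ∅ := by
              rw [Finset.eq_empty_iff_forall_notMem]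
              intro a ha
              simp only [com, mem_filter, mem_univ, true_and] at ha
              exact h3 ⟨Ne.symm h1, a, ha.1, ha.2⟩
            rw [this]
            simp
    refine (Finset.sum_le_sum fun b _ => Finset.sum_le_sum fun b' _ => h0 b b').trans ?_
    simp only [Finset.sum_add_distrib]
    refine add_le_add (add_le_add ?_ ?_) ?_
    · simp only [Finset.sum_ite_eq', mem_univ, if_true]
      rw [← sum_atB E]
      push_cast
      rfl
    · rw [hHV]
      refine le_of_eq (Finset.sum_congr rfl fun b _ => ?_)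
      rw [← Finset.sum_filter]
    · rw [← Finset.sum_product' univ univ
        (fun b b' => (if b ≠ b' ∧ ∃ a, (a, b) ∈ E ∧ (a, b') ∈ E then (t : ℝ) else 0)),
        ← Finset.sum_filter, Finset.sum_const, nsmul_eq_mul, mul_comm]
      rfl
  rw [← sum_sq] at h6
  have h7 : K * s ^ 3 ≤ d ^ 2 * s ^ 4 / 4 := by
    have : 0 < s ^ 3 := by positivity
    nlinarith
  have h8 : d ^ 2 * s ^ 4 / 2 ≤ t * ((univ.filter fun p : B × B => p.1 ≠ p.2 ∧
        ∃ a, (a, p.1) ∈ E ∧ (a, p.2) ∈ E).card : ℝ) := by linarith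
  calc d ^ 2 / (2 * t) * s ^ 4 = (d ^ 2 * s ^ 4 / 2) / t := by field_simp
    _ ≤ _ := by
      rw [div_le_iff₀ (by positivity)]
      linarith

/-- (Clean) remove the vertices of large degree. -/
theorem exists_clean (c : ℝ) (hc : 0 < c) : ∃ K > (0 : ℝ), ∀ s > (0 : ℝ),
    ∀ (A B : Type) [Fintype A] [Fintype B] [DecidableEq A] [DecidableEq B] (E : Finset (A × B)),
    Hub E → Hub (sw E) → (Fintype.card A : ℝ) ≤ s ^ 2 → (Fintype.card B : ℝ) ≤ s ^ 2 →
    c * s ^ 3 ≤ E.card →
    ∃ E' ⊆ E, c / 2 * s ^ 3 ≤ E'.card ∧ (∀ a, ((atA E' a).card : ℝ) ≤ K * s) ∧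
      ∀ b, ((atB E' b).card : ℝ) ≤ K * s := by
  refine ⟨1000 / c ^ 2, by positivity, ?_⟩
  set K : ℝ := 1000 / c ^ 2 with hKdef
  have hK : 0 < K := by positivity
  have hKc : K * c ^ 2 = 1000 := by rw [hKdef]; field_simp
  -- the one-sided statement
  have main : ∀ s > (0 : ℝ), ∀ (A B : Type) [Fintype A] [Fintype B] [DecidableEq A] [DecidableEq B]
      (E : Finset (A × B)), Hub E → Hub (sw E) → (Fintype.card A : ℝ) ≤ s ^ 2 →
      (Fintype.card B : ℝ) ≤ s ^ 2 →
      ((E.filter fun f => K * s ≤ ((atA E f.1).card : ℝ)).card : ℝ) ≤ c / 4 * s ^ 3 := by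
    intro s hs A B _ _ _ _ E hB hA hcA hcB
    have hE : (E.card : ℝ) ≤ 4 * s ^ 3 := by
      have h1 := card_sq_le E hB hA univ univ (by intro f _; simp)
      simp only [Finset.card_univ] at h1
      have h2 : (E.card : ℝ) ^ 2 ≤ (4 * s ^ 3) ^ 2 := by
        calc (E.card : ℝ) ^ 2 ≤ _ := h1
          _ ≤ 10 * s ^ 2 * s ^ 2 * s ^ 2 := by
            gcongr
            exact max_le hcA hcB
          _ ≤ (4 * s ^ 3) ^ 2 := by nlinarith [pow_pos hs 6]
      exact le_of_sq_le_sq h2 (by positivity)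
    set Ah := univ.filter fun a => K * s ≤ ((atA E a).card : ℝ) with hAh
    have h1 : (Ah.card : ℝ) * (K * s) ≤ 4 * s ^ 3 := (card_highA_mul E (K * s)).trans hE
    have h2 : (Ah.card : ℝ) * K ≤ 4 * s ^ 2 := by
      have : (Ah.card : ℝ) * K * s ≤ 4 * s ^ 2 * s := by nlinarith
      exact le_of_mul_le_mul_right this hs
    set F := E.filter fun f => K * s ≤ ((atA E f.1).card : ℝ) with hF
    have h3 := card_sq_le F (hB.mono (Finset.filter_subset _ _))
      (hA.mono (sw_mono (Finset.filter_subset _ _))) Ah univ (by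
        intro f hf
        simp only [hF, mem_filter] at hf
        simp [hAh, hf.2])
    simp only [Finset.card_univ] at h3
    have h4 : (Ah.card : ℝ) ≤ s ^ 2 := by
      refine le_trans ?_ hcA
      exact_mod_cast Finset.card_le_univ Ah
    have h5 : (F.card : ℝ) ^ 2 ≤ 10 * Ah.card * s ^ 4 := by
      calc (F.card : ℝ) ^ 2 ≤ _ := h3
        _ ≤ 10 * Ah.card * s ^ 2 * s ^ 2 := by
          gcongr
          exact max_le h4 hcB
        _ = 10 * Ah.card * s ^ 4 := by ring
    have h6 : (F.card : ℝ) ^ 2 ≤ (c / 4 * s ^ 3) ^ 2 := by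
      refine h5.trans ?_
      have h7 : 10 * (Ah.card : ℝ) * s ^ 4 * K ≤ (c / 4 * s ^ 3) ^ 2 * K := by
        calc 10 * (Ah.card : ℝ) * s ^ 4 * K = 10 * s ^ 4 * (Ah.card * K) := by ring
          _ ≤ 10 * s ^ 4 * (4 * s ^ 2) := by gcongr
          _ ≤ (c / 4 * s ^ 3) ^ 2 * K := by
            have : (c / 4 * s ^ 3) ^ 2 * K = (K * c ^ 2) / 16 * s ^ 6 := by ring
            rw [this, hKc]
            nlinarith [pow_pos hs 6]
      exact le_of_mul_le_mul_right h7 hK
    exact le_of_sq_le_sq h6 (by positivity)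
  intro s hs A B _ _ _ _ E hB hA hcA hcB hcard
  have m1 := main s hs A B E hB hA hcA hcB
  have m2 := main s hs B A (sw E) hA (by rwa [sw_sw]) hcB hcA
  have m3 : ((E.filter fun f => K * s ≤ ((atB E f.2).card : ℝ)).card : ℝ) ≤ c / 4 * s ^ 3 := by
    refine le_trans (le_of_eq ?_) m2
    have : sw (E.filter fun f => K * s ≤ ((atB E f.2).card : ℝ)) =
        (sw E).filter fun f => K * s ≤ ((atA (sw E) f.1).card : ℝ) := by
      ext ⟨b, a⟩
      simp only [mem_sw, mem_filter, card_atB]
    rw [← this, card_sw]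
  refine ⟨E.filter fun f => ¬ (K * s ≤ ((atA E f.1).card : ℝ)) ∧
    ¬ (K * s ≤ ((atB E f.2).card : ℝ)), Finset.filter_subset _ _, ?_, ?_, ?_⟩
  · have h1 : E ⊆ (E.filter fun f => ¬ (K * s ≤ ((atA E f.1).card : ℝ)) ∧
        ¬ (K * s ≤ ((atB E f.2).card : ℝ))) ∪ ((E.filter fun f => K * s ≤ ((atA E f.1).card : ℝ)) ∪
          (E.filter fun f => K * s ≤ ((atB E f.2).card : ℝ))) := by
      intro f hf
      simp only [mem_union, mem_filter, hf, true_and]
      tauto
    have h2 : (E.card : ℝ) ≤ _ := Nat.cast_le.mpr ((Finset.card_le_card h1).trans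
      ((Finset.card_union_le _ _).trans (Nat.add_le_add_left (Finset.card_union_le _ _) _)))
    push_cast at h2
    linarith
  · intro a
    by_cases h : K * s ≤ ((atA E a).card : ℝ)
    · have : atA (E.filter fun f => ¬ (K * s ≤ ((atA E f.1).card : ℝ)) ∧
        ¬ (K * s ≤ ((atB E f.2).card : ℝ))) a = ∅ := by
        rw [Finset.eq_empty_iff_forall_notMem]
        rintro ⟨a', b⟩ ha
        simp only [atA, mem_filter] at ha
        obtain ⟨⟨_, h2, _⟩, rfl⟩ := ha
        exact h2 h
      rw [this]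
      simp
      positivity
    · push Not at h
      refine le_trans ?_ h.le
      exact_mod_cast Finset.card_le_card (atA_mono (Finset.filter_subset _ _) a)
  · intro b
    by_cases h : K * s ≤ ((atB E b).card : ℝ)
    · have : atB (E.filter fun f => ¬ (K * s ≤ ((atA E f.1).card : ℝ)) ∧
        ¬ (K * s ≤ ((atB E f.2).card : ℝ))) b = ∅ := by
        rw [Finset.eq_empty_iff_forall_notMem]
        rintro ⟨a', b'⟩ ha
        simp only [atB, mem_filter] at ha
        obtain ⟨⟨_, _, h2⟩, rfl⟩ := ha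
        exact h2 h
      rw [this]
      simp
      positivity
    · push Not at h
      refine le_trans ?_ h.le
      exact_mod_cast Finset.card_le_card (atB_mono (Finset.filter_subset _ _) b)

/-- (NC) few edges see many edges of their block at both end points, when there are many blocks. -/
theorem exists_nc (η ε C : ℝ) (hη : 0 < η) (hε : 0 < ε) (hC : 0 < C) : ∃ M₀ : ℕ, ∀ M ≥ M₀, ∀ s > (0 : ℝ),
    ∀ (A B : Type) [Fintype A] [Fintype B] [DecidableEq A] [DecidableEq B] (E : Finset (A × B))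
    (blk : A × B → ℕ), Hub E → Hub (sw E) → (∀ f ∈ E, blk f < M) →
    (∀ j, ((E.filter fun f => blk f = j).card : ℝ) ≤ C * s ^ 3 / M) →
    ((E.filter fun f => η * s ≤ ((atA E f.1).filter fun g => blk g = blk f).card ∧
      η * s ≤ ((atB E f.2).filter fun g => blk g = blk f).card).card : ℝ) ≤ ε * s ^ 3 := by
  refine ⟨⌈10 * (C / η) ^ 3 / ε ^ 2⌉₊ + 1, ?_⟩
  intro M hM s hs A B _ _ _ _ E blk hB hA hblk hcard
  have hM1 : 0 < M := by omega
  have hM0 : (0 : ℝ) < M := by exact_mod_cast hM1
  have hM2 : 10 * (C / η) ^ 3 ≤ M * ε ^ 2 := by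
    have h1 := Nat.le_ceil (10 * (C / η) ^ 3 / ε ^ 2)
    have h2 : ((⌈10 * (C / η) ^ 3 / ε ^ 2⌉₊ : ℕ) : ℝ) ≤ M := by
      have : ⌈10 * (C / η) ^ 3 / ε ^ 2⌉₊ ≤ M := by omega
      exact_mod_cast this
    have h3 := h1.trans h2
    rwa [div_le_iff₀ (by positivity)] at h3
  set F := E.filter fun f => η * s ≤ ((atA E f.1).filter fun g => blk g = blk f).card ∧
      η * s ≤ ((atB E f.2).filter fun g => blk g = blk f).card with hF
  -- the contribution of one block
  have h1 : ∀ j, ((F.filter fun f => blk f = j).card : ℝ) ^ 2 ≤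
      10 * (C / (M * η)) ^ 3 * s ^ 6 := by
    intro j
    set Ej := E.filter fun f => blk f = j with hEj
    have hEjB : Hub Ej := hB.mono (Finset.filter_subset _ _)
    have hEjA : Hub (sw Ej) := hA.mono (sw_mono (Finset.filter_subset _ _))
    set Aj := univ.filter fun a => η * s ≤ ((atA Ej a).card : ℝ) with hAj
    set Bj := univ.filter fun b => η * s ≤ ((atB Ej b).card : ℝ) with hBj
    have cA : (Aj.card : ℝ) ≤ C / (M * η) * s ^ 2 := by
      have h2 := (card_highA_mul Ej (η * s)).trans (hcard j)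
      have h3 : (Aj.card : ℝ) * (η * s) ≤ (C / (M * η) * s ^ 2) * (η * s) := by
        refine h2.trans (le_of_eq ?_)
        field_simp
      exact le_of_mul_le_mul_right h3 (by positivity)
    have cB : (Bj.card : ℝ) ≤ C / (M * η) * s ^ 2 := by
      have h2 := (card_highB_mul Ej (η * s)).trans (hcard j)
      have h3 : (Bj.card : ℝ) * (η * s) ≤ (C / (M * η) * s ^ 2) * (η * s) := by
        refine h2.trans (le_of_eq ?_)
        field_simp
      exact le_of_mul_le_mul_right h3 (by positivity)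
    have hsub : (F.filter fun f => blk f = j) ⊆ Ej := by
      intro f hf
      simp only [hF, hEj, mem_filter] at hf ⊢
      exact ⟨hf.1.1, hf.2⟩
    have h4 := card_sq_le (F.filter fun f => blk f = j) (hEjB.mono hsub) (hEjA.mono (sw_mono hsub))
      Aj Bj (by
        intro f hf
        simp only [hF, mem_filter] at hf
        obtain ⟨⟨hfE, h5, h6⟩, hj⟩ := hf
        have e1 : (atA E f.1).filter (fun g => blk g = blk f) = atA Ej f.1 := by
          ext g
          simp only [atA, hEj, mem_filter, hj]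
          tauto
        have e2 : (atB E f.2).filter (fun g => blk g = blk f) = atB Ej f.2 := by
          ext g
          simp only [atB, hEj, mem_filter, hj]
          tauto
        rw [e1] at h5
        rw [e2] at h6
        simp [hAj, hBj, h5, h6])
    calc ((F.filter fun f => blk f = j).card : ℝ) ^ 2 ≤ _ := h4
      _ ≤ 10 * (C / (M * η) * s ^ 2) * (C / (M * η) * s ^ 2) * (C / (M * η) * s ^ 2) := by
        gcongr
        exact max_le cA cB
      _ = 10 * (C / (M * η)) ^ 3 * s ^ 6 := by ring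
  have h2 : (F.card : ℝ) = ∑ j ∈ Finset.range M, ((F.filter fun f => blk f = j).card : ℝ) := by
    rw [Finset.card_eq_sum_card_fiberwise (f := blk) (t := Finset.range M) (by
      intro f hf
      have : f ∈ F := hf
      simp only [hF, mem_filter] at this
      simpa using hblk f this.1)]
    push_cast
    rfl
  have h3 : (F.card : ℝ) ^ 2 ≤ (ε * s ^ 3) ^ 2 := by
    rw [h2]
    calc (∑ j ∈ Finset.range M, ((F.filter fun f => blk f = j).card : ℝ)) ^ 2
        ≤ (Finset.range M).card * ∑ j ∈ Finset.range M, ((F.filter fun f => blk f = j).card : ℝ) ^ 2 :=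
          sq_sum_le_card_mul_sum_sq
      _ ≤ (Finset.range M).card * ∑ _j ∈ Finset.range M, (10 * (C / (M * η)) ^ 3 * s ^ 6) := by
          gcongr with j _
          exact h1 j
      _ = (10 * (C / η) ^ 3) * s ^ 6 / M := by
          simp only [Finset.sum_const, Finset.card_range, nsmul_eq_mul]
          field_simp
      _ ≤ (M * ε ^ 2) * s ^ 6 / M := by gcongr
      _ = (ε * s ^ 3) ^ 2 := by field_simp
  exact le_of_sq_le_sq h3 (by positivity)

end Pool.Agent.LP
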