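import Pool.Agent.H12_d8337a.Sys

/-!
# Counting subdivided `K_{3,3}` (helper file for CombE)
-/

namespace Pool.Agent.LP

open Finset

/-- cube power mean inequality without division -/
lemma cube_sum_le {ι : Type*} (s : Finset ι) (f : ι → ℝ) (hf : ∀ i ∈ s, 0 ≤ f i) :
    (∑ i ∈ s, f i) ^ 3 ≤ (s.card : ℝ) ^ 2 * ∑ i ∈ s, f i ^ 3 := by
  rcases s.eq_empty_or_nonempty with rfl | hs
  · simp
  · have h := pow_sum_div_card_le_sum_pow hf 2
    have hc : (0 : ℝ) < (s.card : ℝ) ^ 2 := by
      have : 0 < s.card := hs.card_pos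
      positivity
    rw [div_le_iff₀ hc] at h
    norm_num at h
    linarith [h]

/-- number of `K_{3,3}` homomorphisms in a dense relation -/
lemma count_lower {B : Type*} [Fintype B] [DecidableEq B] (J : B → B → Prop)
    [∀ b b', Decidable (J b b')] (ρ s : ℝ) (hs : 0 < s) (hρ : 0 ≤ ρ)
    (hB : (Fintype.card B : ℝ) ≤ s ^ 2)
    (h : ρ * s ^ 4 ≤ ((univ.filter fun p : B × B => J p.1 p.2).card : ℝ)) :
    ρ ^ 9 * s ^ 12 ≤ ((univ.filter fun t : (Fin 3 → B) × (Fin 3 → B) =>
      ∀ i j, J (t.1 i) (t.2 j)).card : ℝ) := by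
  classical
  -- degrees
  set deg : B → ℝ := fun b => ((univ.filter fun b' => J b b').card : ℝ) with hdeg
  have h1 : ((univ.filter fun p : B × B => J p.1 p.2).card : ℝ) = ∑ b, deg b := by
    rw [hdeg]
    rw [← Nat.cast_sum]
    congr 1
    rw [← card_sigma]
    refine card_bij' (fun p _ => ⟨p.1, p.2⟩) (fun p _ => (p.1, p.2)) ?_ ?_ ?_ ?_
    · intro p hp; simpa using hp
    · intro p hp; simpa using hp
    · intro p hp; rfl
    · intro p hp; rfl
  set Ns : (Fin 3 → B) → Finset B := fun ψ => univ.filter fun b => ∀ j, J b (ψ j) with hNs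
  have h2 : (∑ ψ : Fin 3 → B, ((Ns ψ).card : ℝ)) = ∑ b, deg b ^ 3 := by
    have hb := sum_card_bipartiteAbove_eq_sum_card_bipartiteBelow
      (s := (univ : Finset (Fin 3 → B))) (t := (univ : Finset B)) (fun ψ b => ∀ j, J b (ψ j))
    have e1 : ∀ ψ : Fin 3 → B, bipartiteAbove (fun ψ b => ∀ j, J b (ψ j)) (univ : Finset B) ψ
        = Ns ψ := by intro ψ; rfl
    have e2 : ∀ b : B, (bipartiteBelow (fun (ψ : Fin 3 → B) b => ∀ j, J b (ψ j))
        (univ : Finset (Fin 3 → B)) b).card = (univ.filter fun b' => J b b').card ^ 3 := by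
      intro b
      have : bipartiteBelow (fun (ψ : Fin 3 → B) b => ∀ j, J b (ψ j))
          (univ : Finset (Fin 3 → B)) b = Fintype.piFinset fun _ => univ.filter fun b' => J b b' := by
        ext ψ; simp [bipartiteBelow, Fintype.mem_piFinset]
      rw [this, Fintype.card_piFinset]
      simp
    simp only [e1, e2] at hb
    rw [← Nat.cast_sum, hb]
    push_cast
    rfl
  have h3 : ((univ.filter fun t : (Fin 3 → B) × (Fin 3 → B) =>
      ∀ i j, J (t.1 i) (t.2 j)).card : ℝ) = ∑ ψ : Fin 3 → B, ((Ns ψ).card : ℝ) ^ 3 := by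
    have : (univ.filter fun t : (Fin 3 → B) × (Fin 3 → B) => ∀ i j, J (t.1 i) (t.2 j)).card
        = ∑ ψ : Fin 3 → B, (Ns ψ).card ^ 3 := by
      have e : ∀ ψ : Fin 3 → B, (Ns ψ).card ^ 3 =
          (Fintype.piFinset fun _ : Fin 3 => Ns ψ).card := by
        intro ψ; rw [Fintype.card_piFinset]; simp
      simp only [e]
      rw [← card_sigma]
      refine card_bij' (fun p _ => ⟨p.2, p.1⟩) (fun p _ => (p.2, p.1)) ?_ ?_ ?_ ?_
      · intro p hp
        simp only [mem_filter, mem_univ, true_and] at hp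
        simp only [mem_sigma, mem_univ, true_and, Fintype.mem_piFinset, hNs, mem_filter]
        exact hp
      · intro p hp
        simp only [mem_sigma, mem_univ, true_and, Fintype.mem_piFinset, hNs, mem_filter] at hp
        simp only [mem_filter, mem_univ, true_and]
        exact hp
      · intro p hp; rfl
      · intro p hp; rfl
    rw [this]; push_cast; rfl
  have hdeg0 : ∀ b, 0 ≤ deg b := fun b => by positivity
  set N : ℝ := (Fintype.card B : ℝ) with hN
  have hN0 : 0 ≤ N := by positivity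
  -- first power mean
  have p1 : (∑ b, deg b) ^ 3 ≤ N ^ 2 * ∑ b, deg b ^ 3 := by
    have := cube_sum_le (univ : Finset B) deg fun b _ => hdeg0 b
    simpa [hN] using this
  have p2 : (∑ ψ : Fin 3 → B, ((Ns ψ).card : ℝ)) ^ 3 ≤
      (N ^ 3) ^ 2 * ∑ ψ : Fin 3 → B, ((Ns ψ).card : ℝ) ^ 3 := by
    have := cube_sum_le (univ : Finset (Fin 3 → B)) (fun ψ => ((Ns ψ).card : ℝ))
      fun b _ => by positivity
    simpa [hN] using this
  have q0 : (0 : ℝ) ≤ ρ * s ^ 4 := by positivity
  have q1 : ρ ^ 3 * s ^ 8 ≤ ∑ b, deg b ^ 3 := by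
    have a1 : (ρ * s ^ 4) ^ 3 ≤ (∑ b, deg b) ^ 3 := by
      rw [← h1]; exact pow_le_pow_left₀ q0 h 3
    have a0 : 0 ≤ ∑ b, deg b ^ 3 := sum_nonneg fun b _ => pow_nonneg (hdeg0 b) 3
    have a2 : N ^ 2 * ∑ b, deg b ^ 3 ≤ (s ^ 2) ^ 2 * ∑ b, deg b ^ 3 :=
      mul_le_mul_of_nonneg_right (pow_le_pow_left₀ hN0 hB 2) a0
    have a3 : s ^ 4 * (ρ ^ 3 * s ^ 8) ≤ s ^ 4 * ∑ b, deg b ^ 3 := by
      calc s ^ 4 * (ρ ^ 3 * s ^ 8) = (ρ * s ^ 4) ^ 3 := by ring
        _ ≤ _ := a1
        _ ≤ _ := p1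
        _ ≤ _ := a2
        _ = s ^ 4 * ∑ b, deg b ^ 3 := by ring
    exact le_of_mul_le_mul_left a3 (by positivity)
  have q2 : ρ ^ 9 * s ^ 12 ≤ ∑ ψ : Fin 3 → B, ((Ns ψ).card : ℝ) ^ 3 := by
    have b0 : (0 : ℝ) ≤ ρ ^ 3 * s ^ 8 := by positivity
    have a1 : (ρ ^ 3 * s ^ 8) ^ 3 ≤ (∑ ψ : Fin 3 → B, ((Ns ψ).card : ℝ)) ^ 3 := by
      rw [h2]; exact pow_le_pow_left₀ b0 q1 3
    have a0 : 0 ≤ ∑ ψ : Fin 3 → B, ((Ns ψ).card : ℝ) ^ 3 := sum_nonneg fun b _ => by positivity
    have a2 : (N ^ 3) ^ 2 * ∑ ψ : Fin 3 → B, ((Ns ψ).card : ℝ) ^ 3 ≤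
        ((s ^ 2) ^ 3) ^ 2 * ∑ ψ : Fin 3 → B, ((Ns ψ).card : ℝ) ^ 3 :=
      mul_le_mul_of_nonneg_right
        (pow_le_pow_left₀ (by positivity) (pow_le_pow_left₀ hN0 hB 3) 2) a0
    have a3 : s ^ 12 * (ρ ^ 9 * s ^ 12) ≤ s ^ 12 * ∑ ψ : Fin 3 → B, ((Ns ψ).card : ℝ) ^ 3 := by
      calc s ^ 12 * (ρ ^ 9 * s ^ 12) = (ρ ^ 3 * s ^ 8) ^ 3 := by ring
        _ ≤ _ := a1
        _ ≤ _ := p2
        _ ≤ _ := a2
        _ = s ^ 12 * ∑ ψ : Fin 3 → B, ((Ns ψ).card : ℝ) ^ 3 := by ring
    exact le_of_mul_le_mul_left a3 (by positivity)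
  rw [h3]
  exact q2

/-- functions on a 6 element set with values in `F` on a given subset -/
lemma card_piFinset_ite {ι B : Type*} [Fintype ι] [DecidableEq ι] [Fintype B] [DecidableEq B]
    (S : Finset ι) (F : Finset B) :
    (Fintype.piFinset fun x : ι => if x ∈ S then F else univ).card
      = F.card ^ S.card * Fintype.card B ^ (Fintype.card ι - S.card) := by
  rw [Fintype.card_piFinset]
  have : ∀ x : ι, (if x ∈ S then F else (univ : Finset B)).card
      = if x ∈ S then F.card else Fintype.card B := by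
    intro x; split_ifs <;> simp
  simp only [this]
  rw [prod_ite]
  simp only [prod_const]
  congr 2
  · congr 1; ext x; simp
  · rw [← card_univ (α := ι), ← card_sdiff_of_subset (subset_univ S)]
    congr 1; ext x; simp

/-- the six vertices of a tuple -/
abbrev Six := Fin 3 ⊕ Fin 3

lemma card_pairs {B : Type*} [Fintype B] [DecidableEq B] (P : (Six → B) → Prop)
    [DecidablePred P] :
    (univ.filter fun t : (Fin 3 → B) × (Fin 3 → B) => P (Sum.elim t.1 t.2)).card
      = (univ.filter P).card := by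
  refine card_bij' (fun t _ => Sum.elim t.1 t.2)
    (fun θ _ => (fun i => θ (Sum.inl i), fun i => θ (Sum.inr i))) ?_ ?_ ?_ ?_
  · intro t ht; simpa using ht
  · intro θ hθ
    simp only [mem_filter, mem_univ, true_and] at hθ ⊢
    convert hθ using 1
    funext x; cases x <;> rfl
  · intro t ht; rfl
  · intro θ hθ; funext x; cases x <;> rfl

/-- few tuples are not injective -/
lemma card_bad1 {B : Type*} [Fintype B] [DecidableEq B] :
    (univ.filter fun θ : Six → B => ∃ p q, p ≠ q ∧ θ p = θ q).card ≤ 30 * Fintype.card B ^ 5 := by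
  classical
  have hsub : (univ.filter fun θ : Six → B => ∃ p q, p ≠ q ∧ θ p = θ q) ⊆
      ((univ : Finset (Six × Six)).filter fun pq => pq.1 ≠ pq.2).biUnion fun pq =>
        (univ : Finset B).biUnion fun b =>
          Fintype.piFinset fun x : Six => if x ∈ ({pq.1, pq.2} : Finset Six) then {b} else univ := by
    intro θ hθ
    simp only [mem_filter, mem_univ, true_and] at hθ
    obtain ⟨p, q, hpq, he⟩ := hθ
    simp only [mem_biUnion, mem_filter, mem_univ, true_and, Fintype.mem_piFinset]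
    refine ⟨(p, q), hpq, θ p, ?_⟩
    intro x
    by_cases hx : x ∈ ({p, q} : Finset Six)
    · rw [if_pos hx]
      simp only [mem_insert, mem_singleton] at hx
      rcases hx with rfl | rfl
      · simp
      · simp [he]
    · rw [if_neg hx]; simp
  refine (card_le_card hsub).trans ?_
  have h30 : ((univ : Finset (Six × Six)).filter fun pq => pq.1 ≠ pq.2).card = 30 := by decide
  calc _ ≤ ∑ pq ∈ ((univ : Finset (Six × Six)).filter fun pq => pq.1 ≠ pq.2),
        ((univ : Finset B).biUnion fun b =>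
          Fintype.piFinset fun x : Six => if x ∈ ({pq.1, pq.2} : Finset Six) then {b} else univ).card :=
        card_biUnion_le
    _ ≤ ∑ pq ∈ ((univ : Finset (Six × Six)).filter fun pq => pq.1 ≠ pq.2),
        Fintype.card B ^ 5 := by
        refine sum_le_sum fun pq hpq => ?_
        simp only [mem_filter, mem_univ, true_and] at hpq
        refine card_biUnion_le.trans ?_
        have : ∀ b : B, (Fintype.piFinset fun x : Six =>
            if x ∈ ({pq.1, pq.2} : Finset Six) then {b} else univ).card = Fintype.card B ^ 4 := by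
          intro b
          rw [card_piFinset_ite, card_pair hpq]
          simp [Six]
        simp only [this]
        rw [sum_const, card_univ, smul_eq_mul]
        exact le_of_eq (by ring)
    _ = 30 * Fintype.card B ^ 5 := by rw [sum_const, h30, smul_eq_mul]

section

variable {A B : Type*} [Fintype A] [Fintype B] [DecidableEq A] [DecidableEq B]

/-- neighbours in `B` of a vertex of `A` -/
def nb (E : Finset (A × B)) (a : A) : Finset B := univ.filter fun b => (a, b) ∈ E

omit [Fintype A] in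
lemma card_nb (E : Finset (A × B)) (a : A) : (nb E a).card = (atA E a).card := by
  refine card_bij' (fun b _ => (a, b)) (fun f _ => f.2) ?_ ?_ ?_ ?_
  · intro b hb; simpa [nb, atA] using hb
  · intro f hf
    obtain ⟨a', b⟩ := f
    simp only [atA, mem_filter] at hf
    obtain ⟨h1, rfl⟩ := hf
    simpa [nb] using h1
  · intro b hb; rfl
  · intro f hf
    obtain ⟨a', b⟩ := f
    simp only [atA, mem_filter] at hf
    obtain ⟨h1, rfl⟩ := hf
    rfl

/-- few tuples have a vertex adjacent to three of them -/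
lemma card_bad2 (E : Finset (A × B)) (D : ℝ) (hD : ∀ a, ((atA E a).card : ℝ) ≤ D) :
    ((univ.filter fun θ : Six → B => ∃ S ∈ powersetCard 3 (univ : Finset Six), ∃ a, ∀ x ∈ S,
      (a, θ x) ∈ E).card : ℝ) ≤ 20 * Fintype.card A * D ^ 3 * Fintype.card B ^ 3 := by
  classical
  have hsub : (univ.filter fun θ : Six → B => ∃ S ∈ powersetCard 3 (univ : Finset Six), ∃ a,
      ∀ x ∈ S, (a, θ x) ∈ E) ⊆ (powersetCard 3 (univ : Finset Six)).biUnion fun S =>
        (univ : Finset A).biUnion fun a =>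
          Fintype.piFinset fun x : Six => if x ∈ S then nb E a else univ := by
    intro θ hθ
    simp only [mem_filter, mem_univ, true_and] at hθ
    obtain ⟨S, hS, a, ha⟩ := hθ
    simp only [mem_biUnion, mem_univ, true_and, Fintype.mem_piFinset]
    refine ⟨S, hS, a, fun x => ?_⟩
    by_cases hx : x ∈ S
    · rw [if_pos hx]; simpa [nb] using ha x hx
    · rw [if_neg hx]; simp
  have h20 : (powersetCard 3 (univ : Finset Six)).card = 20 := by
    rw [card_powersetCard]; rfl
  have hle : ((univ.filter fun θ : Six → B => ∃ S ∈ powersetCard 3 (univ : Finset Six), ∃ a,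
      ∀ x ∈ S, (a, θ x) ∈ E).card : ℝ) ≤
      ∑ S ∈ powersetCard 3 (univ : Finset Six), ∑ a : A, ((nb E a).card : ℝ) ^ 3 *
        (Fintype.card B : ℝ) ^ 3 := by
    have h1 := (card_le_card hsub).trans card_biUnion_le
    have h2 : ∑ S ∈ powersetCard 3 (univ : Finset Six), ((univ : Finset A).biUnion fun a =>
          Fintype.piFinset fun x : Six => if x ∈ S then nb E a else univ).card ≤
        ∑ S ∈ powersetCard 3 (univ : Finset Six), ∑ a : A, (nb E a).card ^ 3 *
        Fintype.card B ^ 3 := by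
      refine sum_le_sum fun S hS => ?_
      refine card_biUnion_le.trans (sum_le_sum fun a _ => ?_)
      rw [card_piFinset_ite, (mem_powersetCard.1 hS).2]
      simp [Six]
    have h3 := h1.trans h2
    exact_mod_cast h3
  refine hle.trans ?_
  have h4 : ∀ a : A, ((nb E a).card : ℝ) ^ 3 * (Fintype.card B : ℝ) ^ 3 ≤
      D ^ 3 * (Fintype.card B : ℝ) ^ 3 := by
    intro a
    rw [card_nb]
    have := hD a
    gcongr
  calc _ ≤ ∑ S ∈ powersetCard 3 (univ : Finset Six), ∑ a : A, D ^ 3 * (Fintype.card B : ℝ) ^ 3 :=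
        sum_le_sum fun S _ => sum_le_sum fun a _ => h4 a
    _ = 20 * Fintype.card A * D ^ 3 * Fintype.card B ^ 3 := by
        rw [sum_const, h20, sum_const, card_univ]
        simp only [nsmul_eq_mul]
        push_cast
        ring

/-- third index -/
lemma third (i k m : Fin 3) (h : i ≠ k) (h1 : m ≠ i) (h2 : m ≠ k) : m = -(i + k) := by
  revert i k m; decide

/-- reconstruction of a tuple from a crossing pair and some extra data -/
def recon (d : ((Fin 3 × Fin 3 × Fin 3 × Fin 3) × (Bool × Bool)) ×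
    (Σ _ : (A × B) × (A × B), B × B) × (B × B)) : (Fin 3 → B) × (Fin 3 → B) :=
  (fun m => if m = d.1.1.1 then (if d.1.2.1 then d.2.1.1.1.2 else d.2.1.2.1)
      else if m = d.1.1.2.2.1 then (if d.1.2.2 then d.2.1.1.2.2 else d.2.1.2.2) else d.2.2.1,
   fun n => if n = d.1.1.2.1 then (if d.1.2.1 then d.2.1.2.1 else d.2.1.1.1.2)
      else if n = d.1.1.2.2.2 then (if d.1.2.2 then d.2.1.2.2 else d.2.1.1.2.2) else d.2.2.2)

end

end Pool.Agent.LP
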