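import Pool.Agent.H12_d8337a.CombBasic
import Pool.Agent.H12_d8337a.CombE14

/-!
# A dense graph in which every subdivided `K_{3,3}` has a crossing contains an edge crossed by many
edges
-/

namespace Pool.Agent.LP

open Finset

/-- Every (nondegenerate) 1-subdivision of `K_{3,3}` with the six branch vertices in `B` has two
crossing edges which belong to independent subdivided edges. -/
def K33Cross {A B : Type*} (E : Finset (A × B)) (Crs : A × B → A × B → Prop) : Prop :=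
  ∀ (b b' : Fin 3 → B) (a : Fin 3 → Fin 3 → A), Function.Injective b → Function.Injective b' →
    (∀ i j, b i ≠ b' j) → (∀ i j k l, a i j = a k l → i = k ∧ j = l) →
    (∀ i j, (a i j, b i) ∈ E) → (∀ i j, (a i j, b' j) ∈ E) →
    ∃ i j k l, i ≠ k ∧ j ≠ l ∧ ∃ x y, (x = b i ∨ x = b' j) ∧ (y = b k ∨ y = b' l) ∧
      Crs (a i j, x) (a k l, y)

section

variable {A B : Type*} [Fintype A] [Fintype B] [DecidableEq A] [DecidableEq B]

omit [Fintype A] in
/-- a good nondegenerate tuple can be reconstructed from a crossing pair -/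
lemma good_recon (E : Finset (A × B)) (Crs : A × B → A × B → Prop) [DecidableRel Crs]
    (hK : K33Cross E Crs) (t : (Fin 3 → B) × (Fin 3 → B))
    (hJ : ∀ i j, t.1 i ≠ t.2 j ∧ ∃ a, (a, t.1 i) ∈ E ∧ (a, t.2 j) ∈ E)
    (h1 : ¬ ∃ p q : Six, p ≠ q ∧ (Sum.elim t.1 t.2) p = (Sum.elim t.1 t.2) q)
    (h2 : ¬ ∃ S ∈ powersetCard 3 (univ : Finset Six), ∃ a, ∀ x ∈ S,
      (a, (Sum.elim t.1 t.2) x) ∈ E) :
    ∃ d ∈ (univ : Finset ((Fin 3 × Fin 3 × Fin 3 × Fin 3) × (Bool × Bool))) ×ˢ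
      (((E ×ˢ E).filter fun p => Crs p.1 p.2).sigma fun p => nb E p.1.1 ×ˢ nb E p.2.1) ×ˢ
      (univ : Finset (B × B)), recon d = t := by
  classical
  obtain ⟨φ, ψ⟩ := t
  simp only at hJ h1 h2 ⊢
  have hφ : Function.Injective φ := by
    intro i k h
    by_contra hne
    exact h1 ⟨Sum.inl i, Sum.inl k, by simpa using hne, h⟩
  have hψ : Function.Injective ψ := by
    intro i k h
    by_contra hne
    exact h1 ⟨Sum.inr i, Sum.inr k, by simpa using hne, h⟩
  choose hne a ha hb using hJ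
  have hinj : ∀ i j k l, a i j = a k l → i = k ∧ j = l := by
    intro i j k l h
    by_contra hcon
    rw [not_and_or] at hcon
    apply h2
    rcases hcon with hik | hjl
    · refine ⟨{Sum.inl i, Sum.inl k, Sum.inr j}, ?_, a i j, ?_⟩
      · rw [mem_powersetCard_univ]
        rw [card_eq_three]
        exact ⟨_, _, _, by simpa using hik, by simp, by simp, rfl⟩
      · intro x hx
        simp only [mem_insert, mem_singleton] at hx
        rcases hx with rfl | rfl | rfl
        · exact ha i j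
        · rw [h]; exact ha k l
        · exact hb i j
    · refine ⟨{Sum.inl i, Sum.inr j, Sum.inr l}, ?_, a i j, ?_⟩
      · rw [mem_powersetCard_univ]
        rw [card_eq_three]
        exact ⟨_, _, _, by simp, by simp, by simpa using hjl, rfl⟩
      · intro x hx
        simp only [mem_insert, mem_singleton] at hx
        rcases hx with rfl | rfl | rfl
        · exact ha i j
        · exact hb i j
        · rw [h]; exact hb k l
  obtain ⟨i, j, k, l, hik, hjl, x, y, hx, hy, hc⟩ := hK φ ψ a hφ hψ hne hinj ha hb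
  -- the other end points
  obtain ⟨p, x', hx', hpi, hpj, hxE⟩ : ∃ (p : Bool) (x' : B), (a i j, x') ∈ E ∧
      (φ i = if p then x else x') ∧ (ψ j = if p then x' else x) ∧ (a i j, x) ∈ E := by
    rcases hx with rfl | rfl
    · exact ⟨true, ψ j, hb i j, by simp, by simp, ha i j⟩
    · exact ⟨false, φ i, ha i j, by simp, by simp, hb i j⟩
  obtain ⟨q, y', hy', hqk, hql, hyE⟩ : ∃ (q : Bool) (y' : B), (a k l, y') ∈ E ∧
      (φ k = if q then y else y') ∧ (ψ l = if q then y' else y) ∧ (a k l, y) ∈ E := by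
    rcases hy with rfl | rfl
    · exact ⟨true, ψ l, hb k l, by simp, by simp, ha k l⟩
    · exact ⟨false, φ k, ha k l, by simp, by simp, hb k l⟩
  refine ⟨(((i, j, k, l), (p, q)), ⟨((a i j, x), (a k l, y)), (x', y')⟩,
    (φ (-(i + k)), ψ (-(j + l)))), ?_, ?_⟩
  · simp only [mem_product, mem_univ, true_and, and_true, mem_sigma, mem_filter, nb]
    exact ⟨⟨⟨hxE, hyE⟩, hc⟩, hx', hy'⟩
  · unfold recon
    simp only
    refine Prod.ext ?_ ?_
    · funext m
      simp only
      by_cases hmi : m = i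
      · rw [if_pos hmi, hmi, hpi]
      · rw [if_neg hmi]
        by_cases hmk : m = k
        · rw [if_pos hmk, hmk, hqk]
        · rw [if_neg hmk, third i k m hik hmi hmk]
    · funext m
      simp only
      by_cases hmi : m = j
      · rw [if_pos hmi, hmi, hpj]
      · rw [if_neg hmi]
        by_cases hmk : m = l
        · rw [if_pos hmk, hmk, hql]
        · rw [if_neg hmk, third j l m hjl hmi hmk]

omit [Fintype A] in
/-- upper bound for the number of nondegenerate tuples -/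
lemma card_data_le (E : Finset (A × B)) (Crs : A × B → A × B → Prop) [DecidableRel Crs] (D : ℝ)
    (hD : ∀ a, ((atA E a).card : ℝ) ≤ D) (hD0 : 0 ≤ D) :
    (((univ : Finset ((Fin 3 × Fin 3 × Fin 3 × Fin 3) × (Bool × Bool))) ×ˢ
      (((E ×ˢ E).filter fun p => Crs p.1 p.2).sigma fun p => nb E p.1.1 ×ˢ nb E p.2.1) ×ˢ
      (univ : Finset (B × B))).card : ℝ) ≤
      324 * (((E ×ˢ E).filter fun p => Crs p.1 p.2).card * D ^ 2) * (Fintype.card B : ℝ) ^ 2 := by
  rw [card_product, card_product, card_sigma]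
  have h324 : (univ : Finset ((Fin 3 × Fin 3 × Fin 3 × Fin 3) × (Bool × Bool))).card = 324 := by
    simp
  rw [h324, card_univ, Fintype.card_prod]
  push_cast
  have h : ∑ p ∈ (E ×ˢ E).filter (fun p => Crs p.1 p.2), (((nb E p.1.1 ×ˢ nb E p.2.1).card : ℕ) : ℝ)
      ≤ ((E ×ˢ E).filter fun p => Crs p.1 p.2).card * D ^ 2 := by
    rw [← nsmul_eq_mul]
    refine sum_le_card_nsmul _ _ _ fun p _ => ?_
    rw [card_product, card_nb, card_nb]
    push_cast
    rw [sq]
    exact mul_le_mul (hD _) (hD _) (Nat.cast_nonneg _) hD0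
  calc (324 : ℝ) * ((∑ p ∈ (E ×ˢ E).filter (fun p => Crs p.1 p.2),
        (((nb E p.1.1 ×ˢ nb E p.2.1).card : ℕ) : ℝ)) * ((Fintype.card B : ℝ) * Fintype.card B))
      ≤ 324 * ((((E ×ˢ E).filter fun p => Crs p.1 p.2).card * D ^ 2) *
        ((Fintype.card B : ℝ) * Fintype.card B)) := by
        refine mul_le_mul_of_nonneg_left (mul_le_mul_of_nonneg_right h ?_) (by norm_num)
        exact mul_nonneg (Nat.cast_nonneg _) (Nat.cast_nonneg _)
    _ = _ := by ring

omit [Fintype B] [DecidableEq B] in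
/-- the total number of edges is at most the maximum degree times the number of vertices -/
lemma card_le_deg (E : Finset (A × B)) (D : ℝ) (hD : ∀ a, ((atA E a).card : ℝ) ≤ D) :
    (E.card : ℝ) ≤ Fintype.card A * D := by
  have h : E.card = ∑ a : A, (atA E a).card := by
    unfold atA
    exact card_eq_sum_card_fiberwise (f := Prod.fst) (t := univ) fun x _ => by simp
  rw [h]
  push_cast
  rw [← card_univ, ← nsmul_eq_mul]
  exact sum_le_card_nsmul _ _ _ fun a _ => hD a

end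

theorem exists_crossed (c K : ℝ) (hc : 0 < c) (hK : 0 < K) : ∃ c' > (0 : ℝ), ∃ s₀ : ℝ, ∀ s ≥ s₀,
    ∀ (A B : Type) [Fintype A] [Fintype B] [DecidableEq A] [DecidableEq B] (E : Finset (A × B))
    (Crs : A × B → A × B → Prop) [DecidableRel Crs],
    (Fintype.card A : ℝ) ≤ s ^ 2 → (Fintype.card B : ℝ) ≤ s ^ 2 → Hub E →
    (∀ a, ((atA E a).card : ℝ) ≤ K * s) → (∀ b, ((atB E b).card : ℝ) ≤ K * s) →
    c * s ^ 3 ≤ E.card → K33Cross E Crs →
    ∃ e ∈ E, c' * s ^ 3 ≤ ((E.filter fun f => Crs e f).card : ℝ) := by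
  obtain ⟨ρ, hρ, s₁, hs₁⟩ := exists_many_pairs c K hc hK
  refine ⟨ρ ^ 9 / (1296 * K ^ 3), by positivity, max (max s₁ 1) ((2 * (30 + 20 * K ^ 3) + 1) / ρ ^ 9),
    ?_⟩
  intro s hs A B _ _ _ _ E Crs _ hA hB hHub hdA hdB hE hKc
  have hs1 : s₁ ≤ s := le_trans (le_trans (le_max_left _ _) (le_max_left _ _)) hs
  have hsone : 1 ≤ s := le_trans (le_trans (le_max_right _ _) (le_max_left _ _)) hs
  have hsbig : (2 * (30 + 20 * K ^ 3) + 1) / ρ ^ 9 ≤ s := le_trans (le_max_right _ _) hs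
  have hspos : 0 < s := by linarith
  have hpairs := hs₁ s hs1 A B E hHub hA hB hdB hE
  classical
  set J : B → B → Prop := fun b b' => b ≠ b' ∧ ∃ a, (a, b) ∈ E ∧ (a, b') ∈ E with hJdef
  have hlow := count_lower J ρ s hspos hρ.le hB (by
    refine hpairs.trans (le_of_eq ?_)
    congr 2)
  -- the degenerate tuples
  set good := univ.filter fun t : (Fin 3 → B) × (Fin 3 → B) => ∀ i j, J (t.1 i) (t.2 j) with hgood
  set bad1 := univ.filter fun t : (Fin 3 → B) × (Fin 3 → B) => ∃ p q : Six, p ≠ q ∧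
    (Sum.elim t.1 t.2) p = (Sum.elim t.1 t.2) q with hbad1
  set bad2 := univ.filter fun t : (Fin 3 → B) × (Fin 3 → B) =>
    ∃ S ∈ powersetCard 3 (univ : Finset Six), ∃ a, ∀ x ∈ S, (a, (Sum.elim t.1 t.2) x) ∈ E with hbad2
  have c1 : (bad1.card : ℝ) ≤ 30 * s ^ 10 := by
    have e : bad1.card = _ := card_pairs (B := B) fun θ : Six → B => ∃ p q, p ≠ q ∧ θ p = θ q
    have h1 : (bad1.card : ℝ) ≤ 30 * (Fintype.card B : ℝ) ^ 5 := by
      rw [e]; exact_mod_cast card_bad1
    calc (bad1.card : ℝ) ≤ 30 * (Fintype.card B : ℝ) ^ 5 := h1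
      _ ≤ 30 * (s ^ 2) ^ 5 := by gcongr
      _ = 30 * s ^ 10 := by ring
  have c2 : (bad2.card : ℝ) ≤ 20 * K ^ 3 * s ^ 11 := by
    have e : bad2.card = _ := card_pairs (B := B) fun θ : Six → B =>
      ∃ S ∈ powersetCard 3 (univ : Finset Six), ∃ a, ∀ x ∈ S, (a, θ x) ∈ E
    have h1 := card_bad2 E (K * s) hdA
    rw [← e] at h1
    calc (bad2.card : ℝ) ≤ _ := h1
      _ ≤ 20 * s ^ 2 * (K * s) ^ 3 * (s ^ 2) ^ 3 := by gcongr
      _ = 20 * K ^ 3 * s ^ 11 := by ring
  -- the nondegenerate ones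
  set data := (univ : Finset ((Fin 3 × Fin 3 × Fin 3 × Fin 3) × (Bool × Bool))) ×ˢ
      (((E ×ˢ E).filter fun p => Crs p.1 p.2).sigma fun p => nb E p.1.1 ×ˢ nb E p.2.1) ×ˢ
      (univ : Finset (B × B)) with hdata
  have hsub : good ⊆ bad1 ∪ bad2 ∪ data.image recon := by
    intro t ht
    rw [hgood, mem_filter] at ht
    by_cases h1 : t ∈ bad1
    · exact mem_union_left _ (mem_union_left _ h1)
    by_cases h2 : t ∈ bad2
    · exact mem_union_left _ (mem_union_right _ h2)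
    refine mem_union_right _ ?_
    have h1' : ¬ ∃ p q : Six, p ≠ q ∧ (Sum.elim t.1 t.2) p = (Sum.elim t.1 t.2) q :=
      fun h => h1 (by rw [hbad1, mem_filter]; exact ⟨mem_univ _, h⟩)
    have h2' : ¬ ∃ S ∈ powersetCard 3 (univ : Finset Six), ∃ a, ∀ x ∈ S,
        (a, (Sum.elim t.1 t.2) x) ∈ E :=
      fun h => h2 (by rw [hbad2, mem_filter]; exact ⟨mem_univ _, h⟩)
    have hJt : ∀ i j, t.1 i ≠ t.2 j ∧ ∃ a, (a, t.1 i) ∈ E ∧ (a, t.2 j) ∈ E := ht.2
    have hrec := good_recon E Crs hKc t hJt h1' h2'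
    rw [← hdata] at hrec
    clear_value data
    exact Exists.elim hrec fun d hd => hd.2 ▸ mem_image_of_mem recon hd.1
  have c3 : (good.card : ℝ) ≤ bad1.card + bad2.card + data.card := by
    have h1 := card_le_card hsub
    have h2 := card_union_le (bad1 ∪ bad2) (data.image recon)
    have h3 := card_union_le bad1 bad2
    have h4 : (data.image recon).card ≤ data.card := card_image_le
    have : good.card ≤ bad1.card + bad2.card + data.card := by omega
    exact_mod_cast this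
  have hD0 : 0 ≤ K * s := by positivity
  have c4 := card_data_le E Crs (K * s) hdA hD0
  set C := ((E ×ˢ E).filter fun p => Crs p.1 p.2) with hC
  have c5 : (data.card : ℝ) ≤ 324 * K ^ 2 * s ^ 6 * C.card := by
    calc (data.card : ℝ) ≤ _ := c4
      _ ≤ 324 * (C.card * (K * s) ^ 2) * (s ^ 2) ^ 2 := by gcongr
      _ = 324 * K ^ 2 * s ^ 6 * C.card := by ring
  -- lower bound for the number of crossing pairs
  have hpow : (30 + 20 * K ^ 3) * s ^ 11 ≤ ρ ^ 9 * s ^ 12 / 2 := by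
    have h1 : (2 * (30 + 20 * K ^ 3) + 1) ≤ s * ρ ^ 9 := (div_le_iff₀ (by positivity)).1 hsbig
    have h2 : (30 + 20 * K ^ 3) ≤ ρ ^ 9 * s / 2 := by nlinarith [h1]
    calc (30 + 20 * K ^ 3) * s ^ 11 ≤ (ρ ^ 9 * s / 2) * s ^ 11 := by gcongr
      _ = ρ ^ 9 * s ^ 12 / 2 := by ring
  have hs10 : 30 * s ^ 10 + 20 * K ^ 3 * s ^ 11 ≤ (30 + 20 * K ^ 3) * s ^ 11 := by
    have : s ^ 10 ≤ s ^ 11 := pow_le_pow_right₀ hsone (by norm_num)
    nlinarith [this]
  have c6 : ρ ^ 9 * s ^ 12 / 2 ≤ 324 * K ^ 2 * s ^ 6 * C.card := by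
    linarith [hlow, c1, c2, c3, c5, hpow, hs10]
  have c7 : ρ ^ 9 * s ^ 6 / 2 ≤ 324 * K ^ 2 * C.card := by
    have : s ^ 6 * (ρ ^ 9 * s ^ 6 / 2) ≤ s ^ 6 * (324 * K ^ 2 * C.card) := by
      calc s ^ 6 * (ρ ^ 9 * s ^ 6 / 2) = ρ ^ 9 * s ^ 12 / 2 := by ring
        _ ≤ _ := c6
        _ = _ := by ring
    exact le_of_mul_le_mul_left this (by positivity)
  by_contra hcon
  push Not at hcon
  -- `C` is small
  have hCsum : C.card = ∑ e ∈ E, (E.filter fun f => Crs e f).card := by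
    rw [hC, card_filter, sum_product]
    refine sum_congr rfl fun e _ => ?_
    rw [card_filter]
  have hEle : (E.card : ℝ) ≤ K * s ^ 3 := by
    calc (E.card : ℝ) ≤ Fintype.card A * (K * s) := card_le_deg E (K * s) hdA
      _ ≤ s ^ 2 * (K * s) := by gcongr
      _ = K * s ^ 3 := by ring
  have hEne : E.Nonempty := by
    rw [← card_pos]
    have : (0 : ℝ) < E.card := lt_of_lt_of_le (by positivity) hE
    exact_mod_cast this
  have hClt : (C.card : ℝ) < E.card * (ρ ^ 9 / (1296 * K ^ 3) * s ^ 3) := by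
    rw [hCsum]
    push_cast
    rw [← nsmul_eq_mul]
    rw [← sum_const]
    exact sum_lt_sum_of_nonempty hEne hcon
  have hClt2 : (C.card : ℝ) < K * s ^ 3 * (ρ ^ 9 / (1296 * K ^ 3) * s ^ 3) :=
    lt_of_lt_of_le hClt (mul_le_mul_of_nonneg_right hEle (by positivity))
  have : 324 * K ^ 2 * (C.card : ℝ) < ρ ^ 9 * s ^ 6 / 2 := by
    calc 324 * K ^ 2 * (C.card : ℝ) < 324 * K ^ 2 * (K * s ^ 3 * (ρ ^ 9 / (1296 * K ^ 3) * s ^ 3)) := by
          gcongr
      _ = ρ ^ 9 * s ^ 6 / 4 := by field_simp; ring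
      _ ≤ ρ ^ 9 * s ^ 6 / 2 := by
          have : 0 ≤ ρ ^ 9 * s ^ 6 := by positivity
          linarith
  linarith

end Pool.Agent.LP
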