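import Mathlib

/-!
# Topological graphs, simple and `k`-locally planar drawings (MP_d8337a_co)
-/

open Set Filter Topology

namespace Pool.Agent.LP

/-- `S` is a Jordan arc with end points `p` and `q`: the image of `[0,1]` under an injective
continuous map sending `0` to `p` and `1` to `q`. -/
def IsArc (S : Set ℂ) (p q : ℂ) : Prop :=
  ∃ γ : ℝ → ℂ, ContinuousOn γ (Icc 0 1) ∧ InjOn γ (Icc 0 1) ∧ γ 0 = p ∧ γ 1 = q ∧
    γ '' Icc 0 1 = S

/-- The sets `S` and `T` cross transversally at `z`: some homeomorphism from an open neighbourhood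
of `z` onto an open neighbourhood of `0` takes `z` to `0`, the part of `S` in the neighbourhood to
the real axis and the part of `T` in the neighbourhood to the imaginary axis. -/
def CrossesAt (S T : Set ℂ) (z : ℂ) : Prop :=
  ∃ h : OpenPartialHomeomorph ℂ ℂ, z ∈ h.source ∧ h z = 0 ∧
    ∀ w ∈ h.source, (w ∈ S ↔ (h w).im = 0) ∧ (w ∈ T ↔ (h w).re = 0)

/-- A topological graph on the vertex set `V`: a (simple) graph drawn in the plane `ℂ`. The
vertices are distinct points, every edge is a Jordan arc joining its end points that passes
through no other vertex; two different edges meet in finitely many points, each of which is a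
shared end point or a transversal crossing. -/
structure TopGraph (V : Type*) where
  /-- the underlying abstract graph -/
  graph : SimpleGraph V
  /-- the point representing a vertex -/
  pt : V → ℂ
  /-- the arc representing an edge (irrelevant for pairs that are not edges) -/
  curve : Sym2 V → Set ℂ
  pt_injective : Function.Injective pt
  isArc : ∀ u v, graph.Adj u v → IsArc (curve s(u, v)) (pt u) (pt v)
  avoid : ∀ e ∈ graph.edgeSet, ∀ w, w ∉ e → pt w ∉ curve e
  finite_inter : ∀ e ∈ graph.edgeSet, ∀ f ∈ graph.edgeSet, e ≠ f →
    (curve e ∩ curve f).Finite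
  meets : ∀ e ∈ graph.edgeSet, ∀ f ∈ graph.edgeSet, e ≠ f → ∀ z ∈ curve e ∩ curve f,
    (∃ w, w ∈ e ∧ w ∈ f ∧ z = pt w) ∨ CrossesAt (curve e) (curve f) z

variable {V : Type*}

/-- Two edges cross: they cross transversally at some point. -/
def TopGraph.Cross (D : TopGraph V) (e f : Sym2 V) : Prop :=
  ∃ z ∈ D.curve e ∩ D.curve f, CrossesAt (D.curve e) (D.curve f) z

/-- A topological graph is simple if every two edges have at most one point in common. -/
def TopGraph.Simple (D : TopGraph V) : Prop :=
  ∀ e ∈ D.graph.edgeSet, ∀ f ∈ D.graph.edgeSet, e ≠ f → (D.curve e ∩ D.curve f).Subsingleton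

/-- A topological graph is `k`-locally planar if no path of length at most `k` has a
self-crossing, i.e. no two edges of such a path cross each other. -/
def TopGraph.LocallyPlanar (D : TopGraph V) (k : ℕ) : Prop :=
  ∀ (u v : V) (p : D.graph.Walk u v), p.IsPath → p.length ≤ k →
    ∀ e ∈ p.edges, ∀ f ∈ p.edges, e ≠ f → ¬ D.Cross e f

/-- `e*_k(n)`: the maximum number of edges of an `n`-vertex simple `k`-locally planar topological
graph. -/
noncomputable def eStar (k n : ℕ) : ℕ :=
  sSup {m | ∃ D : TopGraph (Fin n), D.Simple ∧ D.LocallyPlanar k ∧ D.graph.edgeSet.ncard = m}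

end Pool.Agent.LP
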