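import Pool.Agent.H12_d8337a.Sg

/-!
# Charts at transversal crossings and the change of sign across a curve
-/

open Set Filter Topology

namespace Pool.Agent.LP

/-- A chart `k` at the crossing of the (simple) paths `c` and `d` at `c p = d q`: `k` embeds a disc
with `k 0 = c p`, the path `c` is the image of the real axis and `d` is the image of the imaginary
axis, with increasing parametrisations. -/
structure Chart (c d : ℝ → ℂ) (p q : ℝ) where
  k : ℂ → ℂ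
  r : ℝ
  φ : ℝ → ℝ
  ψ : ℝ → ℝ
  r_pos : 0 < r
  cont : ContinuousOn k (Metric.ball 0 r)
  inj : InjOn k (Metric.ball 0 r)
  φ_cont : ContinuousOn φ (Ioo (-r) r)
  ψ_cont : ContinuousOn ψ (Ioo (-r) r)
  φ_mono : StrictMonoOn φ (Ioo (-r) r)
  ψ_mono : StrictMonoOn ψ (Ioo (-r) r)
  φ_mem : ∀ x ∈ Ioo (-r) r, φ x ∈ Icc 0 1
  ψ_mem : ∀ x ∈ Ioo (-r) r, ψ x ∈ Icc 0 1
  φ_zero : φ 0 = p
  ψ_zero : ψ 0 = q
  c_eq : ∀ x ∈ Ioo (-r) r, c (φ x) = k x
  d_eq : ∀ x ∈ Ioo (-r) r, d (ψ x) = k (x * Complex.I)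
  c_im : ∀ w ∈ Metric.ball (0 : ℂ) r, k w ∈ c '' Icc 0 1 → w.im = 0
  d_re : ∀ w ∈ Metric.ball (0 : ℂ) r, k w ∈ d '' Icc 0 1 → w.re = 0

theorem norm_conj_mul_I (w : ℂ) : ‖(starRingEnd ℂ) w * Complex.I‖ = ‖w‖ := by
  rw [norm_mul, Complex.norm_I, mul_one]
  exact RCLike.norm_conj w

/-- exchange the roles of the two paths -/
noncomputable def Chart.swap {c d : ℝ → ℂ} {p q : ℝ} (h : Chart c d p q) : Chart d c q p where
  k := fun w => h.k ((starRingEnd ℂ) w * Complex.I)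
  r := h.r
  φ := h.ψ
  ψ := h.φ
  r_pos := h.r_pos
  cont := by
    apply h.cont.comp
    · exact (Continuous.mul Complex.continuous_conj continuous_const).continuousOn
    · intro w hw
      rw [mem_ball_zero_iff] at hw ⊢
      rw [norm_conj_mul_I]; exact hw
  inj := by
    intro w hw w' hw' he
    rw [mem_ball_zero_iff] at hw hw'
    have h1 := h.inj (by rw [mem_ball_zero_iff, norm_conj_mul_I]; exact hw)
      (by rw [mem_ball_zero_iff, norm_conj_mul_I]; exact hw') he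
    have h2 := mul_right_cancel₀ Complex.I_ne_zero h1
    exact star_injective h2
  φ_cont := h.ψ_cont
  ψ_cont := h.φ_cont
  φ_mono := h.ψ_mono
  ψ_mono := h.φ_mono
  φ_mem := h.ψ_mem
  ψ_mem := h.φ_mem
  φ_zero := h.ψ_zero
  ψ_zero := h.φ_zero
  c_eq := by
    intro x hx
    rw [h.d_eq x hx, Complex.conj_ofReal]
  d_eq := by
    intro x hx
    rw [h.c_eq x hx]
    congr 1
    rw [map_mul, Complex.conj_ofReal, Complex.conj_I]
    linear_combination (x : ℂ) * Complex.I_mul_I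
  c_im := by
    intro w hw hm
    rw [mem_ball_zero_iff] at hw
    have h1 := h.d_re _ (by rw [mem_ball_zero_iff, norm_conj_mul_I]; exact hw) hm
    simpa using h1
  d_re := by
    intro w hw hm
    rw [mem_ball_zero_iff] at hw
    have h1 := h.c_im _ (by rw [mem_ball_zero_iff, norm_conj_mul_I]; exact hw) hm
    simpa using h1

section

variable {c d : ℝ → ℂ} {p q : ℝ} (h : Chart c d p q) {ε : ℝ}

theorem closedBall_sub (hε : ε < h.r) : Metric.closedBall (0 : ℂ) ε ⊆ Metric.ball 0 h.r :=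
  Metric.closedBall_subset_ball hε

theorem Icc_sub (hε : ε < h.r) : Icc (-ε) ε ⊆ Ioo (-h.r) h.r := fun x hx =>
  ⟨by linarith [hx.1], by linarith [hx.2]⟩

/-- The path from `-ε` to `ε` on an arc between the real segment (`τ = 0`) and a half circle
(`τ = 1`). -/
noncomputable def arcPt (ε τ θ : ℝ) : ℂ := ((ε * Real.cos θ : ℝ) : ℂ) +
  ((τ * ε * Real.sin θ : ℝ) : ℂ) * Complex.I

theorem arcPt_re (ε τ θ : ℝ) : (arcPt ε τ θ).re = ε * Real.cos θ := by
  unfold arcPt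
  rw [Complex.add_re, Complex.ofReal_re, Complex.re_ofReal_mul, Complex.I_re, mul_zero, add_zero]

theorem arcPt_im (ε τ θ : ℝ) : (arcPt ε τ θ).im = τ * ε * Real.sin θ := by
  unfold arcPt
  rw [Complex.add_im, Complex.ofReal_im, Complex.im_ofReal_mul, Complex.I_im, mul_one, zero_add]

theorem arcPt_mem {ε τ : ℝ} (hε : 0 ≤ ε) (hτ : τ ∈ Icc (0 : ℝ) 1) (θ : ℝ) :
    arcPt ε τ θ ∈ Metric.closedBall (0 : ℂ) ε := by
  rw [mem_closedBall_zero_iff, ← sq_le_sq₀ (norm_nonneg _) hε,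
    Complex.sq_norm, Complex.normSq_apply, arcPt_re, arcPt_im]
  have h1 := Real.sin_sq_add_cos_sq θ
  have h2 : τ ^ 2 ≤ 1 := by nlinarith [hτ.1, hτ.2]
  have h3 : Real.cos θ ^ 2 = 1 - Real.sin θ ^ 2 := by linarith
  have h4 : ε * Real.cos θ * (ε * Real.cos θ) + τ * ε * Real.sin θ * (τ * ε * Real.sin θ) =
      ε ^ 2 - (1 - τ ^ 2) * (ε ^ 2 * Real.sin θ ^ 2) := by
    linear_combination ε ^ 2 * h3
  rw [h4]
  have h5 := mul_nonneg (sub_nonneg.2 h2) (mul_nonneg (sq_nonneg ε) (sq_nonneg (Real.sin θ)))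
  linarith

theorem arcPt_one (ε θ : ℝ) : arcPt ε 1 θ = ε * Complex.exp (θ * Complex.I) := by
  unfold arcPt
  rw [Complex.exp_mul_I, ← Complex.ofReal_cos, ← Complex.ofReal_sin]
  push_cast
  ring

theorem arcPt_zero (ε θ : ℝ) : arcPt ε 0 θ = ((ε * Real.cos θ : ℝ) : ℂ) := by
  unfold arcPt
  simp

theorem continuous_arcPt (ε : ℝ) : Continuous fun x : ℝ × ℝ => arcPt ε x.1 x.2 := by
  unfold arcPt
  fun_prop

/-- transport along `c` between `φ (-ε)` and `φ ε` computed on an arc -/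
theorem Chart.sg_arc (hc : ContinuousOn c (Icc 0 1)) (hε0 : 0 < ε) (hε : ε < h.r) {θ₀ θ₁ : ℝ}
    (hθ : θ₀ ≤ θ₁) {w : ℂ} (hw : w ∈ Metric.ball (0 : ℂ) ε) (hw0 : w.im ≠ 0)
    (hs : ∀ τ ∈ Icc (0 : ℝ) 1, ∀ θ ∈ Icc θ₀ θ₁, arcPt ε τ θ ≠ w)
    (hs₀ : Real.sin θ₀ = 0) (hs₁ : Real.sin θ₁ = 0) :
    sg c (h.φ (ε * Real.cos θ₀)) (h.φ (ε * Real.cos θ₁)) (h.k w) =
      sg (fun θ => h.k (ε * Complex.exp (θ * Complex.I))) θ₀ θ₁ (h.k w) := by
  have hsub := closedBall_sub h hε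
  have hwr : w ∈ Metric.ball (0 : ℂ) h.r := hsub (Metric.ball_subset_closedBall hw)
  have hcos : ∀ θ : ℝ, ε * Real.cos θ ∈ Icc (-ε) ε := fun θ =>
    ⟨by nlinarith [Real.neg_one_le_cos θ], by nlinarith [Real.cos_le_one θ]⟩
  have hIo : ∀ θ : ℝ, ε * Real.cos θ ∈ Ioo (-h.r) h.r := fun θ => Icc_sub h hε (hcos θ)
  have hcne : ∀ t ∈ Icc (0 : ℝ) 1, c t ≠ h.k w := by
    intro t ht he
    exact hw0 (h.c_im w hwr ⟨t, ht, he⟩)
  -- homotopy
  have hhom : sg (fun θ => h.k (arcPt ε 0 θ)) θ₀ θ₁ (h.k w) =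
      sg (fun θ => h.k (arcPt ε 1 θ)) θ₀ θ₁ (h.k w) := by
    refine sg_homotopy (H := fun x => h.k (arcPt ε x.1 x.2)) (p := h.k (arcPt ε 0 θ₀))
      (q := h.k (arcPt ε 0 θ₁)) hθ ?_ ?_ ?_ ?_
    · exact h.cont.comp (continuous_arcPt ε).continuousOn
        (fun x hx => hsub (arcPt_mem hε0.le hx.1 x.2))
    · intro x hx he
      exact hs x.1 hx.1 x.2 hx.2 (h.inj (hsub (arcPt_mem hε0.le hx.1 x.2)) hwr he)
    · intro τ _
      show h.k (arcPt ε τ θ₀) = h.k (arcPt ε 0 θ₀)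
      unfold arcPt
      rw [hs₀]
      simp
    · intro τ _
      show h.k (arcPt ε τ θ₁) = h.k (arcPt ε 0 θ₁)
      unfold arcPt
      rw [hs₁]
      simp
  have h1 : (fun θ => h.k (arcPt ε 1 θ)) = fun θ : ℝ => h.k (ε * Complex.exp (θ * Complex.I)) := by
    funext θ
    rw [arcPt_one]
  rw [h1] at hhom
  rw [← hhom]
  -- reparametrisation
  have hφc : ContinuousOn (fun θ => h.φ (ε * Real.cos θ)) (uIcc θ₀ θ₁) := by
    apply h.φ_cont.comp
    · exact (continuous_const.mul Real.continuous_cos).continuousOn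
    · intro θ _; exact hIo θ
  have h2 : sg (c ∘ fun θ => h.φ (ε * Real.cos θ)) θ₀ θ₁ (h.k w) =
      sg c (h.φ (ε * Real.cos θ₀)) (h.φ (ε * Real.cos θ₁)) (h.k w) :=
    sg_comp hc hcne hφc (fun θ _ => h.φ_mem _ (hIo θ))
  rw [← h2]
  refine sg_congr ?_ ?_ ?_
  · exact hc.comp hφc (fun θ _ => h.φ_mem _ (hIo θ))
  · intro θ _
    show c (h.φ (ε * Real.cos θ)) = h.k (arcPt ε 0 θ)
    rw [h.c_eq _ (hIo θ), arcPt_zero]
  · intro θ _
    exact hcne _ (h.φ_mem _ (hIo θ))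

end

/-- The sign of a closed chain containing `c` on `[a,b]`, `a < p < b`, changes when we cross `c`
at `c p` along `d`. -/
theorem Chart.flip {c d : ℝ → ℂ} {p q : ℝ} (h : Chart c d p q) (hc : ContinuousOn c (Icc 0 1))
    (hci : InjOn c (Icc 0 1)) (hd : ContinuousOn d (Icc 0 1)) (hdi : InjOn d (Icc 0 1)) {a b : ℝ}
    (ha : 0 ≤ a) (hap : a < p) (hpb : p < b)
    (hb : b ≤ 1) {Q : ℂ → ℂ} {U : Set ℂ} (hU : U ∈ 𝓝 (c p)) (hQ : ContinuousOn Q U)
    (hcl : ∀ z ∈ U, Q z ^ 2 * (c b - z) = c a - z) :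
    ∃ δ > 0, ∀ t ∈ Ioo q (q + δ), ∀ t' ∈ Ioo (q - δ) q,
      sg c a b (d t) * Q (d t) = -(sg c a b (d t') * Q (d t')) := by
  have hpi := Real.pi_pos
  -- choice of `ε`
  have h0r : (0 : ℝ) ∈ Ioo (-h.r) h.r := ⟨by linarith [h.r_pos], h.r_pos⟩
  have hk0 : h.k 0 = c p := by
    have := h.c_eq 0 h0r
    rw [h.φ_zero, Complex.ofReal_zero] at this
    exact this.symm
  have e1 : ∀ᶠ ε : ℝ in 𝓝[>] 0, ε < h.r := by
    filter_upwards [nhdsWithin_le_nhds (Iio_mem_nhds h.r_pos)] with ε hε using hε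
  have hφ0 : ContinuousAt h.φ 0 := h.φ_cont.continuousAt (Ioo_mem_nhds h0r.1 h0r.2)
  have e2 : ∀ᶠ x : ℝ in 𝓝 0, h.φ x ∈ Ioo a b := by
    apply hφ0.eventually
    rw [h.φ_zero]
    exact Ioo_mem_nhds hap hpb
  have e3 : ∀ᶠ ε : ℝ in 𝓝[>] 0, h.φ ε ∈ Ioo a b := e2.filter_mono nhdsWithin_le_nhds
  have e4 : ∀ᶠ ε : ℝ in 𝓝[>] 0, h.φ (-ε) ∈ Ioo a b := by
    have h1 : Tendsto (fun ε : ℝ => -ε) (𝓝 0) (𝓝 0) := by
      have := (continuous_neg (G := ℝ)).tendsto 0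
      rwa [neg_zero] at this
    exact (h1.eventually e2).filter_mono nhdsWithin_le_nhds
  have hkc0 : ContinuousAt h.k 0 := h.cont.continuousAt (Metric.ball_mem_nhds 0 h.r_pos)
  have e5 : ∀ᶠ ε : ℝ in 𝓝[>] 0, ∀ w ∈ Metric.ball (0 : ℂ) ε, h.k w ∈ U := by
    have h1 : h.k ⁻¹' U ∈ 𝓝 (0 : ℂ) := by
      apply hkc0.preimage_mem_nhds
      rw [hk0]; exact hU
    obtain ⟨ε₀, hε₀, hb0⟩ := Metric.mem_nhds_iff.1 h1
    filter_upwards [nhdsWithin_le_nhds (Iio_mem_nhds hε₀)] with ε hε w hw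
    exact hb0 (Metric.ball_subset_ball (le_of_lt hε) hw)
  obtain ⟨ε, hεr, hεB, hεA, hεU, hε0⟩ :=
    (e1.and (e3.and (e4.and (e5.and self_mem_nhdsWithin)))).exists
  have hε0 : (0 : ℝ) < ε := hε0
  set A := h.φ (-ε) with hA
  set B := h.φ ε with hB
  have hIs := Icc_sub h hεr
  have hmA : (-ε) ∈ Ioo (-h.r) h.r := hIs ⟨le_rfl, by linarith⟩
  have hmB : ε ∈ Ioo (-h.r) h.r := hIs ⟨by linarith, le_rfl⟩
  have hAB : A < B := h.φ_mono hmA hmB (by linarith)
  have hA01 := h.φ_mem _ hmA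
  have hB01 := h.φ_mem _ hmB
  have hcA : c A = h.k ((-ε : ℝ) : ℂ) := h.c_eq _ hmA
  have hcB : c B = h.k (ε : ℂ) := h.c_eq _ hmB
  have hsub := closedBall_sub h hεr
  have hab01 : Icc a b ⊆ Icc (0 : ℝ) 1 := Icc_subset_Icc ha hb
  -- points of `c` in the small disc
  have hin : ∀ w ∈ Metric.ball (0 : ℂ) ε, ∀ t ∈ Icc (0 : ℝ) 1, c t = h.k w → t ∈ Ioo A B := by
    intro w hw t ht he
    have hwr : w ∈ Metric.ball (0 : ℂ) h.r := hsub (Metric.ball_subset_closedBall hw)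
    have him := h.c_im w hwr ⟨t, ht, he⟩
    have hwre : w = (w.re : ℂ) := by
      apply Complex.ext
      · simp
      · simp [him]
    have hnorm : |w.re| < ε := by
      rw [mem_ball_zero_iff, hwre, Complex.norm_real, Real.norm_eq_abs] at hw
      exact hw
    rw [abs_lt] at hnorm
    have hwI : w.re ∈ Ioo (-h.r) h.r := hIs ⟨hnorm.1.le, hnorm.2.le⟩
    have h1 : c t = c (h.φ w.re) := by
      rw [he, h.c_eq _ hwI, ← hwre]
    have h2 := hci ht (h.φ_mem _ hwI) h1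
    rw [h2]
    exact ⟨h.φ_mono hmA hwI hnorm.1, h.φ_mono hwI hmB hnorm.2⟩
  have haA : Icc a A ⊆ Icc (0 : ℝ) 1 := Icc_subset_Icc ha hA01.2
  have hBb : Icc B b ⊆ Icc (0 : ℝ) 1 := Icc_subset_Icc hB01.1 hb
  have uaA : uIcc a A = Icc a A := uIcc_of_le hεA.1.le
  have uBb : uIcc B b = Icc B b := uIcc_of_le hεB.2.le
  have nA : ∀ w ∈ Metric.ball (0 : ℂ) ε, ∀ x ∈ uIcc a A, c x ≠ h.k w := by
    intro w hw x hx he
    rw [uaA] at hx
    exact absurd (hin w hw x (haA hx) he).1 (not_lt.2 hx.2)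
  have nB : ∀ w ∈ Metric.ball (0 : ℂ) ε, ∀ x ∈ uIcc B b, c x ≠ h.k w := by
    intro w hw x hx he
    rw [uBb] at hx
    exact absurd (hin w hw x (hBb hx) he).2 (not_lt.2 hx.1)
  -- the circle
  set Ci : ℝ → ℂ := fun θ => h.k (ε * Complex.exp (θ * Complex.I)) with hCi
  have hexp : ∀ θ : ℝ, ‖(ε : ℂ) * Complex.exp (θ * Complex.I)‖ = ε := by
    intro θ
    rw [norm_mul, Complex.norm_exp_ofReal_mul_I, mul_one, Complex.norm_real, Real.norm_eq_abs,
      abs_of_pos hε0]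
  have hCic : Continuous Ci := by
    have h1 : Continuous fun θ : ℝ => (ε : ℂ) * Complex.exp (θ * Complex.I) := by fun_prop
    exact h.cont.comp_continuous h1 (fun θ => hsub (by
      rw [mem_closedBall_zero_iff]; exact (hexp θ).le))
  have nC : ∀ w ∈ Metric.ball (0 : ℂ) ε, ∀ θ, Ci θ ≠ h.k w := by
    intro w hw θ he
    have h1 := h.inj (hsub (by rw [mem_closedBall_zero_iff]; exact (hexp θ).le))
      (hsub (Metric.ball_subset_closedBall hw)) he
    rw [mem_ball_zero_iff, ← h1, hexp θ] at hw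
    exact lt_irrefl _ hw
  have hCi0 : Ci 0 = c B := by
    rw [hcB, hCi]; simp
  have hCiπ : Ci Real.pi = c A := by
    rw [hcA, hCi]
    simp only [Complex.exp_pi_mul_I]
    push_cast
    congr 1
    ring
  have hcirc : ∀ w ∈ Metric.ball (0 : ℂ) ε,
      sg Ci 0 Real.pi (h.k w) * sg Ci Real.pi (2 * Real.pi) (h.k w) = -1 := by
    intro w hw
    rw [sg_mul (a := 0) (b := 2 * Real.pi) hCic.continuousOn (fun θ _ => nC w hw θ)
      ⟨le_rfl, by linarith⟩ ⟨by linarith, by linarith⟩ ⟨by linarith, le_rfl⟩]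
    exact sg_circle hε0 (h.cont.mono hsub) (h.inj.mono hsub) hw
  -- the continuous function `V`
  set V : ℂ → ℂ := fun w => sg c a A (h.k w) * sg c B b (h.k w) * Q (h.k w) /
    sg Ci 0 Real.pi (h.k w) with hV
  have hkε : ContinuousOn h.k (Metric.ball (0 : ℂ) ε) :=
    h.cont.mono (Metric.ball_subset_closedBall.trans hsub)
  have hVc : ContinuousOn V (Metric.ball (0 : ℂ) ε) := by
    apply ContinuousOn.div
    · apply ContinuousOn.mul
      · apply ContinuousOn.mul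
        · refine (continuousOn_sg (hc.mono (uaA ▸ haA))).comp hkε ?_
          rintro w hw ⟨x, hx, he⟩
          exact nA w hw x hx he
        · refine (continuousOn_sg (hc.mono (uBb ▸ hBb))).comp hkε ?_
          rintro w hw ⟨x, hx, he⟩
          exact nB w hw x hx he
      · exact hQ.comp hkε (fun w hw => hεU w hw)
    · refine (continuousOn_sg hCic.continuousOn).comp hkε ?_
      rintro w hw ⟨x, hx, he⟩
      exact nC w hw x he
    · intro w hw
      exact sg_ne_zero hCic.continuousOn (fun θ _ => nC w hw θ)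
  have hV2 : ∀ w ∈ Metric.ball (0 : ℂ) ε, V w ^ 2 = 1 := by
    intro w hw
    have s1 := sg_sq (hc.mono (uaA ▸ haA)) (nA w hw)
    have s2 := sg_sq (hc.mono (uBb ▸ hBb)) (nB w hw)
    have s3 := sg_sq (γ := Ci) (s := 0) (t := Real.pi) hCic.continuousOn
      (fun θ _ => nC w hw θ)
    have s4 := hcl (h.k w) (hεU w hw)
    have na : c a - h.k w ≠ 0 := sub_ne_zero.2 (nA w hw a left_mem_uIcc)
    have nb : c b - h.k w ≠ 0 := sub_ne_zero.2 (nB w hw b right_mem_uIcc)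
    have nA' : c A - h.k w ≠ 0 := sub_ne_zero.2 (nA w hw A right_mem_uIcc)
    have nB' : c B - h.k w ≠ 0 := sub_ne_zero.2 (nB w hw B left_mem_uIcc)
    have nu : sg Ci 0 Real.pi (h.k w) ≠ 0 :=
      sg_ne_zero hCic.continuousOn (fun θ _ => nC w hw θ)
    rw [hCi0, hCiπ] at s3
    rw [hV]
    simp only
    rw [div_pow, mul_pow, mul_pow, div_eq_one_iff_eq (pow_ne_zero 2 nu)]
    have t1 : sg c a A (h.k w) ^ 2 = (c A - h.k w) / (c a - h.k w) := by
      rw [eq_div_iff na]; exact s1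
    have t2 : sg c B b (h.k w) ^ 2 = (c b - h.k w) / (c B - h.k w) := by
      rw [eq_div_iff nB']; exact s2
    have t3 : sg Ci 0 Real.pi (h.k w) ^ 2 = (c A - h.k w) / (c B - h.k w) := by
      rw [eq_div_iff nB']; exact s3
    have t4 : Q (h.k w) ^ 2 = (c a - h.k w) / (c b - h.k w) := by
      rw [eq_div_iff nb]; exact s4
    rw [t1, t2, t3, t4]
    field_simp
  -- decomposition of the sign
  have hdec : ∀ w ∈ Metric.ball (0 : ℂ) ε, w.im ≠ 0 →
      sg c a b (h.k w) = sg c a A (h.k w) * sg c A B (h.k w) * sg c B b (h.k w) := by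
    intro w hw hw0
    have hne : ∀ x ∈ Icc a b, c x ≠ h.k w := by
      intro x hx he
      exact hw0 (h.c_im w (hsub (Metric.ball_subset_closedBall hw)) ⟨x, hab01 hx, he⟩)
    have hcab : ContinuousOn c (Icc a b) := hc.mono hab01
    have ma : a ∈ Icc a b := ⟨le_rfl, (hap.trans hpb).le⟩
    have mb : b ∈ Icc a b := ⟨(hap.trans hpb).le, le_rfl⟩
    have mA : A ∈ Icc a b := ⟨hεA.1.le, hεA.2.le⟩
    have mB : B ∈ Icc a b := ⟨hεB.1.le, hεB.2.le⟩
    rw [sg_mul hcab hne ma mA mB, sg_mul hcab hne ma mB mb]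
  have hcosπ : h.φ (ε * Real.cos Real.pi) = A := by
    rw [Real.cos_pi]; simp [hA]
  have hcos0 : h.φ (ε * Real.cos 0) = B := by
    rw [Real.cos_zero, mul_one]
  have hcos2 : h.φ (ε * Real.cos (2 * Real.pi)) = B := by
    rw [Real.cos_two_pi, mul_one]
  -- upper half disc
  have hup : ∀ y ∈ Ioo (0 : ℝ) ε, sg c a b (h.k (y * Complex.I)) * Q (h.k (y * Complex.I)) =
      - V (y * Complex.I) := by
    intro y hy
    have hyb : (y * Complex.I : ℂ) ∈ Metric.ball (0 : ℂ) ε := by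
      rw [mem_ball_zero_iff, norm_mul, Complex.norm_I, mul_one, Complex.norm_real,
        Real.norm_eq_abs, abs_of_pos hy.1]
      exact hy.2
    have hyim : (y * Complex.I : ℂ).im = y := by simp
    have hyne : (y * Complex.I : ℂ).im ≠ 0 := by rw [hyim]; exact hy.1.ne'
    have h1 := h.sg_arc hc hε0 hεr (θ₀ := Real.pi) (θ₁ := 2 * Real.pi) (by linarith) hyb hyne
      (by
        intro τ hτ θ hθ he
        have h2 := congrArg Complex.im he
        rw [arcPt_im, hyim] at h2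
        have h3 : Real.sin θ ≤ 0 := by
          have h4 : 0 ≤ Real.sin (θ - Real.pi) :=
            Real.sin_nonneg_of_nonneg_of_le_pi (by linarith [hθ.1]) (by linarith [hθ.2])
          rw [Real.sin_sub_pi] at h4
          linarith
        have h4 : τ * ε * Real.sin θ ≤ 0 := mul_nonpos_of_nonneg_of_nonpos
          (mul_nonneg hτ.1 hε0.le) h3
        linarith [hy.1]) Real.sin_pi Real.sin_two_pi
    rw [hcosπ, hcos2] at h1
    have h5 := hcirc _ hyb
    have nu : sg Ci 0 Real.pi (h.k (y * Complex.I)) ≠ 0 :=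
      sg_ne_zero hCic.continuousOn (fun θ _ => nC _ hyb θ)
    rw [hdec _ hyb hyne, h1, hV]
    simp only
    rw [← neg_div, eq_div_iff nu]
    linear_combination (sg c a A (h.k (y * Complex.I)) * sg c B b (h.k (y * Complex.I)) *
      Q (h.k (y * Complex.I))) * h5
  -- lower half disc
  have hlo : ∀ y ∈ Ioo (0 : ℝ) ε,
      sg c a b (h.k ((-y : ℝ) * Complex.I)) * Q (h.k ((-y : ℝ) * Complex.I)) =
      V ((-y : ℝ) * Complex.I) := by
    intro y hy
    have hyb : ((-y : ℝ) * Complex.I : ℂ) ∈ Metric.ball (0 : ℂ) ε := by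
      rw [mem_ball_zero_iff, norm_mul, Complex.norm_I, mul_one, Complex.norm_real,
        Real.norm_eq_abs, abs_neg, abs_of_pos hy.1]
      exact hy.2
    have hyim : ((-y : ℝ) * Complex.I : ℂ).im = -y := by simp
    have hyne : ((-y : ℝ) * Complex.I : ℂ).im ≠ 0 := by rw [hyim]; linarith [hy.1]
    have h1 := h.sg_arc hc hε0 hεr (θ₀ := 0) (θ₁ := Real.pi) hpi.le hyb hyne
      (by
        intro τ hτ θ hθ he
        have h2 := congrArg Complex.im he
        rw [arcPt_im, hyim] at h2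
        have h3 : 0 ≤ Real.sin θ := Real.sin_nonneg_of_nonneg_of_le_pi hθ.1 hθ.2
        have h4 : 0 ≤ τ * ε * Real.sin θ := mul_nonneg (mul_nonneg hτ.1 hε0.le) h3
        linarith [hy.1]) Real.sin_zero Real.sin_pi
    rw [hcosπ, hcos0] at h1
    have nu : sg Ci 0 Real.pi (h.k ((-y : ℝ) * Complex.I)) ≠ 0 :=
      sg_ne_zero hCic.continuousOn (fun θ _ => nC _ hyb θ)
    have hsubAB : uIcc A B ⊆ Icc (0 : ℝ) 1 := by
      rw [uIcc_of_le hAB.le]
      exact Icc_subset_Icc hA01.1 hB01.2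
    have h6 : sg c B A (h.k ((-y : ℝ) * Complex.I)) =
        (sg c A B (h.k ((-y : ℝ) * Complex.I)))⁻¹ := by
      apply sg_symm (hc.mono hsubAB)
      intro x hx he
      exact hyne (h.c_im _ (hsub (Metric.ball_subset_closedBall hyb)) ⟨x, hsubAB hx, he⟩)
    have h7 : sg c A B (h.k ((-y : ℝ) * Complex.I)) =
        (sg Ci 0 Real.pi (h.k ((-y : ℝ) * Complex.I)))⁻¹ := by
      rw [← h1, h6, inv_inv]
    rw [hdec _ hyb hyne, h7, hV]
    simp only
    field_simp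
  -- conclusion
  have hVconst : ∀ y ∈ Ioo (0 : ℝ) ε, ∀ y' ∈ Ioo (0 : ℝ) ε,
      V (y * Complex.I) = V ((-y' : ℝ) * Complex.I) := by
    intro y hy y' hy'
    refine eq_of_sq_eq_one (convex_ball (0 : ℂ) ε).isPreconnected hVc hV2 ?_ ?_
    · rw [mem_ball_zero_iff, norm_mul, Complex.norm_I, mul_one, Complex.norm_real,
        Real.norm_eq_abs, abs_of_pos hy.1]
      exact hy.2
    · rw [mem_ball_zero_iff, norm_mul, Complex.norm_I, mul_one, Complex.norm_real,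
        Real.norm_eq_abs, abs_neg, abs_of_pos hy'.1]
      exact hy'.2
  have he2 : ε / 2 ∈ Icc (-ε) ε := ⟨by linarith, by linarith⟩
  have he2' : -(ε / 2) ∈ Icc (-ε) ε := ⟨by linarith, by linarith⟩
  have h0I : (0 : ℝ) ∈ Icc (-ε) ε := ⟨by linarith, by linarith⟩
  have g1 : q < h.ψ (ε / 2) :=
    h.ψ_zero.symm.trans_lt (h.ψ_mono (hIs h0I) (hIs he2) (by linarith))
  have g2 : h.ψ (-(ε / 2)) < q :=
    (h.ψ_mono (hIs he2') (hIs h0I) (by linarith)).trans_eq h.ψ_zero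
  refine ⟨min (h.ψ (ε / 2) - q) (q - h.ψ (-(ε / 2))),
    lt_min (sub_pos.2 g1) (sub_pos.2 g2), ?_⟩
  intro t ht t' ht'
  have ht1 : t < h.ψ (ε / 2) := by
    have := min_le_left (h.ψ (ε / 2) - q) (q - h.ψ (-(ε / 2)))
    linarith [ht.2]
  have ht2 : h.ψ (-(ε / 2)) < t' := by
    have := min_le_right (h.ψ (ε / 2) - q) (q - h.ψ (-(ε / 2)))
    linarith [ht'.1]
  obtain ⟨y, hy, hyt⟩ : ∃ y ∈ Ioo (0 : ℝ) ε, h.ψ y = t := by
    have h1 : t ∈ Ioo (h.ψ 0) (h.ψ (ε / 2)) := ⟨by rw [h.ψ_zero]; exact ht.1, ht1⟩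
    have h2 := intermediate_value_Ioo (by linarith : (0 : ℝ) ≤ ε / 2)
      (h.ψ_cont.mono (fun x hx => hIs ⟨by linarith [hx.1], by linarith [hx.2]⟩)) h1
    obtain ⟨y, hy, hyt⟩ := h2
    exact ⟨y, ⟨hy.1, by linarith [hy.2]⟩, hyt⟩
  obtain ⟨y', hy', hyt'⟩ : ∃ y ∈ Ioo (0 : ℝ) ε, h.ψ (-y) = t' := by
    have h1 : t' ∈ Ioo (h.ψ (-(ε / 2))) (h.ψ 0) := ⟨ht2, by rw [h.ψ_zero]; exact ht'.2⟩
    have h2 := intermediate_value_Ioo (by linarith : -(ε / 2) ≤ 0)
      (h.ψ_cont.mono (fun x hx => hIs ⟨by linarith [hx.1], by linarith [hx.2]⟩)) h1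
    obtain ⟨y, hy, hyt⟩ := h2
    exact ⟨-y, ⟨by linarith [hy.2], by linarith [hy.1]⟩, by rw [neg_neg]; exact hyt⟩
  have hdt : d t = h.k (y * Complex.I) := by
    rw [← hyt, h.d_eq y (hIs ⟨by linarith [hy.1], hy.2.le⟩)]
  have hdt' : d t' = h.k ((-y' : ℝ) * Complex.I) := by
    rw [← hyt', h.d_eq (-y') (hIs ⟨by linarith [hy'.2], by linarith [hy'.1]⟩)]
  rw [hdt, hdt', hup y hy, hlo y' hy', hVconst y hy y' hy']

end Pool.Agent.LP
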