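import Mathlib

/-!
# Bipartite systems of edges with positions (combinatorial part of MP_d8337a_co)

`E : Finset (A × B)` is the edge set of a bipartite graph between `A` and `B`, and
`pos : A × B → ℝ` gives the position of the crossing with a fixed edge `e` along `e`.
-/

namespace Pool.Agent.LP

open Finset

variable {A B : Type*}

/-- the edge set with the two sides exchanged -/
def sw (E : Finset (A × B)) : Finset (B × A) := E.map (Equiv.prodComm A B).toEmbedding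

@[simp] lemma mem_sw {E : Finset (A × B)} {b : B} {a : A} : (b, a) ∈ sw E ↔ (a, b) ∈ E := by
  simp [sw]

lemma mem_sw' {E : Finset (A × B)} {f : B × A} : f ∈ sw E ↔ (f.2, f.1) ∈ E := by
  obtain ⟨b, a⟩ := f
  simp

@[simp] lemma card_sw (E : Finset (A × B)) : (sw E).card = E.card := by simp [sw]

@[simp] lemma sw_sw (E : Finset (A × B)) : sw (sw E) = E := by
  ext ⟨a, b⟩; simp

variable [Fintype A] [Fintype B] [DecidableEq A] [DecidableEq B]

/-- common neighbours (in `A`) of two vertices of `B` -/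
def com (E : Finset (A × B)) (b b' : B) : Finset A := univ.filter fun a => (a, b) ∈ E ∧ (a, b') ∈ E

/-- edges at a vertex of `A` -/
def atA (E : Finset (A × B)) (a : A) : Finset (A × B) := E.filter fun f => f.1 = a

/-- edges at a vertex of `B` -/
def atB (E : Finset (A × B)) (b : B) : Finset (A × B) := E.filter fun f => f.2 = b

/-- The hub property: for `v ∈ B` and different neighbours `x₀, x₁` of `v` there are at most two
`w ≠ v` adjacent to `x₀` and `x₁` which have at least three common neighbours with `v`. -/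
def Hub (E : Finset (A × B)) : Prop :=
  ∀ (v : B) (x₀ x₁ : A), x₀ ≠ x₁ → (x₀, v) ∈ E → (x₁, v) ∈ E →
    (univ.filter fun w : B => w ≠ v ∧ (x₀, w) ∈ E ∧ (x₁, w) ∈ E ∧ 3 ≤ (com E v w).card).card ≤ 2

/-- positions of different edges are different -/
def PosInj (E : Finset (A × B)) (pos : A × B → ℝ) : Prop :=
  ∀ f ∈ E, ∀ g ∈ E, pos f = pos g → f = g

/-- Axiom (T). -/
def AxT (E : Finset (A × B)) (pos : A × B → ℝ) : Prop :=
  ∀ (b₁ b₂ b₃ : B) (a₁₂ a₁₃ a₂₃ ax ay : A), b₁ ≠ b₂ → b₁ ≠ b₃ → b₂ ≠ b₃ →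
    (a₁₂, b₁) ∈ E → (a₁₂, b₂) ∈ E → (a₁₃, b₁) ∈ E → (a₁₃, b₃) ∈ E →
    (a₂₃, b₂) ∈ E → (a₂₃, b₃) ∈ E → (ax, b₁) ∈ E → (ay, b₂) ∈ E →
    pos (a₁₂, b₂) < min (pos (a₁₂, b₁)) (pos (ax, b₁)) →
    min (pos (a₁₂, b₁)) (pos (ax, b₁)) < pos (a₁₃, b₃) →
    pos (a₁₃, b₃) < max (pos (a₁₂, b₁)) (pos (ax, b₁)) →
    max (pos (a₁₂, b₁)) (pos (ax, b₁)) < pos (ay, b₂) →
    pos (ay, b₂) < pos (a₂₃, b₃) → False

/-- Axiom (F1). -/
def AxF1 (E : Finset (A × B)) (pos : A × B → ℝ) : Prop :=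
  ∀ (b b' : B) (a₁ a₂ ax ax' : A), b ≠ b' → a₁ ≠ a₂ →
    (a₁, b) ∈ E → (a₁, b') ∈ E → (a₂, b) ∈ E → (a₂, b') ∈ E → (ax, b) ∈ E → (ax', b) ∈ E →
    pos (ax, b) < pos (a₁, b') → pos (a₁, b') < pos (ax', b) →
    (pos (a₂, b') < pos (ax, b) ∨ pos (ax', b) < pos (a₂, b')) → False

/-- The number of the four crossings (of the closed 4-cycle `b, r, b', u` with `e`) before `x`. -/
noncomputable def flips (pos : A × B → ℝ) (b b' : B) (r u : A) (x : ℝ) : ℕ :=
  (if pos (r, b) < x then 1 else 0) + (if pos (u, b) < x then 1 else 0) +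
    (if pos (r, b') < x then 1 else 0) + (if pos (u, b') < x then 1 else 0)

/-- Axiom (F3). -/
def AxF3 (E : Finset (A × B)) (pos : A × B → ℝ) : Prop :=
  ∀ (b b' b'' : B) (r s u : A), b ≠ b' → b'' ≠ b → b'' ≠ b' → r ≠ s → r ≠ u → s ≠ u →
    (r, b) ∈ E → (r, b') ∈ E → (s, b) ∈ E → (s, b') ∈ E → (u, b) ∈ E → (u, b') ∈ E →
    (s, b'') ∈ E →
    flips pos b b' r u (pos (s, b'')) % 2 = flips pos b b' r u (pos (s, b)) % 2

end Pool.Agent.LP
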