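import Pool.Agent.H12_d8337a.Defs
import Pool.Agent.H12_d8337a.Sys
import Pool.Agent.H12_d8337a.CombE
import Pool.Agent.H52LP.K6

/-!
# Consequences of the non-planarity of `K_{3,3}`
-/

open Set Filter Topology

namespace Pool.Agent.LP

open Pool.Agent.H52LP (conc continuousOn_conc conc_zero conc_one conc_mem k33)

variable {V : Type*}

/-- a common point of two edges without common end point is a crossing -/
lemma TopGraph.cross_of_mem (D : TopGraph V) {a b a' b' : V} (h : D.graph.Adj a b)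
    (h' : D.graph.Adj a' b') (h1 : a ≠ a') (h2 : a ≠ b') (h3 : b ≠ a') (h4 : b ≠ b') {z : ℂ}
    (hz : z ∈ D.curve s(a, b)) (hz' : z ∈ D.curve s(a', b')) : D.Cross s(a, b) s(a', b') := by
  have hne : s(a, b) ≠ s(a', b') := by
    intro h
    rcases Sym2.eq_iff.1 h with ⟨h, -⟩ | ⟨h, -⟩
    · exact h1 h
    · exact h2 h
  rcases D.meets _ h _ h' hne z ⟨hz, hz'⟩ with ⟨w, hw, hw', -⟩ | hc
  · exfalso
    rcases Sym2.mem_iff.1 hw with rfl | rfl <;> rcases Sym2.mem_iff.1 hw' with rfl | rfl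
    · exact h1 rfl
    · exact h2 rfl
    · exact h3 rfl
    · exact h4 rfl
  · exact ⟨z, ⟨hz, hz'⟩, hc⟩

/-- in a 3-locally planar drawing the first and the last edge of a path of length 3 are disjoint -/
lemma TopGraph.disj (D : TopGraph V) (hL : D.LocallyPlanar 3) {a b a' b' : V}
    (h : D.graph.Adj a b) (h' : D.graph.Adj a' b') (h1 : a ≠ a') (h2 : a ≠ b') (h3 : b ≠ a')
    (h4 : b ≠ b') (hab : D.graph.Adj a b') {z : ℂ} (hz : z ∈ D.curve s(a, b))
    (hz' : z ∈ D.curve s(a', b')) : False := by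
  have hc := D.cross_of_mem h h' h1 h2 h3 h4 hz hz'
  let p : D.graph.Walk b a' := .cons h.symm (.cons hab (.cons h'.symm .nil))
  have hp : p.IsPath := by
    simp [p, SimpleGraph.Walk.cons_isPath_iff, h.ne', hab.ne, h'.ne', h1, h3, h4]
  refine hL b a' p hp (by simp [p]) s(a, b) (by simp [p]) s(a', b') ?_ ?_ hc
  · simp only [p, SimpleGraph.Walk.edges_cons, SimpleGraph.Walk.edges_nil, List.mem_cons]
    right; right; left
    exact Sym2.eq_swap
  · intro hh
    rcases Sym2.eq_iff.1 hh with ⟨h, -⟩ | ⟨h, -⟩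
    · exact h1 h
    · exact h2 h

/-- parametrisations of the edges -/
lemma TopGraph.exists_param (D : TopGraph V) : ∃ g : V → V → ℝ → ℂ, ∀ u v, D.graph.Adj u v →
    ContinuousOn (g u v) (Icc 0 1) ∧ g u v 0 = D.pt u ∧ g u v 1 = D.pt v ∧
      g u v '' Icc 0 1 = D.curve s(u, v) := by
  classical
  refine ⟨fun u v => if h : D.graph.Adj u v then (D.isArc u v h).choose else 0, fun u v h => ?_⟩
  simp only [dif_pos h]
  have := (D.isArc u v h).choose_spec
  exact ⟨this.1, this.2.2.1, this.2.2.2.1, this.2.2.2.2⟩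

theorem hub [Fintype V] [DecidableEq V] (D : TopGraph V)
    (hL : D.LocallyPlanar 3) (col : V → Bool) (hcol : ∀ u v, D.graph.Adj u v → col u ≠ col v)
    (E : Finset (V × V)) (κ : Bool) (hE : ∀ f ∈ E, D.graph.Adj f.1 f.2 ∧ col f.1 = κ) : Hub E := by
  classical
  intro v x₀ x₁ hx hv0 hv1
  by_contra hcon
  push Not at hcon
  obtain ⟨w, hw⟩ : ∃ w : Fin 3 → V, Function.Injective w ∧ ∀ j, w j ∈ (Finset.univ.filter
      fun w : V => w ≠ v ∧ (x₀, w) ∈ E ∧ (x₁, w) ∈ E ∧ 3 ≤ (com E v w).card) := by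
    obtain ⟨t, ht, htc⟩ := Finset.exists_subset_card_eq (Nat.succ_le_of_lt hcon)
    refine ⟨fun j => (t.equivFinOfCardEq htc).symm j, ?_, fun j => ht ?_⟩
    · exact Subtype.val_injective.comp (Equiv.injective _)
    · exact ((t.equivFinOfCardEq htc).symm j).2
  obtain ⟨winj, hw⟩ := hw
  simp only [Finset.mem_filter, Finset.mem_univ, true_and] at hw
  have hx' : ∀ j, ∃ x, x ≠ x₀ ∧ x ≠ x₁ ∧ (x, v) ∈ E ∧ (x, w j) ∈ E := by
    intro j
    have h3 : ({x₀, x₁} : Finset V).card < (com E v (w j)).card :=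
      lt_of_le_of_lt Finset.card_le_two (hw j).2.2.2
    obtain ⟨x, hx, hx2⟩ := Finset.exists_mem_notMem_of_card_lt_card h3
    simp only [Finset.mem_insert, Finset.mem_singleton, not_or] at hx2
    simp only [com, Finset.mem_filter, Finset.mem_univ, true_and] at hx
    exact ⟨x, hx2.1, hx2.2, hx⟩
  choose x hx0 hx1 hxv hxw using hx'
  obtain ⟨g, hg⟩ := D.exists_param
  -- colours
  have cA : ∀ {a b}, (a, b) ∈ E → col a = κ := fun h => (hE _ h).2
  have cB : ∀ {a b}, (a, b) ∈ E → col b = !κ := by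
    intro a b h
    have h1 := hcol _ _ (hE _ h).1
    have h2 := (hE _ h).2
    simp only at h1 h2
    rw [h2] at h1
    cases hb : col b <;> cases κ <;> simp_all
  have neAB : ∀ {a b a' b'}, (a, b') ∈ E → (a', b) ∈ E → a ≠ b := by
    intro a b a' b' h h' hab
    have e1 := cA h
    have e2 := cB h'
    rw [hab] at e1
    rw [e1] at e2
    cases κ <;> simp at e2
  have key : ∀ {a b a' b'}, (a, b) ∈ E → (a', b') ∈ E → (a, b') ∈ E → a ≠ a' → b ≠ b' →
      ∀ {z : ℂ}, z ∈ D.curve s(a, b) → z ∈ D.curve s(a', b') → False := by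
    intro a b a' b' h h' hab ha hb z hz hz'
    exact D.disj hL (hE _ h).1 (hE _ h').1 ha (neAB hab hab) (neAB h' h).symm hb (hE _ hab).1 hz hz'
  let γ : Fin 3 → Fin 3 → ℝ → ℂ := fun i j =>
    if i = 0 then g x₀ (w j) else if i = 1 then g x₁ (w j) else conc (g v (x j)) (g (x j) (w j))
  let u : Fin 3 → ℂ := fun i => if i = 0 then D.pt x₀ else if i = 1 then D.pt x₁ else D.pt v
  have adj : ∀ {a b}, (a, b) ∈ E → D.graph.Adj a b := fun h => (hE _ h).1
  have p0 : ∀ j, γ 0 j = g x₀ (w j) := fun j => rfl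
  have p1 : ∀ j, γ 1 j = g x₁ (w j) := fun j => rfl
  have p2 : ∀ j, γ 2 j = conc (g v (x j)) (g (x j) (w j)) := fun j => rfl
  have hconc : ∀ j, g v (x j) 1 = g (x j) (w j) 0 := by
    intro j
    rw [(hg _ _ (adj (hxv j)).symm).2.2.1, (hg _ _ (adj (hxw j))).2.1]
  obtain ⟨i, i', j, j', hii, hjj, s, hs, t, ht, hst⟩ := k33 (P := ℂ)
    (by rw [Complex.finrank_real_complex]) u (fun j => D.pt (w j)) γ
    (by
      intro i j
      fin_cases i
      · exact (hg _ _ (adj (hw j).2.1)).1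
      · exact (hg _ _ (adj (hw j).2.2.1)).1
      · exact continuousOn_conc (hg _ _ (adj (hxv j)).symm).1 (hg _ _ (adj (hxw j))).1)
    (by
      intro i j
      fin_cases i
      · exact (hg _ _ (adj (hw j).2.1)).2.1
      · exact (hg _ _ (adj (hw j).2.2.1)).2.1
      · exact (conc_zero (hconc j)).trans (hg _ _ (adj (hxv j)).symm).2.1)
    (by
      intro i j
      fin_cases i
      · exact (hg _ _ (adj (hw j).2.1)).2.2.1
      · exact (hg _ _ (adj (hw j).2.2.1)).2.2.1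
      · exact conc_one.trans (hg _ _ (adj (hxw j))).2.2.1)
  -- points of the paths
  have q0 : ∀ j, ∀ t ∈ Icc (0 : ℝ) 1, γ 0 j t ∈ D.curve s(x₀, w j) := by
    intro j t ht
    rw [← (hg _ _ (adj (hw j).2.1)).2.2.2, p0]
    exact mem_image_of_mem _ ht
  have q1 : ∀ j, ∀ t ∈ Icc (0 : ℝ) 1, γ 1 j t ∈ D.curve s(x₁, w j) := by
    intro j t ht
    rw [← (hg _ _ (adj (hw j).2.2.1)).2.2.2, p1]
    exact mem_image_of_mem _ ht
  have q2 : ∀ j, ∀ t ∈ Icc (0 : ℝ) 1, γ 2 j t ∈ D.curve s(x j, v) ∨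
      γ 2 j t ∈ D.curve s(x j, w j) := by
    intro j t ht
    rw [p2]
    rcases conc_mem (hconc j) ht with h | h
    · left
      rw [(hg _ _ (adj (hxv j)).symm).2.2.2, Sym2.eq_swap] at h
      exact h
    · right
      rwa [(hg _ _ (adj (hxw j))).2.2.2] at h
  have wne : ∀ j, w j ≠ v := fun j => (hw j).1
  -- the three cases
  have c01 : ∀ j j' : Fin 3, j ≠ j' → ∀ s ∈ Icc (0 : ℝ) 1, ∀ t ∈ Icc (0 : ℝ) 1,
      γ 0 j s = γ 1 j' t → False := by
    intro j j' hjj s hs t ht hst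
    refine key (hw j).2.1 (hw j').2.2.1 (hw j').2.1 hx (fun h => hjj (winj h)) (q0 j s hs) ?_
    rw [hst]
    exact q1 j' t ht
  have c02 : ∀ j j' : Fin 3, j ≠ j' → ∀ s ∈ Icc (0 : ℝ) 1, ∀ t ∈ Icc (0 : ℝ) 1,
      γ 0 j s = γ 2 j' t → False := by
    intro j j' hjj s hs t ht hst
    rcases q2 j' t ht with h | h
    · refine key (hw j).2.1 (hxv j') hv0 (hx0 j').symm (wne j) (q0 j s hs) ?_
      rw [hst]
      exact h
    · refine key (hw j).2.1 (hxw j') (hw j').2.1 (hx0 j').symm (fun h => hjj (winj h))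
        (q0 j s hs) ?_
      rw [hst]
      exact h
  have c12 : ∀ j j' : Fin 3, j ≠ j' → ∀ s ∈ Icc (0 : ℝ) 1, ∀ t ∈ Icc (0 : ℝ) 1,
      γ 1 j s = γ 2 j' t → False := by
    intro j j' hjj s hs t ht hst
    rcases q2 j' t ht with h | h
    · refine key (hw j).2.2.1 (hxv j') hv1 (hx1 j').symm (wne j) (q1 j s hs) ?_
      rw [hst]
      exact h
    · refine key (hw j).2.2.1 (hxw j') (hw j').2.2.1 (hx1 j').symm (fun h => hjj (winj h))
        (q1 j s hs) ?_
      rw [hst]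
      exact h
  have hcases : ∀ i : Fin 3, i = 0 ∨ i = 1 ∨ i = 2 := by decide
  rcases hcases i with rfl | rfl | rfl <;> rcases hcases i' with rfl | rfl | rfl
  · exact hii rfl
  · exact c01 j j' hjj s hs t ht hst
  · exact c02 j j' hjj s hs t ht hst
  · exact c01 j' j hjj.symm t ht s hs hst.symm
  · exact hii rfl
  · exact c12 j j' hjj s hs t ht hst
  · exact c02 j' j hjj.symm t ht s hs hst.symm
  · exact c12 j' j hjj.symm t ht s hs hst.symm
  · exact hii rfl

theorem k33Cross [Fintype V] [DecidableEq V] (D : TopGraph V)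
    (col : V → Bool) (hcol : ∀ u v, D.graph.Adj u v → col u ≠ col v)
    (E : Finset (V × V)) (κ : Bool) (hE : ∀ f ∈ E, D.graph.Adj f.1 f.2 ∧ col f.1 = κ) :
    K33Cross E fun f g => D.Cross s(f.1, f.2) s(g.1, g.2) := by
  classical
  intro b b' a binj binj' hbb ha hab hab'
  obtain ⟨g, hg⟩ := D.exists_param
  have adj : ∀ {a b}, (a, b) ∈ E → D.graph.Adj a b := fun h => (hE _ h).1
  have cA : ∀ {a b}, (a, b) ∈ E → col a = κ := fun h => (hE _ h).2
  have cB : ∀ {a b}, (a, b) ∈ E → col b = !κ := by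
    intro a b h
    have h1 := hcol _ _ (hE _ h).1
    have h2 := (hE _ h).2
    simp only at h1 h2
    rw [h2] at h1
    cases hb : col b <;> cases κ <;> simp_all
  have neAB : ∀ {a b a' b'}, (a, b') ∈ E → (a', b) ∈ E → a ≠ b := by
    intro a b a' b' h h' hab
    have e1 := cA h
    have e2 := cB h'
    rw [hab] at e1
    rw [e1] at e2
    cases κ <;> simp at e2
  have hconc : ∀ i j, g (b i) (a i j) 1 = g (a i j) (b' j) 0 := by
    intro i j
    rw [(hg _ _ (adj (hab i j)).symm).2.2.1, (hg _ _ (adj (hab' i j))).2.1]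
  obtain ⟨i, i', j, j', hii, hjj, s, hs, t, ht, hst⟩ := k33 (P := ℂ)
    (by rw [Complex.finrank_real_complex]) (fun i => D.pt (b i)) (fun j => D.pt (b' j))
    (fun i j => conc (g (b i) (a i j)) (g (a i j) (b' j)))
    (fun i j => continuousOn_conc (hg _ _ (adj (hab i j)).symm).1 (hg _ _ (adj (hab' i j))).1)
    (fun i j => (conc_zero (hconc i j)).trans (hg _ _ (adj (hab i j)).symm).2.1)
    (fun i j => conc_one.trans (hg _ _ (adj (hab' i j))).2.2.1)
  have q : ∀ i j, ∀ t ∈ Icc (0 : ℝ) 1, ∃ x, (x = b i ∨ x = b' j) ∧ (a i j, x) ∈ E ∧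
      conc (g (b i) (a i j)) (g (a i j) (b' j)) t ∈ D.curve s(a i j, x) := by
    intro i j t ht
    rcases conc_mem (hconc i j) ht with h | h
    · refine ⟨b i, Or.inl rfl, hab i j, ?_⟩
      rw [(hg _ _ (adj (hab i j)).symm).2.2.2, Sym2.eq_swap] at h
      exact h
    · refine ⟨b' j, Or.inr rfl, hab' i j, ?_⟩
      rwa [(hg _ _ (adj (hab' i j))).2.2.2] at h
  obtain ⟨x, hx, hxE, hxc⟩ := q i j s hs
  obtain ⟨y, hy, hyE, hyc⟩ := q i' j' t ht
  refine ⟨i, j, i', j', hii, hjj, x, y, hx, hy, ?_⟩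
  have hxy : x ≠ y := by
    rcases hx with rfl | rfl <;> rcases hy with rfl | rfl
    · exact fun h => hii (binj h)
    · exact hbb _ _
    · exact (hbb _ _).symm
    · exact fun h => hjj (binj' h)
  refine D.cross_of_mem (adj hxE) (adj hyE) (fun h => hii (ha _ _ _ _ h).1) (neAB hxE hyE)
    (neAB hyE hxE).symm hxy hxc ?_
  rw [hst]
  exact hyc

end Pool.Agent.LP
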