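import Pool.Agent.H12_d8337a.TopSys
import Pool.Agent.H12_d8337a.Hub
import Pool.Agent.H12_d8337a.Comb

/-!
# `e*_k(n) = o(n^{3/2})` for every `k ≥ 3`
-/

open Set Filter Topology

namespace Pool.Agent.LP

/-- a sub-drawing -/
def TopGraph.restrict {V : Type*} (D : TopGraph V) (H : SimpleGraph V) (hH : H ≤ D.graph) :
    TopGraph V where
  graph := H
  pt := D.pt
  curve := D.curve
  pt_injective := D.pt_injective
  isArc := fun u v h => D.isArc u v (hH h)
  avoid := fun e he w hw => D.avoid e (SimpleGraph.edgeSet_mono hH he) w hw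
  finite_inter := fun e he f hf hef => D.finite_inter e (SimpleGraph.edgeSet_mono hH he) f
    (SimpleGraph.edgeSet_mono hH hf) hef
  meets := fun e he f hf hef => D.meets e (SimpleGraph.edgeSet_mono hH he) f
    (SimpleGraph.edgeSet_mono hH hf) hef

lemma TopGraph.Simple.restrict {V : Type*} {D : TopGraph V} (h : D.Simple) (H : SimpleGraph V)
    (hH : H ≤ D.graph) : (D.restrict H hH).Simple := fun e he f hf hef =>
  h e (SimpleGraph.edgeSet_mono hH he) f (SimpleGraph.edgeSet_mono hH hf) hef

lemma TopGraph.LocallyPlanar.restrict {V : Type*} {D : TopGraph V} {k : ℕ}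
    (h : D.LocallyPlanar k) (H : SimpleGraph V)
    (hH : H ≤ D.graph) : (D.restrict H hH).LocallyPlanar k := by
  have hH' : (D.restrict H hH).graph ≤ D.graph := hH
  intro u v p hp hl e he f hf hef
  have hp' := (SimpleGraph.Walk.isPath_mapLe hH').2 hp
  refine h u v (p.mapLe hH') hp' (by rw [SimpleGraph.Walk.length_mapLe]; exact hl) e ?_ f ?_ hef
  · rw [SimpleGraph.Walk.edges_mapLe_eq_edges]; exact he
  · rw [SimpleGraph.Walk.edges_mapLe_eq_edges]; exact hf

lemma TopGraph.LocallyPlanar.mono {V : Type*} {D : TopGraph V} {k l : ℕ}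
    (h : D.LocallyPlanar l) (hkl : k ≤ l) : D.LocallyPlanar k :=
  fun u v p hp hl => h u v p hp (hl.trans hkl)

/-- the number of colourings with prescribed colours at two vertices -/
lemma card_colourings {V : Type*} [Fintype V] [DecidableEq V] {x y : V} (hxy : x ≠ y) :
    4 * (Finset.univ.filter fun col : V → Bool => col x = true ∧ col y = false).card =
      Fintype.card (V → Bool) := by
  have h1 : (Finset.univ.filter fun col : V → Bool => col x = true ∧ col y = false) =
      Fintype.piFinset fun v => if v = x then {true} else if v = y then {false} else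
        (Finset.univ : Finset Bool) := by
    ext col
    simp only [Finset.mem_filter, Finset.mem_univ, true_and, Fintype.mem_piFinset]
    constructor
    · rintro ⟨h1, h2⟩ v
      split_ifs with h3 h4
      · rw [h3, h1]; simp
      · rw [h4, h2]; simp
      · exact Finset.mem_univ _
    · intro h
      have hx := h x
      have hy := h y
      rw [if_pos rfl] at hx
      rw [if_neg hxy.symm, if_pos rfl] at hy
      exact ⟨by simpa using hx, by simpa using hy⟩
  rw [h1, Fintype.card_piFinset, Fintype.card_fun, Fintype.card_bool]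
  have h2 : (4 : ℕ) = ∏ v : V, ((if v = x then 2 else 1) * (if v = y then 2 else 1)) := by
    rw [Finset.prod_mul_distrib, Finset.prod_ite_eq' , Finset.prod_ite_eq']
    simp
  rw [h2, ← Finset.prod_mul_distrib]
  have h3 : ∀ v : V, ((if v = x then 2 else 1) * (if v = y then 2 else 1)) *
      (if v = x then ({true} : Finset Bool) else if v = y then {false} else Finset.univ).card = 2 := by
    intro v
    by_cases h3 : v = x
    · subst h3
      simp [hxy]
    · by_cases h4 : v = y
      · subst h4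
        simp [h3]
      · simp [h3, h4]
  rw [Finset.prod_congr rfl fun v _ => h3 v]
  simp

/-- a bipartite subgraph with at least half of the edges -/
lemma exists_bipartite {V : Type*} [Fintype V] [DecidableEq V] (G : SimpleGraph V)
    [DecidableRel G.Adj] :
    ∃ col : V → Bool, G.edgeSet.ncard ≤
      2 * (Finset.univ.filter fun f : V × V => G.Adj f.1 f.2 ∧ col f.1 = true ∧
        col f.2 = false).card := by
  by_contra hcon
  push Not at hcon
  set P : Finset (V × V) := Finset.univ.filter fun f : V × V => G.Adj f.1 f.2 with hP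
  have hcard : 2 * G.edgeSet.ncard = P.card := by
    have h1 := G.dart_card_eq_twice_card_edges
    have h2 : G.edgeSet.ncard = G.edgeFinset.card := by
      rw [Set.ncard_eq_toFinset_card', SimpleGraph.edgeFinset]
    rw [h2, ← h1, ← Finset.card_univ]
    refine Finset.card_bij (fun d _ => d.toProd) ?_ ?_ ?_
    · intro d _
      simp [P, d.adj]
    · intro d _ d' _ h
      exact SimpleGraph.Dart.toProd_injective h
    · intro f hf
      simp only [P, Finset.mem_filter, Finset.mem_univ, true_and] at hf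
      exact ⟨⟨f, hf⟩, Finset.mem_univ _, rfl⟩
  have hsum : 4 * ∑ col : V → Bool, (Finset.univ.filter fun f : V × V => G.Adj f.1 f.2 ∧
      col f.1 = true ∧ col f.2 = false).card = P.card * Fintype.card (V → Bool) := by
    have : ∀ col : V → Bool, (Finset.univ.filter fun f : V × V => G.Adj f.1 f.2 ∧
        col f.1 = true ∧ col f.2 = false).card =
        ∑ f ∈ P, if col f.1 = true ∧ col f.2 = false then 1 else 0 := by
      intro col
      rw [← Finset.card_filter, hP, Finset.filter_filter]
    rw [Finset.sum_congr rfl fun col _ => this col, Finset.sum_comm, Finset.mul_sum]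
    rw [Finset.sum_congr rfl (g := fun _ => Fintype.card (V → Bool)) ?_, Finset.sum_const,
      smul_eq_mul]
    intro f hf
    rw [← Finset.card_filter]
    simp only [P, Finset.mem_filter, Finset.mem_univ, true_and] at hf
    exact card_colourings hf.ne
  have hlt : ∑ col : V → Bool, 2 * (Finset.univ.filter fun f : V × V => G.Adj f.1 f.2 ∧
      col f.1 = true ∧ col f.2 = false).card < ∑ _col : V → Bool, G.edgeSet.ncard :=
    Finset.sum_lt_sum_of_nonempty Finset.univ_nonempty fun col _ => hcon col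
  rw [← Finset.mul_sum, Finset.sum_const, Finset.card_univ, smul_eq_mul] at hlt
  have : P.card * Fintype.card (V → Bool) < P.card * Fintype.card (V → Bool) := by
    calc P.card * Fintype.card (V → Bool) = 2 * (2 * ∑ col : V → Bool, (Finset.univ.filter
          fun f : V × V => G.Adj f.1 f.2 ∧ col f.1 = true ∧ col f.2 = false).card) := by
          rw [← hsum]; ring
      _ < 2 * (Fintype.card (V → Bool) * G.edgeSet.ncard) := by
          exact Nat.mul_lt_mul_of_pos_left hlt two_pos
      _ = P.card * Fintype.card (V → Bool) := by rw [← hcard]; ring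
  exact lt_irrefl _ this

/-- **Main theorem, quantitative form.** -/
theorem main (c : ℝ) (hc : 0 < c) : ∃ s₀ : ℝ, ∀ n : ℕ, s₀ ≤ √n → ∀ D : TopGraph (Fin n),
    D.Simple → D.LocallyPlanar 3 → (D.graph.edgeSet.ncard : ℝ) < c * √n ^ 3 := by
  classical
  obtain ⟨K, hK, hclean⟩ := exists_clean (c / 2) (by positivity)
  obtain ⟨c', hc', s₁, hcr⟩ := exists_crossed (c / 2 / 2) K (by positivity) hK
  obtain ⟨s₂, hcomb⟩ := comb (c' / 2) K (by positivity) hK
  refine ⟨max (max s₁ s₂) 1, fun n hn D hS hL => ?_⟩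
  have hs1 : s₁ ≤ √n := (le_max_left _ _).trans ((le_max_left _ _).trans hn)
  have hs2 : s₂ ≤ √n := (le_max_right _ _).trans ((le_max_left _ _).trans hn)
  have hs3 : (1 : ℝ) ≤ √n := (le_max_right _ _).trans hn
  set s : ℝ := √n with hs
  have hs0 : 0 < s := by linarith
  have hcardn : (Fintype.card (Fin n) : ℝ) ≤ s ^ 2 := by
    rw [Fintype.card_fin, hs, Real.sq_sqrt (Nat.cast_nonneg n)]
  by_contra hcon
  push Not at hcon
  -- bipartite subgraph
  obtain ⟨col, hcol⟩ := exists_bipartite D.graph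
  let H : SimpleGraph (Fin n) :=
    { Adj := fun u v => D.graph.Adj u v ∧ col u ≠ col v
      symm := ⟨fun u v h => ⟨h.1.symm, h.2.symm⟩⟩
      loopless := ⟨fun u h => h.2 rfl⟩ }
  have hH : H ≤ D.graph := fun u v h => h.1
  set D' := D.restrict H hH with hD'
  have hS' : D'.Simple := hS.restrict H hH
  have hL' : D'.LocallyPlanar 3 := hL.restrict H hH
  have hcolD : ∀ u v, D'.graph.Adj u v → col u ≠ col v := fun u v h => h.2
  set E : Finset (Fin n × Fin n) := Finset.univ.filter fun f =>
    D.graph.Adj f.1 f.2 ∧ col f.1 = true ∧ col f.2 = false with hE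
  have hEmem : ∀ f ∈ E, D'.graph.Adj f.1 f.2 ∧ col f.1 = true := by
    intro f hf
    simp only [E, Finset.mem_filter, Finset.mem_univ, true_and] at hf
    refine ⟨⟨hf.1, ?_⟩, hf.2.1⟩
    rw [hf.2.1, hf.2.2]
    decide
  have hEmem' : ∀ f ∈ sw E, D'.graph.Adj f.1 f.2 ∧ col f.1 = false := by
    intro f hf
    rw [mem_sw'] at hf
    simp only [E, Finset.mem_filter, Finset.mem_univ, true_and] at hf
    refine ⟨⟨hf.1.symm, ?_⟩, hf.2.2⟩
    rw [hf.2.1, hf.2.2]
    decide
  have hEcard : c / 2 * s ^ 3 ≤ (E.card : ℝ) := by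
    have : (D.graph.edgeSet.ncard : ℝ) ≤ 2 * E.card := by exact_mod_cast hcol
    linarith
  have hubE : Hub E := hub D' hL' col hcolD E true hEmem
  have hubE' : Hub (sw E) := hub D' hL' col hcolD (sw E) false hEmem'
  -- clean
  obtain ⟨E₁, hE₁, hE₁card, hdA, hdB⟩ := hclean s hs0 (Fin n) (Fin n) E hubE hubE' hcardn hcardn
    hEcard
  have hE₁mem : ∀ f ∈ E₁, D'.graph.Adj f.1 f.2 ∧ col f.1 = true := fun f hf => hEmem f (hE₁ hf)
  -- a heavily crossed edge
  obtain ⟨e, he, hecard⟩ := hcr s hs1 (Fin n) (Fin n) E₁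
    (fun f g => D'.Cross s(f.1, f.2) s(g.1, g.2)) hcardn hcardn (hub D' hL' col hcolD E₁ true hE₁mem)
    hdA hdB hE₁card (k33Cross D' col hcolD E₁ true hE₁mem)
  set E₂ : Finset (Fin n × Fin n) := E₁.filter fun f => D'.Cross s(e.1, e.2) s(f.1, f.2) with hE₂
  -- system
  obtain ⟨pos, lab, hpos, hlab, hsys⟩ := topSys D' hS' hL' col hcolD s(e.1, e.2)
    (hE₁mem e he).1
  -- majority
  obtain ⟨ε, hε⟩ : ∃ ε : Bool, c' / 2 * s ^ 3 ≤ ((E₂.filter fun f => lab f = ε).card : ℝ) := by
    have hsplit : (E₂.filter fun f => lab f = true).card + (E₂.filter fun f => lab f = false).card =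
        E₂.card := by
      rw [← Finset.card_filter_add_card_filter_not (s := E₂) (fun f => lab f = true)]
      congr 2
      refine Finset.filter_congr fun f _ => ?_
      simp
    have hsplit' : ((E₂.filter fun f => lab f = true).card : ℝ) +
        (E₂.filter fun f => lab f = false).card = E₂.card := by exact_mod_cast hsplit
    by_contra hno
    push Not at hno
    have h1 := hno true
    have h2 := hno false
    linarith
  set E₃ : Finset (Fin n × Fin n) := E₂.filter fun f => lab f = ε with hE₃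
  have hE₃₁ : E₃ ⊆ E₁ := (Finset.filter_subset _ _).trans (Finset.filter_subset _ _)
  have hE₃mem : ∀ f ∈ E₃, D'.graph.Adj f.1 f.2 ∧ D'.Cross s(e.1, e.2) s(f.1, f.2) ∧
      col f.1 = true ∧ lab f = ε := by
    intro f hf
    have h1 := hE₁mem f (hE₃₁ hf)
    have h2 := Finset.mem_filter.1 hf
    have h3 := Finset.mem_filter.1 h2.1
    exact ⟨h1.1, h3.2, h1.2, h2.2⟩
  have hE₃mem' : ∀ f ∈ sw E₃, D'.graph.Adj f.1 f.2 ∧ D'.Cross s(e.1, e.2) s(f.1, f.2) ∧
      col f.1 = false ∧ lab f = !ε := by
    intro f hf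
    rw [mem_sw'] at hf
    have h1 := hE₃mem _ hf
    have h2 := hEmem' f (by rw [mem_sw']; exact hE₁ (hE₃₁ hf))
    refine ⟨h2.1, ?_, h2.2, ?_⟩
    · rw [Sym2.eq_swap (a := f.1)]
      exact h1.2.1
    · have h3 := hlab f.2 f.1 h1.1 h1.2.1
      rw [h1.2.2.2] at h3
      exact h3
  obtain ⟨a1, a2, a3, a4⟩ := hsys E₃ true ε hE₃mem
  obtain ⟨b1, b2, b3, b4⟩ := hsys (sw E₃) false (!ε) hE₃mem'
  have hpos' : (fun f : Fin n × Fin n => pos f.swap) = pos := by
    funext f
    exact hpos f.1 f.2
  refine hcomb s hs2 (Fin n) (Fin n) E₃ pos hcardn hcardn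
    (hub D' hL' col hcolD E₃ true fun f hf => ⟨(hE₃mem f hf).1, (hE₃mem f hf).2.2.1⟩)
    (hub D' hL' col hcolD (sw E₃) false fun f hf => ⟨(hE₃mem' f hf).1, (hE₃mem' f hf).2.2.1⟩)
    a1 a2 (by rw [hpos']; exact b2) a3 a4 ?_ ?_ hε
  · intro a
    refine le_trans ?_ (hdA a)
    exact_mod_cast Finset.card_le_card (Finset.filter_subset_filter _ hE₃₁)
  · intro b
    refine le_trans ?_ (hdB b)
    exact_mod_cast Finset.card_le_card (Finset.filter_subset_filter _ hE₃₁)

theorem eStar_isLittleO (k : ℕ) (hk : 3 ≤ k) :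
    (fun n : ℕ => (eStar k n : ℝ)) =o[atTop] fun n : ℕ => (n : ℝ) ^ (3 / 2 : ℝ) := by
  rw [Asymptotics.isLittleO_iff]
  intro c hc
  obtain ⟨s₀, hs₀⟩ := main c hc
  have hev : ∀ᶠ n : ℕ in atTop, s₀ ≤ √(n : ℝ) :=
    (Real.tendsto_sqrt_atTop.comp tendsto_natCast_atTop_atTop).eventually_ge_atTop s₀
  filter_upwards [hev] with n hn
  have hpow : (n : ℝ) ^ (3 / 2 : ℝ) = √n ^ 3 := by
    rw [Real.sqrt_eq_rpow, ← Real.rpow_natCast, ← Real.rpow_mul (Nat.cast_nonneg n)]
    norm_num
  rw [Real.norm_of_nonneg (Nat.cast_nonneg _), Real.norm_of_nonneg (by positivity), hpow]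
  unfold eStar
  set S : Set ℕ := {m | ∃ D : TopGraph (Fin n), D.Simple ∧ D.LocallyPlanar k ∧
    D.graph.edgeSet.ncard = m} with hS
  rcases S.eq_empty_or_nonempty with h | h
  · rw [h, csSup_empty]
    simp only [Nat.bot_eq_zero, Nat.cast_zero]
    positivity
  · have hbdd : BddAbove S := by
      refine ⟨⌊c * √n ^ 3⌋₊, ?_⟩
      rintro m ⟨D, h1, h2, rfl⟩
      exact Nat.le_floor (hs₀ n hn D h1 (h2.mono hk)).le
    obtain ⟨D, h1, h2, h3⟩ := Nat.sSup_mem h hbdd
    rw [← h3]
    exact (hs₀ n hn D h1 (h2.mono hk)).le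

end Pool.Agent.LP
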