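import Mathlib

/-!
# Mod 2 winding: the sign (square root) transport `sg γ s t z`

For a path `γ : ℝ → ℂ` and `z` off the path, choose a continuous square root `ρ` of `γ - z` along
`[s,t]`; then `sg γ s t z = ρ t / ρ s`.  For closed chains the product of the `sg`s is `1` or `-1`
(the parity of the winding number).
-/

open Set Filter Topology

namespace Pool.Agent.LP

/-- continuous square root transport -/
noncomputable def sg (γ : ℝ → ℂ) (s t : ℝ) (z : ℂ) : ℂ :=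
  open Classical in
  if h : ∃ ρ : ℝ → ℂ, ContinuousOn ρ (uIcc s t) ∧ ∀ x ∈ uIcc s t, ρ x ^ 2 = γ x - z then
    h.choose t / h.choose s else 1

/-- continuous square roots on contractible spaces -/
theorem exists_sqrt_univ {X : Type*} [TopologicalSpace X] [LocallyPathConnectedSpace X]
    [ContractibleSpace X] {g : X → ℂ} (hg : Continuous g) (h0 : ∀ x, g x ≠ 0) :
    ∃ ρ : X → ℂ, Continuous ρ ∧ ∀ x, ρ x ^ 2 = g x := by
  have h1 : IsSimplyConnected (univ : Set X) :=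
    (Homeomorph.Set.univ X).toHomotopyEquiv.simplyConnectedSpace
  obtain ⟨ρ, hρ, h⟩ := Complex.exists_continuousOn_pow_eq h1 isOpen_univ hg.continuousOn
    (by rintro ⟨x, _, hx⟩; exact h0 x hx) two_ne_zero
  exact ⟨ρ, continuousOn_univ.1 hρ, h⟩

/-- a continuous function with values in `{1, -1}` on a preconnected set is constant -/
theorem eq_of_sq_eq_one {X : Type*} [TopologicalSpace X] {f : X → ℂ} {S : Set X}
    (hS : IsPreconnected S) (hf : ContinuousOn f S) (h : ∀ x ∈ S, f x ^ 2 = 1) {x y : X}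
    (hx : x ∈ S) (hy : y ∈ S) : f x = f y := by
  have h1 : MapsTo f S ({1, -1} : Set ℂ) := fun z hz => sq_eq_one_iff.1 (h z hz)
  have h2 : IsDiscrete ({1, -1} : Set ℂ) := ⟨inferInstance⟩
  exact hS.constant_of_mapsTo h2 hf h1 hx hy

/-- existence of a continuous square root along a segment -/
theorem exists_sqrt {g : ℝ → ℂ} {s t : ℝ} (hg : ContinuousOn g (uIcc s t))
    (h0 : ∀ x ∈ uIcc s t, g x ≠ 0) :
    ∃ ρ : ℝ → ℂ, ContinuousOn ρ (uIcc s t) ∧ ∀ x ∈ uIcc s t, ρ x ^ 2 = g x := by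
  have hle : s ⊓ t ≤ s ⊔ t := inf_le_sup
  have h1 : Continuous (fun x : ℝ => g (projIcc (s ⊓ t) (s ⊔ t) hle x : ℝ)) :=
    hg.comp_continuous (continuous_subtype_val.comp continuous_projIcc)
      (fun x => (projIcc (s ⊓ t) (s ⊔ t) hle x).2)
  obtain ⟨ρ, hρ, h⟩ := exists_sqrt_univ h1 (fun x => h0 _ (projIcc (s ⊓ t) (s ⊔ t) hle x).2)
  refine ⟨ρ, hρ.continuousOn, fun x hx => ?_⟩
  rw [h x, projIcc_of_mem hle hx]

/-- existence of a continuous square root on a rectangle -/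
theorem exists_sqrt₂ {g : ℝ × ℝ → ℂ} {s t s' t' : ℝ} (hg : ContinuousOn g (Icc s t ×ˢ Icc s' t'))
    (h0 : ∀ x ∈ Icc s t ×ˢ Icc s' t', g x ≠ 0) :
    ∃ ρ : ℝ × ℝ → ℂ, ContinuousOn ρ (Icc s t ×ˢ Icc s' t') ∧
      ∀ x ∈ Icc s t ×ˢ Icc s' t', ρ x ^ 2 = g x := by
  by_cases hst : s ≤ t
  · by_cases hst' : s' ≤ t'
    · have h1 : Continuous (fun x : ℝ × ℝ =>
          g ((projIcc s t hst x.1 : ℝ), (projIcc s' t' hst' x.2 : ℝ))) := by
        apply hg.comp_continuous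
        · exact (continuous_subtype_val.comp (continuous_projIcc.comp continuous_fst)).prodMk
            (continuous_subtype_val.comp (continuous_projIcc.comp continuous_snd))
        · exact fun x => ⟨(projIcc s t hst x.1).2, (projIcc s' t' hst' x.2).2⟩
      obtain ⟨ρ, hρ, h⟩ := exists_sqrt_univ h1
        (fun x => h0 _ ⟨(projIcc s t hst x.1).2, (projIcc s' t' hst' x.2).2⟩)
      refine ⟨ρ, hρ.continuousOn, fun x hx => ?_⟩
      rw [h x, projIcc_of_mem hst hx.1, projIcc_of_mem hst' hx.2]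
    · refine ⟨fun _ => 0, continuousOn_const, fun x hx => absurd (hx.2.1.trans hx.2.2) hst'⟩
  · refine ⟨fun _ => 0, continuousOn_const, fun x hx => absurd (hx.1.1.trans hx.1.2) hst⟩

/-- any continuous square root computes `sg` -/
theorem sg_eq {γ ρ : ℝ → ℂ} {s t : ℝ} {z : ℂ} (hρ : ContinuousOn ρ (uIcc s t))
    (h : ∀ x ∈ uIcc s t, ρ x ^ 2 = γ x - z) (h0 : ∀ x ∈ uIcc s t, γ x ≠ z) :
    sg γ s t z = ρ t / ρ s := by
  have hex : ∃ ρ : ℝ → ℂ, ContinuousOn ρ (uIcc s t) ∧ ∀ x ∈ uIcc s t, ρ x ^ 2 = γ x - z :=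
    ⟨ρ, hρ, h⟩
  have hsg : sg γ s t z = hex.choose t / hex.choose s := by
    unfold sg
    rw [dif_pos hex]
  rw [hsg]
  obtain ⟨h1, h2⟩ := hex.choose_spec
  set ρ' := hex.choose
  have hne : ∀ x ∈ uIcc s t, ρ x ≠ 0 := by
    intro x hx h3
    have := h x hx
    rw [h3, zero_pow two_ne_zero] at this
    exact h0 x hx (sub_eq_zero.1 this.symm)
  have hne' : ∀ x ∈ uIcc s t, ρ' x ≠ 0 := by
    intro x hx h3
    have := h2 x hx
    rw [h3, zero_pow two_ne_zero] at this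
    exact h0 x hx (sub_eq_zero.1 this.symm)
  have hc : (fun x => ρ' x / ρ x) t = (fun x => ρ' x / ρ x) s := by
    refine eq_of_sq_eq_one isPreconnected_uIcc (h1.div hρ hne) ?_ right_mem_uIcc left_mem_uIcc
    intro x hx
    show (ρ' x / ρ x) ^ 2 = 1
    rw [div_pow, h x hx, h2 x hx, div_self (sub_ne_zero.2 (h0 x hx))]
  have hc' : ρ' t / ρ t = ρ' s / ρ s := hc
  have a1 := hne s left_mem_uIcc
  have a2 := hne t right_mem_uIcc
  have a3 := hne' s left_mem_uIcc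
  rw [div_eq_div_iff a2 a1] at hc'
  rw [div_eq_div_iff a3 a1, hc']
  ring

theorem exists_sg {γ : ℝ → ℂ} {s t : ℝ} {z : ℂ} (hγ : ContinuousOn γ (uIcc s t))
    (h0 : ∀ x ∈ uIcc s t, γ x ≠ z) :
    ∃ ρ : ℝ → ℂ, ContinuousOn ρ (uIcc s t) ∧ (∀ x ∈ uIcc s t, ρ x ^ 2 = γ x - z) ∧
      (∀ x ∈ uIcc s t, ρ x ≠ 0) ∧ ∀ s' ∈ uIcc s t, ∀ t' ∈ uIcc s t,
        sg γ s' t' z = ρ t' / ρ s' := by
  obtain ⟨ρ, hρ, h⟩ := exists_sqrt (g := fun x => γ x - z) (hγ.sub continuousOn_const)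
    (fun x hx => sub_ne_zero.2 (h0 x hx))
  refine ⟨ρ, hρ, h, ?_, ?_⟩
  · intro x hx h3
    have := h x hx
    rw [h3, zero_pow two_ne_zero] at this
    exact h0 x hx (sub_eq_zero.1 this.symm)
  · intro s' hs' t' ht'
    have hsub : uIcc s' t' ⊆ uIcc s t := uIcc_subset_uIcc hs' ht'
    exact sg_eq (hρ.mono hsub) (fun x hx => h x (hsub hx)) (fun x hx => h0 x (hsub hx))

theorem sg_sq {γ : ℝ → ℂ} {s t : ℝ} {z : ℂ} (hγ : ContinuousOn γ (uIcc s t))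
    (h0 : ∀ x ∈ uIcc s t, γ x ≠ z) : sg γ s t z ^ 2 * (γ s - z) = γ t - z := by
  obtain ⟨ρ, -, h, hne, h1⟩ := exists_sg hγ h0
  rw [h1 s left_mem_uIcc t right_mem_uIcc, div_pow, h t right_mem_uIcc, ← h s left_mem_uIcc,
    div_mul_cancel₀ _ (pow_ne_zero 2 (hne s left_mem_uIcc))]

theorem sg_ne_zero {γ : ℝ → ℂ} {s t : ℝ} {z : ℂ} (hγ : ContinuousOn γ (uIcc s t))
    (h0 : ∀ x ∈ uIcc s t, γ x ≠ z) : sg γ s t z ≠ 0 := by
  obtain ⟨ρ, -, h, hne, h1⟩ := exists_sg hγ h0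
  rw [h1 s left_mem_uIcc t right_mem_uIcc]
  exact div_ne_zero (hne t right_mem_uIcc) (hne s left_mem_uIcc)

theorem sg_mul {γ : ℝ → ℂ} {a b s t u : ℝ} {z : ℂ} (hγ : ContinuousOn γ (Icc a b))
    (h0 : ∀ x ∈ Icc a b, γ x ≠ z) (hs : s ∈ Icc a b) (ht : t ∈ Icc a b) (hu : u ∈ Icc a b) :
    sg γ s t z * sg γ t u z = sg γ s u z := by
  have hab : a ≤ b := hs.1.trans hs.2
  have hI : uIcc a b = Icc a b := uIcc_of_le hab
  rw [← hI] at hγ h0 hs ht hu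
  obtain ⟨ρ, -, h, hne, h1⟩ := exists_sg hγ h0
  rw [h1 s hs t ht, h1 t ht u hu, h1 s hs u hu]
  have a1 := hne s hs
  have a2 := hne t ht
  field_simp

theorem sg_self (γ : ℝ → ℂ) (s : ℝ) (z : ℂ) (h0 : γ s ≠ z) : sg γ s s z = 1 := by
  obtain ⟨w, hw⟩ : ∃ w : ℂ, w ^ 2 = γ s - z := IsAlgClosed.exists_pow_nat_eq _ two_pos
  have hw0 : w ≠ 0 := by
    intro h
    rw [h, zero_pow two_ne_zero] at hw
    exact h0 (sub_eq_zero.1 hw.symm)
  have h1 : ∀ x ∈ uIcc s s, x = s := fun x hx => by simpa using hx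
  rw [sg_eq (ρ := fun _ => w) continuousOn_const (fun x hx => by rw [h1 x hx]; exact hw)
    (fun x hx => by rw [h1 x hx]; exact h0)]
  exact div_self hw0

theorem sg_symm {γ : ℝ → ℂ} {s t : ℝ} {z : ℂ} (hγ : ContinuousOn γ (uIcc s t))
    (h0 : ∀ x ∈ uIcc s t, γ x ≠ z) : sg γ t s z = (sg γ s t z)⁻¹ := by
  obtain ⟨ρ, -, h, hne, h1⟩ := exists_sg hγ h0
  rw [h1 s left_mem_uIcc t right_mem_uIcc, h1 t right_mem_uIcc s left_mem_uIcc, inv_div]

/-- reparametrisation -/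
theorem sg_comp {γ : ℝ → ℂ} {φ : ℝ → ℝ} {a b c d : ℝ} {z : ℂ} (hγ : ContinuousOn γ (Icc c d))
    (h0 : ∀ x ∈ Icc c d, γ x ≠ z) (hφ : ContinuousOn φ (uIcc a b))
    (hm : MapsTo φ (uIcc a b) (Icc c d)) :
    sg (γ ∘ φ) a b z = sg γ (φ a) (φ b) z := by
  have hcd : c ≤ d := by
    have := hm (left_mem_uIcc (a := a) (b := b))
    exact this.1.trans this.2
  have hI : uIcc c d = Icc c d := uIcc_of_le hcd
  rw [← hI] at hγ h0 hm
  obtain ⟨ρ, hρ, h, hne, h1⟩ := exists_sg hγ h0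
  rw [h1 _ (hm left_mem_uIcc) _ (hm right_mem_uIcc)]
  exact sg_eq (ρ := ρ ∘ φ) (hρ.comp hφ hm) (fun x hx => h _ (hm hx)) (fun x hx => h0 _ (hm hx))

theorem sg_congr {γ γ' : ℝ → ℂ} {s t : ℝ} {z : ℂ} (hγ : ContinuousOn γ (uIcc s t))
    (h : EqOn γ γ' (uIcc s t)) (h0 : ∀ x ∈ uIcc s t, γ x ≠ z) : sg γ s t z = sg γ' s t z := by
  obtain ⟨ρ, hρ, h2, hne, h1⟩ := exists_sg hγ h0
  rw [h1 s left_mem_uIcc t right_mem_uIcc]
  refine (sg_eq hρ (fun x hx => ?_) (fun x hx => ?_)).symm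
  · rw [h2 x hx, h hx]
  · rw [← h hx]; exact h0 x hx

theorem continuousOn_sg {γ : ℝ → ℂ} {s t : ℝ} (hγ : ContinuousOn γ (uIcc s t)) :
    ContinuousOn (sg γ s t) (γ '' uIcc s t)ᶜ := by
  intro z₀ hz₀
  apply ContinuousAt.continuousWithinAt
  have hK : IsCompact (γ '' uIcc s t) := isCompact_uIcc.image_of_continuousOn hγ
  have hO : IsOpen (γ '' uIcc s t)ᶜ := hK.isClosed.isOpen_compl
  obtain ⟨δ, hδ, hball⟩ := Metric.isOpen_iff.1 hO z₀ hz₀
  have hdist : ∀ x ∈ uIcc s t, δ ≤ ‖γ x - z₀‖ := by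
    intro x hx
    by_contra hlt
    rw [not_le, ← dist_eq_norm] at hlt
    exact hball hlt ⟨x, hx, rfl⟩
  have h00 : ∀ x ∈ uIcc s t, γ x ≠ z₀ := fun x hx h => hz₀ ⟨x, hx, h⟩
  obtain ⟨ρ, hρ, h2, hne, h1⟩ := exists_sg hγ h00
  -- the local branch
  set q : ℝ → ℂ → ℂ := fun x z => (1 + -((z - z₀) / (γ x - z₀))) ^ ((2 : ℂ)⁻¹) with hq
  have hslit : ∀ z ∈ Metric.ball z₀ δ, ∀ x ∈ uIcc s t,
      1 + -((z - z₀) / (γ x - z₀)) ∈ Complex.slitPlane := by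
    intro z hz x hx
    apply Complex.mem_slitPlane_of_norm_lt_one
    rw [norm_neg, norm_div, div_lt_one (norm_pos_iff.2 (sub_ne_zero.2 (h00 x hx)))]
    rw [Metric.mem_ball, dist_eq_norm] at hz
    exact hz.trans_le (hdist x hx)
  have hq2 : ∀ x ∈ uIcc s t, ∀ z, q x z ^ 2 = (γ x - z) / (γ x - z₀) := by
    intro x hx z
    have h3 := Complex.cpow_nat_inv_pow (1 + -((z - z₀) / (γ x - z₀))) two_ne_zero
    rw [hq]
    simp only
    push_cast at h3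
    rw [h3]
    have h4 : γ x - z₀ ≠ 0 := sub_ne_zero.2 (h00 x hx)
    field_simp
    ring
  have hqx : ∀ z ∈ Metric.ball z₀ δ, ContinuousOn (fun x => q x z) (uIcc s t) := by
    intro z hz
    have h3 : ContinuousOn (fun x => 1 + -((z - z₀) / (γ x - z₀))) (uIcc s t) :=
      continuousOn_const.add ((continuousOn_const.div (hγ.sub continuousOn_const)
        (fun x hx => sub_ne_zero.2 (h00 x hx))).neg)
    exact h3.cpow continuousOn_const (fun x hx => hslit z hz x hx)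
  have hqz : ∀ x ∈ uIcc s t, ContinuousAt (fun z => q x z) z₀ := by
    intro x hx
    have h3 : ContinuousAt (fun z : ℂ => 1 + -((z - z₀) / (γ x - z₀))) z₀ := by
      fun_prop
    exact h3.cpow continuousAt_const (hslit z₀ (Metric.mem_ball_self hδ) x hx)
  have heq : ∀ z ∈ Metric.ball z₀ δ, sg γ s t z = (ρ t * q t z) / (ρ s * q s z) := by
    intro z hz
    have hz' : ∀ x ∈ uIcc s t, γ x ≠ z := fun x hx h => hball hz ⟨x, hx, h⟩
    refine sg_eq (ρ := fun x => ρ x * q x z) (hρ.mul (hqx z hz)) (fun x hx => ?_) hz'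
    rw [mul_pow, h2 x hx, hq2 x hx z, mul_div_cancel₀ _ (sub_ne_zero.2 (h00 x hx))]
  have hcont : ContinuousAt (fun z => (ρ t * q t z) / (ρ s * q s z)) z₀ := by
    apply ContinuousAt.div
    · exact continuousAt_const.mul (hqz t right_mem_uIcc)
    · exact continuousAt_const.mul (hqz s left_mem_uIcc)
    · apply mul_ne_zero (hne s left_mem_uIcc)
      intro h3
      have h4 := hq2 s left_mem_uIcc z₀
      rw [h3, zero_pow two_ne_zero, div_self (sub_ne_zero.2 (h00 s left_mem_uIcc))] at h4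
      exact zero_ne_one h4
  refine hcont.congr_of_eventuallyEq ?_
  filter_upwards [Metric.ball_mem_nhds z₀ hδ] with z hz using heq z hz

/-- homotopy with fixed end points -/
theorem sg_homotopy {H : ℝ × ℝ → ℂ} {s t : ℝ} {z p q : ℂ} (hst : s ≤ t)
    (hH : ContinuousOn H (Icc 0 1 ×ˢ Icc s t)) (h0 : ∀ x ∈ Icc (0 : ℝ) 1 ×ˢ Icc s t, H x ≠ z)
    (hp : ∀ τ ∈ Icc (0 : ℝ) 1, H (τ, s) = p) (hq : ∀ τ ∈ Icc (0 : ℝ) 1, H (τ, t) = q) :
    sg (fun x => H (0, x)) s t z = sg (fun x => H (1, x)) s t z := by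
  obtain ⟨ρ, hρ, h⟩ := exists_sqrt₂ (g := fun x => H x - z) (hH.sub continuousOn_const)
    (fun x hx => sub_ne_zero.2 (h0 x hx))
  have hne : ∀ x ∈ Icc (0 : ℝ) 1 ×ˢ Icc s t, ρ x ≠ 0 := by
    intro x hx h3
    have := h x hx
    rw [h3, zero_pow two_ne_zero] at this
    exact h0 x hx (sub_eq_zero.1 this.symm)
  have m0 : (0 : ℝ) ∈ Icc (0 : ℝ) 1 := ⟨le_rfl, zero_le_one⟩
  have m1 : (1 : ℝ) ∈ Icc (0 : ℝ) 1 := ⟨zero_le_one, le_rfl⟩
  have ms : s ∈ Icc s t := ⟨le_rfl, hst⟩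
  have mt : t ∈ Icc s t := ⟨hst, le_rfl⟩
  -- the sides
  have hside : ∀ u ∈ Icc s t, ∀ w : ℂ, (∀ τ ∈ Icc (0 : ℝ) 1, H (τ, u) = w) →
      ρ (1, u) = ρ (0, u) := by
    intro u hu w hw
    have hc : ContinuousOn (fun τ : ℝ => ρ (τ, u) / ρ (0, u)) (Icc (0 : ℝ) 1) := by
      apply ContinuousOn.div_const
      apply hρ.comp (continuousOn_id.prodMk continuousOn_const)
      intro τ hτ
      exact ⟨hτ, hu⟩
    have h1 : (fun τ : ℝ => ρ (τ, u) / ρ (0, u)) 1 = (fun τ : ℝ => ρ (τ, u) / ρ (0, u)) 0 := by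
      refine eq_of_sq_eq_one isPreconnected_Icc hc ?_ m1 m0
      intro τ hτ
      show (ρ (τ, u) / ρ (0, u)) ^ 2 = 1
      have e1 := h (τ, u) ⟨hτ, hu⟩
      have e2 := h (0, u) ⟨m0, hu⟩
      rw [div_pow, e1, e2, hw τ hτ, hw 0 m0, div_self]
      rw [← hw 0 m0]
      exact sub_ne_zero.2 (h0 (0, u) ⟨m0, hu⟩)
    have h2 : ρ (1, u) / ρ (0, u) = ρ (0, u) / ρ (0, u) := h1
    have h3 := hne (0, u) ⟨m0, hu⟩
    rw [div_self h3, div_eq_one_iff_eq h3] at h2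
    exact h2
  have hI : uIcc s t = Icc s t := uIcc_of_le hst
  have key : ∀ τ ∈ Icc (0 : ℝ) 1, sg (fun x => H (τ, x)) s t z = ρ (τ, t) / ρ (τ, s) := by
    intro τ hτ
    refine sg_eq (ρ := fun x => ρ (τ, x)) ?_ ?_ ?_
    · rw [hI]
      exact hρ.comp (continuousOn_const.prodMk continuousOn_id) (fun x hx => ⟨hτ, hx⟩)
    · intro x hx
      rw [hI] at hx
      exact h (τ, x) ⟨hτ, hx⟩
    · intro x hx
      rw [hI] at hx
      exact h0 (τ, x) ⟨hτ, hx⟩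
  rw [key 0 m0, key 1 m1, hside t mt q hq, hside s ms p hp]

/-- The boundary circle of an embedded disc has odd winding number about interior points. -/
theorem sg_circle {k : ℂ → ℂ} {r : ℝ} (hr : 0 < r) (hk : ContinuousOn k (Metric.closedBall 0 r))
    (hinj : InjOn k (Metric.closedBall 0 r)) {w : ℂ} (hw : w ∈ Metric.ball (0 : ℂ) r) :
    sg (fun θ => k (r * Complex.exp (θ * Complex.I))) 0 (2 * Real.pi) (k w) = -1 := by
  have hpi := Real.pi_pos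
  have hexp : ∀ θ : ℝ, ‖(r : ℂ) * Complex.exp (θ * Complex.I)‖ = r := by
    intro θ
    rw [norm_mul, Complex.norm_exp_ofReal_mul_I, mul_one, Complex.norm_real, Real.norm_eq_abs,
      abs_of_pos hr]
  have hw' : ‖w‖ < r := by simpa using hw
  set c : ℝ → ℂ := fun θ => (r : ℂ) * Complex.exp (θ * Complex.I) with hc
  have hcc : Continuous c := by
    rw [hc]; fun_prop
  set d : ℝ × ℝ → ℂ := fun x => (1 - (x.1 : ℂ)) * w - (x.1 : ℂ) * c x.2 with hd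
  have hdc : Continuous d := by
    rw [hd]; fun_prop
  have hdm : ∀ x : ℝ × ℝ, x.1 ∈ Icc (0 : ℝ) 1 → d x ∈ Metric.closedBall (0 : ℂ) r := by
    intro x hx
    rw [mem_closedBall_zero_iff, hd]
    simp only
    refine (norm_sub_le _ _).trans ?_
    rw [norm_mul, norm_mul]
    have h1 : ‖(1 : ℂ) - (x.1 : ℂ)‖ = 1 - x.1 := by
      rw [← Complex.ofReal_one, ← Complex.ofReal_sub, Complex.norm_real, Real.norm_eq_abs,
        abs_of_nonneg (by linarith [hx.2])]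
    have h2 : ‖(x.1 : ℂ)‖ = x.1 := by
      rw [Complex.norm_real, Real.norm_eq_abs, abs_of_nonneg hx.1]
    have h3 : ‖c x.2‖ = r := hexp x.2
    rw [h1, h2, h3]
    nlinarith [hx.1, hx.2, hw']
  have hcm : ∀ θ, c θ ∈ Metric.closedBall (0 : ℂ) r := fun θ => by
    rw [mem_closedBall_zero_iff]; exact (hexp θ).le
  have hcd : ∀ x : ℝ × ℝ, x.1 ∈ Icc (0 : ℝ) 1 → c x.2 ≠ d x := by
    intro x hx heq
    have h1 : (1 + (x.1 : ℂ)) * c x.2 = (1 - (x.1 : ℂ)) * w := by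
      rw [hd] at heq
      simp only at heq
      linear_combination heq
    have h2 := congrArg norm h1
    rw [norm_mul (1 + (x.1 : ℂ)) (c x.2), norm_mul (1 - (x.1 : ℂ)) w] at h2
    have h3 : ‖(1 : ℂ) + (x.1 : ℂ)‖ = 1 + x.1 := by
      rw [← Complex.ofReal_one, ← Complex.ofReal_add, Complex.norm_real, Real.norm_eq_abs,
        abs_of_nonneg (by linarith [hx.1])]
    have h4 : ‖(1 : ℂ) - (x.1 : ℂ)‖ = 1 - x.1 := by
      rw [← Complex.ofReal_one, ← Complex.ofReal_sub, Complex.norm_real, Real.norm_eq_abs,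
        abs_of_nonneg (by linarith [hx.2])]
    have h5 : ‖c x.2‖ = r := hexp x.2
    rw [h3, h4, h5] at h2
    have h6 := norm_nonneg w
    nlinarith [hx.1, hx.2, hw']
  set F : ℝ × ℝ → ℂ := fun x => k (c x.2) - k (d x) with hF
  have hFc : ContinuousOn F (Icc 0 1 ×ˢ Icc 0 (2 * Real.pi)) := by
    apply ContinuousOn.sub
    · exact hk.comp (hcc.comp continuous_snd).continuousOn (fun x _ => hcm x.2)
    · exact hk.comp hdc.continuousOn (fun x hx => hdm x hx.1)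
  have hF0 : ∀ x ∈ Icc (0 : ℝ) 1 ×ˢ Icc (0 : ℝ) (2 * Real.pi), F x ≠ 0 := by
    intro x hx h
    exact hcd x hx.1 (hinj (hcm x.2) (hdm x hx.1) (sub_eq_zero.1 h))
  obtain ⟨ρ, hρ, h⟩ := exists_sqrt₂ hFc hF0
  have hne : ∀ x ∈ Icc (0 : ℝ) 1 ×ˢ Icc (0 : ℝ) (2 * Real.pi), ρ x ≠ 0 := by
    intro x hx h3
    have := h x hx
    rw [h3, zero_pow two_ne_zero] at this
    exact hF0 x hx this.symm
  have m0 : (0 : ℝ) ∈ Icc (0 : ℝ) 1 := ⟨le_rfl, zero_le_one⟩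
  have m1 : (1 : ℝ) ∈ Icc (0 : ℝ) 1 := ⟨zero_le_one, le_rfl⟩
  have n0 : (0 : ℝ) ∈ Icc (0 : ℝ) (2 * Real.pi) := ⟨le_rfl, by linarith⟩
  have n2 : (2 * Real.pi) ∈ Icc (0 : ℝ) (2 * Real.pi) := ⟨by linarith, le_rfl⟩
  have nπ : Real.pi ∈ Icc (0 : ℝ) (2 * Real.pi) := ⟨by linarith, by linarith⟩
  have hc2 : c (2 * Real.pi) = c 0 := by
    rw [hc]
    simp only
    push_cast
    rw [Complex.exp_two_pi_mul_I, zero_mul, Complex.exp_zero]
  have hcπ : ∀ θ : ℝ, c (θ + Real.pi) = - c θ := by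
    intro θ
    rw [hc]
    simp only
    push_cast
    rw [add_mul, Complex.exp_add, Complex.exp_pi_mul_I]
    ring
  -- the first ratio
  have hu : (fun τ : ℝ => ρ (τ, 2 * Real.pi) / ρ (τ, 0)) 0 =
      (fun τ : ℝ => ρ (τ, 2 * Real.pi) / ρ (τ, 0)) 1 := by
    refine eq_of_sq_eq_one (f := fun τ : ℝ => ρ (τ, 2 * Real.pi) / ρ (τ, 0))
      isPreconnected_Icc ?_ ?_ m0 m1
    · apply ContinuousOn.div
      · exact hρ.comp (continuousOn_id.prodMk continuousOn_const) (fun τ hτ => ⟨hτ, n2⟩)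
      · exact hρ.comp (continuousOn_id.prodMk continuousOn_const) (fun τ hτ => ⟨hτ, n0⟩)
      · exact fun τ hτ => hne _ ⟨hτ, n0⟩
    · intro τ hτ
      show (ρ (τ, 2 * Real.pi) / ρ (τ, 0)) ^ 2 = 1
      rw [div_pow, h _ ⟨hτ, n2⟩, h _ ⟨hτ, n0⟩]
      have e : F (τ, 2 * Real.pi) = F (τ, 0) := by
        rw [hF, hd]
        simp only [hc2]
      rw [e, div_self (hF0 _ ⟨hτ, n0⟩)]
  -- the second ratio
  have hv : (fun θ : ℝ => Complex.I * (ρ (1, θ + Real.pi) / ρ (1, θ))) 0 =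
      (fun θ : ℝ => Complex.I * (ρ (1, θ + Real.pi) / ρ (1, θ))) Real.pi := by
    have hmem : ∀ θ ∈ Icc (0 : ℝ) Real.pi, θ ∈ Icc (0 : ℝ) (2 * Real.pi) := fun θ hθ =>
      ⟨hθ.1, by linarith [hθ.2]⟩
    have hmem' : ∀ θ ∈ Icc (0 : ℝ) Real.pi, θ + Real.pi ∈ Icc (0 : ℝ) (2 * Real.pi) :=
      fun θ hθ => ⟨by linarith [hθ.1], by linarith [hθ.2]⟩
    refine eq_of_sq_eq_one (f := fun θ : ℝ => Complex.I * (ρ (1, θ + Real.pi) / ρ (1, θ)))
      (S := Icc 0 Real.pi) isPreconnected_Icc ?_ ?_ ⟨le_rfl, hpi.le⟩ ⟨hpi.le, le_rfl⟩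
    · apply ContinuousOn.mul continuousOn_const
      apply ContinuousOn.div
      · exact hρ.comp (continuousOn_const.prodMk (continuousOn_id.add continuousOn_const))
          (fun θ hθ => ⟨m1, hmem' θ hθ⟩)
      · exact hρ.comp (continuousOn_const.prodMk continuousOn_id) (fun θ hθ => ⟨m1, hmem θ hθ⟩)
      · exact fun θ hθ => hne _ ⟨m1, hmem θ hθ⟩
    · intro θ hθ
      show (Complex.I * (ρ (1, θ + Real.pi) / ρ (1, θ))) ^ 2 = 1
      rw [mul_pow, div_pow, h _ ⟨m1, hmem' θ hθ⟩, h _ ⟨m1, hmem θ hθ⟩, Complex.I_sq]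
      have e : F (1, θ + Real.pi) = - F (1, θ) := by
        rw [hF, hd]
        simp only [hcπ, Complex.ofReal_one]
        ring_nf
      rw [e, neg_div, div_self (hF0 _ ⟨m1, hmem θ hθ⟩)]
      ring
  have hv' : ρ (1, Real.pi) / ρ (1, 0) = ρ (1, 2 * Real.pi) / ρ (1, Real.pi) := by
    have h1 : Complex.I * (ρ (1, 0 + Real.pi) / ρ (1, 0)) =
      Complex.I * (ρ (1, Real.pi + Real.pi) / ρ (1, Real.pi)) := hv
    rw [zero_add, ← two_mul] at h1
    exact mul_left_cancel₀ Complex.I_ne_zero h1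
  have hend : ρ (1, 2 * Real.pi) / ρ (1, 0) = -1 := by
    have a0 := hne (1, 0) ⟨m1, n0⟩
    have a1 := hne (1, Real.pi) ⟨m1, nπ⟩
    have h1 : ρ (1, 2 * Real.pi) / ρ (1, 0) =
        (ρ (1, 2 * Real.pi) / ρ (1, Real.pi)) * (ρ (1, Real.pi) / ρ (1, 0)) := by
      field_simp
    rw [h1, ← hv', ← sq, div_pow, h _ ⟨m1, nπ⟩, h _ ⟨m1, n0⟩]
    have e : F (1, Real.pi) = - F (1, 0) := by
      have hc0 : c Real.pi = - c 0 := by
        have := hcπ 0
        rwa [zero_add] at this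
      rw [hF, hd]
      simp only [hc0, Complex.ofReal_one]
      ring_nf
    rw [e, neg_div, div_self (hF0 _ ⟨m1, n0⟩)]
  have hI : uIcc (0 : ℝ) (2 * Real.pi) = Icc 0 (2 * Real.pi) := uIcc_of_le (by linarith)
  have hsg : sg (fun θ => k (c θ)) 0 (2 * Real.pi) (k w) = ρ (0, 2 * Real.pi) / ρ (0, 0) := by
    refine sg_eq (ρ := fun θ => ρ (0, θ)) ?_ ?_ ?_
    · rw [hI]
      exact hρ.comp (continuousOn_const.prodMk continuousOn_id) (fun x hx => ⟨m0, hx⟩)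
    · intro x hx
      rw [hI] at hx
      rw [h _ ⟨m0, hx⟩, hF, hd]
      simp
    · intro x hx h1
      rw [hI] at hx
      apply hF0 (0, x) ⟨m0, hx⟩
      rw [hF, hd]
      simp [h1]
  rw [hsg]
  have hu' : ρ (0, 2 * Real.pi) / ρ (0, 0) = ρ (1, 2 * Real.pi) / ρ (1, 0) := hu
  rw [hu', hend]

end Pool.Agent.LP
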