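import Pool.Agent.H12_d8337a.Flip

/-!
# Sides of an arc and the Jordan-type lemmas (T), (F1), (F3)
-/

open Set Filter Topology

namespace Pool.Agent.LP

/-- local inverse of a strictly monotone continuous function -/
lemma exists_preimage {φ : ℝ → ℝ} {r ρ p : ℝ} (hc : ContinuousOn φ (Ioo (-r) r))
    (hm : StrictMonoOn φ (Ioo (-r) r)) (h0 : φ 0 = p) (hρ : 0 < ρ) (hρr : ρ < r) :
    ∃ δ > 0, (∀ t ∈ Ioo p (p + δ), ∃ x ∈ Ioo 0 ρ, φ x = t) ∧
      (∀ t ∈ Ioo (p - δ) p, ∃ x ∈ Ioo (-ρ) 0, φ x = t) := by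
  have m0 : (0 : ℝ) ∈ Ioo (-r) r := ⟨by linarith, by linarith⟩
  have mρ : ρ ∈ Ioo (-r) r := ⟨by linarith, by linarith⟩
  have mρ' : -ρ ∈ Ioo (-r) r := ⟨by linarith, by linarith⟩
  have h1 : p < φ ρ := by rw [← h0]; exact hm m0 mρ hρ
  have h2 : φ (-ρ) < p := by rw [← h0]; exact hm mρ' m0 (by linarith)
  refine ⟨min (φ ρ - p) (p - φ (-ρ)), lt_min (by linarith) (by linarith), ?_, ?_⟩
  · intro t ht
    have hsub : Icc 0 ρ ⊆ Ioo (-r) r := fun x hx => ⟨by linarith [hx.1], by linarith [hx.2]⟩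
    have := intermediate_value_Ioo hρ.le (hc.mono hsub)
    have htt : t ∈ Ioo (φ 0) (φ ρ) := by
      rw [h0]
      exact ⟨ht.1, by linarith [ht.2, min_le_left (φ ρ - p) (p - φ (-ρ))]⟩
    obtain ⟨x, hx, hxt⟩ := this htt
    exact ⟨x, hx, hxt⟩
  · intro t ht
    have hsub : Icc (-ρ) 0 ⊆ Ioo (-r) r := fun x hx => ⟨by linarith [hx.1], by linarith [hx.2]⟩
    have := intermediate_value_Ioo (by linarith : -ρ ≤ 0) (hc.mono hsub)
    have htt : t ∈ Ioo (φ (-ρ)) (φ 0) := by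
      rw [h0]
      exact ⟨by linarith [ht.1, min_le_right (φ ρ - p) (p - φ (-ρ))], ht.2⟩
    obtain ⟨x, hx, hxt⟩ := this htt
    exact ⟨x, hx, hxt⟩

namespace Chart

variable {c d : ℝ → ℂ} {p q : ℝ}

lemma zero_mem (h : Chart c d p q) : (0 : ℝ) ∈ Ioo (-h.r) h.r :=
  ⟨by linarith [h.r_pos], h.r_pos⟩

lemma p_mem (h : Chart c d p q) : p ∈ Ioo (0 : ℝ) 1 := by
  have hr := h.r_pos
  have m1 : h.r / 2 ∈ Ioo (-h.r) h.r := ⟨by linarith, by linarith⟩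
  have m2 : -(h.r / 2) ∈ Ioo (-h.r) h.r := ⟨by linarith, by linarith⟩
  have h1 := h.φ_mono h.zero_mem m1 (by linarith)
  have h2 := h.φ_mono m2 h.zero_mem (by linarith)
  rw [h.φ_zero] at h1 h2
  exact ⟨(h.φ_mem _ m2).1.trans_lt h2, h1.trans_le (h.φ_mem _ m1).2⟩

lemma q_mem (h : Chart c d p q) : q ∈ Ioo (0 : ℝ) 1 := by
  have hr := h.r_pos
  have m1 : h.r / 2 ∈ Ioo (-h.r) h.r := ⟨by linarith, by linarith⟩
  have m2 : -(h.r / 2) ∈ Ioo (-h.r) h.r := ⟨by linarith, by linarith⟩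
  have h1 := h.ψ_mono h.zero_mem m1 (by linarith)
  have h2 := h.ψ_mono m2 h.zero_mem (by linarith)
  rw [h.ψ_zero] at h1 h2
  exact ⟨(h.ψ_mem _ m2).1.trans_lt h2, h1.trans_le (h.ψ_mem _ m1).2⟩

lemma k_zero (h : Chart c d p q) : h.k 0 = c p := by
  have := h.c_eq 0 h.zero_mem
  rw [h.φ_zero] at this
  simpa using this.symm

lemma c_p_eq (h : Chart c d p q) : c p = d q := by
  have := h.d_eq 0 h.zero_mem
  rw [h.ψ_zero] at this
  rw [this, ← h.k_zero]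
  simp

lemma ofReal_mem {h : Chart c d p q} {x : ℝ} (hx : x ∈ Ioo (-h.r) h.r) :
    (x : ℂ) ∈ Metric.ball (0 : ℂ) h.r := by
  simp only [Metric.mem_ball, dist_zero_right, Complex.norm_real, Real.norm_eq_abs]
  exact abs_lt.2 hx

lemma ofReal_mul_I_mem {h : Chart c d p q} {x : ℝ} (hx : x ∈ Ioo (-h.r) h.r) :
    (x * Complex.I : ℂ) ∈ Metric.ball (0 : ℂ) h.r := by
  simp only [Metric.mem_ball, dist_zero_right, norm_mul, Complex.norm_real, Real.norm_eq_abs,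
    Complex.norm_I, mul_one]
  exact abs_lt.2 hx

/-- a point of `c` in the chart disc is on the real axis -/
lemma c_mem (h : Chart c d p q) (hci : InjOn c (Icc 0 1)) {w : ℂ} (hw : w ∈ Metric.ball (0 : ℂ) h.r)
    {t : ℝ} (ht : t ∈ Icc (0 : ℝ) 1) (he : h.k w = c t) :
    w.im = 0 ∧ w.re ∈ Ioo (-h.r) h.r ∧ h.φ w.re = t := by
  have him : w.im = 0 := h.c_im w hw (he ▸ mem_image_of_mem c ht)
  have hre : w.re ∈ Ioo (-h.r) h.r := by
    rw [Metric.mem_ball, dist_zero_right] at hw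
    exact abs_lt.1 ((Complex.abs_re_le_norm w).trans_lt hw)
  refine ⟨him, hre, hci (h.φ_mem _ hre) ht ?_⟩
  rw [h.c_eq _ hre, ← he]
  congr 1
  apply Complex.ext <;> simp [him]

/-- a point of `d` in the chart disc is on the imaginary axis -/
lemma d_mem (h : Chart c d p q) (hdi : InjOn d (Icc 0 1)) {w : ℂ} (hw : w ∈ Metric.ball (0 : ℂ) h.r)
    {t : ℝ} (ht : t ∈ Icc (0 : ℝ) 1) (he : h.k w = d t) :
    w.re = 0 ∧ w.im ∈ Ioo (-h.r) h.r ∧ h.ψ w.im = t := by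
  have hre : w.re = 0 := h.d_re w hw (he ▸ mem_image_of_mem d ht)
  have him : w.im ∈ Ioo (-h.r) h.r := by
    rw [Metric.mem_ball, dist_zero_right] at hw
    exact abs_lt.1 ((Complex.abs_im_le_norm w).trans_lt hw)
  refine ⟨hre, him, hdi (h.ψ_mem _ him) ht ?_⟩
  rw [h.d_eq _ him, ← he]
  congr 1
  apply Complex.ext <;> simp [hre]

/-- discs of the chart are contained in a given neighbourhood -/
lemma exists_ball (h : Chart c d p q) {U : Set ℂ} (hU : U ∈ 𝓝 (c p)) :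
    ∃ ρ, 0 < ρ ∧ ρ < h.r ∧ ∀ w ∈ Metric.ball (0 : ℂ) ρ, h.k w ∈ U := by
  have hc : ContinuousAt h.k 0 :=
    h.cont.continuousAt (Metric.ball_mem_nhds 0 h.r_pos)
  have : h.k ⁻¹' U ∈ 𝓝 (0 : ℂ) := hc (by rw [h.k_zero]; exact hU)
  obtain ⟨ε, hε, hsub⟩ := Metric.mem_nhds_iff.1 this
  refine ⟨min ε (h.r / 2), lt_min hε (by linarith [h.r_pos]),
    (min_le_right _ _).trans_lt (by linarith [h.r_pos]), fun w hw => ?_⟩
  exact hsub (Metric.ball_subset_ball (min_le_left _ _) hw)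

/-- a half-plane cut out of a disc, glued with another one -/
lemma isPreconnected_region (ρ : ℝ) (hρ : 0 < ρ) (σ : ℝ) :
    IsPreconnected {w : ℂ | w ∈ Metric.ball (0 : ℂ) ρ ∧ (0 < σ * w.re ∨ w.im < 0)} := by
  by_cases hσ : σ = 0
  · have : {w : ℂ | w ∈ Metric.ball (0 : ℂ) ρ ∧ (0 < σ * w.re ∨ w.im < 0)} =
        Metric.ball (0 : ℂ) ρ ∩ {w | w.im < 0} := by
      ext w; simp [hσ]
    rw [this]
    exact ((convex_ball _ _).inter (convex_halfSpace_im_lt 0)).isPreconnected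
  have h1 : Convex ℝ (Metric.ball (0 : ℂ) ρ ∩ {w : ℂ | 0 < σ * w.re}) := by
    refine (convex_ball _ _).inter ?_
    rcases lt_or_gt_of_ne hσ with h | h
    · have : {w : ℂ | 0 < σ * w.re} = {w | w.re < 0} := by
        ext w
        simp only [mem_ofPred_eq]
        constructor
        · intro h'
          by_contra hc
          push Not at hc
          nlinarith
        · intro h'
          nlinarith
      rw [this]
      exact convex_halfSpace_re_lt 0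
    · have : {w : ℂ | 0 < σ * w.re} = {w | 0 < w.re} := by
        ext w
        simp only [mem_ofPred_eq]
        exact mul_pos_iff_of_pos_left h
      rw [this]
      exact convex_halfSpace_re_gt 0
  have h2 : Convex ℝ (Metric.ball (0 : ℂ) ρ ∩ {w : ℂ | w.im < 0}) :=
    (convex_ball _ _).inter (convex_halfSpace_im_lt 0)
  have hu : {w : ℂ | w ∈ Metric.ball (0 : ℂ) ρ ∧ (0 < σ * w.re ∨ w.im < 0)} =
      (Metric.ball (0 : ℂ) ρ ∩ {w : ℂ | 0 < σ * w.re}) ∪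
      (Metric.ball (0 : ℂ) ρ ∩ {w : ℂ | w.im < 0}) := by
    ext w
    simp only [mem_ofPred_eq, mem_union, mem_inter_iff]
    tauto
  rw [hu]
  -- a common point
  set m : ℝ := ρ / 4 with hm
  have hmem : ∃ x : ℂ, x ∈ Metric.ball (0 : ℂ) ρ ∧ 0 < σ * x.re ∧ x.im < 0 := by
    refine ⟨⟨SignType.sign σ * m, -m⟩, ?_, ?_, ?_⟩
    · simp only [Metric.mem_ball, dist_zero_right]
      refine (Complex.norm_le_abs_re_add_abs_im _).trans_lt ?_
      simp only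
      have h3 : |((SignType.sign σ : SignType) : ℝ) * m| ≤ m := by
        rw [abs_mul, abs_of_pos (show (0:ℝ) < m by positivity)]
        have : |((SignType.sign σ : SignType) : ℝ)| ≤ 1 := by
          rcases lt_or_gt_of_ne hσ with h | h
          · simp [sign_neg h]
          · simp [sign_pos h]
        nlinarith [show (0:ℝ) < m by positivity]
      have h4 : |-m| = m := by rw [abs_neg, abs_of_pos (by positivity)]
      rw [h4]
      linarith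
    · simp only
      rcases lt_or_gt_of_ne hσ with h | h
      · simp only [sign_neg h, SignType.coe_neg_one]
        nlinarith [show (0:ℝ) < m by positivity]
      · simp only [sign_pos h, SignType.coe_one]
        nlinarith [show (0:ℝ) < m by positivity]
    · simp only
      linarith [show (0:ℝ) < m by positivity]
  obtain ⟨x, hx, hx1, hx2⟩ := hmem
  exact IsPreconnected.union x ⟨hx, hx1⟩ ⟨hx, hx2⟩ h1.isPreconnected h2.isPreconnected

end Chart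

/-- the corner lemma: the chain near `c p = d q` consists of the part of `c` on one side of `p`
and the part of `d` after `q`. -/
lemma Chart.corner {c d : ℝ → ℂ} {p q : ℝ} (h : Chart c d p q) (hci : InjOn c (Icc 0 1))
    (hdi : InjOn d (Icc 0 1)) {U T : Set ℂ} (hU : U ∈ 𝓝 (c p)) {g : ℂ → ℂ}
    (hg : ContinuousOn g (U \ T)) (hg2 : ∀ z ∈ U \ T, g z ^ 2 = 1) {σ : ℝ} (hσ : σ = 1 ∨ σ = -1)
    (hT : ∀ z ∈ U ∩ T, (∃ t ∈ Icc (0 : ℝ) 1, z = c t ∧ 0 ≤ σ * (p - t)) ∨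
      (∃ t ∈ Icc (0 : ℝ) 1, z = d t ∧ q ≤ t)) :
    ∃ δ > 0, ∀ t, |t - p| < δ → 0 < σ * (t - p) → ∀ t' ∈ Ioo (q - δ) q, g (c t) = g (d t') := by
  obtain ⟨ρ, hρ, hρr, hball⟩ := h.exists_ball hU
  obtain ⟨δ₁, hδ₁, hφ1, hφ2⟩ := exists_preimage h.φ_cont h.φ_mono h.φ_zero hρ hρr
  obtain ⟨δ₂, hδ₂, -, hψ2⟩ := exists_preimage h.ψ_cont h.ψ_mono h.ψ_zero hρ hρr
  set Reg : Set ℂ := {w : ℂ | w ∈ Metric.ball (0 : ℂ) ρ ∧ (0 < σ * w.re ∨ w.im < 0)} with hReg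
  have hρball : Metric.ball (0 : ℂ) ρ ⊆ Metric.ball (0 : ℂ) h.r := Metric.ball_subset_ball hρr.le
  have hmaps : ∀ w ∈ Reg, h.k w ∈ U \ T := by
    rintro w ⟨hw, hwr⟩
    refine ⟨hball w hw, fun hwT => ?_⟩
    rcases hT _ ⟨hball w hw, hwT⟩ with ⟨t, ht, hz, hle⟩ | ⟨t, ht, hz, hle⟩
    · obtain ⟨him, hre, hφ⟩ := h.c_mem hci (hρball hw) ht hz
      rcases hwr with hwr | hwr
      · rcases hσ with rfl | rfl
        · have : h.φ 0 < h.φ w.re := h.φ_mono h.zero_mem hre (by linarith)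
          rw [h.φ_zero, hφ] at this
          linarith
        · have : h.φ w.re < h.φ 0 := h.φ_mono hre h.zero_mem (by linarith)
          rw [h.φ_zero, hφ] at this
          linarith
      · exact hwr.ne him
    · obtain ⟨hre, him, hψ⟩ := h.d_mem hdi (hρball hw) ht hz
      rcases hwr with hwr | hwr
      · rw [hre] at hwr
        simp at hwr
      · have : h.ψ w.im < h.ψ 0 := h.ψ_mono him h.zero_mem hwr
        rw [h.ψ_zero, hψ] at this
        linarith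
  have hpre : IsPreconnected (h.k '' Reg) :=
    (isPreconnected_region ρ hρ σ).image _ (h.cont.mono fun w hw => hρball hw.1)
  have hconst : ∀ x ∈ h.k '' Reg, ∀ y ∈ h.k '' Reg, g x = g y := by
    intro x hx y hy
    refine eq_of_sq_eq_one hpre (hg.mono ?_) ?_ hx hy
    · rintro _ ⟨w, hw, rfl⟩
      exact hmaps w hw
    · rintro _ ⟨w, hw, rfl⟩
      exact hg2 _ (hmaps w hw)
  refine ⟨min δ₁ δ₂, lt_min hδ₁ hδ₂, ?_⟩
  intro t ht hts t' ht'
  have htδ : |t - p| < δ₁ := ht.trans_le (min_le_left _ _)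
  rw [abs_lt] at htδ
  apply hconst
  · rcases hσ with rfl | rfl
    · obtain ⟨x, hx, hxt⟩ := hφ1 t ⟨by linarith, by linarith⟩
      have hx' : x ∈ Ioo (-h.r) h.r := ⟨by linarith [hx.1], by linarith [hx.2]⟩
      refine ⟨(x : ℂ), ⟨?_, Or.inl ?_⟩, ?_⟩
      · simp only [Metric.mem_ball, dist_zero_right, Complex.norm_real, Real.norm_eq_abs]
        rw [abs_lt]
        exact ⟨by linarith [hx.1], hx.2⟩
      · simp [hx.1]
      · rw [← h.c_eq x hx', hxt]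
    · obtain ⟨x, hx, hxt⟩ := hφ2 t ⟨by linarith, by linarith⟩
      have hx' : x ∈ Ioo (-h.r) h.r := ⟨by linarith [hx.1], by linarith [hx.2]⟩
      refine ⟨(x : ℂ), ⟨?_, Or.inl ?_⟩, ?_⟩
      · simp only [Metric.mem_ball, dist_zero_right, Complex.norm_real, Real.norm_eq_abs]
        rw [abs_lt]
        exact ⟨hx.1, by linarith [hx.2]⟩
      · simp [hx.2]
      · rw [← h.c_eq x hx', hxt]
  · obtain ⟨y, hy, hyt⟩ := hψ2 t' ⟨by linarith [ht'.1, min_le_right δ₁ δ₂], ht'.2⟩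
    have hy' : y ∈ Ioo (-h.r) h.r := ⟨by linarith [hy.1], by linarith [hy.2]⟩
    refine ⟨(y * Complex.I : ℂ), ⟨?_, Or.inr ?_⟩, ?_⟩
    · simp only [Metric.mem_ball, dist_zero_right, norm_mul, Complex.norm_real, Real.norm_eq_abs,
        Complex.norm_I, mul_one]
      rw [abs_lt]
      exact ⟨hy.1, by linarith [hy.2]⟩
    · simp [hy.2]
    · rw [← h.d_eq y hy', hyt]

/-- An arc `f` crossing the arc `e` exactly once, at `e p = f q`; we think of it as representing the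
half of `f` after `q`, which ends at `f 1`. -/
structure Half (e : ℝ → ℂ) where
  f : ℝ → ℂ
  p : ℝ
  q : ℝ
  chart : Chart e f p q
  cont : ContinuousOn f (Icc 0 1)
  inj : InjOn f (Icc 0 1)
  uniq : ∀ s ∈ Icc (0 : ℝ) 1, ∀ t ∈ Icc (0 : ℝ) 1, e s = f t → s = p ∧ t = q

/-- the points of the half -/
def Half.set {e : ℝ → ℂ} (H : Half e) : Set ℂ := H.f '' Icc H.q 1

/-- the chart reflected in the real axis -/
noncomputable def Chart.rev {c d : ℝ → ℂ} {p q : ℝ} (h : Chart c d p q) :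
    Chart c (fun t => d (1 - t)) p (1 - q) where
  k := fun w => h.k ((starRingEnd ℂ) w)
  r := h.r
  φ := h.φ
  ψ := fun y => 1 - h.ψ (-y)
  r_pos := h.r_pos
  cont := by
    refine h.cont.comp (Complex.continuous_conj.continuousOn) ?_
    intro w hw
    simpa using hw
  inj := by
    intro w hw w' hw' hww
    have := h.inj (by simpa using hw) (by simpa using hw') hww
    exact (starRingEnd ℂ).injective this
  φ_cont := h.φ_cont
  ψ_cont := by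
    refine continuousOn_const.sub (h.ψ_cont.comp continuous_neg.continuousOn ?_)
    intro y hy
    exact ⟨by linarith [hy.2], by linarith [hy.1]⟩
  φ_mono := h.φ_mono
  ψ_mono := by
    intro x hx y hy hxy
    have := h.ψ_mono (a := -y) (b := -x) ⟨by linarith [hy.2], by linarith [hy.1]⟩
      ⟨by linarith [hx.2], by linarith [hx.1]⟩ (by linarith)
    simp only
    linarith
  φ_mem := h.φ_mem
  ψ_mem := by
    intro x hx
    have := h.ψ_mem (-x) ⟨by linarith [hx.2], by linarith [hx.1]⟩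
    exact ⟨by linarith [this.2], by linarith [this.1]⟩
  φ_zero := h.φ_zero
  ψ_zero := by simp [h.ψ_zero]
  c_eq := by
    intro x hx
    rw [h.c_eq x hx]
    simp
  d_eq := by
    intro x hx
    have := h.d_eq (-x) ⟨by linarith [hx.2], by linarith [hx.1]⟩
    simp only [sub_sub_cancel]
    rw [this]
    simp
  c_im := by
    intro w hw hk
    have := h.c_im ((starRingEnd ℂ) w) (by simpa using hw) hk
    simpa using this
  d_re := by
    rintro w hw ⟨t, ht, htw⟩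
    have := h.d_re ((starRingEnd ℂ) w) (by simpa using hw)
      ⟨1 - t, ⟨by linarith [ht.2], by linarith [ht.1]⟩, htw⟩
    simpa using this

namespace Half

variable {e : ℝ → ℂ}

/-- the opposite half -/
noncomputable def rev (H : Half e) : Half e where
  f := fun t => H.f (1 - t)
  p := H.p
  q := 1 - H.q
  chart := H.chart.rev
  cont := H.cont.comp (continuous_const.sub continuous_id).continuousOn fun t ht =>
    ⟨by linarith [ht.2], by linarith [ht.1]⟩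
  inj := by
    intro x hx y hy hxy
    have := H.inj (x₁ := 1 - x) (x₂ := 1 - y) ⟨by linarith [hx.2], by linarith [hx.1]⟩
      ⟨by linarith [hy.2], by linarith [hy.1]⟩ hxy
    linarith
  uniq := by
    intro s hs t ht hst
    have := H.uniq s hs (1 - t) ⟨by linarith [ht.2], by linarith [ht.1]⟩ hst
    exact ⟨this.1, by linarith [this.2]⟩

@[simp] lemma rev_f (H : Half e) (t : ℝ) : H.rev.f t = H.f (1 - t) := rfl
@[simp] lemma rev_p (H : Half e) : H.rev.p = H.p := rfl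
@[simp] lemma rev_q (H : Half e) : H.rev.q = 1 - H.q := rfl

lemma e_p (H : Half e) : e H.p = H.f H.q := H.chart.c_p_eq

lemma p_mem (H : Half e) : H.p ∈ Ioo (0 : ℝ) 1 := H.chart.p_mem
lemma q_mem (H : Half e) : H.q ∈ Ioo (0 : ℝ) 1 := H.chart.q_mem
lemma p_mem' (H : Half e) : H.p ∈ Icc (0 : ℝ) 1 := Ioo_subset_Icc_self H.p_mem
lemma q_mem' (H : Half e) : H.q ∈ Icc (0 : ℝ) 1 := Ioo_subset_Icc_self H.q_mem

lemma Icc_sub (H : Half e) : Icc H.q 1 ⊆ Icc (0 : ℝ) 1 := Icc_subset_Icc H.q_mem.1.le le_rfl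

lemma mem_set_of (H : Half e) {t : ℝ} (ht : t ∈ Icc H.q 1) : H.f t ∈ H.set := mem_image_of_mem _ ht

lemma end_mem (H : Half e) : H.f 1 ∈ H.set := H.mem_set_of ⟨H.q_mem.2.le, le_rfl⟩

lemma start_mem (H : Half e) : e H.p ∈ H.set := H.e_p ▸ H.mem_set_of ⟨le_rfl, H.q_mem.2.le⟩

lemma isClosed_set (H : Half e) : IsClosed H.set :=
  (isCompact_Icc.image_of_continuousOn (H.cont.mono H.Icc_sub)).isClosed

lemma isPreconnected_set (H : Half e) : IsPreconnected H.set :=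
  isPreconnected_Icc.image _ (H.cont.mono H.Icc_sub)

/-- a point of `e` in a half -/
lemma e_mem_set (H : Half e) {s : ℝ} (hs : s ∈ Icc (0 : ℝ) 1) (h : e s ∈ H.set) : s = H.p := by
  obtain ⟨t, ht, hst⟩ := h
  exact (H.uniq s hs t (H.Icc_sub ht) hst.symm).1

/-- a point of the half on `e` -/
lemma f_mem_e (H : Half e) {t : ℝ} (ht : t ∈ Icc (0 : ℝ) 1) (h : H.f t ∈ e '' Icc 0 1) :
    t = H.q := by
  obtain ⟨s, hs, hst⟩ := h
  exact (H.uniq s hs t ht hst).2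

end Half

/-- Reference data for the sides of `e` along `e '' [α,β]`: a continuous square root of
`(e 1 - z) / (e 0 - z)` near `e '' [α,β]`. -/
structure Ref (e : ℝ → ℂ) (α β : ℝ) where
  M : ℂ → ℂ
  N : Set ℂ
  open_N : IsOpen N
  mem : ∀ t ∈ Icc α β, e t ∈ N
  cont : ContinuousOn M N
  sq : ∀ z ∈ N, M z ^ 2 * (e 0 - z) = e 1 - z
  ne_zero : ∀ z ∈ N, M z ≠ 0 ∧ z ≠ e 0 ∧ z ≠ e 1

/-- the half `H` is on the side `ε` of `e` -/
def Half.Lab {e : ℝ → ℂ} {α β : ℝ} (R : Ref e α β) (H : Half e) (ε : ℂ) : Prop :=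
  ∃ δ > 0, ∀ t ∈ Ioo H.q (H.q + δ), sg e 0 1 (H.f t) / R.M (H.f t) = ε

section labels

variable {e : ℝ → ℂ} (he : ContinuousOn e (Icc 0 1)) (hei : InjOn e (Icc 0 1)) {α β : ℝ}
  (R : Ref e α β)

include he in
/-- the reference sign is `± 1` off `e` -/
lemma Ref.sq_eq_one {z : ℂ} (hz : z ∈ R.N) (hze : z ∉ e '' Icc 0 1) :
    (sg e 0 1 z / R.M z) ^ 2 = 1 := by
  have h0 : ∀ x ∈ uIcc (0 : ℝ) 1, e x ≠ z := by
    intro x hx hxz
    rw [uIcc_of_le zero_le_one] at hx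
    exact hze ⟨x, hx, hxz⟩
  have h1 := sg_sq (by rw [uIcc_of_le zero_le_one]; exact he) h0
  have h2 := R.sq z hz
  obtain ⟨hM, hz0, hz1⟩ := R.ne_zero z hz
  have h3 : e 0 - z ≠ 0 := sub_ne_zero.2 hz0.symm
  rw [div_pow, div_eq_one_iff_eq (pow_ne_zero 2 hM)]
  exact mul_right_cancel₀ h3 (h1.trans h2.symm)

include he hei in
/-- the two sides of a crossing arc have opposite reference signs -/
lemma Ref.flip (H : Half e) (hp : H.p ∈ Icc α β) :
    ∃ δ > 0, ∀ t ∈ Ioo H.q (H.q + δ), ∀ t' ∈ Ioo (H.q - δ) H.q,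
      sg e 0 1 (H.f t) / R.M (H.f t) = -(sg e 0 1 (H.f t') / R.M (H.f t')) := by
  have := H.chart.flip he hei H.cont H.inj le_rfl H.p_mem.1 H.p_mem.2 le_rfl
    (Q := fun z => (R.M z)⁻¹) (R.open_N.mem_nhds (R.mem _ hp))
    (R.cont.inv₀ fun z hz => (R.ne_zero z hz).1) (fun z hz => by
      have h2 := R.sq z hz
      obtain ⟨hM, hz0, hz1⟩ := R.ne_zero z hz
      rw [← h2]
      field_simp)
  simpa only [div_eq_mul_inv] using this

include he hei in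
theorem Half.lab_or (H : Half e) (hp : H.p ∈ Icc α β) :
    (H.Lab R 1 ∧ H.rev.Lab R (-1)) ∨ (H.Lab R (-1) ∧ H.rev.Lab R 1) := by
  obtain ⟨δ, hδ, h⟩ := Ref.flip he hei R H hp
  -- a point just before `q`
  have hq := H.q_mem
  have hcont : ContinuousAt H.f H.q := H.cont.continuousAt (Icc_mem_nhds hq.1 hq.2)
  have hN : ∀ᶠ t in 𝓝 H.q, H.f t ∈ R.N :=
    hcont (R.open_N.mem_nhds (by rw [← H.e_p]; exact R.mem _ hp))
  obtain ⟨δ', hδ', hN'⟩ := Metric.eventually_nhds_iff.1 hN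
  set m : ℝ := min (min δ δ') (min H.q (1 - H.q)) with hm
  have hm0 : 0 < m := lt_min (lt_min hδ hδ') (lt_min hq.1 (by linarith [hq.2]))
  have hm1 : m ≤ δ := (min_le_left _ _).trans (min_le_left _ _)
  have hm2 : m ≤ δ' := (min_le_left _ _).trans (min_le_right _ _)
  have hm3 : m ≤ H.q := (min_le_right _ _).trans (min_le_left _ _)
  have hm4 : m ≤ 1 - H.q := (min_le_right _ _).trans (min_le_right _ _)
  have hv : ∀ t, |t - H.q| < m → t ≠ H.q →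
      (sg e 0 1 (H.f t) / R.M (H.f t) = 1 ∨ sg e 0 1 (H.f t) / R.M (H.f t) = -1) := by
    intro t ht htq
    have ht' := abs_lt.1 ht
    have htI : t ∈ Icc (0 : ℝ) 1 := ⟨by linarith, by linarith⟩
    have h1 : H.f t ∈ R.N := hN' (by rw [Real.dist_eq]; linarith)
    have h2 : H.f t ∉ e '' Icc 0 1 := fun h => htq (H.f_mem_e htI h)
    exact mul_self_eq_one_iff.1 (by rw [← pow_two]; exact R.sq_eq_one he h1 h2)
  have hA : ∀ t ∈ Ioo H.q (H.q + m), ∀ t' ∈ Ioo (H.q - m) H.q,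
      sg e 0 1 (H.f t) / R.M (H.f t) = -(sg e 0 1 (H.f t') / R.M (H.f t')) := fun t ht t' ht' =>
    h t ⟨ht.1, by linarith [ht.2]⟩ t' ⟨by linarith [ht'.1], ht'.2⟩
  set t₁ : ℝ := H.q + m / 2 with ht₁
  set t₂ : ℝ := H.q - m / 2 with ht₂
  have m1 : t₁ ∈ Ioo H.q (H.q + m) := ⟨by linarith, by linarith⟩
  have m2 : t₂ ∈ Ioo (H.q - m) H.q := ⟨by linarith, by linarith⟩
  have h12 := hA t₁ m1 t₂ m2
  have key : ∀ ε : ℂ, sg e 0 1 (H.f t₁) / R.M (H.f t₁) = ε → H.Lab R ε ∧ H.rev.Lab R (-ε) := by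
    intro ε hε
    refine ⟨⟨m, hm0, fun t ht => ?_⟩, ⟨m, hm0, fun t ht => ?_⟩⟩
    · rw [hA t ht t₂ m2, ← h12, hε]
    · have ht' : 1 - t ∈ Ioo (H.q - m) H.q := by
        have h1 : 1 - H.q < t := ht.1
        have h2 : t < 1 - H.q + m := ht.2
        exact ⟨by linarith, by linarith⟩
      have := hA t₁ m1 (1 - t) ht'
      change sg e 0 1 (H.f (1 - t)) / R.M (H.f (1 - t)) = -ε
      rw [← hε, this, neg_neg]
  rcases hv t₁ (by rw [ht₁]; simp only [add_sub_cancel_left]; rw [abs_of_pos (by linarith)]; linarith)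
    (by linarith) with h1 | h1
  · exact Or.inl (key 1 h1)
  · right
    have := key (-1) h1
    rwa [neg_neg] at this

include he hei in
lemma Half.Lab.before {H : Half e} {ε : ℂ} (hL : H.Lab R ε) (hp : H.p ∈ Icc α β) :
    ∃ δ > 0, ∀ t ∈ Ioo (H.q - δ) H.q, sg e 0 1 (H.f t) / R.M (H.f t) = -ε := by
  obtain ⟨δ, hδ, h⟩ := hL
  obtain ⟨δ', hδ', h'⟩ := Ref.flip he hei R H hp
  refine ⟨δ', hδ', fun t ht => ?_⟩
  have hm : 0 < min δ δ' := lt_min hδ hδ'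
  have h1 := h (H.q + min δ δ' / 2) ⟨by linarith, by linarith [min_le_left δ δ']⟩
  have h2 := h' (H.q + min δ δ' / 2) ⟨by linarith, by linarith [min_le_right δ δ']⟩ t ht
  rw [← h1, h2, neg_neg]

include he hei in
lemma Half.Lab.eq_or {H : Half e} {ε : ℂ} (hL : H.Lab R ε) (hp : H.p ∈ Icc α β) :
    ε = 1 ∨ ε = -1 := by
  have huniq : ∀ ε', H.Lab R ε' → ε = ε' := by
    rintro ε' ⟨δ', hδ', h'⟩
    obtain ⟨δ, hδ, h⟩ := hL
    have hm : 0 < min δ δ' := lt_min hδ hδ'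
    rw [← h (H.q + min δ δ' / 2) ⟨by linarith, by linarith [min_le_left δ δ']⟩,
      ← h' (H.q + min δ δ' / 2) ⟨by linarith, by linarith [min_le_right δ δ']⟩]
  rcases H.lab_or he hei R hp with h | h
  · exact Or.inl (huniq _ h.1)
  · exact Or.inr (huniq _ h.1)

end labels

section chord

variable {e : ℝ → ℂ}

lemma Half.uIcc_eq (H : Half e) : uIcc H.q 1 = Icc H.q 1 := uIcc_of_le H.q_mem.2.le

lemma Half.off {H : Half e} {z : ℂ} (hz : z ∉ H.set) : ∀ x ∈ uIcc H.q 1, H.f x ≠ z := by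
  intro x hx hxz
  rw [H.uIcc_eq] at hx
  exact hz ⟨x, hx, hxz⟩

lemma Half.cont' (H : Half e) : ContinuousOn H.f (uIcc H.q 1) := by
  rw [H.uIcc_eq]
  exact H.cont.mono H.Icc_sub

/-- the part of `e` between the two positions -/
def mid (e : ℝ → ℂ) (H₁ H₂ : Half e) : Set ℂ := e '' uIcc H₂.p H₁.p

/-- the support of the closed curve formed by the two halves and a part of `e` -/
def chS (H₁ H₂ : Half e) : Set ℂ := H₁.set ∪ H₂.set ∪ mid e H₁ H₂

/-- the sign function of the closed curve -/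
noncomputable def chX (H₁ H₂ : Half e) (z : ℂ) : ℂ :=
  sg H₁.f H₁.q 1 z / sg H₂.f H₂.q 1 z * sg e H₂.p H₁.p z

lemma mid_cont (he : ContinuousOn e (Icc 0 1)) (H₁ H₂ : Half e) :
    ContinuousOn e (uIcc H₂.p H₁.p) :=
  he.mono (uIcc_subset_Icc H₂.p_mem' H₁.p_mem')

lemma isClosed_chS (he : ContinuousOn e (Icc 0 1)) (H₁ H₂ : Half e) : IsClosed (chS H₁ H₂) := by
  refine (H₁.isClosed_set.union H₂.isClosed_set).union ?_
  exact (isCompact_uIcc.image_of_continuousOn (mid_cont he H₁ H₂)).isClosed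

lemma chX_sq (he : ContinuousOn e (Icc 0 1)) {H₁ H₂ : Half e} (h1 : H₁.f 1 = H₂.f 1) {z : ℂ}
    (hz : z ∉ chS H₁ H₂) : chX H₁ H₂ z ^ 2 = 1 := by
  have hz1 : z ∉ H₁.set := fun h => hz (Or.inl (Or.inl h))
  have hz2 : z ∉ H₂.set := fun h => hz (Or.inl (Or.inr h))
  have hz3 : z ∉ mid e H₁ H₂ := fun h => hz (Or.inr h)
  have a1 := sg_sq H₁.cont' (Half.off hz1)
  have a2 := sg_sq H₂.cont' (Half.off hz2)
  have a3 := sg_sq (mid_cont he H₁ H₂) (z := z) (fun x hx hxz => hz3 ⟨x, hx, hxz⟩)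
  have n2 := sg_ne_zero H₂.cont' (Half.off hz2)
  have z1 : H₁.f H₁.q - z ≠ 0 := by
    rw [← H₁.e_p]; exact sub_ne_zero.2 fun h => hz1 (h ▸ H₁.start_mem)
  have z2 : H₂.f H₂.q - z ≠ 0 := by
    rw [← H₂.e_p]; exact sub_ne_zero.2 fun h => hz2 (h ▸ H₂.start_mem)
  have z3 : H₂.f 1 - z ≠ 0 := sub_ne_zero.2 fun h => hz2 (h ▸ H₂.end_mem)
  rw [H₁.e_p, H₂.e_p] at a3
  rw [h1] at a1
  unfold chX
  have e1 : sg H₁.f H₁.q 1 z ^ 2 = (H₂.f 1 - z) / (H₁.f H₁.q - z) := by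
    rw [eq_div_iff z1, a1]
  have e2 : sg H₂.f H₂.q 1 z ^ 2 = (H₂.f 1 - z) / (H₂.f H₂.q - z) := by
    rw [eq_div_iff z2, a2]
  have e3 : sg e H₂.p H₁.p z ^ 2 = (H₁.f H₁.q - z) / (H₂.f H₂.q - z) := by
    rw [eq_div_iff z2, a3]
  rw [mul_pow, div_pow, e1, e2, e3]
  field_simp

lemma chX_cont (he : ContinuousOn e (Icc 0 1)) (H₁ H₂ : Half e) :
    ContinuousOn (chX H₁ H₂) (chS H₁ H₂)ᶜ := by
  unfold chX
  refine ContinuousOn.mul (ContinuousOn.div ?_ ?_ ?_) ?_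
  · refine (continuousOn_sg H₁.cont').mono ?_
    intro z hz hz'
    rw [H₁.uIcc_eq] at hz'
    exact hz (Or.inl (Or.inl hz'))
  · refine (continuousOn_sg H₂.cont').mono ?_
    intro z hz hz'
    rw [H₂.uIcc_eq] at hz'
    exact hz (Or.inl (Or.inr hz'))
  · intro z hz
    exact sg_ne_zero H₂.cont' (Half.off fun h => hz (Or.inl (Or.inr h)))
  · refine (continuousOn_sg (mid_cont he H₁ H₂)).mono ?_
    intro z hz hz'
    exact hz (Or.inr hz')

/-- the sign function is constant on preconnected sets off the curve -/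
lemma chX_const (he : ContinuousOn e (Icc 0 1)) {H₁ H₂ : Half e} (h1 : H₁.f 1 = H₂.f 1) {K : Set ℂ}
    (hK : IsPreconnected K) (hd : ∀ z ∈ K, z ∉ chS H₁ H₂) {x y : ℂ} (hx : x ∈ K) (hy : y ∈ K) :
    chX H₁ H₂ x = chX H₁ H₂ y :=
  eq_of_sq_eq_one hK ((chX_cont he H₁ H₂).mono hd) (fun z hz => chX_sq he h1 (hd z hz)) hx hy

/-- the support of the second closed curve -/
def chS2 (H₁ H₂ : Half e) : Set ℂ := H₁.set ∪ H₂.set ∪ (e '' Icc 0 H₁.p ∪ e '' Icc H₂.p 1)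

/-- the sign function of the second closed curve -/
noncomputable def chX2 {α β : ℝ} (R : Ref e α β) (H₁ H₂ : Half e) (z : ℂ) : ℂ :=
  sg H₁.f H₁.q 1 z / sg H₂.f H₂.q 1 z * (sg e 0 H₁.p z * sg e H₂.p 1 z) / R.M z

lemma chX2_sq (he : ContinuousOn e (Icc 0 1)) {α β : ℝ} (R : Ref e α β) {H₁ H₂ : Half e}
    (h1 : H₁.f 1 = H₂.f 1) {z : ℂ} (hzN : z ∈ R.N) (hz : z ∉ chS2 H₁ H₂) :
    chX2 R H₁ H₂ z ^ 2 = 1 := by
  have hz1 : z ∉ H₁.set := fun h => hz (Or.inl (Or.inl h))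
  have hz2 : z ∉ H₂.set := fun h => hz (Or.inl (Or.inr h))
  have hz3 : z ∉ e '' Icc 0 H₁.p := fun h => hz (Or.inr (Or.inl h))
  have hz4 : z ∉ e '' Icc H₂.p 1 := fun h => hz (Or.inr (Or.inr h))
  have i3 : uIcc 0 H₁.p = Icc 0 H₁.p := uIcc_of_le H₁.p_mem.1.le
  have i4 : uIcc H₂.p 1 = Icc H₂.p 1 := uIcc_of_le H₂.p_mem.2.le
  have c3 : ContinuousOn e (uIcc 0 H₁.p) := by
    rw [i3]; exact he.mono (Icc_subset_Icc le_rfl H₁.p_mem.2.le)
  have c4 : ContinuousOn e (uIcc H₂.p 1) := by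
    rw [i4]; exact he.mono (Icc_subset_Icc H₂.p_mem.1.le le_rfl)
  have a1 := sg_sq H₁.cont' (Half.off hz1)
  have a2 := sg_sq H₂.cont' (Half.off hz2)
  have a3 := sg_sq c3 (z := z) (fun x hx hxz => hz3 ⟨x, i3 ▸ hx, hxz⟩)
  have a4 := sg_sq c4 (z := z) (fun x hx hxz => hz4 ⟨x, i4 ▸ hx, hxz⟩)
  have a5 := R.sq z hzN
  obtain ⟨nM, n0, n1⟩ := R.ne_zero z hzN
  have z0 : e 0 - z ≠ 0 := sub_ne_zero.2 n0.symm
  have z1' : e 1 - z ≠ 0 := sub_ne_zero.2 n1.symm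
  have z1 : H₁.f H₁.q - z ≠ 0 := by
    rw [← H₁.e_p]; exact sub_ne_zero.2 fun h => hz1 (h ▸ H₁.start_mem)
  have z2 : H₂.f H₂.q - z ≠ 0 := by
    rw [← H₂.e_p]; exact sub_ne_zero.2 fun h => hz2 (h ▸ H₂.start_mem)
  have z3 : H₂.f 1 - z ≠ 0 := sub_ne_zero.2 fun h => hz2 (h ▸ H₂.end_mem)
  rw [H₁.e_p] at a3
  rw [H₂.e_p] at a4
  rw [h1] at a1
  unfold chX2
  have e1 : sg H₁.f H₁.q 1 z ^ 2 = (H₂.f 1 - z) / (H₁.f H₁.q - z) := by
    rw [eq_div_iff z1, a1]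
  have e2 : sg H₂.f H₂.q 1 z ^ 2 = (H₂.f 1 - z) / (H₂.f H₂.q - z) := by
    rw [eq_div_iff z2, a2]
  have e3 : sg e 0 H₁.p z ^ 2 = (H₁.f H₁.q - z) / (e 0 - z) := by
    rw [eq_div_iff z0, a3]
  have e4 : sg e H₂.p 1 z ^ 2 = (e 1 - z) / (H₂.f H₂.q - z) := by
    rw [eq_div_iff z2, a4]
  have e5 : R.M z ^ 2 = (e 1 - z) / (e 0 - z) := by
    rw [eq_div_iff z0, a5]
  rw [div_pow, mul_pow, div_pow, mul_pow, e1, e2, e3, e4, e5]
  field_simp

lemma chX2_cont (he : ContinuousOn e (Icc 0 1)) {α β : ℝ} (R : Ref e α β) (H₁ H₂ : Half e) :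
    ContinuousOn (chX2 R H₁ H₂) (R.N \ chS2 H₁ H₂) := by
  have i3 : uIcc 0 H₁.p = Icc 0 H₁.p := uIcc_of_le H₁.p_mem.1.le
  have i4 : uIcc H₂.p 1 = Icc H₂.p 1 := uIcc_of_le H₂.p_mem.2.le
  have c3 : ContinuousOn e (uIcc 0 H₁.p) := by
    rw [i3]; exact he.mono (Icc_subset_Icc le_rfl H₁.p_mem.2.le)
  have c4 : ContinuousOn e (uIcc H₂.p 1) := by
    rw [i4]; exact he.mono (Icc_subset_Icc H₂.p_mem.1.le le_rfl)
  unfold chX2
  refine ContinuousOn.div (ContinuousOn.mul (ContinuousOn.div ?_ ?_ ?_) (ContinuousOn.mul ?_ ?_))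
    ?_ ?_
  · refine (continuousOn_sg H₁.cont').mono ?_
    intro z hz hz'
    rw [H₁.uIcc_eq] at hz'
    exact hz.2 (Or.inl (Or.inl hz'))
  · refine (continuousOn_sg H₂.cont').mono ?_
    intro z hz hz'
    rw [H₂.uIcc_eq] at hz'
    exact hz.2 (Or.inl (Or.inr hz'))
  · intro z hz
    exact sg_ne_zero H₂.cont' (Half.off fun h => hz.2 (Or.inl (Or.inr h)))
  · refine (continuousOn_sg c3).mono ?_
    intro z hz hz'
    rw [i3] at hz'
    exact hz.2 (Or.inr (Or.inl hz'))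
  · refine (continuousOn_sg c4).mono ?_
    intro z hz hz'
    rw [i4] at hz'
    exact hz.2 (Or.inr (Or.inr hz'))
  · exact R.cont.mono fun z hz => hz.1
  · intro z hz
    exact (R.ne_zero z hz.1).1

lemma chX2_const (he : ContinuousOn e (Icc 0 1)) {α β : ℝ} (R : Ref e α β) {H₁ H₂ : Half e}
    (h1 : H₁.f 1 = H₂.f 1) {K : Set ℂ} (hK : IsPreconnected K)
    (hd : ∀ z ∈ K, z ∈ R.N ∧ z ∉ chS2 H₁ H₂) {x y : ℂ} (hx : x ∈ K) (hy : y ∈ K) :
    chX2 R H₁ H₂ x = chX2 R H₁ H₂ y :=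
  eq_of_sq_eq_one hK ((chX2_cont he R H₁ H₂).mono hd)
    (fun z hz => chX2_sq he R h1 (hd z hz).1 (hd z hz).2) hx hy

/-- the relation between the three closed curves -/
lemma chX2_eq (he : ContinuousOn e (Icc 0 1)) {α β : ℝ} (R : Ref e α β) (H₁ H₂ : Half e)
    {z : ℂ} (hze : z ∉ e '' Icc 0 1) :
    chX2 R H₁ H₂ z = sg e 0 1 z / R.M z * chX H₁ H₂ z := by
  have h0 : ∀ x ∈ Icc (0 : ℝ) 1, e x ≠ z := fun x hx hxz => hze ⟨x, hx, hxz⟩
  have m0 : (0 : ℝ) ∈ Icc (0 : ℝ) 1 := ⟨le_rfl, zero_le_one⟩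
  have m1 : (1 : ℝ) ∈ Icc (0 : ℝ) 1 := ⟨zero_le_one, le_rfl⟩
  have s1 := sg_mul he h0 m0 H₁.p_mem' H₂.p_mem'
  have s2 := sg_mul he h0 m0 H₂.p_mem' m1
  have s3 := sg_mul he h0 H₁.p_mem' H₂.p_mem' H₁.p_mem'
  have s4 := sg_self e H₁.p z (h0 _ H₁.p_mem')
  unfold chX2 chX
  rw [← s2, ← s1]
  have : sg e 0 H₁.p z * sg e H₁.p H₂.p z * sg e H₂.p 1 z * sg e H₂.p H₁.p z =
      sg e 0 H₁.p z * sg e H₂.p 1 z := by
    calc _ = sg e 0 H₁.p z * sg e H₂.p 1 z * (sg e H₁.p H₂.p z * sg e H₂.p H₁.p z) := by ring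
      _ = _ := by rw [s3, s4, mul_one]
  rw [← this]
  ring

end chord

section chord_lemma

variable {e : ℝ → ℂ}

/-- points of `f` close to `q` lie in a given neighbourhood -/
lemma Half.near (H : Half e) {U : Set ℂ} (hU : U ∈ 𝓝 (e H.p)) :
    ∃ δ > 0, ∀ t, |t - H.q| < δ → t ∈ Icc (0 : ℝ) 1 ∧ H.f t ∈ U := by
  have hq := H.q_mem
  have hcont : ContinuousAt H.f H.q := H.cont.continuousAt (Icc_mem_nhds hq.1 hq.2)
  have h0 : ∀ᶠ t in 𝓝 H.q, t ∈ Icc (0 : ℝ) 1 := Icc_mem_nhds hq.1 hq.2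
  have h1 : ∀ᶠ t in 𝓝 H.q, t ∈ Icc (0 : ℝ) 1 ∧ H.f t ∈ U :=
    h0.and (hcont (by rw [← H.e_p]; exact hU))
  obtain ⟨δ, hδ, h⟩ := Metric.eventually_nhds_iff.1 h1
  exact ⟨δ, hδ, fun t ht => h (by rwa [Real.dist_eq])⟩

/-- **Chord lemma.** -/
theorem chord (he : ContinuousOn e (Icc 0 1)) (hei : InjOn e (Icc 0 1)) {α β : ℝ}
    (R : Ref e α β) {ε : ℂ} (H₁ H₂ : Half e) (p₁ : H₁.p ∈ Icc α β) (p₂ : H₂.p ∈ Icc α β)
    (hlt : H₁.p < H₂.p) (l₁ : H₁.Lab R ε) (l₂ : H₂.Lab R ε) (h1 : H₁.f 1 = H₂.f 1) :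
    ∃ θ : ℂ, (θ = 1 ∨ θ = -1) ∧
      (∀ t ∈ Icc (0 : ℝ) 1, (t < H₁.p ∨ H₂.p < t) → chX H₁ H₂ (e t) = θ) ∧
      ∀ H : Half e, H.Lab R ε → H₁.p < H.p → H.p < H₂.p → Disjoint H.set H₁.set →
        Disjoint H.set H₂.set → ∀ t ∈ Ioc H.q 1, chX H₁ H₂ (H.f t) = -θ := by
  have hε : ε = 1 ∨ ε = -1 := l₁.eq_or he hei R p₁
  have hε2 : ε * ε = 1 := by rcases hε with rfl | rfl <;> norm_num
  have hmid : mid e H₁ H₂ = e '' Icc H₁.p H₂.p := by
    unfold mid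
    rw [uIcc_comm, uIcc_of_le hlt.le]
  have P1 := H₁.p_mem
  have P2 := H₂.p_mem
  -- `e p₁` is not on `H₂` and conversely
  have n12 : e H₁.p ∉ H₂.set := fun h => hlt.ne (H₂.e_mem_set H₁.p_mem' h)
  have n21 : e H₂.p ∉ H₁.set := fun h => hlt.ne' (H₁.e_mem_set H₂.p_mem' h)
  -- images of `e` near the other crossing points
  have cl1 : IsClosed (e '' Icc H₂.p 1) :=
    (isCompact_Icc.image_of_continuousOn (he.mono (Icc_subset_Icc P2.1.le le_rfl))).isClosed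
  have cl2 : IsClosed (e '' Icc 0 H₁.p) :=
    (isCompact_Icc.image_of_continuousOn (he.mono (Icc_subset_Icc le_rfl P1.2.le))).isClosed
  -- neighbourhoods
  have U1 : R.N ∩ (H₂.set)ᶜ ∩ (e '' Icc H₂.p 1)ᶜ ∈ 𝓝 (e H₁.p) := by
    refine inter_mem (inter_mem (R.open_N.mem_nhds (R.mem _ p₁))
      (H₂.isClosed_set.isOpen_compl.mem_nhds n12)) (cl1.isOpen_compl.mem_nhds ?_)
    rintro ⟨t, ht, hte⟩
    have := hei (Icc_subset_Icc P2.1.le le_rfl ht) H₁.p_mem' hte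
    linarith [ht.1]
  have U2 : R.N ∩ (H₁.set)ᶜ ∩ (e '' Icc 0 H₁.p)ᶜ ∈ 𝓝 (e H₂.p) := by
    refine inter_mem (inter_mem (R.open_N.mem_nhds (R.mem _ p₂))
      (H₁.isClosed_set.isOpen_compl.mem_nhds n21)) (cl2.isOpen_compl.mem_nhds ?_)
    rintro ⟨t, ht, hte⟩
    have := hei (Icc_subset_Icc le_rfl P1.2.le ht) H₂.p_mem' hte
    linarith [ht.2]
  -- corner 1 for `X`
  obtain ⟨δ₁, hδ₁, c1⟩ := H₁.chart.corner hei H₁.inj (T := chS H₁ H₂) (g := chX H₁ H₂) U1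
    ((chX_cont he H₁ H₂).mono fun z hz => hz.2) (fun z hz => chX_sq he h1 hz.2)
    (σ := -1) (Or.inr rfl) (by
      rintro z ⟨⟨⟨_, hz2⟩, _⟩, hzT⟩
      rcases hzT with (hzT | hzT) | hzT
      · obtain ⟨t, ht, rfl⟩ := hzT
        exact Or.inr ⟨t, H₁.Icc_sub ht, rfl, ht.1⟩
      · exact absurd hzT hz2
      · rw [hmid] at hzT
        obtain ⟨t, ht, rfl⟩ := hzT
        exact Or.inl ⟨t, ⟨P1.1.le.trans ht.1, ht.2.trans P2.2.le⟩, rfl, by linarith [ht.1]⟩)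
  -- corner 1 for `X2`
  obtain ⟨δ₂, hδ₂, c2⟩ := H₁.chart.corner hei H₁.inj (T := chS2 H₁ H₂) (g := chX2 R H₁ H₂) U1
    ((chX2_cont he R H₁ H₂).mono fun z hz => ⟨hz.1.1.1, hz.2⟩)
    (fun z hz => chX2_sq he R h1 hz.1.1.1 hz.2)
    (σ := 1) (Or.inl rfl) (by
      rintro z ⟨⟨⟨_, hz2⟩, hz3⟩, hzT⟩
      rcases hzT with (hzT | hzT) | (hzT | hzT)
      · obtain ⟨t, ht, rfl⟩ := hzT
        exact Or.inr ⟨t, H₁.Icc_sub ht, rfl, ht.1⟩
      · exact absurd hzT hz2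
      · obtain ⟨t, ht, rfl⟩ := hzT
        exact Or.inl ⟨t, ⟨ht.1, ht.2.trans P1.2.le⟩, rfl, by linarith [ht.2]⟩
      · exact absurd hzT hz3)
  -- corner 2 for `X`
  obtain ⟨δ₃, hδ₃, c3⟩ := H₂.chart.corner hei H₂.inj (T := chS H₁ H₂) (g := chX H₁ H₂) U2
    ((chX_cont he H₁ H₂).mono fun z hz => hz.2) (fun z hz => chX_sq he h1 hz.2)
    (σ := 1) (Or.inl rfl) (by
      rintro z ⟨⟨⟨_, hz2⟩, _⟩, hzT⟩
      rcases hzT with (hzT | hzT) | hzT
      · exact absurd hzT hz2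
      · obtain ⟨t, ht, rfl⟩ := hzT
        exact Or.inr ⟨t, H₂.Icc_sub ht, rfl, ht.1⟩
      · rw [hmid] at hzT
        obtain ⟨t, ht, rfl⟩ := hzT
        exact Or.inl ⟨t, ⟨P1.1.le.trans ht.1, ht.2.trans P2.2.le⟩, rfl, by linarith [ht.2]⟩)
  -- corner 2 for `X2`
  obtain ⟨δ₄, hδ₄, c4⟩ := H₂.chart.corner hei H₂.inj (T := chS2 H₁ H₂) (g := chX2 R H₁ H₂) U2
    ((chX2_cont he R H₁ H₂).mono fun z hz => ⟨hz.1.1.1, hz.2⟩)
    (fun z hz => chX2_sq he R h1 hz.1.1.1 hz.2)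
    (σ := -1) (Or.inr rfl) (by
      rintro z ⟨⟨⟨_, hz2⟩, hz3⟩, hzT⟩
      rcases hzT with (hzT | hzT) | (hzT | hzT)
      · exact absurd hzT hz2
      · obtain ⟨t, ht, rfl⟩ := hzT
        exact Or.inr ⟨t, H₂.Icc_sub ht, rfl, ht.1⟩
      · exact absurd hzT hz3
      · obtain ⟨t, ht, rfl⟩ := hzT
        exact Or.inl ⟨t, ⟨P2.1.le.trans ht.1, ht.2⟩, rfl, by linarith [ht.1]⟩)
  -- the reference sign before the crossings
  obtain ⟨δ₅, hδ₅, b1⟩ := l₁.before he hei R p₁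
  obtain ⟨δ₆, hδ₆, b2⟩ := l₂.before he hei R p₂
  obtain ⟨δ₇, hδ₇, nr1⟩ := H₁.near (R.open_N.mem_nhds (R.mem _ p₁))
  obtain ⟨δ₈, hδ₈, nr2⟩ := H₂.near (R.open_N.mem_nhds (R.mem _ p₂))
  -- a common small number
  obtain ⟨m, hm, m1, m2, m3, m4, m5, m6, m7, m8, m9, m10, m11⟩ : ∃ m > 0, m < δ₁ ∧ m < δ₂ ∧ m < δ₃ ∧
      m < δ₄ ∧ m < δ₅ ∧ m < δ₆ ∧ m < δ₇ ∧ m < δ₈ ∧ m < H₁.p ∧ m < 1 - H₂.p ∧
      m < (H₂.p - H₁.p) := by
    have hev : ∀ᶠ m in 𝓝[>] (0 : ℝ), m < δ₁ ∧ m < δ₂ ∧ m < δ₃ ∧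
      m < δ₄ ∧ m < δ₅ ∧ m < δ₆ ∧ m < δ₇ ∧ m < δ₈ ∧ m < H₁.p ∧ m < 1 - H₂.p ∧
      m < (H₂.p - H₁.p) := by
      have aux : ∀ {x : ℝ}, 0 < x → ∀ᶠ m in 𝓝[>] (0 : ℝ), m < x := fun {x} hx =>
        nhdsWithin_le_nhds (Iio_mem_nhds hx)
      exact (aux hδ₁).and ((aux hδ₂).and ((aux hδ₃).and ((aux hδ₄).and ((aux hδ₅).and
        ((aux hδ₆).and ((aux hδ₇).and ((aux hδ₈).and ((aux P1.1).and
        ((aux (by linarith [P2.2])).and (aux (by linarith)))))))))))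
    obtain ⟨m, hm, hm0⟩ := (hev.and self_mem_nhdsWithin).exists
    exact ⟨m, hm0, hm⟩
  -- the sample points
  have q1 : H₁.q - m ∈ Ioo (H₁.q - δ₁) H₁.q := ⟨by linarith, by linarith⟩
  have L1 : chX H₁ H₂ (e (H₁.p - m)) = chX H₁ H₂ (H₁.f (H₁.q - m)) :=
    c1 (H₁.p - m) (by rw [sub_sub_cancel_left, abs_neg, abs_of_pos hm]; exact m1) (by linarith)
      _ ⟨by linarith, by linarith⟩
  have L2 : chX2 R H₁ H₂ (e (H₁.p + m)) = chX2 R H₁ H₂ (H₁.f (H₁.q - m)) :=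
    c2 (H₁.p + m) (by rw [add_sub_cancel_left, abs_of_pos hm]; exact m2) (by linarith)
      _ ⟨by linarith, by linarith⟩
  have L3 : chX H₁ H₂ (e (H₂.p + m)) = chX H₁ H₂ (H₂.f (H₂.q - m)) :=
    c3 (H₂.p + m) (by rw [add_sub_cancel_left, abs_of_pos hm]; exact m3) (by linarith)
      _ ⟨by linarith, by linarith⟩
  have L4 : chX2 R H₁ H₂ (e (H₂.p - m)) = chX2 R H₁ H₂ (H₂.f (H₂.q - m)) :=
    c4 (H₂.p - m) (by rw [sub_sub_cancel_left, abs_neg, abs_of_pos hm]; exact m4) (by linarith)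
      _ ⟨by linarith, by linarith⟩
  have L5 := b1 (H₁.q - m) ⟨by linarith, by linarith⟩
  have L6 := b2 (H₂.q - m) ⟨by linarith, by linarith⟩
  have ne1 : H₁.f (H₁.q - m) ∉ e '' Icc 0 1 := fun h => by
    have := H₁.f_mem_e (nr1 _ (by rw [sub_sub_cancel_left, abs_neg, abs_of_pos hm]; exact m7)).1 h
    linarith
  have ne2 : H₂.f (H₂.q - m) ∉ e '' Icc 0 1 := fun h => by
    have := H₂.f_mem_e (nr2 _ (by rw [sub_sub_cancel_left, abs_neg, abs_of_pos hm]; exact m8)).1 h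
    linarith
  have L7 := chX2_eq he R H₁ H₂ ne1
  have L8 := chX2_eq he R H₁ H₂ ne2
  -- `X2` is constant along `e` between the crossings
  have hX2mid : ∀ x ∈ Ioo H₁.p H₂.p, ∀ y ∈ Ioo H₁.p H₂.p,
      chX2 R H₁ H₂ (e x) = chX2 R H₁ H₂ (e y) := by
    intro x hx y hy
    have hsub : Ioo H₁.p H₂.p ⊆ Icc 0 1 := fun t ht => ⟨by linarith [ht.1, P1.1], by
      linarith [ht.2, P2.2]⟩
    refine chX2_const he R h1 (K := e '' Ioo H₁.p H₂.p)
      (isPreconnected_Ioo.image _ (he.mono hsub)) ?_ (mem_image_of_mem _ hx) (mem_image_of_mem _ hy)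
    rintro _ ⟨t, ht, rfl⟩
    refine ⟨R.mem _ ⟨p₁.1.trans ht.1.le, ht.2.le.trans p₂.2⟩, ?_⟩
    rintro ((h | h) | (⟨u, hu, h⟩ | ⟨u, hu, h⟩))
    · exact ht.1.ne' (H₁.e_mem_set (hsub ht) h)
    · exact ht.2.ne (H₂.e_mem_set (hsub ht) h)
    · have := hei ⟨hu.1, hu.2.trans P1.2.le⟩ (hsub ht) h
      linarith [hu.2, ht.1]
    · have := hei ⟨P2.1.le.trans hu.1, hu.2⟩ (hsub ht) h
      linarith [hu.1, ht.2]
  -- `X` is constant along `e` before and after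
  have hXbefore : ∀ x ∈ Ico 0 H₁.p, ∀ y ∈ Ico 0 H₁.p, chX H₁ H₂ (e x) = chX H₁ H₂ (e y) := by
    intro x hx y hy
    have hsub : Ico 0 H₁.p ⊆ Icc 0 1 := fun t ht => ⟨ht.1, by linarith [ht.2, P1.2]⟩
    refine chX_const he h1 (K := e '' Ico 0 H₁.p)
      (isPreconnected_Ico.image _ (he.mono hsub)) ?_ (mem_image_of_mem _ hx) (mem_image_of_mem _ hy)
    rintro _ ⟨t, ht, rfl⟩
    rintro ((h | h) | h)
    · exact ht.2.ne (H₁.e_mem_set (hsub ht) h)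
    · exact (ht.2.trans hlt).ne (H₂.e_mem_set (hsub ht) h)
    · rw [hmid] at h
      obtain ⟨u, hu, h⟩ := h
      have := hei ⟨P1.1.le.trans hu.1, hu.2.trans P2.2.le⟩ (hsub ht) h
      linarith [hu.1, ht.2]
  have hXafter : ∀ x ∈ Ioc H₂.p 1, ∀ y ∈ Ioc H₂.p 1, chX H₁ H₂ (e x) = chX H₁ H₂ (e y) := by
    intro x hx y hy
    have hsub : Ioc H₂.p 1 ⊆ Icc 0 1 := fun t ht => ⟨by linarith [ht.1, P2.1], ht.2⟩
    refine chX_const he h1 (K := e '' Ioc H₂.p 1)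
      (isPreconnected_Ioc.image _ (he.mono hsub)) ?_ (mem_image_of_mem _ hx) (mem_image_of_mem _ hy)
    rintro _ ⟨t, ht, rfl⟩
    rintro ((h | h) | h)
    · exact (hlt.trans ht.1).ne' (H₁.e_mem_set (hsub ht) h)
    · exact ht.1.ne' (H₂.e_mem_set (hsub ht) h)
    · rw [hmid] at h
      obtain ⟨u, hu, h⟩ := h
      have := hei ⟨P1.1.le.trans hu.1, hu.2.trans P2.2.le⟩ (hsub ht) h
      linarith [hu.2, ht.1]
  -- combination
  have hmid1 : H₁.p + m ∈ Ioo H₁.p H₂.p := ⟨by linarith, by linarith⟩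
  have hmid2 : H₂.p - m ∈ Ioo H₁.p H₂.p := ⟨by linarith, by linarith⟩
  set θ : ℂ := chX H₁ H₂ (e (H₁.p - m)) with hθ
  have hX2val : ∀ x ∈ Ioo H₁.p H₂.p, chX2 R H₁ H₂ (e x) = -ε * θ := by
    intro x hx
    rw [hX2mid x hx _ hmid1, L2, L7, L5, ← L1]
  have hafter : chX H₁ H₂ (e (H₂.p + m)) = θ := by
    have h5 : chX2 R H₁ H₂ (e (H₂.p - m)) = -ε * chX H₁ H₂ (e (H₂.p + m)) := by
      rw [L4, L8, L6, ← L3]
    rw [hX2val _ hmid2] at h5
    have : (-ε) ≠ 0 := by rcases hε with rfl | rfl <;> norm_num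
    exact (mul_left_cancel₀ this h5).symm
  have hθ1 : θ = 1 ∨ θ = -1 := by
    refine mul_self_eq_one_iff.1 ?_
    rw [← pow_two]
    refine chX_sq he h1 ?_
    have hmI : H₁.p - m ∈ Icc (0 : ℝ) 1 := ⟨by linarith, by linarith [P1.2]⟩
    rintro ((h | h) | h)
    · have := H₁.e_mem_set hmI h
      linarith
    · have := H₂.e_mem_set hmI h
      linarith
    · rw [hmid] at h
      obtain ⟨u, hu, h⟩ := h
      have := hei ⟨P1.1.le.trans hu.1, hu.2.trans P2.2.le⟩ hmI h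
      linarith [hu.1]
  refine ⟨θ, hθ1, ?_, ?_⟩
  · rintro t ht (h | h)
    · exact hXbefore t ⟨ht.1, h⟩ _ ⟨by linarith, by linarith⟩
    · rw [← hafter]
      exact hXafter t ⟨h, ht.2⟩ _ ⟨by linarith, by linarith⟩
  · intro H hL hp1 hp2 hd1 hd2 t ht
    have hpI : H.p ∈ Icc α β := ⟨p₁.1.trans hp1.le, hp2.le.trans p₂.2⟩
    have P := H.p_mem
    -- near the crossing `X2` is constant
    have nT : e H.p ∉ chS2 H₁ H₂ := by
      rintro ((h | h) | (⟨u, hu, h⟩ | ⟨u, hu, h⟩))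
      · exact hp1.ne' (H₁.e_mem_set H.p_mem' h)
      · exact hp2.ne (H₂.e_mem_set H.p_mem' h)
      · have := hei ⟨hu.1, hu.2.trans P1.2.le⟩ H.p_mem' h
        linarith [hu.2]
      · have := hei ⟨P2.1.le.trans hu.1, hu.2⟩ H.p_mem' h
        linarith [hu.1]
    have clT : IsClosed (chS2 H₁ H₂) :=
      (H₁.isClosed_set.union H₂.isClosed_set).union (cl2.union cl1)
    obtain ⟨η₁, hη₁, nr⟩ := H.near (U := R.N ∩ (chS2 H₁ H₂)ᶜ)
      (inter_mem (R.open_N.mem_nhds (R.mem _ hpI)) (clT.isOpen_compl.mem_nhds nT))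
    obtain ⟨η₂, hη₂, lab⟩ := hL
    obtain ⟨μ, hμ, hμ1, hμ2, hμ3⟩ : ∃ μ > 0, μ < η₁ ∧ μ < η₂ ∧ μ < 1 - H.q := by
      have hq := H.q_mem
      have aux : ∀ {x : ℝ}, 0 < x → ∀ᶠ m in 𝓝[>] (0 : ℝ), m < x := fun {x} hx =>
        nhdsWithin_le_nhds (Iio_mem_nhds hx)
      obtain ⟨μ, hμ, hμ0⟩ := (((aux hη₁).and ((aux hη₂).and (aux (by linarith [hq.2] :
        0 < 1 - H.q)))).and self_mem_nhdsWithin).exists
      exact ⟨μ, hμ0, hμ⟩
    have v1 : chX2 R H₁ H₂ (H.f (H.q + μ)) = chX2 R H₁ H₂ (e H.p) := by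
      have hsub : Icc H.q (H.q + μ) ⊆ Icc 0 1 := fun x hx => ⟨H.q_mem.1.le.trans hx.1, by
        linarith [hx.2]⟩
      refine chX2_const he R h1 (K := H.f '' Icc H.q (H.q + μ))
        (isPreconnected_Icc.image _ (H.cont.mono hsub)) ?_
        (mem_image_of_mem _ ⟨by linarith, le_rfl⟩) ?_
      · rintro _ ⟨x, hx, rfl⟩
        have := (nr x (by rw [abs_of_nonneg (by linarith [hx.1])]; linarith [hx.2])).2
        exact ⟨this.1, this.2⟩
      · rw [H.e_p]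
        exact mem_image_of_mem _ ⟨le_rfl, by linarith⟩
    have hqμ : H.q + μ ∈ Icc (0 : ℝ) 1 := ⟨by linarith [H.q_mem.1], by linarith⟩
    have v2 : H.f (H.q + μ) ∉ e '' Icc 0 1 := fun h => by
      have := H.f_mem_e hqμ h
      linarith
    have v3 := chX2_eq he R H₁ H₂ v2
    rw [lab (H.q + μ) ⟨by linarith, by linarith⟩, v1, hX2val _ ⟨hp1, hp2⟩] at v3
    have v4 : chX H₁ H₂ (H.f (H.q + μ)) = -θ := by
      have : ε ≠ 0 := by rcases hε with rfl | rfl <;> norm_num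
      refine mul_left_cancel₀ this ?_
      rw [← v3]
      ring
    rw [← v4]
    have hsub : Ioc H.q 1 ⊆ Icc 0 1 := fun x hx => ⟨H.q_mem.1.le.trans hx.1.le, hx.2⟩
    refine chX_const he h1 (K := H.f '' Ioc H.q 1)
      (isPreconnected_Ioc.image _ (H.cont.mono hsub)) ?_
      (mem_image_of_mem _ ht) (mem_image_of_mem _ ⟨by linarith, hqμ.2⟩)
    rintro _ ⟨x, hx, rfl⟩
    have hxs : H.f x ∈ H.set := H.mem_set_of ⟨hx.1.le, hx.2⟩
    rintro ((h | h) | h)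
    · exact Set.disjoint_left.1 hd1 hxs h
    · exact Set.disjoint_left.1 hd2 hxs h
    · rw [hmid] at h
      obtain ⟨u, hu, h⟩ := h
      have := (H.uniq u ⟨P1.1.le.trans hu.1, hu.2.trans P2.2.le⟩ x (hsub hx) h).2
      exact hx.1.ne' this

end chord_lemma

/-- (F1), without superfluous hypotheses -/
theorem side_F1' {e : ℝ → ℂ} (he : ContinuousOn e (Icc 0 1)) (hei : InjOn e (Icc 0 1)) {α β : ℝ}
    (R : Ref e α β) {ε : ℂ} (Hx Hx' H₁ H₂ : Half e)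
    (px : Hx.p ∈ Icc α β) (px' : Hx'.p ∈ Icc α β)
    (lx : Hx.Lab R ε) (lx' : Hx'.Lab R ε) (l₁ : H₁.Lab R ε)
    (e₁ : Hx.f 1 = Hx'.f 1) (e₂ : H₁.f 1 = H₂.f 1)
    (d₁ : Disjoint H₁.set Hx.set) (d₁' : Disjoint H₁.set Hx'.set)
    (d₂ : Disjoint H₂.set Hx.set) (d₂' : Disjoint H₂.set Hx'.set)
    (h₁ : Hx.p < H₁.p) (h₂ : H₁.p < Hx'.p) (h₃ : H₂.p < Hx.p ∨ Hx'.p < H₂.p) : False := by
  obtain ⟨θ, hθ, A1, A2⟩ := chord he hei R Hx Hx' px px' (h₁.trans h₂) lx lx' e₁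
  have v1 := A2 H₁ l₁ h₁ h₂ d₁ d₁' 1 ⟨H₁.q_mem.2, le_rfl⟩
  have v2 := A1 H₂.p H₂.p_mem' h₃
  have v3 : chX Hx Hx' (H₂.f 1) = chX Hx Hx' (e H₂.p) := by
    refine chX_const he e₁ H₂.isPreconnected_set ?_ H₂.end_mem H₂.start_mem
    rintro z hz ((h | h) | h)
    · exact Set.disjoint_left.1 d₂ hz h
    · exact Set.disjoint_left.1 d₂' hz h
    · unfold mid at h
      rw [uIcc_comm, uIcc_of_le (h₁.trans h₂).le] at h
      obtain ⟨u, hu, h⟩ := h
      obtain ⟨t, ht, htz⟩ := hz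
      have := (H₂.uniq u ⟨Hx.p_mem.1.le.trans hu.1, hu.2.trans Hx'.p_mem.2.le⟩ t (H₂.Icc_sub ht)
        (h.trans htz.symm)).1
      rcases h₃ with h₃ | h₃
      · linarith [hu.1]
      · linarith [hu.2]
  rw [e₂, v3, v2] at v1
  rcases hθ with rfl | rfl <;> norm_num at v1

/-- The crossing of `Hy` with the chord `{Ho, Hx}` is impossible (auxiliary for (T)): the sign of
the chord at `e Hi.p` and `e Hy.p` would be different. -/
lemma side_T_aux {e : ℝ → ℂ} (he : ContinuousOn e (Icc 0 1)) (Ho Hx Hi Hy : Half e)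
    (e₁ : Ho.f 1 = Hx.f 1) (e₂ : Hi.f 1 = Hy.f 1)
    (doi : Disjoint Ho.set Hi.set) (doy : Disjoint Ho.set Hy.set) (dxi : Disjoint Hx.set Hi.set)
    {τ τ' : ℝ} (ch : Chart Hx.f Hy.f τ τ')
    (hu : ∀ s ∈ Icc (0 : ℝ) 1, ∀ t ∈ Icc (0 : ℝ) 1, Hx.f s = Hy.f t → s = τ ∧ t = τ')
    (hτ : Hx.q < τ) (hτ' : Hy.q < τ')
    (hi : Hi.p ∉ uIcc Hx.p Ho.p) (hy : Hy.p ∉ uIcc Hx.p Ho.p) :
    chX Ho Hx (e Hi.p) = -chX Ho Hx (e Hy.p) := by
  have hτI := ch.p_mem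
  have hτI' := ch.q_mem
  have hmidI : uIcc Hx.p Ho.p ⊆ Icc 0 1 := uIcc_subset_Icc Hx.p_mem' Ho.p_mem'
  -- `Hi` is off the chord
  have offi : ∀ z ∈ Hi.set, z ∉ chS Ho Hx := by
    rintro z hz ((h | h) | h)
    · exact Set.disjoint_left.1 doi h hz
    · exact Set.disjoint_left.1 dxi h hz
    · obtain ⟨u, hu', rfl⟩ := h
      exact hi (Hi.e_mem_set (hmidI hu') hz ▸ hu')
  have v1 : chX Ho Hx (e Hi.p) = chX Ho Hx (Hi.f 1) :=
    chX_const he e₁ Hi.isPreconnected_set offi Hi.start_mem Hi.end_mem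
  -- points of `Hy` off the chord
  have offy : ∀ t ∈ Icc Hy.q 1, t ≠ τ' → Hy.f t ∉ chS Ho Hx := by
    rintro t ht htτ ((h | h) | h)
    · exact Set.disjoint_left.1 doy h (Hy.mem_set_of ht)
    · obtain ⟨s, hs, hst⟩ := h
      exact htτ (hu s (Hx.Icc_sub hs) t (Hy.Icc_sub ht) hst).2
    · obtain ⟨u, hu', h⟩ := h
      exact hy ((Hy.uniq u (hmidI hu') t (Hy.Icc_sub ht) h).1 ▸ hu')
  -- the crossing point is not on the rest of the chord
  set w := Hx.f τ with hw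
  have hwy : w = Hy.f τ' := ch.c_p_eq
  have wo : w ∉ Ho.set := fun h =>
    Set.disjoint_left.1 doy h (hwy ▸ Hy.mem_set_of ⟨hτ'.le, hτI'.2.le⟩)
  have we : w ∉ mid e Ho Hx := by
    rintro ⟨u, hu', h⟩
    exact hτ.ne' (Hx.uniq u (hmidI hu') τ ⟨hτI.1.le, hτI.2.le⟩ h).2
  have clm : IsClosed (mid e Ho Hx) :=
    (isCompact_uIcc.image_of_continuousOn (mid_cont he Ho Hx)).isClosed
  have hU : (Ho.set ∪ mid e Ho Hx)ᶜ ∈ 𝓝 (Hx.f τ) :=
    (Ho.isClosed_set.union clm).isOpen_compl.mem_nhds (by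
      rintro (h | h)
      · exact wo h
      · exact we h)
  -- flip
  obtain ⟨δ, hδ, hflip⟩ := ch.flip Hx.cont Hx.inj Hy.cont Hy.inj Hx.q_mem.1.le hτ hτI.2 le_rfl
    (Q := fun z => (sg Ho.f Ho.q 1 z * sg e Hx.p Ho.p z)⁻¹) hU (by
      refine ContinuousOn.inv₀ (ContinuousOn.mul ?_ ?_) ?_
      · refine (continuousOn_sg Ho.cont').mono ?_
        intro z hz hz'
        rw [Ho.uIcc_eq] at hz'
        exact hz (Or.inl hz')
      · refine (continuousOn_sg (mid_cont he Ho Hx)).mono ?_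
        intro z hz hz'
        exact hz (Or.inr hz')
      · intro z hz
        refine mul_ne_zero (sg_ne_zero Ho.cont' (Half.off fun h => hz (Or.inl h)))
          (sg_ne_zero (mid_cont he Ho Hx) fun x hx hxz => hz (Or.inr ⟨x, hx, hxz⟩)))
    (by
      intro z hz
      have hz1 : z ∉ Ho.set := fun h => hz (Or.inl h)
      have hz3 : z ∉ mid e Ho Hx := fun h => hz (Or.inr h)
      have a1 := sg_sq Ho.cont' (Half.off hz1)
      have a3 := sg_sq (mid_cont he Ho Hx) (z := z) (fun x hx hxz => hz3 ⟨x, hx, hxz⟩)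
      have n1 := sg_ne_zero Ho.cont' (Half.off hz1)
      have n3 := sg_ne_zero (mid_cont he Ho Hx) (z := z) (fun x hx hxz => hz3 ⟨x, hx, hxz⟩)
      have z1 : Ho.f Ho.q - z ≠ 0 := by
        rw [← Ho.e_p]; exact sub_ne_zero.2 fun h => hz1 (h ▸ Ho.start_mem)
      rw [Ho.e_p, Hx.e_p] at a3
      rw [e₁] at a1
      have e1 : sg Ho.f Ho.q 1 z ^ 2 = (Hx.f 1 - z) / (Ho.f Ho.q - z) := by
        rw [eq_div_iff z1, a1]
      have z2 : Hx.f Hx.q - z ≠ 0 := by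
        rw [← Hx.e_p]
        exact sub_ne_zero.2 fun h => hz3 ⟨Hx.p, left_mem_uIcc, h⟩
      have z3 : Hx.f 1 - z ≠ 0 := by
        rw [← e₁]
        exact sub_ne_zero.2 fun h => hz1 (h ▸ Ho.end_mem)
      have e3 : sg e Hx.p Ho.p z ^ 2 = (Ho.f Ho.q - z) / (Hx.f Hx.q - z) := by
        rw [eq_div_iff z2, a3]
      rw [inv_pow, mul_pow, e1, e3]
      field_simp)
  -- rewrite the flip for `chX`
  have hX : ∀ z, sg Hx.f Hx.q 1 z * (sg Ho.f Ho.q 1 z * sg e Hx.p Ho.p z)⁻¹ = (chX Ho Hx z)⁻¹ := by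
    intro z
    unfold chX
    rw [mul_inv, mul_inv, inv_div, div_eq_mul_inv]
    ring
  obtain ⟨m, hm, m1, m2, m3⟩ : ∃ m > 0, m < δ ∧ m < 1 - τ' ∧ m < τ' - Hy.q := by
    have aux : ∀ {x : ℝ}, 0 < x → ∀ᶠ m in 𝓝[>] (0 : ℝ), m < x := fun {x} hx =>
      nhdsWithin_le_nhds (Iio_mem_nhds hx)
    obtain ⟨μ, hμ, hμ0⟩ := (((aux hδ).and ((aux (by linarith [hτI'.2] : 0 < 1 - τ')).and
      (aux (by linarith : 0 < τ' - Hy.q)))).and self_mem_nhdsWithin).exists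
    exact ⟨μ, hμ0, hμ⟩
  have hf := hflip (τ' + m) ⟨by linarith, by linarith⟩ (τ' - m) ⟨by linarith, by linarith⟩
  rw [hX, hX] at hf
  have hf' : chX Ho Hx (Hy.f (τ' + m)) = -chX Ho Hx (Hy.f (τ' - m)) := by
    rw [← inv_neg] at hf
    exact inv_injective hf
  have v2 : chX Ho Hx (Hy.f 1) = chX Ho Hx (Hy.f (τ' + m)) := by
    have hsub : Ioc τ' 1 ⊆ Icc Hy.q 1 := fun t ht => ⟨hτ'.le.trans ht.1.le, ht.2⟩
    refine chX_const he e₁ (K := Hy.f '' Ioc τ' 1)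
      (isPreconnected_Ioc.image _ (Hy.cont.mono (hsub.trans Hy.Icc_sub))) ?_
      (mem_image_of_mem _ ⟨hτI'.2, le_rfl⟩) (mem_image_of_mem _ ⟨by linarith, by linarith⟩)
    rintro _ ⟨t, ht, rfl⟩
    exact offy t (hsub ht) ht.1.ne'
  have v3 : chX Ho Hx (Hy.f Hy.q) = chX Ho Hx (Hy.f (τ' - m)) := by
    have hsub : Ico Hy.q τ' ⊆ Icc Hy.q 1 := fun t ht => ⟨ht.1, ht.2.le.trans hτI'.2.le⟩
    refine chX_const he e₁ (K := Hy.f '' Ico Hy.q τ')
      (isPreconnected_Ico.image _ (Hy.cont.mono (hsub.trans Hy.Icc_sub))) ?_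
      (mem_image_of_mem _ ⟨le_rfl, hτ'⟩) (mem_image_of_mem _ ⟨by linarith, by linarith⟩)
    rintro _ ⟨t, ht, rfl⟩
    exact offy t (hsub ht) ht.2.ne
  rw [v1, e₂, v2, hf', ← v3, ← Hy.e_p]

/-- (T), without superfluous hypotheses -/
theorem side_T' {e : ℝ → ℂ} (he : ContinuousOn e (Icc 0 1)) (hei : InjOn e (Icc 0 1)) {α β : ℝ}
    (R : Ref e α β) {ε : ℂ} (Ho Hx Hi Hy Hu Hv : Half e)
    (po : Ho.p ∈ Icc α β) (px : Hx.p ∈ Icc α β) (pi : Hi.p ∈ Icc α β) (py : Hy.p ∈ Icc α β)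
    (lo : Ho.Lab R ε) (lx : Hx.Lab R ε) (li : Hi.Lab R ε) (ly : Hy.Lab R ε) (lu : Hu.Lab R ε)
    (e₁ : Ho.f 1 = Hx.f 1) (e₂ : Hi.f 1 = Hy.f 1) (e₃ : Hu.f 1 = Hv.f 1)
    (doi : Disjoint Ho.set Hi.set) (doy : Disjoint Ho.set Hy.set) (dxi : Disjoint Hx.set Hi.set)
    (dxy : Disjoint Hx.set Hy.set ∨
      (∃ τ τ', Nonempty (Chart Hx.f Hy.f τ τ') ∧
        ∀ s ∈ Icc (0 : ℝ) 1, ∀ t ∈ Icc (0 : ℝ) 1, Hx.f s = Hy.f t → s = τ ∧ t = τ'))
    (duo : Disjoint Hu.set Ho.set) (dux : Disjoint Hu.set Hx.set)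
    (dvi : Disjoint Hv.set Hi.set) (dvy : Disjoint Hv.set Hy.set)
    (h₁ : Hi.p < min Ho.p Hx.p) (h₂ : min Ho.p Hx.p < Hu.p) (h₃ : Hu.p < max Ho.p Hx.p)
    (h₄ : max Ho.p Hx.p ≤ Hy.p) (h₅ : Hy.p < Hv.p) : False := by
  have hminI : ∀ {x}, x ∈ uIcc Hx.p Ho.p ↔ min Ho.p Hx.p ≤ x ∧ x ≤ max Ho.p Hx.p := by
    intro x
    rw [uIcc_comm]
    exact Iff.rfl
  have hmidI : uIcc Hx.p Ho.p ⊆ Icc 0 1 := uIcc_subset_Icc Hx.p_mem' Ho.p_mem'
  have hiy : Hi.p < Hy.p := h₁.trans (h₂.trans (h₃.trans_le h₄))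
  -- (A1), (A2) for the chord `{o, x}`
  obtain ⟨θ, hθ, A1, A2⟩ : ∃ θ : ℂ, (θ = 1 ∨ θ = -1) ∧
      (∀ t ∈ Icc (0 : ℝ) 1, (t < min Ho.p Hx.p ∨ max Ho.p Hx.p < t) → chX Ho Hx (e t) = θ) ∧
      ∀ t ∈ Ioc Hu.q 1, chX Ho Hx (Hu.f t) = -θ := by
    rcases lt_trichotomy Ho.p Hx.p with hlt | heq | hlt
    · rw [min_eq_left hlt.le, max_eq_right hlt.le] at *
      obtain ⟨θ, hθ, A1, A2⟩ := chord he hei R Ho Hx po px hlt lo lx e₁
      exact ⟨θ, hθ, A1, A2 Hu lu h₂ h₃ duo dux⟩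
    · rw [heq, min_self] at h₂
      rw [heq, max_self] at h₃
      exact absurd h₂ h₃.not_gt
    · rw [min_eq_right hlt.le, max_eq_left hlt.le] at *
      obtain ⟨θ, hθ, A1, A2⟩ := chord he hei R Hx Ho px po hlt lx lo e₁.symm
      -- `chX Ho Hx = (chX Hx Ho)⁻¹`
      have hinv : ∀ z, z ∉ chS Hx Ho → chX Ho Hx z = (chX Hx Ho z)⁻¹ := by
        intro z hz
        unfold chX
        have hz3 : z ∉ mid e Hx Ho := fun h => hz (Or.inr h)
        rw [sg_symm (mid_cont he Hx Ho) (fun x hx hxz => hz3 ⟨x, hx, hxz⟩)]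
        rw [mul_inv, inv_div]
      have hθi : θ⁻¹ = θ := by rcases hθ with rfl | rfl <;> norm_num
      refine ⟨θ, hθ, ?_, ?_⟩
      · intro t ht h
        rw [hinv, A1 t ht h, hθi]
        rintro ((h' | h') | h')
        · have := Hx.e_mem_set ht h'
          rcases h with h | h
          · exact h.ne this
          · exact (hlt.trans h).ne' this
        · have := Ho.e_mem_set ht h'
          rcases h with h | h
          · exact (h.trans hlt).ne this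
          · exact h.ne' this
        · obtain ⟨u, hu, h'⟩ := h'
          have huI := uIcc_subset_Icc Ho.p_mem' Hx.p_mem' hu
          have := hei huI ht h'
          rw [uIcc_comm, uIcc_of_le hlt.le] at hu
          rcases h with h | h
          · linarith [hu.1]
          · linarith [hu.2]
      · intro t ht
        rw [hinv, A2 Hu lu h₂ h₃ dux duo t ht, inv_neg, hθi]
        have htI : t ∈ Icc Hu.q 1 := ⟨ht.1.le, ht.2⟩
        rintro ((h' | h') | h')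
        · exact Set.disjoint_left.1 dux (Hu.mem_set_of htI) h'
        · exact Set.disjoint_left.1 duo (Hu.mem_set_of htI) h'
        · obtain ⟨u, hu, h'⟩ := h'
          have huI := uIcc_subset_Icc Ho.p_mem' Hx.p_mem' hu
          exact ht.1.ne' (Hu.uniq u huI t (Hu.Icc_sub htI) h').2
  -- `Hi` is off the chord
  have hi : Hi.p ∉ uIcc Hx.p Ho.p := fun h => by
    have := (hminI.1 h).1
    linarith
  have offi : ∀ z ∈ Hi.set, z ∉ chS Ho Hx := by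
    rintro z hz ((h | h) | h)
    · exact Set.disjoint_left.1 doi h hz
    · exact Set.disjoint_left.1 dxi h hz
    · obtain ⟨u, hu', rfl⟩ := h
      exact hi (Hi.e_mem_set (hmidI hu') hz ▸ hu')
  -- the part of `Hy` after its start is off the chord
  have offy : ∀ t ∈ Ioc Hy.q 1, Hy.f t ∉ Hx.set := by
    intro t ht hx
    have htI : t ∈ Icc Hy.q 1 := ⟨ht.1.le, ht.2⟩
    rcases dxy with dxy | ⟨τ, τ', ⟨ch⟩, hu⟩
    · exact Set.disjoint_left.1 dxy hx (Hy.mem_set_of htI)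
    · obtain ⟨s, hs, hst⟩ := hx
      obtain ⟨rfl, rfl⟩ := hu s (Hx.Icc_sub hs) t (Hy.Icc_sub htI) hst
      -- `s > Hx.q`
      have hsq : Hx.q ≠ s := by
        rintro rfl
        rw [← Hx.e_p] at hst
        exact ht.1.ne' (Hy.uniq _ Hx.p_mem' t (Hy.Icc_sub htI) hst).2
      have hsq' : Hx.q < s := lt_of_le_of_ne hs.1 hsq
      have hyx : Hx.p ≠ Hy.p := by
        intro h
        have h' : Hx.f Hx.q = Hy.f Hy.q := by rw [← Hx.e_p, ← Hy.e_p, h]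
        exact hsq (hu _ Hx.q_mem' _ Hy.q_mem' h').1
      have hyo : Hy.p ≠ Ho.p := by
        intro h
        exact Set.disjoint_left.1 doy Ho.start_mem (h ▸ Hy.start_mem)
      have hymax : max Ho.p Hx.p < Hy.p := by
        refine lt_of_le_of_ne h₄ ?_
        rcases max_choice Ho.p Hx.p with h | h <;> rw [h]
        · exact hyo.symm
        · exact hyx
      have hy : Hy.p ∉ uIcc Hx.p Ho.p := fun h => by
        have := (hminI.1 h).2
        linarith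
      have := side_T_aux he Ho Hx Hi Hy e₁ e₂ doi doy dxi ch hu hsq' ht.1 hi hy
      rw [A1 _ Hi.p_mem' (Or.inl h₁), A1 _ Hy.p_mem' (Or.inr hymax)] at this
      rcases hθ with rfl | rfl <;> norm_num at this
  have offy' : ∀ t ∈ Ioc Hy.q 1, Hy.f t ∉ chS Ho Hx := by
    intro t ht
    have htI : t ∈ Icc Hy.q 1 := ⟨ht.1.le, ht.2⟩
    rintro ((h | h) | h)
    · exact Set.disjoint_left.1 doy h (Hy.mem_set_of htI)
    · exact offy t ht h
    · obtain ⟨u, hu', h⟩ := h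
      exact ht.1.ne' (Hy.uniq u (hmidI hu') t (Hy.Icc_sub htI) h).2
  have w1 : ∀ z ∈ Hi.set, chX Ho Hx z = θ := by
    intro z hz
    rw [← A1 _ Hi.p_mem' (Or.inl h₁)]
    exact chX_const he e₁ Hi.isPreconnected_set offi hz Hi.start_mem
  have w2 : ∀ t ∈ Ioc Hy.q 1, chX Ho Hx (Hy.f t) = θ := by
    intro t ht
    rw [← w1 _ Hi.end_mem, e₂]
    refine chX_const he e₁ (K := Hy.f '' Ioc Hy.q 1)
      (isPreconnected_Ioc.image _ (Hy.cont.mono (Ioc_subset_Icc_self.trans Hy.Icc_sub))) ?_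
      (mem_image_of_mem _ ht) (mem_image_of_mem _ ⟨Hy.q_mem.2, le_rfl⟩)
    rintro _ ⟨x, hx, rfl⟩
    exact offy' x hx
  have hθne : θ ≠ -θ := by
    rcases hθ with rfl | rfl <;> norm_num
  -- `Hu` is disjoint from the chord `{i, y}`
  have dui : Disjoint Hu.set Hi.set := by
    rw [Set.disjoint_left]
    rintro _ ⟨t, ht, rfl⟩ hi'
    rcases eq_or_lt_of_le ht.1 with h | h
    · rw [← h, ← Hu.e_p] at hi'
      have := Hi.e_mem_set Hu.p_mem' hi'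
      linarith
    · exact hθne ((w1 _ hi').symm.trans (A2 t ⟨h, ht.2⟩))
  have duy : Disjoint Hu.set Hy.set := by
    rw [Set.disjoint_left]
    rintro _ ⟨t, ht, rfl⟩ ⟨t', ht', htt⟩
    rcases eq_or_lt_of_le ht.1 with h | h
    · rw [← h, ← Hu.e_p] at htt
      have := (Hy.uniq _ Hu.p_mem' t' (Hy.Icc_sub ht') htt.symm).1
      linarith
    · rcases eq_or_lt_of_le ht'.1 with h' | h'
      · rw [← h', ← Hy.e_p] at htt
        have := (Hu.uniq _ Hy.p_mem' t (Hu.Icc_sub ht) htt).1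
        linarith
      · have := w2 t' ⟨h', ht'.2⟩
        rw [htt] at this
        exact hθne (this.symm.trans (A2 t ⟨h, ht.2⟩))
  -- the chord `{i, y}`
  exact side_F1' he hei R Hi Hy Hu Hv pi py li ly lu e₂ e₃ dui duy dvi dvy
    (h₁.trans h₂) (h₃.trans_le h₄) (Or.inr h₅)

/-- (F1) -/
theorem side_F1 {e : ℝ → ℂ} (he : ContinuousOn e (Icc 0 1)) (hei : InjOn e (Icc 0 1)) {α β : ℝ}
    (R : Ref e α β) {ε : ℂ} (Hx Hx' H₁ H₂ : Half e)
    (px : Hx.p ∈ Icc α β) (px' : Hx'.p ∈ Icc α β) (_p₁ : H₁.p ∈ Icc α β) (_p₂ : H₂.p ∈ Icc α β)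
    (lx : Hx.Lab R ε) (lx' : Hx'.Lab R ε) (l₁ : H₁.Lab R ε) (_l₂ : H₂.Lab R ε)
    (e₁ : Hx.f 1 = Hx'.f 1) (e₂ : H₁.f 1 = H₂.f 1)
    (d₁ : Disjoint H₁.set Hx.set) (d₁' : Disjoint H₁.set Hx'.set)
    (d₂ : Disjoint H₂.set Hx.set) (d₂' : Disjoint H₂.set Hx'.set)
    (h₁ : Hx.p < H₁.p) (h₂ : H₁.p < Hx'.p) (h₃ : H₂.p < Hx.p ∨ Hx'.p < H₂.p) : False :=
  side_F1' he hei R Hx Hx' H₁ H₂ px px' lx lx' l₁ e₁ e₂ d₁ d₁' d₂ d₂' h₁ h₂ h₃

/-- (T) -/
theorem side_T {e : ℝ → ℂ} (he : ContinuousOn e (Icc 0 1)) (hei : InjOn e (Icc 0 1)) {α β : ℝ}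
    (R : Ref e α β) {ε : ℂ} (Ho Hx Hi Hy Hu Hv : Half e)
    (po : Ho.p ∈ Icc α β) (px : Hx.p ∈ Icc α β) (pi : Hi.p ∈ Icc α β) (py : Hy.p ∈ Icc α β)
    (_pu : Hu.p ∈ Icc α β) (_pv : Hv.p ∈ Icc α β)
    (lo : Ho.Lab R ε) (lx : Hx.Lab R ε) (li : Hi.Lab R ε) (ly : Hy.Lab R ε) (lu : Hu.Lab R ε)
    (_lv : Hv.Lab R ε)
    (e₁ : Ho.f 1 = Hx.f 1) (e₂ : Hi.f 1 = Hy.f 1) (e₃ : Hu.f 1 = Hv.f 1)
    (doi : Disjoint Ho.set Hi.set) (doy : Disjoint Ho.set Hy.set) (dxi : Disjoint Hx.set Hi.set)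
    (dxy : Disjoint Hx.set Hy.set ∨
      (∃ τ τ', Nonempty (Chart Hx.f Hy.f τ τ') ∧
        ∀ s ∈ Icc (0 : ℝ) 1, ∀ t ∈ Icc (0 : ℝ) 1, Hx.f s = Hy.f t → s = τ ∧ t = τ'))
    (duo : Disjoint Hu.set Ho.set) (dux : Disjoint Hu.set Hx.set)
    (dvi : Disjoint Hv.set Hi.set) (dvy : Disjoint Hv.set Hy.set)
    (h₁ : Hi.p < min Ho.p Hx.p) (h₂ : min Ho.p Hx.p < Hu.p) (h₃ : Hu.p < max Ho.p Hx.p)
    (h₄ : max Ho.p Hx.p ≤ Hy.p) (h₅ : Hy.p < Hv.p) : False :=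
  side_T' he hei R Ho Hx Hi Hy Hu Hv po px pi py lo lx li ly lu e₁ e₂ e₃ doi doy dxi dxy duo dux
    dvi dvy h₁ h₂ h₃ h₄ h₅

/-- Existence of the reference data. -/
theorem exists_ref {e : ℝ → ℂ} (he : ContinuousOn e (Icc 0 1)) (hei : InjOn e (Icc 0 1)) {α β : ℝ}
    (hα : 0 < α) (hβ : β < 1) : Nonempty (Ref e α β) := by
  rcases lt_or_ge β α with hlt | hle
  · refine ⟨⟨fun _ => 1, ∅, isOpen_empty, ?_, ?_, ?_, ?_⟩⟩
    · intro t ht
      rw [Icc_eq_empty hlt.not_ge] at ht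
      exact absurd ht (notMem_empty _)
    · exact continuousOn_empty _
    · intro z hz
      exact absurd hz (notMem_empty _)
    · intro z hz
      exact absurd hz (notMem_empty _)
  have hsub : Icc α β ⊆ Icc 0 1 := Icc_subset_Icc hα.le hβ.le
  have h0I : (0 : ℝ) ∈ Icc (0 : ℝ) 1 := ⟨le_rfl, zero_le_one⟩
  have h1I : (1 : ℝ) ∈ Icc (0 : ℝ) 1 := ⟨zero_le_one, le_rfl⟩
  have n0 : ∀ t ∈ Icc α β, e 0 - e t ≠ 0 := fun t ht =>
    sub_ne_zero.2 fun h => by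
      have := hei h0I (hsub ht) h
      linarith [ht.1]
  have n1 : ∀ t ∈ Icc α β, e 1 - e t ≠ 0 := fun t ht =>
    sub_ne_zero.2 fun h => by
      have := hei h1I (hsub ht) h
      linarith [ht.2]
  have huI : uIcc α β = Icc α β := uIcc_of_le hle
  obtain ⟨ρ, hρc, hρ⟩ := exists_sqrt (g := fun t => (e 1 - e t) / (e 0 - e t)) (s := α) (t := β)
    (by
      rw [huI]
      exact (continuousOn_const.sub (he.mono hsub)).div (continuousOn_const.sub (he.mono hsub)) n0)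
    (by
      rw [huI]
      exact fun t ht => div_ne_zero (n1 t ht) (n0 t ht))
  rw [huI] at hρc hρ
  -- Tietze extension
  have hE : IsClosedEmbedding (fun t : Icc α β => e t) :=
    (continuousOn_iff_continuous_domRestrict.1 (he.mono hsub)).isClosedEmbedding
      fun x y hxy => Subtype.ext (hei (hsub x.2) (hsub y.2) hxy)
  obtain ⟨m, hm⟩ := ContinuousMap.exists_extension hE
    (⟨fun t : Icc α β => ρ t, continuousOn_iff_continuous_domRestrict.1 hρc⟩ : C(Icc α β, ℂ))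
  have hm' : ∀ t ∈ Icc α β, m (e t) = ρ t := fun t ht =>
    DFunLike.congr_fun hm (⟨t, ht⟩ : Icc α β)
  set G : ℂ → ℂ := fun z => (e 1 - z) / (e 0 - z) with hG
  set O : Set ℂ := {z | z ≠ e 0 ∧ z ≠ e 1 ∧ m z ≠ 0} with hO
  have hOo : IsOpen O := by
    have : O = {e 0}ᶜ ∩ ({e 1}ᶜ ∩ (m ⁻¹' {0}ᶜ)) := by
      ext z; simp [O]
    rw [this]
    exact isOpen_compl_singleton.inter (isOpen_compl_singleton.inter
      (isOpen_compl_singleton.preimage m.continuous))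
  have hGm : ContinuousOn (fun z => G z / m z ^ 2) O := by
    refine ContinuousOn.div (ContinuousOn.div ?_ ?_ ?_) ?_ ?_
    · exact (continuous_const.sub continuous_id).continuousOn
    · exact (continuous_const.sub continuous_id).continuousOn
    · intro z hz
      exact sub_ne_zero.2 hz.1.symm
    · exact (m.continuous.pow 2).continuousOn
    · intro z hz
      exact pow_ne_zero 2 hz.2.2
  set N : Set ℂ := O ∩ (fun z => G z / m z ^ 2) ⁻¹' Metric.ball 1 1 with hN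
  have hNo : IsOpen N := hGm.isOpen_inter_preimage hOo Metric.isOpen_ball
  have hslit : ∀ z ∈ N, G z / m z ^ 2 ∈ Complex.slitPlane := by
    intro z hz
    have h1 : ‖G z / m z ^ 2 - 1‖ < 1 := by
      have := hz.2
      rwa [mem_preimage, Metric.mem_ball, dist_eq_norm] at this
    have := Complex.mem_slitPlane_of_norm_lt_one h1
    simpa using this
  refine ⟨⟨fun z => m z * Complex.exp (Complex.log (G z / m z ^ 2) / 2), N, hNo, ?_, ?_, ?_, ?_⟩⟩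
  · intro t ht
    have hρ0 : ρ t ≠ 0 := by
      intro h
      have := hρ t ht
      rw [h] at this
      exact div_ne_zero (n1 t ht) (n0 t ht) (by rw [← this]; norm_num)
    refine ⟨⟨?_, ?_, ?_⟩, ?_⟩
    · exact fun h => n0 t ht (by rw [h, sub_self])
    · exact fun h => n1 t ht (by rw [h, sub_self])
    · rw [hm' t ht]; exact hρ0
    · have : G (e t) / m (e t) ^ 2 = 1 := by
        rw [hm' t ht, hρ t ht]
        exact div_self (div_ne_zero (n1 t ht) (n0 t ht))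
      simp [this]
  · refine m.continuous.continuousOn.mul (Complex.continuous_exp.comp_continuousOn ?_)
    refine ContinuousOn.div_const ?_ _
    intro z hz
    exact ((hGm.mono inter_subset_left) z hz).clog (hslit z hz)
  · intro z hz
    have hz0 : e 0 - z ≠ 0 := sub_ne_zero.2 hz.1.1.symm
    have hmz : m z ^ 2 ≠ 0 := pow_ne_zero 2 hz.1.2.2
    have hG0 : G z / m z ^ 2 ≠ 0 := Complex.slitPlane_ne_zero (hslit z hz)
    have : Complex.exp (Complex.log (G z / m z ^ 2) / 2) ^ 2 = G z / m z ^ 2 := by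
      rw [← Complex.exp_nat_mul]
      have : ((2 : ℕ) : ℂ) * (Complex.log (G z / m z ^ 2) / 2) = Complex.log (G z / m z ^ 2) := by
        push_cast; ring
      rw [this, Complex.exp_log hG0]
    rw [mul_pow, this, mul_div_cancel₀ _ hmz]
    simp only [hG]
    exact div_mul_cancel₀ _ hz0
  · intro z hz
    exact ⟨mul_ne_zero hz.1.2.2 (Complex.exp_ne_zero _), hz.1.1, hz.1.2.1⟩

section F3

variable {e : ℝ → ℂ}

/-- the sign function of the closed curve formed by four arcs -/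
noncomputable def cyX (H : Fin 4 → Half e) (z : ℂ) : ℂ := ∏ i, sg (H i).f 0 1 z

/-- the support of the closed curve -/
def cyS (H : Fin 4 → Half e) : Set ℂ := ⋃ i, (H i).f '' Icc 0 1

lemma Half.cont01 (H : Half e) : ContinuousOn H.f (uIcc 0 1) := by
  rw [uIcc_of_le zero_le_one]; exact H.cont

lemma Half.off01 {H : Half e} {z : ℂ} (hz : z ∉ H.f '' Icc 0 1) : ∀ x ∈ uIcc (0 : ℝ) 1, H.f x ≠ z := by
  intro x hx hxz
  rw [uIcc_of_le zero_le_one] at hx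
  exact hz ⟨x, hx, hxz⟩

lemma isClosed_cyS (H : Fin 4 → Half e) : IsClosed (cyS H) :=
  isClosed_iUnion_of_finite fun i => (isCompact_Icc.image_of_continuousOn (H i).cont).isClosed

/-- three consecutive arcs close up the fourth one -/
lemma cyQ_sq (H : Fin 4 → Half e) (hc : ∀ i, (H i).f 1 = (H (i + 1)).f 0) (i : Fin 4) {z : ℂ}
    (h1 : z ∉ (H (i + 1)).f '' Icc 0 1) (h2 : z ∉ (H (i + 2)).f '' Icc 0 1)
    (h3 : z ∉ (H (i + 3)).f '' Icc 0 1) :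
    (sg (H (i + 1)).f 0 1 z * sg (H (i + 2)).f 0 1 z * sg (H (i + 3)).f 0 1 z) ^ 2 *
      ((H i).f 1 - z) = (H i).f 0 - z := by
  have a1 := sg_sq (H (i + 1)).cont01 (Half.off01 h1)
  have a2 := sg_sq (H (i + 2)).cont01 (Half.off01 h2)
  have a3 := sg_sq (H (i + 3)).cont01 (Half.off01 h3)
  have c0 := hc i
  have c1 := hc (i + 1)
  have c2 := hc (i + 2)
  have c3 := hc (i + 3)
  have e1 : i + 1 + 1 = i + 2 := by omega
  have e2 : i + 2 + 1 = i + 3 := by omega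
  have e3 : i + 3 + 1 = i := by omega
  rw [e1] at c1
  rw [e2] at c2
  rw [e3] at c3
  rw [c0, ← c3, ← a3, ← c2, ← a2, ← c1, ← a1]
  ring

lemma cyX_eq (H : Fin 4 → Half e) (i : Fin 4) (z : ℂ) :
    cyX H z = sg (H i).f 0 1 z *
      (sg (H (i + 1)).f 0 1 z * sg (H (i + 2)).f 0 1 z * sg (H (i + 3)).f 0 1 z) := by
  unfold cyX
  rw [Fin.prod_univ_four]
  fin_cases i
  · simp only [Fin.zero_eta, zero_add]; ring
  · have e1 : (1 : Fin 4) + 1 = 2 := rfl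
    have e2 : (1 : Fin 4) + 2 = 3 := rfl
    have e3 : (1 : Fin 4) + 3 = 0 := rfl
    simp only [Fin.mk_one, e1, e2, e3]; ring
  · have e1 : (2 : Fin 4) + 1 = 3 := rfl
    have e2 : (2 : Fin 4) + 2 = 0 := rfl
    have e3 : (2 : Fin 4) + 3 = 1 := rfl
    simp only [Fin.reduceFinMk, e1, e2, e3]; ring
  · have e1 : (3 : Fin 4) + 1 = 0 := rfl
    have e2 : (3 : Fin 4) + 2 = 1 := rfl
    have e3 : (3 : Fin 4) + 3 = 2 := rfl
    simp only [Fin.reduceFinMk, e1, e2, e3]; ring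

lemma cyX_sq (H : Fin 4 → Half e) (hc : ∀ i, (H i).f 1 = (H (i + 1)).f 0) {z : ℂ}
    (hz : z ∉ cyS H) : cyX H z ^ 2 = 1 := by
  have hz' : ∀ i, z ∉ (H i).f '' Icc 0 1 := fun i h => hz (mem_iUnion.2 ⟨i, h⟩)
  have a0 := sg_sq (H 0).cont01 (Half.off01 (hz' 0))
  have aQ := cyQ_sq H hc 0 (hz' _) (hz' _) (hz' _)
  rw [cyX_eq H 0, mul_pow]
  have n0 : (H 0).f 0 - z ≠ 0 := sub_ne_zero.2 fun h => hz' 0 ⟨0, ⟨le_rfl, zero_le_one⟩, h⟩
  have n1 : (H 0).f 1 - z ≠ 0 := sub_ne_zero.2 fun h => hz' 0 ⟨1, ⟨zero_le_one, le_rfl⟩, h⟩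
  refine mul_right_cancel₀ n0 ?_
  rw [one_mul]
  calc _ = (sg (H 0).f 0 1 z ^ 2 * ((H 0).f 0 - z)) *
        (sg (H (0 + 1)).f 0 1 z * sg (H (0 + 2)).f 0 1 z * sg (H (0 + 3)).f 0 1 z) ^ 2 := by ring
    _ = _ := by rw [a0, mul_comm, aQ]

lemma cyX_cont (H : Fin 4 → Half e) : ContinuousOn (cyX H) (cyS H)ᶜ := by
  unfold cyX
  refine continuousOn_finsetProd _ fun i _ => ?_
  refine (continuousOn_sg (H i).cont01).mono ?_
  intro z hz hz'
  rw [uIcc_of_le zero_le_one] at hz'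
  exact hz (mem_iUnion.2 ⟨i, hz'⟩)

lemma cyX_const (H : Fin 4 → Half e) (hc : ∀ i, (H i).f 1 = (H (i + 1)).f 0) {K : Set ℂ}
    (hK : IsPreconnected K) (hd : ∀ z ∈ K, z ∉ cyS H) {x y : ℂ} (hx : x ∈ K) (hy : y ∈ K) :
    cyX H x = cyX H y :=
  eq_of_sq_eq_one hK ((cyX_cont H).mono hd) (fun z hz => cyX_sq H hc (hd z hz)) hx hy

/-- points of `e` on the closed curve -/
lemma e_mem_cyS {H : Fin 4 → Half e} {t : ℝ} (ht : t ∈ Icc (0 : ℝ) 1) :
    e t ∈ cyS H ↔ ∃ i, (H i).p = t := by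
  constructor
  · intro h
    obtain ⟨i, s, hs, hst⟩ := mem_iUnion.1 h
    exact ⟨i, ((H i).uniq t ht s hs hst.symm).1.symm⟩
  · rintro ⟨i, rfl⟩
    exact mem_iUnion.2 ⟨i, (H i).q, (H i).q_mem', (H i).e_p.symm⟩

/-- number of crossings before `x` -/
noncomputable def cnt (H : Fin 4 → Half e) (x : ℝ) : ℕ :=
  (Finset.univ.filter fun i => (H i).p < x).card

/-- the corrected sign -/
noncomputable def cyY (H : Fin 4 → Half e) (x : ℝ) : ℂ := cyX H (e x) * (-1) ^ cnt H x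

lemma cyY_sq (H : Fin 4 → Half e) (hc : ∀ i, (H i).f 1 = (H (i + 1)).f 0) {x : ℝ}
    (hx : x ∈ Icc (0 : ℝ) 1) (hxp : ∀ i, (H i).p ≠ x) : cyY H x = 1 ∨ cyY H x = -1 := by
  refine mul_self_eq_one_iff.1 ?_
  unfold cyY
  have h1 := cyX_sq H hc (z := e x) (fun h => by
    obtain ⟨i, hi⟩ := (e_mem_cyS hx).1 h
    exact hxp i hi)
  have h2 : ((-1 : ℂ) ^ cnt H x) ^ 2 = 1 := by
    rw [← pow_mul, mul_comm, pow_mul]; norm_num
  calc _ = cyX H (e x) ^ 2 * ((-1 : ℂ) ^ cnt H x) ^ 2 := by ring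
    _ = 1 := by rw [h1, h2, one_mul]

/-- local constancy of the corrected sign -/
lemma cyY_local (he : ContinuousOn e (Icc 0 1)) (hei : InjOn e (Icc 0 1)) (H : Fin 4 → Half e)
    (hH : ∀ i j, i ≠ j → (H i).p ≠ (H j).p)
    (hc : ∀ i, (H i).f 1 = (H (i + 1)).f 0) (x : ℝ) (hx : x ∈ Icc (0 : ℝ) 1) :
    ∃ v : ℂ, ∀ᶠ y in 𝓝 x, y ∈ Icc (0 : ℝ) 1 → (∀ i, (H i).p ≠ y) → cyY H y = v := by
  by_cases hxp : ∀ i, (H i).p ≠ x
  · refine ⟨cyY H x, ?_⟩
    -- away from the crossings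
    have h1 : ∀ᶠ y in 𝓝 x, ∀ i, ((H i).p < y ↔ (H i).p < x) := by
      refine eventually_all.2 fun i => ?_
      rcases lt_or_gt_of_ne (hxp i) with h | h
      · filter_upwards [lt_mem_nhds h] with y hy
        exact ⟨fun _ => h, fun _ => hy⟩
      · filter_upwards [gt_mem_nhds h] with y hy
        exact ⟨fun h' => absurd h' hy.not_gt, fun h' => absurd h' h.not_gt⟩
    have h1' : ∀ᶠ y in 𝓝 x, ∀ i, (H i).p ≠ y :=
      eventually_all.2 fun i => (eventually_ne_nhds (hxp i).symm).mono fun y hy => hy.symm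
    obtain ⟨δ, hδ, hδ'⟩ := Metric.eventually_nhds_iff.1 (h1.and h1')
    refine Metric.eventually_nhds_iff.2 ⟨δ, hδ, ?_⟩
    intro y hy hyI _
    have hcnt : cnt H y = cnt H x := by
      unfold cnt
      congr 1
      refine Finset.filter_congr fun i _ => (hδ' hy).1 i
    have hX : cyX H (e y) = cyX H (e x) := by
      have hsub : uIcc y x ⊆ Icc 0 1 := uIcc_subset_Icc hyI hx
      refine cyX_const H hc (K := e '' uIcc y x) (isPreconnected_uIcc.image _ (he.mono hsub)) ?_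
        (mem_image_of_mem _ left_mem_uIcc) (mem_image_of_mem _ right_mem_uIcc)
      rintro _ ⟨u, hu, rfl⟩ hmem
      obtain ⟨i, hi⟩ := (e_mem_cyS (hsub hu)).1 hmem
      refine (hδ' (y := u) ?_).2 i hi
      rw [Real.dist_eq] at hy ⊢
      refine lt_of_le_of_lt ?_ hy
      rw [abs_sub_comm u x, abs_sub_comm y x]
      exact abs_sub_right_of_mem_uIcc hu
    unfold cyY
    rw [hX, hcnt]
  · push Not at hxp
    obtain ⟨i, rfl⟩ := hxp
    -- flip at the crossing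
    have hpi := (H i).p_mem
    have hU : (⋃ j : {j : Fin 4 // j ≠ i}, (H j).f '' Icc 0 1)ᶜ ∈ 𝓝 ((H i).f (H i).q) := by
      refine IsOpen.mem_nhds ?_ ?_
      · have hcl : IsClosed (⋃ j : {j : Fin 4 // j ≠ i}, (H j).f '' Icc 0 1) :=
          isClosed_iUnion_of_finite fun j =>
            (isCompact_Icc.image_of_continuousOn (H j).cont).isClosed
        exact hcl.isOpen_compl
      · rintro h
        obtain ⟨⟨j, hj⟩, s, hs, hst⟩ := mem_iUnion.1 h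
        simp only at hst
        rw [← (H i).e_p] at hst
        exact hH j i hj ((H j).uniq _ (H i).p_mem' s hs hst.symm).1.symm
    have hne : ∀ j : Fin 4, j ≠ 0 → i + j ≠ i := by
      intro j hj h
      exact hj (by simpa using h)
    obtain ⟨δ, hδ, hflip⟩ := ((H i).chart.swap).flip (H i).cont (H i).inj he hei
      le_rfl (H i).q_mem.1 (H i).q_mem.2 le_rfl
      (Q := fun z => sg (H (i + 1)).f 0 1 z * sg (H (i + 2)).f 0 1 z * sg (H (i + 3)).f 0 1 z) hU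
      (by
        have key : ∀ j : Fin 4, j ≠ 0 → ContinuousOn (sg (H (i + j)).f 0 1)
            (⋃ j : {j : Fin 4 // j ≠ i}, (H j).f '' Icc 0 1)ᶜ := by
          intro j hj
          refine (continuousOn_sg (H (i + j)).cont01).mono ?_
          intro z hz hz'
          rw [uIcc_of_le zero_le_one] at hz'
          exact hz (mem_iUnion.2 ⟨⟨i + j, hne j hj⟩, hz'⟩)
        exact ((key 1 (by decide)).mul (key 2 (by decide))).mul (key 3 (by decide)))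
      (by
        intro z hz
        have key : ∀ j : Fin 4, j ≠ 0 → z ∉ (H (i + j)).f '' Icc 0 1 := fun j hj h =>
          hz (mem_iUnion.2 ⟨⟨i + j, hne j hj⟩, h⟩)
        exact cyQ_sq H hc i (key 1 (by decide)) (key 2 (by decide)) (key 3 (by decide)))
    have hflip' : ∀ t ∈ Ioo (H i).p ((H i).p + δ), ∀ t' ∈ Ioo ((H i).p - δ) (H i).p,
        cyX H (e t) = -cyX H (e t') := by
      intro t ht t' ht'
      rw [cyX_eq H i, cyX_eq H i]
      exact hflip t ht t' ht'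
    -- the other crossings are away
    have h1 : ∀ᶠ y in 𝓝 (H i).p, ∀ j, j ≠ i → ((H j).p < y ↔ (H j).p < (H i).p) := by
      refine eventually_all.2 fun j => ?_
      by_cases hj : j = i
      · exact Eventually.of_forall fun y h => absurd hj h
      rcases lt_or_gt_of_ne (hH j i hj) with h | h
      · filter_upwards [lt_mem_nhds h] with y hy _
        exact ⟨fun _ => h, fun _ => hy⟩
      · filter_upwards [gt_mem_nhds h] with y hy _
        exact ⟨fun h' => absurd h' hy.not_gt, fun h' => absurd h' h.not_gt⟩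
    obtain ⟨δ', hδ', h1'⟩ := Metric.eventually_nhds_iff.1 h1
    -- counts
    set c₀ : ℕ := cnt H (H i).p with hc₀
    have hni : i ∉ Finset.univ.filter fun j => (H j).p < (H i).p := by simp
    have cbefore : ∀ y, |y - (H i).p| < δ' → y < (H i).p → cnt H y = c₀ := by
      intro y hy hyp
      rw [hc₀]
      unfold cnt
      congr 1
      refine Finset.filter_congr fun j _ => ?_
      by_cases hj : j = i
      · rw [hj]
        exact ⟨fun h => absurd h hyp.not_gt, fun h => absurd h (lt_irrefl _)⟩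
      · exact h1' (by rwa [Real.dist_eq]) j hj
    have cafter : ∀ y, |y - (H i).p| < δ' → (H i).p < y → cnt H y = c₀ + 1 := by
      intro y hy hyp
      have : (Finset.univ.filter fun j => (H j).p < y) =
          insert i (Finset.univ.filter fun j => (H j).p < (H i).p) := by
        ext j
        simp only [Finset.mem_filter, Finset.mem_univ, true_and, Finset.mem_insert]
        by_cases hj : j = i
        · rw [hj]
          exact ⟨fun _ => Or.inl rfl, fun _ => hyp⟩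
        · rw [h1' (by rwa [Real.dist_eq]) j hj]
          exact ⟨fun h => Or.inr h, fun h => h.resolve_left hj⟩
      rw [hc₀]
      unfold cnt
      rw [this, Finset.card_insert_of_notMem hni]
    -- sample points
    obtain ⟨m, hm, m1, m2, m3, m4⟩ : ∃ m > 0, m < δ ∧ m < δ' ∧ m < (H i).p ∧ m < 1 - (H i).p := by
      have aux : ∀ {x : ℝ}, 0 < x → ∀ᶠ m in 𝓝[>] (0 : ℝ), m < x := fun {x} hx =>
        nhdsWithin_le_nhds (Iio_mem_nhds hx)
      obtain ⟨μ, hμ, hμ0⟩ := (((aux hδ).and ((aux hδ').and ((aux hpi.1).and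
        (aux (by linarith [hpi.2] : 0 < 1 - (H i).p))))).and self_mem_nhdsWithin).exists
      exact ⟨μ, hμ0, hμ⟩
    have hbefore : ∀ y, |y - (H i).p| ≤ m → y < (H i).p →
        cyY H y = cyY H ((H i).p - m) := by
      intro y hy hyp
      have h2 := abs_le.1 hy
      unfold cyY
      rw [cbefore y (hy.trans_lt m2) hyp, cbefore ((H i).p - m) (by
        rw [sub_sub_cancel_left, abs_neg, abs_of_pos hm]; exact m2) (by linarith)]
      congr 1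
      have f1 := hflip' ((H i).p + m) ⟨by linarith, by linarith⟩ y ⟨by linarith, hyp⟩
      have f2 := hflip' ((H i).p + m) ⟨by linarith, by linarith⟩ ((H i).p - m)
        ⟨by linarith, by linarith⟩
      exact neg_injective (f1.symm.trans f2)
    have hafter : ∀ y, |y - (H i).p| ≤ m → (H i).p < y →
        cyY H y = cyY H ((H i).p - m) := by
      intro y hy hyp
      have h2 := abs_le.1 hy
      unfold cyY
      rw [cafter y (hy.trans_lt m2) hyp, cbefore ((H i).p - m) (by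
        rw [sub_sub_cancel_left, abs_neg, abs_of_pos hm]; exact m2) (by linarith)]
      rw [hflip' y ⟨hyp, by linarith⟩ ((H i).p - m) ⟨by linarith, by linarith⟩, pow_succ]
      ring
    refine ⟨cyY H ((H i).p - m), Metric.eventually_nhds_iff.2 ⟨m, hm, ?_⟩⟩
    intro y hy _ hyp
    rw [Real.dist_eq] at hy
    rcases lt_or_gt_of_ne (hyp i) with h | h
    · exact hafter y hy.le h
    · exact hbefore y hy.le h

/-- the corrected sign is constant -/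
lemma cyY_const (he : ContinuousOn e (Icc 0 1)) (hei : InjOn e (Icc 0 1)) (H : Fin 4 → Half e)
    (hH : ∀ i j, i ≠ j → (H i).p ≠ (H j).p)
    (hc : ∀ i, (H i).f 1 = (H (i + 1)).f 0) {x y : ℝ} (hx : x ∈ Icc (0 : ℝ) 1)
    (hy : y ∈ Icc (0 : ℝ) 1) (hxp : ∀ i, (H i).p ≠ x) (hyp : ∀ i, (H i).p ≠ y) :
    cyY H x = cyY H y := by
  -- the set where the local value is `v`
  set S : ℂ → Set ℝ := fun v => {x | ∀ᶠ y in 𝓝 x, y ∈ Icc (0 : ℝ) 1 → (∀ i, (H i).p ≠ y) →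
    cyY H y = v} with hS
  have hSo : ∀ v, IsOpen (S v) := fun v => isOpen_iff_mem_nhds.2 fun x hx => hx.eventually_nhds
  have hcov : Icc (0 : ℝ) 1 ⊆ S (cyY H x) ∪ ⋃ v ∈ {v : ℂ | v ≠ cyY H x}, S v := by
    intro z hz
    obtain ⟨v, hv⟩ := cyY_local he hei H hH hc z hz
    by_cases h : v = cyY H x
    · exact Or.inl (h ▸ hv)
    · exact Or.inr (mem_biUnion (x := v) h hv)
  by_contra hne
  have hxS : x ∈ S (cyY H x) := by
    obtain ⟨v, hv⟩ := cyY_local he hei H hH hc x hx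
    have : cyY H x = v := hv.self_of_nhds hx hxp
    rw [this]
    exact hv
  have hyS : y ∈ ⋃ v ∈ {v : ℂ | v ≠ cyY H x}, S v := by
    obtain ⟨v, hv⟩ := cyY_local he hei H hH hc y hy
    have h : cyY H y = v := hv.self_of_nhds hy hyp
    refine mem_biUnion (x := v) ?_ hv
    rw [← h]
    exact fun h' => hne h'.symm
  obtain ⟨z, hz, hz1, hz2⟩ := isPreconnected_Icc (a := (0 : ℝ)) (b := 1) (S (cyY H x))
    (⋃ v ∈ {v : ℂ | v ≠ cyY H x}, S v) (hSo _) (isOpen_biUnion fun v _ => hSo v) hcov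
    ⟨x, hx, hxS⟩ ⟨y, hy, hyS⟩
  obtain ⟨v, hv, hzv⟩ := mem_iUnion₂.1 hz2
  -- a point of `[0,1]` off the crossings near `z`
  have hfin : (⋃ i, {(H i).p} : Set ℝ).Finite := Set.finite_iUnion fun i => Set.finite_singleton _
  have hboth := hz1.and hzv
  obtain ⟨u, hu, huI, hup⟩ : ∃ u, ((u ∈ Icc (0 : ℝ) 1 → (∀ i, (H i).p ≠ u) →
      cyY H u = cyY H x) ∧ (u ∈ Icc (0 : ℝ) 1 → (∀ i, (H i).p ≠ u) → cyY H u = v)) ∧
      u ∈ Icc (0 : ℝ) 1 ∧ ∀ i, (H i).p ≠ u := by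
    have hinf : (Icc (0 : ℝ) 1 ∩ {u | (u ∈ Icc (0 : ℝ) 1 → (∀ i, (H i).p ≠ u) →
        cyY H u = cyY H x) ∧ (u ∈ Icc (0 : ℝ) 1 → (∀ i, (H i).p ≠ u) → cyY H u = v)}).Infinite := by
      obtain ⟨δ, hδ, hδ'⟩ := Metric.eventually_nhds_iff.1 hboth
      rcases lt_or_ge z 1 with h | h
      · refine (Ioo_infinite (a := z) (b := min 1 (z + δ)) (lt_min h (by linarith))).mono ?_
        intro u hu
        refine ⟨⟨hz.1.trans hu.1.le, hu.2.le.trans (min_le_left _ _)⟩, hδ' ?_⟩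
        rw [Real.dist_eq, abs_of_pos (by linarith [hu.1])]
        linarith [hu.2, min_le_right 1 (z + δ)]
      · refine (Ioo_infinite (a := max 0 (z - δ)) (b := z) (max_lt (by linarith) (by linarith))).mono
          ?_
        intro u hu
        refine ⟨⟨(le_max_left _ _).trans hu.1.le, hu.2.le.trans hz.2⟩, hδ' ?_⟩
        rw [Real.dist_eq, abs_sub_comm, abs_of_pos (by linarith [hu.2])]
        linarith [hu.1, le_max_right 0 (z - δ)]
    obtain ⟨u, hu, hu'⟩ := (hinf.sdiff hfin).nonempty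
    refine ⟨u, hu.2, hu.1, fun i hi => hu' (mem_iUnion.2 ⟨i, hi.symm⟩)⟩
  exact hv ((hu.2 huI hup).symm.trans (hu.1 huI hup))

/-- (F3) -/
theorem side_F3 (he : ContinuousOn e (Icc 0 1)) (hei : InjOn e (Icc 0 1))
    (H : Fin 4 → Half e) (hH : ∀ i j, i ≠ j → (H i).p ≠ (H j).p)
    (hc : ∀ i, (H i).f 1 = (H (i + 1)).f 0) (G₁ G₂ : Half e) (hG : G₁.f 0 = G₂.f 0)
    (d₁ : ∀ i, ∀ s ∈ Icc (0 : ℝ) 1, ∀ t ∈ Icc (0 : ℝ) 1, (H i).f s ≠ G₁.f t)
    (d₂ : ∀ i, ∀ s ∈ Icc (0 : ℝ) 1, ∀ t ∈ Ico (0 : ℝ) 1, (H i).f s ≠ G₂.f t) :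
    ((Finset.univ.filter fun i => (H i).p < G₁.p).card) % 2 =
      ((Finset.univ.filter fun i => (H i).p < G₂.p).card) % 2 := by
  have n1 : ∀ i, (H i).p ≠ G₁.p := by
    intro i hi
    refine d₁ i _ (H i).q_mem' _ G₁.q_mem' ?_
    rw [← (H i).e_p, ← G₁.e_p, hi]
  have n2 : ∀ i, (H i).p ≠ G₂.p := by
    intro i hi
    refine d₂ i _ (H i).q_mem' _ ⟨G₂.q_mem.1.le, G₂.q_mem.2⟩ ?_
    rw [← (H i).e_p, ← G₂.e_p, hi]
  have hY := cyY_const he hei H hH hc G₁.p_mem' G₂.p_mem' n1 n2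
  have hX1 : cyX H (e G₁.p) = cyX H (G₁.f 0) := by
    rw [G₁.e_p]
    refine cyX_const H hc (K := G₁.f '' Icc 0 1) (isPreconnected_Icc.image _ G₁.cont) ?_
      (mem_image_of_mem _ G₁.q_mem') (mem_image_of_mem _ ⟨le_rfl, zero_le_one⟩)
    rintro _ ⟨t, ht, rfl⟩ h
    obtain ⟨i, s, hs, hst⟩ := mem_iUnion.1 h
    exact d₁ i s hs t ht hst
  have hX2 : cyX H (e G₂.p) = cyX H (G₂.f 0) := by
    rw [G₂.e_p]
    refine cyX_const H hc (K := G₂.f '' Ico 0 1)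
      (isPreconnected_Ico.image _ (G₂.cont.mono Ico_subset_Icc_self)) ?_
      (mem_image_of_mem _ ⟨G₂.q_mem.1.le, G₂.q_mem.2⟩) (mem_image_of_mem _ ⟨le_rfl, zero_lt_one⟩)
    rintro _ ⟨t, ht, rfl⟩ h
    obtain ⟨i, s, hs, hst⟩ := mem_iUnion.1 h
    exact d₂ i s hs t ht hst
  have hne : cyX H (G₂.f 0) ≠ 0 := by
    have := cyX_sq H hc (z := G₂.f 0) (fun h => by
      obtain ⟨i, s, hs, hst⟩ := mem_iUnion.1 h
      exact d₂ i s hs 0 ⟨le_rfl, zero_lt_one⟩ hst)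
    intro h
    rw [h] at this
    norm_num at this
  unfold cyY at hY
  rw [hX1, hX2, hG] at hY
  have hpow := mul_left_cancel₀ hne hY
  change cnt H G₁.p % 2 = cnt H G₂.p % 2
  rcases Nat.even_or_odd (cnt H G₁.p) with h1 | h1 <;> rcases Nat.even_or_odd (cnt H G₂.p) with h2 | h2
  · rw [Nat.even_iff.1 h1, Nat.even_iff.1 h2]
  · rw [h1.neg_one_pow, h2.neg_one_pow] at hpow
    norm_num at hpow
  · rw [h1.neg_one_pow, h2.neg_one_pow] at hpow
    norm_num at hpow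
  · rw [Nat.odd_iff.1 h1, Nat.odd_iff.1 h2]

end F3

end Pool.Agent.LP
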