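import Pool.Agent.H12_d8337a.Defs
import Pool.Agent.H12_d8337a.Sys
import Pool.Agent.H12_d8337a.Side

/-!
# From topological graphs to combinatorial systems
-/

open Set Filter Topology

namespace Pool.Agent.LP


theorem CrossesAt.ne {S T : Set ℂ} {z : ℂ} (h : CrossesAt S T z) : S ≠ T := by
  rintro rfl
  obtain ⟨h, hz, h0, H⟩ := h
  have ht : h.target ∈ 𝓝 (0:ℂ) := by
    rw [← h0]; exact h.open_target.mem_nhds (h.map_source hz)
  obtain ⟨r, hr, hb⟩ := Metric.mem_nhds_iff.1 ht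
  have hx : ((r/2 : ℝ) : ℂ) ∈ h.target := hb (by
    simp [abs_of_pos hr]; linarith)
  have h1 := H (h.symm (r/2:ℝ)) (h.map_target hx)
  rw [h.right_inv hx] at h1
  have h2 := h1.2.1 (h1.1.2 (Complex.ofReal_im _))
  rw [Complex.ofReal_re] at h2
  linarith

/-- lifting a map into an arc through the parametrisation of the arc -/
theorem exists_lift {c : ℝ → ℂ} (hc : ContinuousOn c (Icc 0 1)) (hci : InjOn c (Icc 0 1))
    {g : ℝ → ℂ} {s : Set ℝ} (hg : ContinuousOn g s) (hm : ∀ x ∈ s, g x ∈ c '' Icc 0 1) :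
    ∃ φ : ℝ → ℝ, ContinuousOn φ s ∧ ∀ x ∈ s, φ x ∈ Icc (0 : ℝ) 1 ∧ c (φ x) = g x := by
  classical
  have hemb : IsClosedEmbedding (fun t : Icc (0:ℝ) 1 => c t) :=
    Continuous.isClosedEmbedding (continuousOn_iff_continuous_domRestrict.1 hc)
      (fun a b h => Subtype.ext (hci a.2 b.2 h))
  have : ∀ x : s, ∃ t : Icc (0:ℝ) 1, c t = g x := fun x => by
    obtain ⟨t, ht, h⟩ := hm x x.2
    exact ⟨⟨t, ht⟩, h⟩
  choose φ' hφ' using this
  have hcont : Continuous φ' := by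
    rw [hemb.isEmbedding.continuous_iff]
    have : (fun t : Icc (0:ℝ) 1 => c t) ∘ φ' = s.domRestrict g := funext hφ'
    rw [this]
    exact continuousOn_iff_continuous_domRestrict.1 hg
  refine ⟨fun x => if h : x ∈ s then φ' ⟨x, h⟩ else 0, ?_, ?_⟩
  · rw [continuousOn_iff_continuous_domRestrict]
    have : s.domRestrict (fun x => if h : x ∈ s then ((φ' ⟨x, h⟩ : Icc (0:ℝ) 1) : ℝ) else 0)
        = fun x : s => ((φ' x : Icc (0:ℝ) 1) : ℝ) := by
      ext x
      simp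
    rw [this]
    exact continuous_subtype_val.comp hcont
  · intro x hx
    simp only [hx, dite_true]
    exact ⟨(φ' ⟨x, hx⟩).2, hφ' _⟩

theorem exists_sign {φ : ℝ → ℝ} {r : ℝ} (hr : 0 < r) (hφ : ContinuousOn φ (Ioo (-r) r))
    (hi : InjOn φ (Ioo (-r) r)) :
    ∃ σ : ℝ, (σ = 1 ∨ σ = -1) ∧ StrictMonoOn (fun x => φ (σ * x)) (Ioo (-r) r) := by
  rcases ContinuousOn.strictMonoOn_of_injOn_Ioo (by linarith) hφ hi with h | h
  · exact ⟨1, Or.inl rfl, by simpa using h⟩
  · refine ⟨-1, Or.inr rfl, fun x hx y hy hxy => ?_⟩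
    have hx' : -1 * x ∈ Ioo (-r) r := ⟨by linarith [hx.2], by linarith [hx.1]⟩
    have hy' : -1 * y ∈ Ioo (-r) r := ⟨by linarith [hy.2], by linarith [hy.1]⟩
    exact h hy' hx' (by linarith)

theorem exists_chart {c d : ℝ → ℂ} (hc : ContinuousOn c (Icc 0 1)) (hci : InjOn c (Icc 0 1))
    (hd : ContinuousOn d (Icc 0 1)) (hdi : InjOn d (Icc 0 1)) {z : ℂ}
    (h : CrossesAt (c '' Icc 0 1) (d '' Icc 0 1) z) :
    ∃ p q, c p = z ∧ d q = z ∧ Nonempty (Chart c d p q) := by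
  obtain ⟨h, hz, h0, H⟩ := h
  have ht : h.target ∈ 𝓝 (0:ℂ) := by
    rw [← h0]; exact h.open_target.mem_nhds (h.map_source hz)
  obtain ⟨r, hr, hb⟩ := Metric.mem_nhds_iff.1 ht
  have hk : ContinuousOn h.symm (Metric.ball 0 r) := h.continuousOn_symm.mono hb
  have hre : ∀ x ∈ Ioo (-r) r, (x:ℂ) ∈ Metric.ball (0:ℂ) r := by
    intro x hx
    simp only [mem_ball_zero_iff, Complex.norm_real, Real.norm_eq_abs]
    exact abs_lt.2 hx
  have him : ∀ x ∈ Ioo (-r) r, (x:ℂ) * Complex.I ∈ Metric.ball (0:ℂ) r := by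
    intro x hx
    simp only [mem_ball_zero_iff, Complex.norm_mul, Complex.norm_real, Real.norm_eq_abs,
      Complex.norm_I, mul_one]
    exact abs_lt.2 hx
  have hHre : ∀ w ∈ Metric.ball (0:ℂ) r, (h.symm w ∈ c '' Icc 0 1 ↔ w.im = 0) ∧
      (h.symm w ∈ d '' Icc 0 1 ↔ w.re = 0) := by
    intro w hw
    have := H (h.symm w) (h.map_target (hb hw))
    rwa [h.right_inv (hb hw)] at this
  obtain ⟨φ, φc, φm⟩ := exists_lift hc hci (g := fun x : ℝ => h.symm (x:ℂ)) (s := Ioo (-r) r)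
    (hk.comp (Complex.continuous_ofReal.continuousOn) hre)
    (fun x hx => (hHre _ (hre x hx)).1.2 (Complex.ofReal_im _))
  obtain ⟨ψ, ψc, ψm⟩ := exists_lift hd hdi (g := fun x : ℝ => h.symm ((x:ℂ) * Complex.I))
    (s := Ioo (-r) r)
    (hk.comp ((Complex.continuous_ofReal.mul continuous_const).continuousOn) him)
    (fun x hx => (hHre _ (him x hx)).2.2 (by simp))
  have hsinj : InjOn h.symm (Metric.ball 0 r) := h.symm.injOn.mono hb
  have φinj : InjOn φ (Ioo (-r) r) := by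
    intro x hx y hy hxy
    have := (φm x hx).2.symm.trans ((congrArg c hxy).trans (φm y hy).2)
    exact Complex.ofReal_injective (hsinj (hre x hx) (hre y hy) this)
  have ψinj : InjOn ψ (Ioo (-r) r) := by
    intro x hx y hy hxy
    have := (ψm x hx).2.symm.trans ((congrArg d hxy).trans (ψm y hy).2)
    have := hsinj (him x hx) (him y hy) this
    exact Complex.ofReal_injective (mul_right_cancel₀ Complex.I_ne_zero this)
  obtain ⟨σ, hσ, hφσ⟩ := exists_sign hr φc φinj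
  obtain ⟨τ, hτ, hψτ⟩ := exists_sign hr ψc ψinj
  have hz0 : h.symm 0 = z := by rw [← h0]; exact h.left_inv hz
  have hσI : ∀ x ∈ Ioo (-r) r, σ * x ∈ Ioo (-r) r := by
    intro x hx
    rcases hσ with rfl | rfl
    · simpa using hx
    · exact ⟨by linarith [hx.2], by linarith [hx.1]⟩
  have hτI : ∀ x ∈ Ioo (-r) r, τ * x ∈ Ioo (-r) r := by
    intro x hx
    rcases hτ with rfl | rfl
    · simpa using hx
    · exact ⟨by linarith [hx.2], by linarith [hx.1]⟩
  have hσ0 : σ ≠ 0 := by rcases hσ with rfl | rfl <;> norm_num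
  have hτ0 : τ ≠ 0 := by rcases hτ with rfl | rfl <;> norm_num
  have hσσ : σ * σ = 1 := by rcases hσ with rfl | rfl <;> norm_num
  have hττ : τ * τ = 1 := by rcases hτ with rfl | rfl <;> norm_num
  -- the reflected chart
  set R : ℂ → ℂ := fun w => ⟨σ * w.re, τ * w.im⟩ with hR
  have hRball : ∀ w ∈ Metric.ball (0:ℂ) r, R w ∈ Metric.ball (0:ℂ) r := by
    intro w hw
    rw [mem_ball_zero_iff] at hw ⊢
    have : ‖R w‖ = ‖w‖ := by
      rw [Complex.norm_def, Complex.norm_def, Complex.normSq_apply, Complex.normSq_apply]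
      congr 1
      simp only [hR]
      linear_combination (w.re * w.re) * hσσ + (w.im * w.im) * hττ
    rwa [this]
  have hRcont : Continuous R := by
    have : R = fun w => ((σ * w.re : ℝ) : ℂ) + ((τ * w.im : ℝ) : ℂ) * Complex.I := by
      ext w
      apply Complex.ext <;> simp [hR]
    rw [this]
    fun_prop
  have hRinj : Function.Injective R := by
    intro w w' hww
    have h1 := congrArg Complex.re hww
    have h2 := congrArg Complex.im hww
    simp only [hR] at h1 h2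
    exact Complex.ext (mul_left_cancel₀ hσ0 h1) (mul_left_cancel₀ hτ0 h2)
  refine ⟨φ 0, ψ 0, ?_, ?_, ⟨⟨fun w => h.symm (R w), r, fun x => φ (σ * x), fun x => ψ (τ * x), hr,
    ?_, ?_, ?_, ?_, hφσ, hψτ, ?_, ?_, ?_, ?_, ?_, ?_, ?_, ?_⟩⟩⟩
  · rw [(φm 0 ⟨by linarith, hr⟩).2]; simpa using hz0
  · rw [(ψm 0 ⟨by linarith, hr⟩).2]; simpa using hz0
  · exact hk.comp hRcont.continuousOn hRball
  · exact fun w hw w' hw' hww => hRinj (hsinj (hRball w hw) (hRball w' hw') hww)
  · exact φc.comp (by fun_prop) hσI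
  · exact ψc.comp (by fun_prop) hτI
  · exact fun x hx => (φm _ (hσI x hx)).1
  · exact fun x hx => (ψm _ (hτI x hx)).1
  · simp
  · simp
  · intro x hx
    rw [(φm _ (hσI x hx)).2]
    congr 1
    apply Complex.ext <;> simp [hR]
  · intro x hx
    rw [(ψm _ (hτI x hx)).2]
    congr 1
    apply Complex.ext <;> simp [hR]
  · intro w hw hwc
    have := (hHre _ (hRball w hw)).1.1 hwc
    simp only [hR] at this
    exact (mul_eq_zero.1 this).resolve_left hτ0
  · intro w hw hwc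
    have := (hHre _ (hRball w hw)).2.1 hwc
    simp only [hR] at this
    exact (mul_eq_zero.1 this).resolve_left hσ0

/-! ### facts about halves -/

theorem Half.eq_pt {e : ℝ → ℂ} (H : Half e) : e H.p = H.f H.q := by
  have hr := H.chart.r_pos
  have h0 : (0 : ℝ) ∈ Ioo (-H.chart.r) H.chart.r := ⟨by linarith, hr⟩
  have h1 := H.chart.c_eq 0 h0
  have h2 := H.chart.d_eq 0 h0
  rw [H.chart.φ_zero] at h1
  rw [H.chart.ψ_zero] at h2
  rw [h1, h2]
  simp

theorem Half.p_ne {e : ℝ → ℂ} (H H' : Half e) (h : Disjoint H.set H'.set) : H.p ≠ H'.p := by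
  intro hp
  refine Set.disjoint_left.1 h (?_ : e H.p ∈ H.set) ?_
  · exact ⟨H.q, ⟨le_rfl, H.q_mem.2.le⟩, H.eq_pt.symm⟩
  · rw [hp]
    exact ⟨H'.q, ⟨le_rfl, H'.q_mem.2.le⟩, H'.eq_pt.symm⟩

theorem Half.lab_excl {e : ℝ → ℂ} {α β : ℝ} {R : Ref e α β} {H : Half e} (h : H.Lab R 1)
    (h' : H.Lab R (-1)) : False := by
  obtain ⟨δ, hδ, h⟩ := h
  obtain ⟨δ', hδ', h'⟩ := h'
  have hm : 0 < min δ δ' := lt_min hδ hδ'
  have h1 := h (H.q + min δ δ' / 2) ⟨by linarith, by linarith [min_le_left δ δ']⟩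
  have h2 := h' (H.q + min δ δ' / 2) ⟨by linarith, by linarith [min_le_right δ δ']⟩
  rw [h1] at h2
  norm_num at h2

theorem Half.rev_im {e : ℝ → ℂ} (H : Half e) : H.rev.f '' Icc 0 1 = H.f '' Icc 0 1 := by
  ext z
  constructor
  · rintro ⟨t, ht, rfl⟩
    exact ⟨1 - t, ⟨by linarith [ht.2], by linarith [ht.1]⟩, (H.rev_f t).symm⟩
  · rintro ⟨t, ht, rfl⟩
    exact ⟨1 - t, ⟨by linarith [ht.2], by linarith [ht.1]⟩, by rw [H.rev_f]; ring_nf⟩

/-! ### topological graphs -/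

variable {V : Type*}

theorem exists_half (D : TopGraph V) (hS : D.Simple) {e : Sym2 V} (he : e ∈ D.graph.edgeSet)
    {c : ℝ → ℂ} (hc : ContinuousOn c (Icc 0 1)) (hci : InjOn c (Icc 0 1))
    (hce : c '' Icc 0 1 = D.curve e) {u v : V} (h : D.graph.Adj u v) (hx : D.Cross e s(u, v)) :
    ∃ H : Half c, H.f 0 = D.pt u ∧ H.f 1 = D.pt v ∧ H.f '' Icc 0 1 = D.curve s(u, v) := by
  obtain ⟨f, hf, hfi, f0, f1, fim⟩ := D.isArc u v h
  obtain ⟨z, ⟨hz1, hz2⟩, hcr⟩ := hx
  have hne : e ≠ s(u, v) := fun h => hcr.ne (by rw [h])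
  rw [← hce, ← fim] at hcr
  obtain ⟨p, q, hp, hq, ⟨ch⟩⟩ := exists_chart hc hci hf hfi hcr
  have h0 : (0 : ℝ) ∈ Ioo (-ch.r) ch.r := ⟨by linarith [ch.r_pos], ch.r_pos⟩
  have hpI : p ∈ Icc (0 : ℝ) 1 := ch.φ_zero ▸ ch.φ_mem 0 h0
  have hqI : q ∈ Icc (0 : ℝ) 1 := ch.ψ_zero ▸ ch.ψ_mem 0 h0
  refine ⟨⟨f, p, q, ch, hf, hfi, ?_⟩, f0, f1, fim⟩
  intro s hs t ht hst
  have hcs : c s = z := hS e he s(u, v) h hne
    ⟨hce ▸ ⟨s, hs, rfl⟩, fim ▸ ⟨t, ht, hst.symm⟩⟩ ⟨hz1, hz2⟩
  exact ⟨hci hs hpI (hcs.trans hp.symm), hfi ht hqI ((hst.symm.trans hcs).trans hq.symm)⟩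

theorem common1 (D : TopGraph V) (hL : D.LocallyPlanar 3) {a b b' : V} (h : D.graph.Adj a b)
    (h' : D.graph.Adj a b') (hb : b ≠ b') {z : ℂ} (hz : z ∈ D.curve s(a, b))
    (hz' : z ∈ D.curve s(a, b')) : z = D.pt a := by
  have hne : s(a, b) ≠ s(a, b') := by
    intro h2
    rcases Sym2.eq_iff.1 h2 with h3 | h3
    · exact hb h3.2
    · exact hb (h3.2.trans h3.1)
  rcases D.meets _ h _ h' hne z ⟨hz, hz'⟩ with ⟨w, hw, hw', rfl⟩ | hcr
  · rcases Sym2.mem_iff.1 hw with rfl | rfl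
    · rfl
    · rcases Sym2.mem_iff.1 hw' with rfl | rfl
      · rfl
      · exact absurd rfl hb
  · exfalso
    have hp : (SimpleGraph.Walk.cons h.symm (SimpleGraph.Walk.cons h' SimpleGraph.Walk.nil)).IsPath := by
      simp [SimpleGraph.Walk.cons_isPath_iff, hb, h.ne', h'.ne]
    refine hL b b' _ hp (by simp) s(a, b) (by simp [Sym2.eq_swap]) s(a, b') (by simp) hne
      ⟨z, ⟨hz, hz'⟩, hcr⟩

theorem common2 (D : TopGraph V) (hL : D.LocallyPlanar 3) {a b a' b' : V} (h : D.graph.Adj a b)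
    (h' : D.graph.Adj a' b') (h'' : D.graph.Adj a b') (ha : a ≠ a') (hb : b ≠ b') (hab : b ≠ a')
    {z : ℂ} (hz : z ∈ D.curve s(a, b)) (hz' : z ∈ D.curve s(a', b')) : False := by
  have hne : s(a, b) ≠ s(a', b') := by
    intro h2
    rcases Sym2.eq_iff.1 h2 with h3 | h3
    · exact hb h3.2
    · exact hab h3.2
  rcases D.meets _ h _ h' hne z ⟨hz, hz'⟩ with ⟨w, hw, hw', rfl⟩ | hcr
  · rcases Sym2.mem_iff.1 hw with rfl | rfl
    · rcases Sym2.mem_iff.1 hw' with rfl | rfl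
      · exact absurd rfl ha
      · exact h''.ne rfl
    · rcases Sym2.mem_iff.1 hw' with rfl | rfl
      · exact absurd rfl hab
      · exact absurd rfl hb
  · have hp : (SimpleGraph.Walk.cons h.symm (SimpleGraph.Walk.cons h''
        (SimpleGraph.Walk.cons h'.symm SimpleGraph.Walk.nil))).IsPath := by
      simp [SimpleGraph.Walk.cons_isPath_iff, hb, h.ne', h''.ne, ha, hab, h'.ne']
    refine hL b a' _ hp (by simp) s(a, b) (by simp [Sym2.eq_swap]) s(a', b')
      (by simp [Sym2.eq_swap]) hne ⟨z, ⟨hz, hz'⟩, hcr⟩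

/-! ### realisations -/

open Classical in
/-- the indicator of a proposition (used to get rid of decidability instances) -/
noncomputable def ind (P : Prop) : ℕ := if P then 1 else 0

theorem ite_ind (P : Prop) [h : Decidable P] : (if P then 1 else 0 : ℕ) = ind P := by
  unfold ind
  congr

/-- A realisation of an edge set `E` (from the colour class `κ` to the other one) by halves of arcs
crossing `c`, all on the side `ε`. -/
structure Realn (D : TopGraph V) (col : V → Bool) (κ : Bool) (c : ℝ → ℂ) {α β : ℝ}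
    (R : Ref c α β) (ε : ℂ) (E : Finset (V × V)) (pos : V × V → ℝ) where
  adj : ∀ f ∈ E, D.graph.Adj f.1 f.2
  col1 : ∀ f ∈ E, col f.1 = κ
  H : ∀ f, f ∈ E → Half c
  mem : ∀ f hf, (H f hf).p ∈ Icc α β
  f0 : ∀ f hf, (H f hf).f 0 = D.pt f.1
  f1 : ∀ f hf, (H f hf).f 1 = D.pt f.2
  im : ∀ f hf, (H f hf).f '' Icc 0 1 = D.curve s(f.1, f.2)
  lab : ∀ f hf, (H f hf).Lab R ε
  le : ∀ f hf g hg, pos f < pos g → (H f hf).p ≤ (H g hg).p

namespace Realn

variable {D : TopGraph V} {col : V → Bool} {κ : Bool} {c : ℝ → ℂ} {α β : ℝ} {R : Ref c α β}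
  {ε : ℂ} {E : Finset (V × V)} {pos : V × V → ℝ}

theorem mem_curve (S : Realn D col κ c R ε E pos) {f : V × V} (hf : f ∈ E) {t : ℝ}
    (ht : t ∈ Icc (0 : ℝ) 1) : (S.H f hf).f t ∈ D.curve s(f.1, f.2) :=
  S.im f hf ▸ ⟨t, ht, rfl⟩

theorem set_sub (S : Realn D col κ c R ε E pos) {f : V × V} (hf : f ∈ E) {z : ℂ}
    (hz : z ∈ (S.H f hf).set) : z ∈ D.curve s(f.1, f.2) ∧ z ≠ D.pt f.1 := by
  obtain ⟨t, ht, rfl⟩ := hz
  have hq := (S.H f hf).q_mem
  have ht' : t ∈ Icc (0 : ℝ) 1 := ⟨hq.1.le.trans ht.1, ht.2⟩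
  refine ⟨S.mem_curve hf ht', ?_⟩
  rw [← S.f0 f hf]
  intro h
  have := (S.H f hf).inj ht' ⟨le_rfl, zero_le_one⟩ h
  linarith [hq.1, ht.1]

theorem ne_col (S : Realn D col κ c R ε E pos)
    (hcol : ∀ u v, D.graph.Adj u v → col u ≠ col v) {f g : V × V} (hf : f ∈ E) (hg : g ∈ E) :
    f.2 ≠ g.1 := by
  intro h
  have h1 := S.col1 f hf
  have h2 := S.col1 g hg
  have h3 := hcol _ _ (S.adj f hf)
  rw [← h] at h2
  exact h3 (h1.trans h2.symm)

/-- two independent edges joined by an edge are disjoint -/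
theorem curves (hL : D.LocallyPlanar 3) (S : Realn D col κ c R ε E pos)
    (hcol : ∀ u v, D.graph.Adj u v → col u ≠ col v) {a b a' b' : V} (hf : (a, b) ∈ E)
    (hg : (a', b') ∈ E) (ha : a ≠ a') (hb : b ≠ b') (h : (a, b') ∈ E ∨ (a', b) ∈ E) {z : ℂ}
    (hz : z ∈ D.curve s(a, b)) (hz' : z ∈ D.curve s(a', b')) : False := by
  rcases h with h | h
  · exact common2 D hL (S.adj _ hf) (S.adj _ hg) (S.adj _ h) ha hb (S.ne_col hcol hf hg) hz hz'
  · exact common2 D hL (S.adj _ hg) (S.adj _ hf) (S.adj _ h) ha.symm hb.symm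
      (S.ne_col hcol hg hf) hz' hz

theorem disj (hL : D.LocallyPlanar 3) (S : Realn D col κ c R ε E pos)
    (hcol : ∀ u v, D.graph.Adj u v → col u ≠ col v) {a b a' b' : V} (hf : (a, b) ∈ E)
    (hg : (a', b') ∈ E) (hb : b ≠ b') (h : (a, b') ∈ E ∨ (a', b) ∈ E) :
    Disjoint (S.H _ hf).set (S.H _ hg).set := by
  rw [Set.disjoint_left]
  intro z hz hz'
  by_cases ha : a = a'
  · subst ha
    exact (S.set_sub hf hz).2
      (common1 D hL (b := b) (b' := b') (S.adj (a, b) hf) (S.adj (a, b') hg) hb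
        (S.set_sub hf hz).1 (S.set_sub hg hz').1)
  · exact S.curves hL hcol hf hg ha hb h (S.set_sub hf hz).1 (S.set_sub hg hz').1

theorem lt_of_disj (S : Realn D col κ c R ε E pos) {f g : V × V} {hf : f ∈ E} {hg : g ∈ E}
    (h : Disjoint (S.H f hf).set (S.H g hg).set) (hp : pos f < pos g) :
    (S.H f hf).p < (S.H g hg).p :=
  lt_of_le_of_ne (S.le f hf g hg hp) (Half.p_ne _ _ h)

theorem axT (hS : D.Simple) (hL : D.LocallyPlanar 3) (S : Realn D col κ c R ε E pos)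
    (hcol : ∀ u v, D.graph.Adj u v → col u ≠ col v) (hc : ContinuousOn c (Icc 0 1))
    (hci : InjOn c (Icc 0 1)) : AxT E pos := by
  intro b₁ b₂ b₃ a₁₂ a₁₃ a₂₃ ax ay h12 h13 h23 o i h₁₃₁ u h₂₃₂ v x y p1 p2 p3 p4 p5
  have doi := S.disj hL hcol o i h12 (Or.inl i)
  have doy := S.disj hL hcol o y h12 (Or.inl i)
  have dxi := S.disj hL hcol x i h12 (Or.inr o)
  have duo := S.disj hL hcol u o h13.symm (Or.inl h₁₃₁)
  have dux := S.disj hL hcol u x h13.symm (Or.inl h₁₃₁)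
  have dvi := S.disj hL hcol v i h23.symm (Or.inl h₂₃₂)
  have dvy := S.disj hL hcol v y h23.symm (Or.inl h₂₃₂)
  refine side_T hc hci R (S.H _ o) (S.H _ x) (S.H _ i) (S.H _ y) (S.H _ u) (S.H _ v)
    (S.mem _ o) (S.mem _ x) (S.mem _ i) (S.mem _ y) (S.mem _ u) (S.mem _ v)
    (S.lab _ o) (S.lab _ x) (S.lab _ i) (S.lab _ y) (S.lab _ u) (S.lab _ v)
    ?_ ?_ ?_ doi doy dxi ?_ duo dux dvi dvy ?_ ?_ ?_ ?_ ?_
  · rw [S.f1, S.f1]
  · rw [S.f1, S.f1]
  · rw [S.f1, S.f1]
  · by_cases hcr : D.Cross s(ax, b₁) s(ay, b₂)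
    · right
      obtain ⟨z, ⟨hz1, hz2⟩, hcr⟩ := hcr
      have hne : s(ax, b₁) ≠ s(ay, b₂) := fun h => hcr.ne (by rw [h])
      have hcr' := hcr
      have e1 := S.im _ x
      have e2 := S.im _ y
      dsimp only at e1 e2
      rw [← e1, ← e2] at hcr'
      obtain ⟨τ, τ', h1, h2, ⟨ch⟩⟩ := exists_chart (S.H _ x).cont (S.H _ x).inj (S.H _ y).cont
        (S.H _ y).inj hcr'
      refine ⟨τ, τ', ⟨ch⟩, fun s hs t ht hst => ?_⟩
      have h0 : (0 : ℝ) ∈ Ioo (-ch.r) ch.r := ⟨by linarith [ch.r_pos], ch.r_pos⟩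
      have hpI : τ ∈ Icc (0 : ℝ) 1 := ch.φ_zero ▸ ch.φ_mem 0 h0
      have hqI : τ' ∈ Icc (0 : ℝ) 1 := ch.ψ_zero ▸ ch.ψ_mem 0 h0
      have hcs : (S.H _ x).f s = z := hS _ (S.adj _ x) _ (S.adj _ y) hne
        ⟨S.mem_curve x hs, hst ▸ S.mem_curve y ht⟩ ⟨hz1, hz2⟩
      exact ⟨(S.H _ x).inj hs hpI (hcs.trans h1.symm),
        (S.H _ y).inj ht hqI ((hst.symm.trans hcs).trans h2.symm)⟩
    · left
      rw [Set.disjoint_left]
      intro z hz hz'
      have hz1 := S.set_sub x hz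
      have hz2 := S.set_sub y hz'
      have hne : s(ax, b₁) ≠ s(ay, b₂) := by
        intro h
        rcases Sym2.eq_iff.1 h with h3 | h3
        · exact h12 h3.2
        · exact S.ne_col hcol x y h3.2
      rcases D.meets _ (S.adj _ x) _ (S.adj _ y) hne z ⟨hz1.1, hz2.1⟩ with ⟨w, hw, hw', rfl⟩ | hcr'
      · rcases Sym2.mem_iff.1 hw with rfl | rfl
        · exact hz1.2 rfl
        · rcases Sym2.mem_iff.1 hw' with rfl | rfl
          · exact hz2.2 rfl
          · exact h12 rfl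
      · exact hcr ⟨z, ⟨hz1.1, hz2.1⟩, hcr'⟩
  · exact lt_min (S.lt_of_disj doi.symm (p1.trans_le (min_le_left _ _)))
      (S.lt_of_disj dxi.symm (p1.trans_le (min_le_right _ _)))
  · rcases min_lt_iff.1 p2 with h | h
    · exact min_lt_iff.2 (Or.inl (S.lt_of_disj duo.symm h))
    · exact min_lt_iff.2 (Or.inr (S.lt_of_disj dux.symm h))
  · rcases lt_max_iff.1 p3 with h | h
    · exact lt_max_iff.2 (Or.inl (S.lt_of_disj duo h))
    · exact lt_max_iff.2 (Or.inr (S.lt_of_disj dux h))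
  · exact max_le (S.le _ o _ y ((le_max_left _ _).trans_lt p4))
      (S.le _ x _ y ((le_max_right _ _).trans_lt p4))
  · exact S.lt_of_disj dvy.symm p5

theorem axF1 (hL : D.LocallyPlanar 3) (S : Realn D col κ c R ε E pos)
    (hcol : ∀ u v, D.graph.Adj u v → col u ≠ col v) (hc : ContinuousOn c (Icc 0 1))
    (hci : InjOn c (Icc 0 1)) : AxF1 E pos := by
  intro b b' a₁ a₂ ax ax' hb ha h1 h1' h2 h2' x x' p1 p2 p3
  have d₁ := S.disj hL hcol h1' x hb.symm (Or.inl h1)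
  have d₁' := S.disj hL hcol h1' x' hb.symm (Or.inl h1)
  have d₂ := S.disj hL hcol h2' x hb.symm (Or.inl h2)
  have d₂' := S.disj hL hcol h2' x' hb.symm (Or.inl h2)
  refine side_F1 hc hci R (S.H _ x) (S.H _ x') (S.H _ h1') (S.H _ h2')
    (S.mem _ x) (S.mem _ x') (S.mem _ h1') (S.mem _ h2')
    (S.lab _ x) (S.lab _ x') (S.lab _ h1') (S.lab _ h2') ?_ ?_ d₁ d₁' d₂ d₂'
    (S.lt_of_disj d₁.symm p1) (S.lt_of_disj d₁' p2) ?_
  · rw [S.f1, S.f1]
  · rw [S.f1, S.f1]
  · rcases p3 with h | h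
    · exact Or.inl (S.lt_of_disj d₂ h)
    · exact Or.inr (S.lt_of_disj d₂'.symm h)

/-- edges (of `E`) with different first end points which are joined by an edge or share the second
end point have different positions -/
theorem p_ne (hL : D.LocallyPlanar 3) (S : Realn D col κ c R ε E pos)
    (hcol : ∀ u v, D.graph.Adj u v → col u ≠ col v) {a b a' b' : V} (hf : (a, b) ∈ E)
    (hg : (a', b') ∈ E) (hfg : a ≠ a' ∨ b ≠ b') (h : (a, b') ∈ E ∨ (a', b) ∈ E) :
    (S.H _ hf).p ≠ (S.H _ hg).p := by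
  intro hp
  have e1 : c (S.H _ hf).p ∈ D.curve s(a, b) := by
    rw [(S.H _ hf).eq_pt]
    exact S.mem_curve hf (Ioo_subset_Icc_self (S.H _ hf).q_mem)
  have e2 : c (S.H _ hf).p ∈ D.curve s(a', b') := by
    rw [hp, (S.H _ hg).eq_pt]
    exact S.mem_curve hg (Ioo_subset_Icc_self (S.H _ hg).q_mem)
  by_cases hb : b = b'
  · subst hb
    have ha : a ≠ a' := hfg.resolve_right (fun h => h rfl)
    rw [Sym2.eq_swap] at e1
    rw [Sym2.eq_swap (a := a')] at e2
    have := common1 D hL (S.adj _ hf).symm (S.adj _ hg).symm ha e1 e2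
    rw [(S.H _ hf).eq_pt] at this
    have h3 := S.f1 _ hf
    dsimp only at h3
    rw [← h3] at this
    have := (S.H _ hf).inj (Ioo_subset_Icc_self (S.H _ hf).q_mem) ⟨zero_le_one, le_rfl⟩ this
    linarith [(S.H _ hf).q_mem.2]
  · exact Half.p_ne _ _ (S.disj hL hcol hf hg hb h) hp

theorem lt_iff (hL : D.LocallyPlanar 3) (S : Realn D col κ c R ε E pos)
    (hcol : ∀ u v, D.graph.Adj u v → col u ≠ col v) (hpos : PosInj E pos)
    {a b a' b' : V} (hf : (a, b) ∈ E)
    (hg : (a', b') ∈ E) (hfg : a ≠ a' ∨ b ≠ b') (h : (a, b') ∈ E ∨ (a', b) ∈ E) :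
    pos (a, b) < pos (a', b') ↔ (S.H _ hf).p < (S.H _ hg).p := by
  have h0 := S.p_ne hL hcol hf hg hfg h
  constructor
  · exact fun h => lt_of_le_of_ne (S.le _ hf _ hg h) h0
  · intro h1
    by_contra h2
    rcases lt_or_eq_of_le (not_lt.1 h2) with h3 | h3
    · exact absurd (S.le _ hg _ hf h3) (not_le.2 h1)
    · have h4 := hpos _ hg _ hf h3
      rw [Prod.mk.injEq] at h4
      rcases hfg with h5 | h5
      · exact h5 h4.1.symm
      · exact h5 h4.2.symm

theorem axF3 (hL : D.LocallyPlanar 3) (S : Realn D col κ c R ε E pos)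
    (hcol : ∀ u v, D.graph.Adj u v → col u ≠ col v) (hc : ContinuousOn c (Icc 0 1))
    (hci : InjOn c (Icc 0 1)) (hpos : PosInj E pos) : AxF3 E pos := by
  intro b b' b'' r s u hbb hb1 hb2 hrs hru hsu rb rb' sb sb' ub ub' sb''
  set H : Fin 4 → Half c := ![(S.H _ rb).rev, S.H _ rb', (S.H _ ub').rev, S.H _ ub] with hH
  have hc01 : ∀ (x : ℝ), x ∈ Icc (0 : ℝ) 1 → 1 - x ∈ Icc (0 : ℝ) 1 := fun x hx =>
    ⟨by linarith [hx.2], by linarith [hx.1]⟩
  -- the curves of the 4-cycle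
  have hcur : ∀ i, ∀ x ∈ Icc (0 : ℝ) 1, ∃ (a b₀ : V), (a, b₀) ∈ E ∧ (a = r ∨ a = u) ∧
      (b₀ = b ∨ b₀ = b') ∧ (H i).f x ∈ D.curve s(a, b₀) := by
    intro i x hx
    fin_cases i
    · refine ⟨r, b, rb, Or.inl rfl, Or.inl rfl, ?_⟩
      change (S.H _ rb).rev.f x ∈ _
      rw [Half.rev_f]
      exact S.mem_curve rb (hc01 x hx)
    · exact ⟨r, b', rb', Or.inl rfl, Or.inr rfl, S.mem_curve rb' hx⟩
    · refine ⟨u, b', ub', Or.inr rfl, Or.inr rfl, ?_⟩
      change (S.H _ ub').rev.f x ∈ _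
      rw [Half.rev_f]
      exact S.mem_curve ub' (hc01 x hx)
    · exact ⟨u, b, ub, Or.inr rfl, Or.inl rfl, S.mem_curve ub hx⟩
  have key := side_F3 hc hci H ?_ ?_ (S.H _ sb'') (S.H _ sb) ?_ ?_ ?_
  · have e1 := S.lt_iff hL hcol hpos rb sb'' (Or.inl hrs) (Or.inr sb)
    have e2 := S.lt_iff hL hcol hpos ub sb'' (Or.inl hsu.symm) (Or.inr sb)
    have e3 := S.lt_iff hL hcol hpos rb' sb'' (Or.inl hrs) (Or.inr sb')
    have e4 := S.lt_iff hL hcol hpos ub' sb'' (Or.inl hsu.symm) (Or.inr sb')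
    have e5 := S.lt_iff hL hcol hpos rb sb (Or.inl hrs) (Or.inr sb)
    have e6 := S.lt_iff hL hcol hpos ub sb (Or.inl hsu.symm) (Or.inr sb)
    have e7 := S.lt_iff hL hcol hpos rb' sb (Or.inl hrs) (Or.inr sb')
    have e8 := S.lt_iff hL hcol hpos ub' sb (Or.inl hsu.symm) (Or.inr sb')
    simp only [flips, e1, e2, e3, e4, e5, e6, e7, e8, ite_ind]
    simp only [Finset.card_filter, Fin.sum_univ_four, hH, Matrix.cons_val_zero,
      Matrix.cons_val_one, Matrix.cons_val, Half.rev_p, ite_ind] at key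
    omega
  · have n01 := S.p_ne hL hcol rb rb' (Or.inr hbb) (Or.inl rb')
    have n02 := S.p_ne hL hcol rb ub' (Or.inl hru) (Or.inl rb')
    have n03 := S.p_ne hL hcol rb ub (Or.inl hru) (Or.inl rb)
    have n12 := S.p_ne hL hcol rb' ub' (Or.inl hru) (Or.inl rb')
    have n13 := S.p_ne hL hcol rb' ub (Or.inl hru) (Or.inl rb)
    have n23 := S.p_ne hL hcol ub' ub (Or.inr hbb.symm) (Or.inl ub)
    intro i j hij
    fin_cases i <;> fin_cases j <;>
      simp [hH, Half.rev_p, n01, n02, n03, n12, n13, n23, n01.symm, n02.symm, n03.symm, n12.symm,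
        n13.symm, n23.symm] at hij ⊢
  · intro i
    fin_cases i
    · change (S.H _ rb).rev.f 1 = (S.H _ rb').f 0
      rw [Half.rev_f, sub_self, S.f0, S.f0]
    · change (S.H _ rb').f 1 = (S.H _ ub').rev.f 0
      rw [Half.rev_f, sub_zero, S.f1, S.f1]
    · change (S.H _ ub').rev.f 1 = (S.H _ ub).f 0
      rw [Half.rev_f, sub_self, S.f0, S.f0]
    · change (S.H _ ub).f 1 = (S.H _ rb).rev.f 0
      rw [Half.rev_f, sub_zero, S.f1, S.f1]
  · rw [S.f0, S.f0]
  · intro i x hx t ht hxt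
    obtain ⟨a, b₀, hab, ha, hb, hm⟩ := hcur i x hx
    have hsa : a ≠ s := by
      rcases ha with rfl | rfl
      · exact hrs
      · exact hsu.symm
    have hbb'' : b₀ ≠ b'' := by
      rcases hb with rfl | rfl
      · exact hb1.symm
      · exact hb2.symm
    have hsb : (s, b₀) ∈ E := by
      rcases hb with rfl | rfl
      · exact sb
      · exact sb'
    exact S.curves hL hcol hab sb'' hsa hbb'' (Or.inr hsb) hm (hxt ▸ S.mem_curve sb'' ht)
  · intro i x hx t ht hxt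
    obtain ⟨a, b₀, hab, ha, hb, hm⟩ := hcur i x hx
    have hsa : a ≠ s := by
      rcases ha with rfl | rfl
      · exact hrs
      · exact hsu.symm
    have hm2 : (H i).f x ∈ D.curve s(s, b) := hxt ▸ S.mem_curve sb (Ico_subset_Icc_self ht)
    by_cases hb0 : b₀ = b
    · subst hb0
      rw [Sym2.eq_swap] at hm
      rw [Sym2.eq_swap (a := s)] at hm2
      have h3 := common1 D hL (S.adj _ hab).symm (S.adj _ sb).symm hsa hm hm2
      rw [hxt, show D.pt (a, b₀).2 = (S.H _ sb).f 1 from (S.f1 _ sb).symm] at h3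
      have := (S.H _ sb).inj (Ico_subset_Icc_self ht) ⟨zero_le_one, le_rfl⟩ h3
      exact absurd this (ne_of_lt ht.2)
    · have hsb : (s, b₀) ∈ E := by
        rcases hb with rfl | rfl
        · exact sb
        · exact sb'
      exact S.curves hL hcol hab sb hsa hb0 (Or.inr hsb) hm hm2

end Realn

/-! ### ranks and positions -/

/-- a rank function for an injective key -/
theorem exists_rank {α β : Type*} [Fintype α] [LinearOrder β] (key : α → β)
    (hk : Function.Injective key) :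
    ∃ r : α → ℝ, Function.Injective r ∧ ∀ a b, r a < r b ↔ key a < key b := by
  classical
  set r : α → ℕ := fun a => (Finset.univ.filter fun x => key x < key a).card with hr
  have hlt : ∀ a b, key a < key b → r a < r b := by
    intro a b hab
    refine Finset.card_lt_card ⟨?_, ?_⟩
    · intro x hx
      simp only [Finset.mem_filter, Finset.mem_univ, true_and] at hx ⊢
      exact hx.trans hab
    · intro h
      have := h (Finset.mem_filter.2 ⟨Finset.mem_univ a, hab⟩)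
      simp at this
  have hiff : ∀ a b, r a < r b ↔ key a < key b := by
    intro a b
    refine ⟨fun h => ?_, hlt a b⟩
    by_contra h2
    rcases lt_or_eq_of_le (not_lt.1 h2) with h3 | h3
    · exact absurd (hlt _ _ h3) (not_lt.2 h.le)
    · rw [hk h3] at h
      exact lt_irrefl _ h
  refine ⟨fun a => (r a : ℝ), ?_, fun a b => ?_⟩
  · intro a b hab
    have hab' : r a = r b := Nat.cast_injective (R := ℝ) hab
    by_contra hne
    rcases lt_or_gt_of_ne (fun h => hne (hk h)) with h | h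
    · exact absurd (hlt _ _ h) (by omega)
    · exact absurd (hlt _ _ h) (by omega)
  · rw [← hiff]
    exact Nat.cast_lt

theorem topSys {V : Type*} [Fintype V] [DecidableEq V] (D : TopGraph V) (hS : D.Simple)
    (hL : D.LocallyPlanar 3) (col : V → Bool) (hcol : ∀ u v, D.graph.Adj u v → col u ≠ col v)
    (e : Sym2 V) (he : e ∈ D.graph.edgeSet) :
    ∃ (pos : V × V → ℝ) (lab : V × V → Bool),
      (∀ u v, pos (v, u) = pos (u, v)) ∧
      (∀ u v, D.graph.Adj u v → D.Cross e s(u, v) → lab (v, u) = !lab (u, v)) ∧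
      ∀ (E : Finset (V × V)) (κ ε : Bool),
        (∀ f ∈ E, D.graph.Adj f.1 f.2 ∧ D.Cross e s(f.1, f.2) ∧ col f.1 = κ ∧ lab f = ε) →
        PosInj E pos ∧ AxT E pos ∧ AxF1 E pos ∧ AxF3 E pos := by
  classical
  -- the parametrisation of `e`
  obtain ⟨c, hc, hci, hce⟩ : ∃ c : ℝ → ℂ, ContinuousOn c (Icc 0 1) ∧ InjOn c (Icc 0 1) ∧
      c '' Icc 0 1 = D.curve e := by
    induction e using Sym2.ind with
    | _ u v =>
      obtain ⟨c, h1, h2, -, -, h3⟩ := D.isArc u v he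
      exact ⟨c, h1, h2, h3⟩
  -- the halves
  choose H₀ hf0 hf1 him using fun (u v : V) (h : D.graph.Adj u v) (hx : D.Cross e s(u, v)) =>
    exists_half D hS he hc hci hce h hx
  have hsw : ∀ u v, D.Cross e s(u, v) → D.Cross e s(v, u) := by
    intro u v h
    rwa [Sym2.eq_swap]
  set H : ∀ u v, D.graph.Adj u v → D.Cross e s(u, v) → Half c := fun u v h hx =>
    if col u = true then H₀ u v h hx else (H₀ v u h.symm (hsw u v hx)).rev with hH
  have Hf0 : ∀ u v h hx, (H u v h hx).f 0 = D.pt u := by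
    intro u v h hx
    simp only [hH]
    split_ifs
    · exact hf0 ..
    · rw [Half.rev_f, sub_zero]
      exact hf1 ..
  have Hf1 : ∀ u v h hx, (H u v h hx).f 1 = D.pt v := by
    intro u v h hx
    simp only [hH]
    split_ifs
    · exact hf1 ..
    · rw [Half.rev_f, sub_self]
      exact hf0 ..
  have Him : ∀ u v h hx, (H u v h hx).f '' Icc 0 1 = D.curve s(u, v) := by
    intro u v h hx
    simp only [hH]
    split_ifs
    · exact him ..
    · rw [Half.rev_im, Sym2.eq_swap]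
      exact him ..
  -- the geometric position of a crossing
  set gp : Sym2 V → ℝ := fun f =>
    if h : ∃ p ∈ Icc (0 : ℝ) 1, c p ∈ D.curve f then h.choose else 1 / 2 with hgp
  have Hp : ∀ u v h hx, (H u v h hx).p = gp s(u, v) := by
    intro u v h hx
    have hex : ∃ p ∈ Icc (0 : ℝ) 1, c p ∈ D.curve s(u, v) := by
      refine ⟨(H u v h hx).p, Ioo_subset_Icc_self (H u v h hx).p_mem, ?_⟩
      rw [(H u v h hx).eq_pt, ← Him u v h hx]
      exact ⟨_, Ioo_subset_Icc_self (H u v h hx).q_mem, rfl⟩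
    simp only [hgp]
    rw [dif_pos hex]
    have key : ∀ p ∈ Icc (0 : ℝ) 1, c p ∈ D.curve s(u, v) → (H u v h hx).p = p := by
      intro p hp h2
      rw [← Him u v h hx] at h2
      obtain ⟨t, ht, hte⟩ := h2
      exact ((H u v h hx).uniq _ hp t ht hte.symm).1.symm
    exact key _ hex.choose_spec.1 hex.choose_spec.2
  -- bounds for the positions
  obtain ⟨α, hα, hα'⟩ : ∃ α : ℝ, 0 < α ∧ ∀ f : V × V, ∀ h hx, α ≤ (H f.1 f.2 h hx).p := by
    have : ∀ᶠ α in 𝓝[>] (0 : ℝ), ∀ f : V × V, ∀ h hx, α ≤ (H f.1 f.2 h hx).p := by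
      rw [Filter.eventually_all]
      intro f
      by_cases h : D.graph.Adj f.1 f.2 ∧ D.Cross e s(f.1, f.2)
      · filter_upwards [Ioc_mem_nhdsGT (H f.1 f.2 h.1 h.2).p_mem.1] with α hα _ _
        exact hα.2
      · exact Filter.Eventually.of_forall fun α h1 h2 => absurd ⟨h1, h2⟩ h
    obtain ⟨α, h1, h2⟩ := (this.and self_mem_nhdsWithin).exists
    exact ⟨α, h2, h1⟩
  obtain ⟨β, hβ, hβ'⟩ : ∃ β : ℝ, β < 1 ∧ ∀ f : V × V, ∀ h hx, (H f.1 f.2 h hx).p ≤ β := by
    have : ∀ᶠ β in 𝓝[<] (1 : ℝ), ∀ f : V × V, ∀ h hx, (H f.1 f.2 h hx).p ≤ β := by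
      rw [Filter.eventually_all]
      intro f
      by_cases h : D.graph.Adj f.1 f.2 ∧ D.Cross e s(f.1, f.2)
      · filter_upwards [Ico_mem_nhdsLT (H f.1 f.2 h.1 h.2).p_mem.2] with β hβ _ _
        exact hβ.1
      · exact Filter.Eventually.of_forall fun α h1 h2 => absurd ⟨h1, h2⟩ h
    obtain ⟨β, h1, h2⟩ := (this.and self_mem_nhdsWithin).exists
    exact ⟨β, h2, h1⟩
  have Hmem : ∀ u v h hx, (H u v h hx).p ∈ Icc α β := fun u v h hx =>
    ⟨hα' (u, v) h hx, hβ' (u, v) h hx⟩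
  obtain ⟨R⟩ := exists_ref hc hci hα hβ
  -- labels
  have hlab : ∀ u v h hx, col u = true →
      (((H u v h hx).Lab R 1 ∧ (H v u h.symm (hsw u v hx)).Lab R (-1)) ∨
        ((H u v h hx).Lab R (-1) ∧ (H v u h.symm (hsw u v hx)).Lab R 1)) := by
    intro u v h hx hu
    have hv : ¬ col v = true := fun hv => hcol u v h (hu.trans hv.symm)
    have e1 : H u v h hx = H₀ u v h hx := by simp only [hH]; rw [if_pos hu]
    have e2 : H v u h.symm (hsw u v hx) = (H₀ u v h hx).rev := by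
      simp only [hH]; rw [if_neg hv]
    have h3 := Half.lab_or hc hci R (H₀ u v h hx) (e1 ▸ Hmem u v h hx)
    rwa [e1, e2]
  set lab : V × V → Bool := fun f => decide (∃ h hx, (H f.1 f.2 h hx).Lab R 1) with hlabdef
  have lab_true : ∀ u v h hx, lab (u, v) = true ↔ (H u v h hx).Lab R 1 := by
    intro u v h hx
    simp only [hlabdef, decide_eq_true_eq]
    exact ⟨fun ⟨_, _, h⟩ => h, fun h' => ⟨h, hx, h'⟩⟩
  have hor : ∀ u v h hx, ((H u v h hx).Lab R 1 ∧ (H v u h.symm (hsw u v hx)).Lab R (-1)) ∨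
        ((H u v h hx).Lab R (-1) ∧ (H v u h.symm (hsw u v hx)).Lab R 1) := by
    intro u v h hx
    by_cases hu : col u = true
    · exact hlab u v h hx hu
    · have hv : col v = true := by
        have := hcol u v h
        revert hu this
        cases col u <;> cases col v <;> simp
      exact (hlab v u h.symm (hsw u v hx) hv).symm.imp And.symm And.symm
  have lab_false : ∀ u v h hx, lab (u, v) = false ↔ (H u v h hx).Lab R (-1) := by
    intro u v h hx
    rw [← Bool.not_eq_true, lab_true u v h hx]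
    rcases hor u v h hx with h1 | h1
    · exact ⟨fun h2 => absurd h1.1 h2, fun h2 => (Half.lab_excl h1.1 h2).elim⟩
    · exact ⟨fun _ => h1.1, fun _ h2 => Half.lab_excl h2 h1.1⟩
  -- positions
  obtain ⟨idx, hidx⟩ := Countable.exists_injective_nat (Sym2 V)
  obtain ⟨r, hrinj, hr⟩ := exists_rank (fun f : Sym2 V => toLex (gp f, idx f))
    (fun f g h => hidx (Prod.mk.inj (toLex.injective h)).2)
  refine ⟨fun f => r s(f.1, f.2), lab, ?_, ?_, ?_⟩
  · intro u v
    simp only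
    rw [Sym2.eq_swap]
  · intro u v h hx
    rcases hor u v h hx with h1 | h1
    · rw [(lab_true u v h hx).2 h1.1, (lab_false v u h.symm (hsw u v hx)).2 h1.2]
      rfl
    · rw [(lab_false u v h hx).2 h1.1, (lab_true v u h.symm (hsw u v hx)).2 h1.2]
      rfl
  · intro E κ ε hE
    have hpos : PosInj E (fun f => r s(f.1, f.2)) := by
      intro f hf g hg hfg
      obtain ⟨a, b⟩ := f
      obtain ⟨a', b'⟩ := g
      have h1 := hrinj hfg
      rcases Sym2.eq_iff.1 h1 with h2 | h2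
      · exact Prod.ext h2.1 h2.2
      · exfalso
        have h3 := hE _ hf
        have h4 := hE _ hg
        refine hcol _ _ h3.1 (h3.2.2.1.trans ?_)
        rw [h2.2]
        exact h4.2.2.1.symm
    let S : Realn D col κ c R (if ε = true then 1 else -1) E (fun f => r s(f.1, f.2)) :=
      { adj := fun f hf => (hE f hf).1
        col1 := fun f hf => (hE f hf).2.2.1
        H := fun f hf => H f.1 f.2 (hE f hf).1 (hE f hf).2.1
        mem := fun f hf => Hmem _ _ _ _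
        f0 := fun f hf => Hf0 _ _ _ _
        f1 := fun f hf => Hf1 _ _ _ _
        im := fun f hf => Him _ _ _ _
        lab := by
          intro f hf
          have h1 := (hE f hf).2.2.2
          split_ifs with h2
          · exact (lab_true _ _ _ _).1 (h1.trans h2)
          · exact (lab_false _ _ _ _).1 (h1.trans (by simpa using h2))
        le := by
          intro f hf g hg hfg
          rw [Hp, Hp]
          rw [hr, Prod.Lex.toLex_lt_toLex] at hfg
          rcases hfg with h1 | h1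
          · exact h1.le
          · exact h1.1.le }
    exact ⟨hpos, S.axT hS hL hcol hc hci, S.axF1 hL hcol hc hci, S.axF3 hL hcol hc hci hpos⟩

end Pool.Agent.LP
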